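import Mathlib

/-! Definitions and intermediate statements for the Hamiltonicity of simple polytopes with few
facets (nondegenerate transportation polytopes). -/

set_option autoImplicit false

namespace Pool.Agent.MP_3fd310_co.Gen

open Finset

/-! ### Graphs -/

/-- A cyclic listing of all vertices with consecutive vertices adjacent. -/
def HamList {V : Type} (G : SimpleGraph V) : Prop :=
  ∃ (n : ℕ) (f : Fin n → V), Function.Bijective f ∧ ∀ i : Fin n, G.Adj (f i) (f (finRotate n i))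

/-- Fewer than `d` vertices do not disconnect the graph (cut form). -/
def CutConn {V : Type} (G : SimpleGraph V) (d : ℕ) : Prop :=
  ∀ Z A : Finset V, Z.card < d → A.Nonempty → Disjoint A Z → (∃ w, w ∉ A ∧ w ∉ Z) →
    ∃ a ∈ A, ∃ w, w ∉ A ∧ w ∉ Z ∧ G.Adj a w

/-- Every neighbourhood is covered by `r` cliques. -/
def CliqueCov {V : Type} (G : SimpleGraph V) (r : ℕ) : Prop :=
  ∀ v : V, ∃ c : V → Fin r, ∀ x y, G.Adj v x → G.Adj v y → c x = c y → x ≠ y → G.Adj x y

/-- Every vertex has at least `d` neighbours. -/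
def MinDeg {V : Type} (G : SimpleGraph V) (d : ℕ) : Prop :=
  ∀ v : V, ∃ s : Finset V, d ≤ s.card ∧ ∀ x ∈ s, G.Adj v x

/-- Toughness at least `t`, with components recorded by a labelling and representatives. -/
def Tough {V : Type} (G : SimpleGraph V) (t : ℕ) : Prop :=
  ∀ (L : Type) (S R : Finset V) (lab : V → L),
    (∀ x y, x ∉ S → y ∉ S → G.Adj x y → lab x = lab y) → Disjoint R S →
    Set.InjOn lab (R : Set V) → 2 ≤ R.card → t * R.card ≤ S.card

/-- The fibres of `part` are cliques. -/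
def Cliq {V N : Type} (G : SimpleGraph V) (part : V → N) : Prop :=
  ∀ x y, part x = part y → x ≠ y → G.Adj x y

/-- The fibres of `part` have at least `k` elements. -/
def Big {V N : Type} (part : V → N) (k : ℕ) : Prop :=
  ∀ n : N, ∃ F : Finset V, k ≤ F.card ∧ ∀ x ∈ F, part x = n

/-! ### Multigraphs given by two end maps `s t : ε → N` -/

/-- The edges of `M` with both ends in `X`. -/
def ins {ε N : Type} [DecidableEq N] (s t : ε → N) (M : Finset ε) (X : Finset N) : Finset ε :=
  M.filter fun e => s e ∈ X ∧ t e ∈ X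

/-- Every nonempty node set `X` spans at most `2 |X| - 2` edges. -/
def Sparse {ε N : Type} [DecidableEq N] (s t : ε → N) (M : Finset ε) : Prop :=
  ∀ X : Finset N, X.Nonempty → (ins s t M X).card + 2 ≤ 2 * X.card

/-- The node set `X` spans exactly `2 |X| - 2` edges. -/
def Tight {ε N : Type} [DecidableEq N] (s t : ε → N) (M : Finset ε) (X : Finset N) : Prop :=
  (ins s t M X).card + 2 = 2 * X.card

/-- The edge set `D` connects the node set `U` (cut form). -/
def Conn {ε N : Type} (s t : ε → N) (D : Finset ε) (U : Finset N) : Prop :=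
  ∀ X ⊆ U, X.Nonempty → X ≠ U → ∃ e ∈ D, (s e ∈ X ∧ t e ∉ X) ∨ (s e ∉ X ∧ t e ∈ X)

/-- The degree of a node. -/
def deg {ε N : Type} [DecidableEq N] (s t : ε → N) (D : Finset ε) (n : N) : ℕ :=
  (D.filter fun e => s e = n).card + (D.filter fun e => t e = n).card

/-- `blk n` is the block of `n` in a partition of the nodes. -/
def IsBlk {N : Type} (blk : N → Finset N) : Prop :=
  (∀ n, n ∈ blk n) ∧ ∀ n m, m ∈ blk n → blk m = blk n

/-! ### Links between the cliques of a partition -/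

/-- The clique of the first end. -/
def sr {V N : Type} (part : V → N) : V × V → N := fun e => part e.1

/-- The clique of the second end. -/
def tg {V N : Type} (part : V → N) : V × V → N := fun e => part e.2

/-- Two pairs without a common vertex. -/
def Apart {V : Type} (e e' : V × V) : Prop :=
  e.1 ≠ e'.1 ∧ e.1 ≠ e'.2 ∧ e.2 ≠ e'.1 ∧ e.2 ≠ e'.2

/-- A matching of edges between different cliques. -/
def Links {V N : Type} (G : SimpleGraph V) (part : V → N) (M : Finset (V × V)) : Prop :=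
  (∀ e ∈ M, G.Adj e.1 e.2 ∧ part e.1 ≠ part e.2) ∧ ∀ e ∈ M, ∀ e' ∈ M, e ≠ e' → Apart e e'

/-- A pair whose ends lie in different blocks. -/
def Cross {V N : Type} (part : V → N) (blk : N → Finset N) (e : V × V) : Prop :=
  blk (part e.1) ≠ blk (part e.2)

/-- A sparse matching of links with tight blocks in which every vertex that is not covered by a
crossing link can be freed by changing only the links inside its block. -/
def Good {V N : Type} [DecidableEq N] (G : SimpleGraph V) (part : V → N) (M : Finset (V × V))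
    (blk : N → Finset N) : Prop :=
  Links G part M ∧ Sparse (sr part) (tg part) M ∧ IsBlk blk ∧
    (∀ n, Tight (sr part) (tg part) M (blk n)) ∧
    ∀ v : V, (∀ e ∈ M, Cross part blk e → v ≠ e.1 ∧ v ≠ e.2) →
      ∃ L : Finset (V × V), Links G part L ∧ Sparse (sr part) (tg part) L ∧
        (∀ e ∈ L, part e.1 ∈ blk (part v) ∧ part e.2 ∈ blk (part v)) ∧
        L.card + 2 = 2 * (blk (part v)).card ∧ (∀ e ∈ L, v ≠ e.1 ∧ v ≠ e.2) ∧
        ∀ e ∈ L, ∀ e' ∈ M, Cross part blk e' → Apart e e'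

/-- A permutation that moves inside cliques or along links and uses each link in exactly one
direction. -/
def Adm {V N : Type} (part : V → N) (D : Finset (V × V)) (σ : Equiv.Perm V) : Prop :=
  (∀ x, part (σ x) = part x ∨ (x, σ x) ∈ D ∨ (σ x, x) ∈ D) ∧
    ∀ e ∈ D, (σ e.1 = e.2 ∧ σ e.2 ≠ e.1) ∨ (σ e.2 = e.1 ∧ σ e.1 ≠ e.2)

/-! ### Polytopes in standard form -/

/-- The nonnegative points of the affine space `b + W`. -/
def Poly {E : Type} (W : Submodule ℝ (E → ℝ)) (b : E → ℝ) : Set (E → ℝ) :=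
  {x | (∀ e, 0 ≤ x e) ∧ x - b ∈ W}

/-- A point of the polytope determined by its zero coordinates. -/
def IsVtx {E : Type} (W : Submodule ℝ (E → ℝ)) (b x : E → ℝ) : Prop :=
  x ∈ Poly W b ∧ ∀ w ∈ W, (∀ e, x e = 0 → w e = 0) → w = 0

/-- Nondegeneracy: each zero coordinate of a vertex can be released alone. -/
def Simple {E : Type} (W : Submodule ℝ (E → ℝ)) (b : E → ℝ) : Prop :=
  ∀ x, IsVtx W b x → ∀ f, x f = 0 → ∃ z ∈ W, z f = 1 ∧ ∀ e, x e = 0 → e ≠ f → z e = 0

/-- Boundedness. -/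
def Bdd {E : Type} (W : Submodule ℝ (E → ℝ)) : Prop :=
  ∀ w ∈ W, (∀ e, 0 ≤ w e) → w = 0

/-- The type of vertices. -/
def Vtx {E : Type} (W : Submodule ℝ (E → ℝ)) (b : E → ℝ) : Type := {x : E → ℝ // IsVtx W b x}

/-- Two vertices are adjacent when their supports share all but one element. -/
def PG {E : Type} [Fintype E] (W : Submodule ℝ (E → ℝ)) (b : E → ℝ) :
    SimpleGraph (Vtx W b) where
  Adj x y := x ≠ y ∧ ∃ φ : Finset E, φ.card + 1 + Module.finrank ℝ W = Fintype.card E ∧
    ∀ e ∈ φ, x.1 e ≠ 0 ∧ y.1 e ≠ 0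
  symm := ⟨fun _ _ h => ⟨h.1.symm, h.2.imp fun _ hφ => ⟨hφ.1, fun e he => (hφ.2 e he).symm⟩⟩⟩
  loopless := ⟨fun _ h => h.1 rfl⟩

/-! ### Intermediate statements -/

/-- Independent transversals (Haxell). -/
def HaxellStmt : Prop :=
  ∀ (I Ω : Type) [Fintype I] [DecidableEq I] [Fintype Ω] [DecidableEq Ω] (cls : Ω → I)
    (adj : Ω → Ω → Prop) (Δ : ℕ), (∀ x y, adj x y → adj y x) →
    (∀ x, ∀ s : Finset Ω, (∀ y ∈ s, adj x y) → s.card ≤ Δ) →
    (∀ i, ∃ s : Finset Ω, 2 * Δ < s.card ∧ ∀ x ∈ s, cls x = i) →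
    ∃ T : I → Ω, (∀ i, cls (T i) = i) ∧ ∀ i j, i ≠ j → ¬ adj (T i) (T j)

/-- Partition into cliques with at least five vertices. -/
def PartStmt : Prop :=
  ∀ (V : Type) [Fintype V] [DecidableEq V] (G : SimpleGraph V) (r d : ℕ),
    CliqueCov G r → MinDeg G d → 2400 * r ≤ d →
    ∃ (N : Type) (_ : Fintype N) (_ : DecidableEq N) (part : V → N), Cliq G part ∧ Big part 5

/-- Toughness from connectivity and clique covers. -/
def ToughStmt : Prop :=
  ∀ (V : Type) [Fintype V] [DecidableEq V] (G : SimpleGraph V) (r d : ℕ),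
    CliqueCov G r → CutConn G d → 20 * r ≤ d → Tough G 20

/-- Union and intersection of tight sets. -/
def UnionStmt : Prop :=
  ∀ (ε N : Type) [DecidableEq ε] [DecidableEq N] (s t : ε → N) (M : Finset ε) (A B : Finset N),
    Sparse s t M → Tight s t M A → Tight s t M B → (A ∩ B).Nonempty →
    Tight s t M (A ∪ B) ∧ Tight s t M (A ∩ B) ∧
      ∀ e ∈ ins s t M (A ∪ B), e ∈ ins s t M A ∨ e ∈ ins s t M B

/-- Replacing the inside of a tight set. -/
def ReplaceStmt : Prop :=
  ∀ (ε N : Type) [DecidableEq ε] [DecidableEq N] (s t : ε → N) (M L : Finset ε) (X : Finset N),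
    Sparse s t M → Tight s t M X → Sparse s t L → (∀ e ∈ L, s e ∈ X ∧ t e ∈ X) →
    Sparse s t ((M \ ins s t M X) ∪ L)

/-- The exchange property. -/
def ExchStmt : Prop :=
  ∀ (ε N : Type) [DecidableEq ε] [DecidableEq N] (s t : ε → N) (M : Finset ε) (f : ε),
    Sparse s t M → ¬ Sparse s t (insert f M) →
    ∃ Y : Finset N, Tight s t M Y ∧ s f ∈ Y ∧ t f ∈ Y ∧
      ∀ e ∈ ins s t M Y, Sparse s t (insert f (M.erase e))

/-- Merging the tight blocks that meet a tight set. -/
def BlkStmt : Prop :=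
  ∀ (ε N : Type) [DecidableEq ε] [DecidableEq N] (s t : ε → N) (M : Finset ε)
    (blk : N → Finset N) (Y : Finset N), Sparse s t M → IsBlk blk →
    (∀ n, Tight s t M (blk n)) → Tight s t M Y →
    Tight s t M (Y.biUnion blk) ∧
      ∀ e ∈ ins s t M (Y.biUnion blk), e ∈ ins s t M Y ∨ blk (s e) = blk (t e)

/-- Freeing a vertex inside its block. -/
def FreeStmt : Prop :=
  ∀ (V N : Type) [DecidableEq V] [DecidableEq N] (G : SimpleGraph V) (part : V → N)
    (M : Finset (V × V)) (blk : N → Finset N) (v : V), Good G part M blk →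
    (∀ e ∈ M, Cross part blk e → v ≠ e.1 ∧ v ≠ e.2) →
    ∃ M' : Finset (V × V), Good G part M' blk ∧ M'.card = M.card ∧
      (∀ e ∈ M', v ≠ e.1 ∧ v ≠ e.2) ∧ (∀ e, Cross part blk e → (e ∈ M' ↔ e ∈ M)) ∧
      ∀ e ∈ M', e ∈ M ∨ (part e.1 ∈ blk (part v) ∧ part e.2 ∈ blk (part v))

/-- An edge between uncovered vertices of different blocks allows a merge of blocks. -/
def MergeStmt : Prop :=
  ∀ (V N : Type) [DecidableEq V] [Fintype N] [DecidableEq N] (G : SimpleGraph V) (part : V → N)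
    (M : Finset (V × V)) (blk : N → Finset N) (u v : V), Good G part M blk →
    (∀ M' : Finset (V × V), Links G part M' → Sparse (sr part) (tg part) M' → M'.card ≤ M.card) →
    G.Adj u v → blk (part u) ≠ blk (part v) →
    (∀ e ∈ M, u ≠ e.1 ∧ u ≠ e.2 ∧ v ≠ e.1 ∧ v ≠ e.2) →
    ∃ blk' : N → Finset N, Good G part M blk' ∧ ∑ n, (blk n).card < ∑ n, (blk' n).card

/-- The final count: no edge between blocks outside the crossing links forces one block. -/
def CountStmt : Prop :=
  ∀ (V N : Type) [Fintype V] [DecidableEq V] [Fintype N] [DecidableEq N] [Nonempty N]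
    (G : SimpleGraph V) (part : V → N) (M : Finset (V × V)) (blk : N → Finset N),
    Big part 5 → Tough G 20 → Sparse (sr part) (tg part) M → IsBlk blk →
    (∀ n, Tight (sr part) (tg part) M (blk n)) →
    (∀ u v, G.Adj u v → blk (part u) ≠ blk (part v) →
      ∃ e ∈ M, Cross part blk e ∧ (u = e.1 ∨ u = e.2 ∨ v = e.1 ∨ v = e.2)) →
    M.card + 2 = 2 * Fintype.card N

/-- A tight sparse matching of links exists. -/
def LinkStmt : Prop :=
  ∀ (V N : Type) [Fintype V] [DecidableEq V] [Fintype N] [DecidableEq N] [Nonempty N]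
    (G : SimpleGraph V) (part : V → N), Big part 5 → Tough G 20 →
    ∃ M : Finset (V × V), Links G part M ∧ Sparse (sr part) (tg part) M ∧
      M.card + 2 = 2 * Fintype.card N

/-- A tight sparse multigraph contains two disjoint connected spanning edge sets. -/
def HennStmt : Prop :=
  ∀ (ε N : Type) [DecidableEq ε] [DecidableEq N] (U : Finset N) (s t : ε → N) (M : Finset ε),
    (∀ e ∈ M, s e ∈ U ∧ t e ∈ U) → Sparse s t M → M.card + 2 = 2 * U.card →
    ∃ D₁ D₂ : Finset ε, D₁ ⊆ M ∧ D₂ ⊆ M ∧ Disjoint D₁ D₂ ∧ Conn s t D₁ U ∧ Conn s t D₂ U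

/-- Two disjoint connected spanning edge sets contain an even connected spanning one. -/
def EvenStmt : Prop :=
  ∀ (ε N : Type) [DecidableEq ε] [Fintype N] [DecidableEq N] (s t : ε → N) (D₁ D₂ : Finset ε),
    Disjoint D₁ D₂ → Conn s t D₁ univ → Conn s t D₂ univ →
    ∃ D : Finset ε, D ⊆ D₁ ∪ D₂ ∧ Conn s t D univ ∧ ∀ n, Even (deg s t D n)

/-- An even matching of links has an admissible permutation. -/
def InitStmt : Prop :=
  ∀ (V N : Type) [Fintype V] [DecidableEq V] [DecidableEq N] (G : SimpleGraph V) (part : V → N)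
    (D : Finset (V × V)), Links G part D → (∀ n, Even (deg (sr part) (tg part) D n)) →
    ∃ σ : Equiv.Perm V, Adm part D σ

/-- Merging the cycles of an admissible permutation. -/
def CycStmt : Prop :=
  ∀ (V N : Type) [Fintype V] [DecidableEq V] [Fintype N] [DecidableEq N] (G : SimpleGraph V)
    (part : V → N) (D : Finset (V × V)) (σ : Equiv.Perm V), Cliq G part → Links G part D →
    Conn (sr part) (tg part) D univ → Adm part D σ → 2 ≤ Fintype.card V → HamList G

/-- The graph theorem. -/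
def GraphStmt : Prop :=
  ∀ (V : Type) [Fintype V] [DecidableEq V] (G : SimpleGraph V) (r d : ℕ),
    CliqueCov G r → MinDeg G d → CutConn G d → 2400 * r ≤ d → HamList G

/-- Vertices are the extreme points and there are finitely many. -/
def ExtStmt : Prop :=
  ∀ (E : Type) [Fintype E] [DecidableEq E] (W : Submodule ℝ (E → ℝ)) (b : E → ℝ),
    Set.extremePoints ℝ (Poly W b) = {x | IsVtx W b x} ∧ Finite (Vtx W b)

/-- Every vertex has exactly `dim W` zero coordinates. -/
def ZeroStmt : Prop :=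
  ∀ (E : Type) [Fintype E] [DecidableEq E] (W : Submodule ℝ (E → ℝ)) (b : E → ℝ),
    Simple W b → ∀ x, IsVtx W b x → ∀ Z : Finset E, (∀ e, e ∈ Z ↔ x e = 0) →
      Z.card = Module.finrank ℝ W

/-- Adjacent vertices span an edge of the polytope. -/
def SegStmt : Prop :=
  ∀ (E : Type) [Fintype E] [DecidableEq E] (W : Submodule ℝ (E → ℝ)) (b : E → ℝ),
    Simple W b → ∀ x y : Vtx W b, (PG W b).Adj x y → IsExtreme ℝ (Poly W b) (segment ℝ x.1 y.1)

/-- Pivoting along a released coordinate gives a neighbour. -/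
def PivotStmt : Prop :=
  ∀ (E : Type) [Fintype E] [DecidableEq E] (W : Submodule ℝ (E → ℝ)) (b : E → ℝ),
    Simple W b → Bdd W → ∀ (x : Vtx W b) (f : E) (z : E → ℝ), x.1 f = 0 → z ∈ W → z f = 1 →
      (∀ e, x.1 e = 0 → e ≠ f → z e = 0) →
      ∃ y : Vtx W b, (PG W b).Adj x y ∧ ∃ τ : ℝ, 0 < τ ∧ y.1 = x.1 + τ • z

/-- The edge directions at a vertex span `W` and generate the local cone. -/
def ConeStmt : Prop :=
  ∀ (E : Type) [Fintype E] [DecidableEq E] (W : Submodule ℝ (E → ℝ)) (b : E → ℝ),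
    Simple W b → Bdd W → ∀ (x : Vtx W b), ∀ w ∈ W,
      ∃ (y : E → Vtx W b) (c : E → ℝ), (∀ f, c f ≠ 0 → (PG W b).Adj x (y f)) ∧
        w = ∑ f, c f • ((y f).1 - x.1) ∧ ((∀ e, x.1 e = 0 → 0 ≤ w e) → ∀ f, 0 ≤ c f)

/-- Degrees and clique covers in the graph of the polytope. -/
def DegStmt : Prop :=
  ∀ (E : Type) [Fintype E] [DecidableEq E] (W : Submodule ℝ (E → ℝ)) (b : E → ℝ),
    Simple W b → Bdd W → MinDeg (PG W b) (Module.finrank ℝ W) ∧
      ∀ r : ℕ, 0 < r → Fintype.card E ≤ r + Module.finrank ℝ W → CliqueCov (PG W b) r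

/-- Balinski's theorem. -/
def BalStmt : Prop :=
  ∀ (E : Type) [Fintype E] [DecidableEq E] (W : Submodule ℝ (E → ℝ)) (b : E → ℝ),
    Simple W b → Bdd W → Finite (Vtx W b) → CutConn (PG W b) (Module.finrank ℝ W)

/-- Nondegenerate transportation polytopes are simple polytopes in standard form. -/
def TransStmt : Prop :=
  ∀ (p q : ℕ) (u : Fin p → ℝ) (v : Fin q → ℝ), 0 < p → (∀ i, 0 < u i) → (∀ j, 0 < v j) →
    (∑ i, u i) = (∑ j, v j) →
    (∀ (I : Finset (Fin p)) (J : Finset (Fin q)), I.Nonempty → I ≠ univ → J.Nonempty → J ≠ univ →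
      (∑ i ∈ I, u i) ≠ ∑ j ∈ J, v j) →
    ∃ (W : Submodule ℝ (Fin p × Fin q → ℝ)) (b : Fin p × Fin q → ℝ), Simple W b ∧ Bdd W ∧
      p * q ≤ (p + q) + Module.finrank ℝ W ∧
      ∀ x : Fin p × Fin q → ℝ, x ∈ Poly W b ↔
        (∀ i j, 0 ≤ x (i, j)) ∧ (∀ i, (∑ j, x (i, j)) = u i) ∧ ∀ j, (∑ i, x (i, j)) = v j

end Pool.Agent.MP_3fd310_co.Gen
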