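import Mathlib
import Pool.Agent.MP_3fd310_co.GDefs

set_option autoImplicit false

namespace Pool.Agent.MP_3fd310_co.Gen

open Finset

section
variable {I Ω : Type} [Fintype I] [DecidableEq I] [Fintype Ω] [DecidableEq Ω]

/-- a choice of one element in every class that is independent on `J` -/
def Tr_GHaxell (cls : Ω → I) (adj : Ω → Ω → Prop) (J : Finset I) (T : I → Ω) : Prop :=
  (∀ i, cls (T i) = i) ∧ ∀ i ∈ J, ∀ j ∈ J, i ≠ j → ¬ adj (T i) (T j)

/-- every element of `T'` dominated by `W` is an element of `T` with index in `B` -/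
def Br_GHaxell (adj : Ω → Ω → Prop) (J B : Finset I) (W : Finset Ω) (T T' : I → Ω) : Prop :=
  ∀ i ∈ J, ∀ w ∈ W, adj w (T' i) → i ∈ B ∧ T' i = T i

/-- the invariant of the induction -/
def Inv_GHaxell (cls : Ω → I) (adj : Ω → Ω → Prop) (J B : Finset I) (W : Finset Ω)
    (T : I → Ω) : Prop :=
  B ⊆ J ∧ Tr_GHaxell cls adj J T ∧ W.card ≤ B.card ∧ (∀ i ∈ B, ∃ w ∈ W, adj w (T i)) ∧
    Br_GHaxell adj J B W T T ∧
    ∀ T', Tr_GHaxell cls adj J T' → Br_GHaxell adj J B W T T' → ∀ i ∈ B, T' i = T i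

omit [Fintype I] in
lemma free_GHaxell {cls : Ω → I} {adj : Ω → Ω → Prop} {Δ : ℕ}
    (hΔ : ∀ x, ∀ s : Finset Ω, (∀ y ∈ s, adj x y) → s.card ≤ Δ)
    (hs : ∀ i, ∃ s : Finset Ω, 2 * Δ < s.card ∧ ∀ x ∈ s, cls x = i) (C : Finset I)
    (D : Finset Ω) (hC : C.Nonempty) (hD : D.card ≤ 2 * C.card) :
    ∃ w, cls w ∈ C ∧ ∀ x ∈ D, ¬ adj x w := by
  classical
  by_contra hn
  push Not at hn
  have h1 : (univ.filter fun w => cls w ∈ C) ⊆ D.biUnion fun x => univ.filter (adj x) := by
    intro w hw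
    obtain ⟨x, hx, ha⟩ := hn w (mem_filter.1 hw).2
    exact mem_biUnion.2 ⟨x, hx, mem_filter.2 ⟨mem_univ _, ha⟩⟩
  have h2 : (D.biUnion fun x => univ.filter (adj x)).card ≤ D.card * Δ :=
    card_biUnion_le_card_mul _ _ _ fun x _ => hΔ x _ fun y hy => (mem_filter.1 hy).2
  have h3 : C.card * (2 * Δ + 1) ≤ (univ.filter fun w => cls w ∈ C).card := by
    rw [← sum_card_fiberwise_eq_card_filter, ← smul_eq_mul]
    refine card_nsmul_le_sum _ _ _ fun i _ => ?_
    obtain ⟨s, h4, h5⟩ := hs i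
    exact le_trans h4 (card_le_card fun x hx => mem_filter.2 ⟨mem_univ _, h5 x hx⟩)
  have h4 := card_le_card h1
  have h5 := hC.card_pos
  have h6 := Nat.mul_le_mul_right Δ hD
  nlinarith

omit [Fintype I] [Fintype Ω] [DecidableEq Ω] in
lemma upd_GHaxell {cls : Ω → I} {adj : Ω → Ω → Prop} (hsy : ∀ x y, adj x y → adj y x)
    {J : Finset I} {T : I → Ω} (hT : Tr_GHaxell cls adj J T) {w : Ω}
    (hw : ∀ j ∈ J, ¬ adj w (T j)) :
    Tr_GHaxell cls adj (insert (cls w) J) (Function.update T (cls w) w) := by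
  refine ⟨fun i => ?_, fun i hi j hj hij => ?_⟩
  · rcases eq_or_ne i (cls w) with rfl | h
    · rw [Function.update_self]
    · rw [Function.update_of_ne h]; exact hT.1 i
  · rcases eq_or_ne i (cls w) with rfl | h
    · rw [Function.update_self, Function.update_of_ne hij.symm]
      exact hw j ((mem_insert.1 hj).resolve_left hij.symm)
    · have hi' := (mem_insert.1 hi).resolve_left h
      rw [Function.update_of_ne h]
      rcases eq_or_ne j (cls w) with rfl | h'
      · rw [Function.update_self]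
        exact fun e => hw i hi' (hsy _ _ e)
      · rw [Function.update_of_ne h']
        exact hT.2 i hi' j ((mem_insert.1 hj).resolve_left h') hij

lemma step_GHaxell {cls : Ω → I} {adj : Ω → Ω → Prop} {Δ : ℕ} (hsy : ∀ x y, adj x y → adj y x)
    (hΔ : ∀ x, ∀ s : Finset Ω, (∀ y ∈ s, adj x y) → s.card ≤ Δ)
    (hs : ∀ i, ∃ s : Finset Ω, 2 * Δ < s.card ∧ ∀ x ∈ s, cls x = i) {J : Finset I} {A : I}
    (hno : ∀ T, ¬ Tr_GHaxell cls adj (insert A J) T) {B : Finset I} {W : Finset Ω} {T : I → Ω}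
    (h : Inv_GHaxell cls adj J B W T) :
    ∃ B' W' T', Inv_GHaxell cls adj J B' W' T' ∧ B.card < B'.card := by
  classical
  obtain ⟨hBJ, hT, hW, h2, h3, h4⟩ := h
  obtain ⟨w, hwC, hwD⟩ := free_GHaxell hΔ hs (insert A B) (W ∪ B.image T) (insert_nonempty _ _) (by
    have a1 := card_union_le W (B.image T)
    have a2 : (B.image T).card ≤ B.card := card_image_le
    have a3 := card_le_card (subset_insert A B)
    omega)
  have hwW : ∀ x ∈ W, ¬ adj x w := fun x hx => hwD x (mem_union_left _ hx)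
  have hwB : ∀ i ∈ B, ¬ adj w (T i) := fun i hi e =>
    hwD _ (mem_union_right _ (mem_image_of_mem T hi)) (hsy _ _ e)
  obtain ⟨T1, hT1, hmin⟩ := exists_min_image
    (univ.filter fun T' => Tr_GHaxell cls adj J T' ∧ Br_GHaxell adj J B W T T')
    (fun T' => (J.filter fun i => adj w (T' i)).card) ⟨T, mem_filter.2 ⟨mem_univ _, hT, h3⟩⟩
  obtain ⟨t1, b1⟩ := (mem_filter.1 hT1).2
  have e1 := h4 T1 t1 b1
  have hN : (J.filter fun i => adj w (T1 i)).Nonempty := by
    by_contra hn
    have hw : ∀ j ∈ J, ¬ adj w (T1 j) := fun j hj e => hn ⟨j, mem_filter.2 ⟨hj, e⟩⟩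
    have t2 := upd_GHaxell hsy t1 hw
    rcases mem_insert.1 hwC with e | hi
    · exact hno _ (e ▸ t2)
    · rw [insert_eq_of_mem (hBJ hi)] at t2
      have e2 := h4 _ t2 (fun j hj x hx ha => by
        rcases eq_or_ne j (cls w) with rfl | h
        · rw [Function.update_self] at ha
          exact absurd ha (hwW x hx)
        · rw [Function.update_of_ne h] at ha ⊢
          exact b1 j hj x hx ha) _ hi
      rw [Function.update_self] at e2
      obtain ⟨x, hx, ha⟩ := h2 _ hi
      exact hwW x hx (e2 ▸ ha)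
  have hdis : Disjoint B (J.filter fun i => adj w (T1 i)) :=
    disjoint_left.2 fun i hi hi' => hwB i hi (e1 i hi ▸ (mem_filter.1 hi').2)
  have hc : B.card < (B ∪ J.filter fun i => adj w (T1 i)).card := by
    rw [card_union_of_disjoint hdis]
    have := hN.card_pos
    omega
  refine ⟨B ∪ J.filter fun i => adj w (T1 i), insert w W, T1,
    ⟨union_subset hBJ (filter_subset _ _), t1, ?_, fun i hi => ?_, fun i hi x hx ha => ⟨?_, rfl⟩,
      fun T3 t3 b3 i hi => ?_⟩, hc⟩
  · have := card_insert_le w W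
    omega
  · rcases mem_union.1 hi with hi | hi
    · obtain ⟨x, hx, ha⟩ := h2 i hi
      exact ⟨x, mem_insert_of_mem hx, (e1 i hi).symm ▸ ha⟩
    · exact ⟨w, mem_insert_self _ _, (mem_filter.1 hi).2⟩
  · rcases mem_insert.1 hx with rfl | hx
    · exact mem_union_right _ (mem_filter.2 ⟨hi, ha⟩)
    · exact mem_union_left _ (b1 i hi x hx ha).1
  · have b4 : Br_GHaxell adj J B W T T3 := fun j hj x hx ha => by
      have e := (b3 j hj x (mem_insert_of_mem hx) ha).2
      rw [e] at ha ⊢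
      exact b1 j hj x hx ha
    rcases mem_union.1 hi with hi | hi
    · rw [h4 T3 t3 b4 i hi, e1 i hi]
    · have hsub : (J.filter fun i => adj w (T3 i)) ⊆ J.filter fun i => adj w (T1 i) := by
        intro j hj
        obtain ⟨a1, a2⟩ := mem_filter.1 hj
        exact mem_filter.2 ⟨a1, (b3 j a1 w (mem_insert_self _ _) a2).2 ▸ a2⟩
      have heq := eq_of_subset_of_card_le hsub (hmin T3 (mem_filter.2 ⟨mem_univ _, t3, b4⟩))
      rw [← heq] at hi
      obtain ⟨a1, a2⟩ := mem_filter.1 hi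
      exact (b3 i a1 w (mem_insert_self _ _) a2).2

end

theorem haxell_stmt : HaxellStmt := by
  intro I Ω _ _ _ _ cls adj Δ hsy hΔ hs
  have key : ∀ J : Finset I, ∃ T, Tr_GHaxell cls adj J T := by
    intro J
    induction J using Finset.induction_on with
    | empty =>
      have : ∀ i, ∃ x, cls x = i := fun i => by
        obtain ⟨s, h1, h2⟩ := hs i
        obtain ⟨x, hx⟩ := card_pos.1 (lt_of_le_of_lt (Nat.zero_le _) h1)
        exact ⟨x, h2 x hx⟩
      choose T hT using this
      exact ⟨T, hT, fun i hi => absurd hi (notMem_empty i)⟩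
    | insert A J _ ih =>
      obtain ⟨T0, hT0⟩ := ih
      by_contra hn
      have hno : ∀ T, ¬ Tr_GHaxell cls adj (insert A J) T := fun T hT => hn ⟨T, hT⟩
      have h1 : ∀ n : ℕ, ∃ B W T, Inv_GHaxell cls adj J B W T ∧ n ≤ B.card := by
        intro n
        induction n with
        | zero =>
          exact ⟨∅, ∅, T0, ⟨empty_subset _, hT0, le_rfl, fun i hi => absurd hi (notMem_empty i),
            fun _ _ w hw => absurd hw (notMem_empty w),
            fun _ _ _ i hi => absurd hi (notMem_empty i)⟩, le_rfl⟩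
        | succ n ih =>
          obtain ⟨B, W, T, h2, h3⟩ := ih
          obtain ⟨B', W', T', h4, h5⟩ := step_GHaxell hsy hΔ hs hno h2
          exact ⟨B', W', T', h4, by omega⟩
      obtain ⟨B, W, T, h2, h3⟩ := h1 (J.card + 1)
      have := card_le_card h2.1
      omega
  obtain ⟨T, h1, h2⟩ := key univ
  exact ⟨T, h1, fun i j hij => h2 i (mem_univ _) j (mem_univ _) hij⟩

end Pool.Agent.MP_3fd310_co.Gen
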