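import Mathlib
import Pool.Agent.Mg.F3fd310.Gdbd109
import Pool.Agent.MP_3fd310_co.GHaxell

set_option autoImplicit false

namespace Pool.Agent.MP_3fd310_co.Gen

open Finset

/-! Nondegenerate transportation polytopes in which few columns are smaller than the largest one:
the neighbourhood of a vertex is covered by few cliques. -/

theorem exists_neg_EqCol {ι : Type} [Fintype ι] (w : ι → ℝ) (h : ∑ a, w a = 0) {i : ι}
    (hi : 0 < w i) : ∃ a, w a < 0 := by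
  by_contra hn
  push Not at hn
  exact hi.ne' ((sum_eq_zero_iff_of_nonneg fun a _ => hn a).1 h i (mem_univ i))

theorem exists_pos_EqCol {ι : Type} [Fintype ι] (w : ι → ℝ) (h : ∑ a, w a = 0) {i : ι}
    (hi : w i < 0) : ∃ a, 0 < w a := by
  by_contra hn
  push Not at hn
  exact hi.ne ((sum_eq_zero_iff_of_nonpos fun a _ => hn a).1 h i (mem_univ i))

theorem row_EqCol {p q : ℕ} {w : Fin p × Fin q → ℝ} (h : marg_GTrans p q w = 0) (i : Fin p) :
    ∑ j, w (i, j) = 0 := congrFun (congrArg Prod.fst h) i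

theorem col_EqCol {p q : ℕ} {w : Fin p × Fin q → ℝ} (h : marg_GTrans p q w = 0) (j : Fin q) :
    ∑ i, w (i, j) = 0 := congrFun (congrArg Prod.snd h) j

/-- A nonempty set mapped into itself contains a nonempty set mapped onto itself. -/
theorem core_EqCol {α : Type} [DecidableEq α] (g : α → α) (R : Finset α) (hR : R.Nonempty)
    (hg : R.image g ⊆ R) :
    ∃ C : Finset α, C.Nonempty ∧ C ⊆ R ∧ C.image g = C ∧ Set.InjOn g C := by
  obtain ⟨C, hC, hmin⟩ := exists_min_image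
    (R.powerset.filter fun C => C.Nonempty ∧ C.image g ⊆ C) card
    ⟨R, mem_filter.2 ⟨mem_powerset_self R, hR, hg⟩⟩
  obtain ⟨h1, h2, h3⟩ := mem_filter.1 hC
  have h4 := hmin (C.image g) (mem_filter.2 ⟨mem_powerset.2 (h3.trans (mem_powerset.1 h1)),
    h2.image g, image_subset_image h3⟩)
  have h5 := eq_of_subset_of_card_le h3 h4
  exact ⟨C, h2, mem_powerset.1 h1, h5, injOn_of_card_image_eq (by rw [h5])⟩

/-- An alternating cycle inside a nonzero array with zero margins. -/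
theorem cycle_EqCol {p q : ℕ} {w : Fin p × Fin q → ℝ} (h : marg_GTrans p q w = 0)
    {e0 : Fin p × Fin q} (h0 : 0 < w e0) :
    ∃ z : Fin p × Fin q → ℝ, marg_GTrans p q z = 0 ∧ z ≠ 0 ∧ (∀ e, w e = 0 → z e = 0) ∧
      (∀ e, 0 < w e → z e = 0 ∨ z e = 1) ∧ ∀ e, w e < 0 → z e = 0 ∨ z e = -1 := by
  classical
  have key : ∀ a : Fin p, ∃ (k : Fin q) (b : Fin p), (∃ k', 0 < w (a, k')) →
      0 < w (a, k) ∧ w (b, k) < 0 ∧ ∃ k', 0 < w (b, k') := by
    intro a
    by_cases ha : ∃ k', 0 < w (a, k')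
    · obtain ⟨k, hk⟩ := ha
      obtain ⟨b, hb⟩ := exists_neg_EqCol (fun i => w (i, k)) (col_EqCol h k) hk
      exact ⟨k, b, fun _ => ⟨hk, hb, exists_pos_EqCol (fun j => w (b, j)) (row_EqCol h b) hb⟩⟩
    · exact ⟨e0.2, a, fun h' => absurd h' ha⟩
  choose k g hk using key
  obtain ⟨C, ⟨a0, ha0⟩, hCR, hCg, hinj⟩ := core_EqCol g (univ.filter fun a => ∃ k', 0 < w (a, k'))
    ⟨e0.1, mem_filter.2 ⟨mem_univ _, e0.2, h0⟩⟩ (by
      intro b hb
      obtain ⟨a, ha, rfl⟩ := mem_image.1 hb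
      exact mem_filter.2 ⟨mem_univ _, (hk a (mem_filter.1 ha).2).2.2⟩)
  have hp : ∀ a ∈ C, 0 < w (a, k a) := fun a ha => (hk a (mem_filter.1 (hCR ha)).2).1
  have hn : ∀ a ∈ C, w (g a, k a) < 0 := fun a ha => (hk a (mem_filter.1 (hCR ha)).2).2.1
  have one : ∀ (F : Fin p → Fin p × Fin q), Set.InjOn F C → ∀ e,
      (∑ a ∈ C, (Pi.single (F a) (1 : ℝ) : Fin p × Fin q → ℝ) e) = 0 ∧ (∀ a ∈ C, F a ≠ e) ∨
      (∑ a ∈ C, (Pi.single (F a) (1 : ℝ) : Fin p × Fin q → ℝ) e) = 1 ∧ ∃ a ∈ C, F a = e := by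
    intro F hF e
    by_cases he : ∃ a ∈ C, F a = e
    · obtain ⟨a, ha, rfl⟩ := he
      refine Or.inr ⟨?_, a, ha, rfl⟩
      rw [sum_eq_single_of_mem a ha, Pi.single_eq_same]
      exact fun b hb hne => Pi.single_eq_of_ne (fun e => hne (hF hb ha e.symm)) _
    · push Not at he
      exact Or.inl ⟨sum_eq_zero fun a ha => Pi.single_eq_of_ne (he a ha).symm _, he⟩
  have A := one (fun a => (a, k a)) fun a _ b _ e => congrArg Prod.fst e
  have B := one (fun a => (g a, k a)) fun a ha b hb e => hinj ha hb (congrArg Prod.fst e)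
  refine ⟨∑ a ∈ C, (Pi.single (a, k a) 1 : Fin p × Fin q → ℝ) -
    ∑ a ∈ C, (Pi.single (g a, k a) 1 : Fin p × Fin q → ℝ), ?_, fun hz => ?_, fun e he => ?_,
    fun e he => ?_, fun e he => ?_⟩
  · rw [map_sub, map_sum, map_sum]
    simp only [marg_single_GTrans]
    rw [sub_eq_zero]
    refine Prod.ext ?_ ?_
    · rw [Prod.fst_sum, Prod.fst_sum]
      conv_lhs => rw [← hCg, sum_image hinj]
    · rw [Prod.snd_sum, Prod.snd_sum]
  · have h1 := congrFun hz (a0, k a0)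
    rw [Pi.sub_apply, Finset.sum_apply, Finset.sum_apply, Pi.zero_apply] at h1
    rcases A (a0, k a0) with ⟨-, a⟩ | ⟨a, -⟩
    · exact a a0 ha0 rfl
    · rcases B (a0, k a0) with ⟨b, -⟩ | ⟨-, c, hc, b⟩
      · rw [a, b] at h1
        norm_num at h1
      · have := hn c hc
        rw [b] at this
        exact lt_asymm this (hp a0 ha0)
  · rw [Pi.sub_apply, Finset.sum_apply, Finset.sum_apply]
    rcases A e with ⟨a, -⟩ | ⟨-, c, hc, rfl⟩
    · rcases B e with ⟨b, -⟩ | ⟨-, c, hc, rfl⟩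
      · rw [a, b, sub_zero]
      · exact absurd he (hn c hc).ne
    · exact absurd he (hp c hc).ne'
  · rw [Pi.sub_apply, Finset.sum_apply, Finset.sum_apply]
    rcases B e with ⟨b, -⟩ | ⟨-, c, hc, rfl⟩
    · rw [b, sub_zero]
      exact (A e).imp And.left And.left
    · exact absurd he (hn c hc).not_gt
  · rw [Pi.sub_apply, Finset.sum_apply, Finset.sum_apply]
    rcases A e with ⟨a, -⟩ | ⟨-, c, hc, rfl⟩
    · rw [a, zero_sub]
      rcases B e with ⟨b, -⟩ | ⟨b, -⟩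
      · exact Or.inl (by rw [b, neg_zero])
      · exact Or.inr (by rw [b])
    · exact absurd he (hp c hc).not_gt

/-- If the only support element of a column leaves in a pivot, another column has a larger sum. -/
theorem leaf_EqCol {p q : ℕ} {v : Fin q → ℝ} (hv : ∀ j, 0 < v j) {b x y : Fin p × Fin q → ℝ}
    (hx : IsVtx (LinearMap.ker (marg_GTrans p q)) b x)
    (hy : y ∈ Poly (LinearMap.ker (marg_GTrans p q)) b)
    (cx : ∀ j, ∑ i, x (i, j) = v j) (cy : ∀ j, ∑ i, y (i, j) = v j) (hne : x ≠ y)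
    {φ : Finset (Fin p × Fin q)} {e f : Fin p × Fin q} (he : e ∉ φ)
    (sx : ∀ g, x g ≠ 0 ↔ g = e ∨ g ∈ φ) (sy : ∀ g, y g ≠ 0 ↔ g = f ∨ g ∈ φ)
    (hl : ∀ a, x (a, e.2) ≠ 0 → a = e.1) : ∃ k, v e.2 < v k := by
  obtain ⟨i, j⟩ := e
  have hw : y - x ∈ LinearMap.ker (marg_GTrans p q) := sub_mem_GSeg hy hx.1
  have hw' : marg_GTrans p q (y - x) = 0 := hw
  have hef : (i, j) ≠ f := by
    rintro rfl
    refine hne (sub_eq_zero.1 (hx.2 _ hw fun g hg => ?_)).symm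
    have : y g = 0 := by
      by_contra hn
      exact (sx g).2 ((sy g).1 hn) hg
    rw [Pi.sub_apply, this, hg, sub_zero]
  have ye : y (i, j) = 0 := by
    by_contra hn
    exact ((sy _).1 hn).elim hef he
  have yj : ∀ a, y (a, j) ≠ 0 → (a, j) = f := fun a ha => ((sy _).1 ha).resolve_right fun h => by
    obtain rfl : a = i := hl a ((sx _).2 (Or.inr h))
    exact he h
  obtain ⟨i', hi'⟩ : ∃ a, y (a, j) ≠ 0 := by
    by_contra hn
    push Not at hn
    have := cy j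
    rw [sum_eq_zero fun a _ => hn a] at this
    exact (hv j).ne this
  obtain rfl := yj i' hi'
  have yf : y (i', j) = v j := by
    rw [← cy j, sum_eq_single i' (fun a _ ha => ?_) fun h => absurd (mem_univ _) h]
    by_contra hn
    exact ha (congrArg Prod.fst (yj a hn))
  have xf : x (i', j) = 0 := by
    by_contra hn
    exact hef (by rw [show i' = i from hl i' hn])
  have wf : (y - x) (i', j) = v j := by rw [Pi.sub_apply, yf, xf, sub_zero]
  have w0 : ∀ g, x g = 0 → g ≠ (i', j) → (y - x) g = 0 := fun g hg hgf => by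
    have : y g = 0 := by
      by_contra hn
      exact (sx g).2 (Or.inr (((sy g).1 hn).resolve_left hgf)) hg
    rw [Pi.sub_apply, this, hg, sub_zero]
  obtain ⟨z, hz, hz0, z1, z2, z3⟩ := cycle_EqCol hw' (e0 := (i', j)) (wf ▸ hv j)
  have zf : z (i', j) = 1 := (z2 _ (wf ▸ hv j)).resolve_left fun h =>
    hz0 (hx.2 z hz fun g hg => by
      by_cases hgf : g = (i', j)
      · rw [hgf, h]
      · exact z1 g (w0 g hg hgf))
  have hd := dir_GSeg hx hz zf (fun g hg hgf => z1 g (w0 g hg hgf)) hw w0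
  rw [wf] at hd
  have we : (y - x) (i, j) < 0 := by
    rw [Pi.sub_apply, ye, zero_sub, neg_lt_zero]
    exact (hx.1.1 _).lt_of_ne' ((sx _).2 (Or.inl rfl))
  obtain ⟨k, hk⟩ := exists_pos_EqCol (fun k => (y - x) (i, k)) (row_EqCol hw' i) we
  obtain ⟨a, ha⟩ := exists_neg_EqCol (fun a => (y - x) (a, k)) (col_EqCol hw' k) hk
  have hkj : k ≠ j := by
    rintro rfl
    exact lt_asymm hk we
  have hai : a ≠ i := by
    rintro rfl
    exact lt_asymm hk ha
  have h1 : v j ≤ x (a, k) := by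
    have h2 := congrFun hd (a, k)
    rw [Pi.smul_apply, smul_eq_mul] at h2
    rcases z3 _ ha with h3 | h3
    · rw [h3, mul_zero] at h2
      exact absurd h2 ha.ne
    · rw [h3, Pi.sub_apply] at h2
      have := hy.1 (a, k)
      linarith
  have h4 : 0 < x (i, k) := by
    refine (hx.1.1 _).lt_of_ne' fun h => hk.ne' (w0 _ h fun h' => hkj (congrArg Prod.snd h'))
  refine ⟨k, ?_⟩
  have h5 : ∑ c ∈ ({a, i} : Finset (Fin p)), x (c, k) ≤ ∑ c, x (c, k) :=
    sum_le_sum_of_subset_of_nonneg (subset_univ _) fun c _ _ => hx.1.1 _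
  rw [sum_pair hai, cx k] at h5
  change v j < v k
  linarith

/-- Counting the support elements that can leave. -/
theorem count_EqCol {p q : ℕ} (S : Finset (Fin p × Fin q)) (B : Finset (Fin q))
    (hS : ∀ j, ∃ i, (i, j) ∈ S) :
    (S.filter fun e => (∃ a, (a, e.2) ∈ S ∧ a ≠ e.1) ∨ e.2 ∈ B).card + 2 * q ≤
      2 * S.card + B.card := by
  classical
  rw [card_eq_sum_card_fiberwise (f := Prod.snd) (t := univ) (s := S) fun _ _ => mem_univ _,
    card_eq_sum_card_fiberwise (f := Prod.snd) (t := univ) (s := S.filter _)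
      fun _ _ => mem_univ _, mul_sum]
  have hB : B.card = ∑ j : Fin q, if j ∈ B then 1 else 0 := by simp
  have hq : 2 * q = ∑ _j : Fin q, 2 := by simp [mul_comm]
  rw [hB, hq, ← sum_add_distrib, ← sum_add_distrib]
  refine sum_le_sum fun j _ => ?_
  obtain ⟨i, hi⟩ := hS j
  have h1 : 0 < (S.filter fun e => e.2 = j).card := card_pos.2 ⟨(i, j), mem_filter.2 ⟨hi, rfl⟩⟩
  have h2 : ((S.filter fun e => (∃ a, (a, e.2) ∈ S ∧ a ≠ e.1) ∨ e.2 ∈ B).filter
      fun e => e.2 = j).card ≤ (S.filter fun e => e.2 = j).card :=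
    card_le_card (filter_subset_filter _ (filter_subset _ _))
  by_cases h3 : 1 < (S.filter fun e => e.2 = j).card
  · omega
  by_cases h4 : j ∈ B
  · rw [if_pos h4]
    omega
  have h5 : ((S.filter fun e => (∃ a, (a, e.2) ∈ S ∧ a ≠ e.1) ∨ e.2 ∈ B).filter
      fun e => e.2 = j).card = 0 := by
    rw [card_eq_zero]
    refine eq_empty_of_forall_notMem fun e he => ?_
    obtain ⟨he1, rfl⟩ := mem_filter.1 he
    obtain ⟨he2, ⟨a, ha, hne⟩ | he3⟩ := mem_filter.1 he1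
    · exact h3 (one_lt_card.2 ⟨(a, e.2), mem_filter.2 ⟨ha, rfl⟩, e, mem_filter.2 ⟨he2, rfl⟩,
        fun h => hne (congrArg Prod.fst h)⟩)
    · exact h4 he3
  omega

/-- The rank of the lattice of moves. -/
theorem rank_EqCol {p q : ℕ} (hp : 0 < p) :
    p * q + 1 ≤ p + q + Module.finrank ℝ (LinearMap.ker (marg_GTrans p q)) := by
  classical
  have h1 := LinearMap.finrank_range_add_finrank_ker (marg_GTrans p q)
  have h2 := Submodule.finrank_lt (s := LinearMap.range (marg_GTrans p q)) fun h => by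
    obtain ⟨x, hx⟩ : (Pi.single ⟨0, hp⟩ 1, 0) ∈ LinearMap.range (marg_GTrans p q) :=
      h ▸ Submodule.mem_top
    have a : ∀ i, ∑ j, x (i, j) = (Pi.single ⟨0, hp⟩ 1 : Fin p → ℝ) i :=
      fun i => congrFun (congrArg Prod.fst hx) i
    have c : ∀ j, ∑ i, x (i, j) = 0 := fun j => congrFun (congrArg Prod.snd hx) j
    have d : ∑ i, ∑ j, x (i, j) = ∑ j, ∑ i, x (i, j) := sum_comm
    simp only [a, c] at d
    simp at d
  simp only [Module.finrank_prod, Module.finrank_fintype_fun_eq_card, Fintype.card_prod,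
    Fintype.card_fin] at h1 h2
  omega

/-- The clique cover. -/
theorem cov_EqCol {p q : ℕ} (hp : 2 ≤ p) {v : Fin q → ℝ} (hv : ∀ j, 0 < v j)
    {b : Fin p × Fin q → ℝ} (hS : Simple (LinearMap.ker (marg_GTrans p q)) b)
    (hc : ∀ x ∈ Poly (LinearMap.ker (marg_GTrans p q)) b, ∀ j, ∑ i, x (i, j) = v j) :
    CliqueCov (PG (LinearMap.ker (marg_GTrans p q)) b)
      ((univ.filter fun j => ∃ k, v j < v k).card + 2 * (p - 1)) := by
  classical
  intro x
  obtain ⟨S, hS'⟩ : ∃ S : Finset (Fin p × Fin q), ∀ e, e ∈ S ↔ x.1 e ≠ 0 :=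
    ⟨univ.filter fun e => x.1 e ≠ 0, fun e => by simp⟩
  have h1 := supp_GSeg zero_stmt hS x.2 hS'
  have h2 := rank_EqCol (q := q) (show 0 < p by omega)
  have h3 := count_EqCol S (univ.filter fun j => ∃ k, v j < v k) fun j => by
    by_contra hn
    push Not at hn
    have := hc x.1 x.2.1 j
    rw [sum_eq_zero fun a _ => not_not.1 fun h => hn a ((hS' _).2 h)] at this
    exact (hv j).ne this
  obtain ⟨A, hA⟩ : ∃ A, A = S.filter fun e => (∃ a, (a, e.2) ∈ S ∧ a ≠ e.1) ∨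
    e.2 ∈ univ.filter fun j => ∃ k, v j < v k := ⟨_, rfl⟩
  rw [← hA] at h3
  rw [Fintype.card_prod, Fintype.card_fin, Fintype.card_fin] at h1
  obtain ⟨r, hr⟩ : ∃ r, r = (univ.filter fun j => ∃ k, v j < v k).card + 2 * (p - 1) := ⟨_, rfl⟩
  rw [← hr]
  obtain ⟨i⟩ : Nonempty (A ↪ Fin r) := Function.Embedding.nonempty_of_card_le (by
    rw [Fintype.card_coe, Fintype.card_fin]
    omega)
  have key : ∀ y : Vtx (LinearMap.ker (marg_GTrans p q)) b, ∃ c : Fin r,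
      (PG _ b).Adj x y → ∃ e : A, c = i e ∧ ∀ g ∈ S.erase e, y.1 g ≠ 0 := by
    intro y
    by_cases hy : (PG _ b).Adj x y
    · obtain ⟨φ, a1, a2⟩ := hy.2
      obtain ⟨e, he, sx⟩ := one_GSeg zero_stmt hS x.2 a1 fun g hg => (a2 g hg).1
      obtain ⟨f, -, sy⟩ := one_GSeg zero_stmt hS y.2 a1 fun g hg => (a2 g hg).2
      have heA : e ∈ A := by
        rw [hA]
        refine mem_filter.2 ⟨(hS' e).2 ((sx e).2 (Or.inl rfl)), ?_⟩
        by_cases hl : ∀ a, x.1 (a, e.2) ≠ 0 → a = e.1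
        · exact Or.inr (mem_filter.2 ⟨mem_univ _, leaf_EqCol hv x.2 y.2.1 (hc _ x.2.1)
            (hc _ y.2.1) (fun h => hy.1 (Subtype.ext h)) he sx sy hl⟩)
        · push Not at hl
          obtain ⟨a, b1, b2⟩ := hl
          exact Or.inl ⟨a, (hS' _).2 b1, b2⟩
      refine ⟨i ⟨e, heA⟩, fun _ => ⟨⟨e, heA⟩, rfl, fun g hg => (a2 g ?_).2⟩⟩
      exact ((sx g).1 ((hS' g).1 (mem_of_mem_erase hg))).resolve_left (ne_of_mem_erase hg)
    · exact ⟨⟨0, by omega⟩, fun h => absurd h hy⟩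
  choose c hc' using key
  refine ⟨c, fun y z hy hz e hne => ?_⟩
  obtain ⟨e1, a1, a2⟩ := hc' y hy
  obtain ⟨e2, b1, b2⟩ := hc' z hz
  obtain rfl : e1 = e2 := i.injective (by rw [← a1, ← b1, e])
  refine ⟨hne, S.erase e1, ?_, fun g hg => ⟨a2 g hg, b2 g hg⟩⟩
  have he1 : e1.1 ∈ S := (show A ⊆ S from hA ▸ filter_subset _ _) e1.2
  rw [card_erase_add_one he1, Fintype.card_prod, Fintype.card_fin, Fintype.card_fin]
  exact h1

/-- The transportation polytope in standard form, and the passage back from a Hamiltonian listing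
of the vertices. -/
theorem setup_EqCol (p q : ℕ) (u : Fin p → ℝ) (v : Fin q → ℝ) (hp : 0 < p)
    (hu : ∀ i, 0 < u i) (hv : ∀ j, 0 < v j) (huv : (∑ i, u i) = (∑ j, v j))
    (hnd : ∀ (I : Finset (Fin p)) (J : Finset (Fin q)), I.Nonempty → I ≠ univ → J.Nonempty →
      J ≠ univ → (∑ i ∈ I, u i) ≠ ∑ j ∈ J, v j)
    (P : Set (Fin p → Fin q → ℝ))
    (hP : P = {x | (∀ i j, 0 ≤ x i j) ∧ (∀ i, (∑ j, x i j) = u i) ∧ (∀ j, (∑ i, x i j) = v j)})
    (hH : ∀ b : Fin p × Fin q → ℝ, Simple (LinearMap.ker (marg_GTrans p q)) b →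
      Bdd (LinearMap.ker (marg_GTrans p q)) →
      (∀ x : Fin p × Fin q → ℝ, x ∈ Poly (LinearMap.ker (marg_GTrans p q)) b ↔
        (∀ i j, 0 ≤ x (i, j)) ∧ (∀ i, (∑ j, x (i, j)) = u i) ∧ ∀ j, (∑ i, x (i, j)) = v j) →
      HamList (PG (LinearMap.ker (marg_GTrans p q)) b)) :
    ∃ (n : ℕ) (f : Fin n → (Fin p → Fin q → ℝ)), Function.Injective f ∧
      Set.range f = Set.extremePoints ℝ P ∧
      ∀ i : Fin n, IsExtreme ℝ P (segment ℝ (f i) (f (finRotate n i))) := by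
  classical
  have hT : 0 < ∑ i, u i := sum_pos (fun i _ => hu i) ⟨⟨0, hp⟩, mem_univ _⟩
  let b : Fin p × Fin q → ℝ := fun e => u e.1 * v e.2 / ∑ i, u i
  have hb : marg_GTrans p q b = (u, v) := by
    ext k
    · change ∑ j, u k * v j / ∑ i, u i = u k
      rw [← sum_div, ← mul_sum, ← huv, mul_div_cancel_right₀ _ hT.ne']
    · change ∑ i, u i * v k / ∑ i, u i = v k
      rw [← sum_div, ← sum_mul, mul_div_cancel_left₀ _ hT.ne']
  have hmem : ∀ x : Fin p × Fin q → ℝ, x ∈ Poly (LinearMap.ker (marg_GTrans p q)) b ↔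
      (∀ i j, 0 ≤ x (i, j)) ∧ (∀ i, (∑ j, x (i, j)) = u i) ∧ ∀ j, (∑ i, x (i, j)) = v j := by
    intro x
    simp only [Poly, Set.mem_ofPred_eq, LinearMap.mem_ker, map_sub, sub_eq_zero, hb, Prod.forall]
    refine and_congr_right fun _ => ⟨fun h => ?_, fun h => ?_⟩
    · exact ⟨fun i => congrFun (congrArg Prod.fst h) i, fun j => congrFun (congrArg Prod.snd h) j⟩
    · exact Prod.ext (funext h.1) (funext h.2)
  have hs : Simple (LinearMap.ker (marg_GTrans p q)) b := by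
    rintro x ⟨hx, -⟩ ⟨i0, j0⟩ h0
    obtain ⟨-, hr, hc⟩ := (hmem x).1 hx
    obtain ⟨y, hy, he⟩ := release_GTrans hu hv huv hnd x hr hc i0 j0
    refine ⟨Pi.single (i0, j0) 1 - y, ?_, ?_, fun e he hne => ?_⟩
    · rw [LinearMap.mem_ker, map_sub, he, sub_self]
    · simp [hy _ h0]
    · simp [hy _ he, hne]
  have hB : Bdd (LinearMap.ker (marg_GTrans p q)) := by
    intro w hw h0
    funext ⟨i, j⟩
    exact (sum_eq_zero_iff_of_nonneg fun j _ => h0 (i, j)).1 (row_EqCol hw i) j (mem_univ j)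
  obtain ⟨hx, -⟩ := ext_stmt _ (LinearMap.ker (marg_GTrans p q)) b
  obtain ⟨n, f, hf, hadj⟩ := hH b hs hB hmem
  let φ : (Fin p × Fin q → ℝ) ≃ₗ[ℝ] (Fin p → Fin q → ℝ) := LinearEquiv.curry ℝ ℝ (Fin p) (Fin q)
  have hPe : φ '' Poly (LinearMap.ker (marg_GTrans p q)) b = P := by
    rw [hP]
    ext x
    constructor
    · rintro ⟨y, hy, rfl⟩
      exact (hmem y).1 hy
    · intro hx
      refine ⟨φ.symm x, (hmem _).2 ?_, φ.apply_symm_apply x⟩
      exact hx
  refine ⟨n, fun i => φ (f i).1, fun i j h => hf.1 (Subtype.ext (φ.injective h)), ?_, fun i => ?_⟩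
  · rw [← hPe, ← image_extremePoints φ, hx]
    ext x
    constructor
    · rintro ⟨i, rfl⟩
      exact ⟨_, (f i).2, rfl⟩
    · rintro ⟨y, h, rfl⟩
      obtain ⟨i, hi⟩ := hf.2 ⟨y, h⟩
      exact ⟨i, by simp only [hi]⟩
  · rw [← hPe]
    exact isExtreme_image_GLink φ (seg_stmt zero_stmt _ _ b hs _ _ (hadj i))

/-- The theorem on margins with few columns below the largest one. -/
theorem main_EqCol (p q : ℕ) (u : Fin p → ℝ) (v : Fin q → ℝ) (hp : 2 ≤ p)
    (hpq : 2400 * ((univ.filter fun j => ∃ k, v j < v k).card + 2 * (p - 1)) ≤ (p - 1) * (q - 1))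
    (hu : ∀ i, 0 < u i) (hv : ∀ j, 0 < v j) (huv : (∑ i, u i) = (∑ j, v j))
    (hnd : ∀ (I : Finset (Fin p)) (J : Finset (Fin q)), I.Nonempty → I ≠ univ → J.Nonempty →
      J ≠ univ → (∑ i ∈ I, u i) ≠ ∑ j ∈ J, v j)
    (P : Set (Fin p → Fin q → ℝ))
    (hP : P = {x | (∀ i j, 0 ≤ x i j) ∧ (∀ i, (∑ j, x i j) = u i) ∧ (∀ j, (∑ i, x i j) = v j)}) :
    ∃ (n : ℕ) (f : Fin n → (Fin p → Fin q → ℝ)), Function.Injective f ∧
      Set.range f = Set.extremePoints ℝ P ∧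
      ∀ i : Fin n, IsExtreme ℝ P (segment ℝ (f i) (f (finRotate n i))) := by
  classical
  refine setup_EqCol p q u v (by omega) hu hv huv hnd P hP fun b hs hB hmem => ?_
  have hG : GraphStmt := graph_stmt (part_stmt haxell_stmt) tough_stmt
    (link_stmt (free_stmt replace_stmt) (merge_stmt replace_stmt exch_stmt blk_stmt) count_stmt)
    (henn_stmt union_stmt) even_stmt init_stmt cyc_stmt
  obtain ⟨-, hfin⟩ := ext_stmt _ (LinearMap.ker (marg_GTrans p q)) b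
  let _ : Fintype (Vtx (LinearMap.ker (marg_GTrans p q)) b) := Fintype.ofFinite _
  have hrk := rank_EqCol (q := q) (show 0 < p by omega)
  exact hG _ (PG _ b) _ _ (cov_EqCol hp hv hs fun x hx => ((hmem x).1 hx).2.2)
    (deg_stmt zero_stmt (pivot_stmt zero_stmt) _ _ b hs hB).1
    (bal_stmt (cone_stmt (pivot_stmt zero_stmt)) _ _ b hs hB hfin) (hpq.trans (by
      obtain ⟨p', rfl⟩ : ∃ p', p = p' + 1 := ⟨p - 1, by omega⟩
      rcases q with _ | q'
      · simp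
      · simp only [Nat.add_sub_cancel]
        nlinarith))

/-! Faces of simple polytopes in standard form, toughness from two clique covers, and the
Hamiltonian listing from a clique partition and toughness. -/

/-- A tough graph partitioned into cliques with at least five vertices is Hamiltonian. -/
theorem ham_BalFace {V N : Type} [Fintype V] [DecidableEq V] [Fintype N] [DecidableEq N]
    (G : SimpleGraph V) (part : V → N) (hcl : Cliq G part) (hbig : Big part 5)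
    (hT : Tough G 20) : HamList G := by
  rcases isEmpty_or_nonempty V with hV | hV
  · exact ⟨0, fun i => i.elim0, ⟨fun i => i.elim0, fun v => (hV.false v).elim⟩, fun i => i.elim0⟩
  have hN : Nonempty N := ⟨part hV.some⟩
  obtain ⟨M, hM, hS, hc⟩ := link_stmt (free_stmt replace_stmt)
    (merge_stmt replace_stmt exch_stmt blk_stmt) count_stmt V N G part hbig hT
  obtain ⟨D₁, D₂, h1, h2, hd, hc1, hc2⟩ := henn_stmt union_stmt (V × V) N univ (sr part) (tg part) M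
    (fun e _ => ⟨mem_univ _, mem_univ _⟩) hS (by rw [card_univ]; exact hc)
  obtain ⟨D, hD, hDc, hDe⟩ := even_stmt (V × V) N (sr part) (tg part) D₁ D₂ hd hc1 hc2
  have hDL : Links G part D := links_mono_GLink hM (hD.trans (union_subset h1 h2))
  obtain ⟨σ, hσ⟩ := init_stmt V N G part D hDL hDe
  refine cyc_stmt V N G part D σ hcl hDL hDc hσ ?_
  obtain ⟨F, hF, -⟩ := hbig hN.some
  have := card_le_univ F
  omega

open Classical in
/-- The elements of `S` with a neighbour in the class of `ρ`. -/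
noncomputable def nb_BalFace {V L : Type} (G : SimpleGraph V) (S : Finset V) (lab : V → L)
    (ρ : V) : Finset V :=
  S.filter fun s => ∃ a, a ∉ S ∧ lab a = lab ρ ∧ G.Adj a s

theorem mem_nb_BalFace {V L : Type} {G : SimpleGraph V} {S : Finset V} {lab : V → L} {ρ s : V} :
    s ∈ nb_BalFace G S lab ρ ↔ s ∈ S ∧ ∃ a, a ∉ S ∧ lab a = lab ρ ∧ G.Adj a s := by
  classical
  unfold nb_BalFace
  convert mem_filter

theorem inc_BalFace {V L : Type} (G : SimpleGraph V) {r d : ℕ} (hcov : CliqueCov G r)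
    (S R : Finset V) (lab : V → L) (hlab : ∀ x y, x ∉ S → y ∉ S → G.Adj x y → lab x = lab y)
    (hinj : Set.InjOn lab (R : Set V)) (hd : ∀ ρ ∈ R, d ≤ (nb_BalFace G S lab ρ).card) :
    R.card * d ≤ S.card * r := by
  classical
  choose c hc using hcov
  refine card_mul_le_card_mul (s := R) (t := S) (m := d) (n := r)
    (fun ρ s => ∃ a, a ∉ S ∧ lab a = lab ρ ∧ G.Adj a s) (fun ρ hρ => ?_) fun s hs => ?_
  · refine (hd ρ hρ).trans (card_le_card fun s hs => ?_)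
    exact (mem_bipartiteAbove _).2 (mem_nb_BalFace.1 hs)
  · have hex : ∀ ρ, ∃ a, ρ ∈ R.bipartiteBelow
        (fun ρ s => ∃ a, a ∉ S ∧ lab a = lab ρ ∧ G.Adj a s) s →
        a ∉ S ∧ lab a = lab ρ ∧ G.Adj a s := fun ρ => by
      by_cases h : ρ ∈ R.bipartiteBelow (fun ρ s => ∃ a, a ∉ S ∧ lab a = lab ρ ∧ G.Adj a s) s
      · obtain ⟨a, ha⟩ := ((mem_bipartiteBelow _).1 h).2
        exact ⟨a, fun _ => ha⟩
      · exact ⟨ρ, fun h' => absurd h' h⟩
    choose a ha using hex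
    refine (card_le_card_of_injOn (t := univ) (fun ρ => c s (a ρ)) (fun _ _ => mem_univ _)
      fun x hx y hy e => ?_).trans (by simp)
    obtain ⟨x1, x2, x3⟩ := ha x hx
    obtain ⟨y1, y2, y3⟩ := ha y hy
    refine hinj ((mem_bipartiteBelow _).1 hx).1 ((mem_bipartiteBelow _).1 hy).1 ?_
    rw [← x2, ← y2]
    by_cases h : a x = a y
    · rw [h]
    · exact hlab _ _ x1 y1 (hc s _ _ x3.symm y3.symm e h)

/-- `C` is a nonempty set whose neighbours lie in `C` or in `S`. -/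
def Clo_BalFace {V : Type} (G : SimpleGraph V) (C S : Finset V) : Prop :=
  ∀ x ∈ C, ∀ y, G.Adj x y → y ∈ C ∨ y ∈ S

/-- Toughness from two clique covers and the uniqueness of a class with small boundaries. -/
theorem tough_BalFace {V : Type} [Fintype V] [DecidableEq V] (G G' : SimpleGraph V) (hle : G' ≤ G)
    {r r' : ℕ} (hr : 0 < r) (hr' : 0 < r') (hcov : CliqueCov G r) (hcov' : CliqueCov G' r')
    (key : ∀ C₁ C₂ S N₁ N₂ : Finset V, C₁.Nonempty → C₂.Nonempty → Disjoint C₁ S → Disjoint C₂ S →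
      Clo_BalFace G C₁ S → Clo_BalFace G C₂ S → Clo_BalFace G' C₁ N₁ → Clo_BalFace G' C₂ N₂ →
      S.card ≤ 160 * r → N₁.card ≤ 80 * r' → N₂.card ≤ 80 * r' → ¬ Disjoint C₁ C₂) :
    Tough G 20 := by
  classical
  intro L S R lab hlab hRS hinj hR
  have h1 := inc_BalFace G hcov S (R.filter fun ρ => 80 * r ≤ (nb_BalFace G S lab ρ).card) lab hlab
    (hinj.mono (coe_subset.2 (filter_subset _ _))) fun ρ hρ => (mem_filter.1 hρ).2
  have h2 := inc_BalFace G' hcov' S (R.filter fun ρ => 80 * r' ≤ (nb_BalFace G' S lab ρ).card) lab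
    (fun x y hx hy h => hlab x y hx hy (hle h))
    (hinj.mono (coe_subset.2 (filter_subset _ _))) fun ρ hρ => (mem_filter.1 hρ).2
  have h3 : (R.filter fun ρ => (nb_BalFace G S lab ρ).card < 80 * r ∧
      (nb_BalFace G' S lab ρ).card < 80 * r').card ≤ 1 := by
    refine card_le_one.2 fun ρ hρ ρ' hρ' => ?_
    obtain ⟨a1, a2, a3⟩ := mem_filter.1 hρ
    obtain ⟨b1, b2, b3⟩ := mem_filter.1 hρ'
    have clo : ∀ H : SimpleGraph V, H ≤ G → ∀ (σ : V) (T : Finset V), nb_BalFace H S lab σ ⊆ T →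
        Clo_BalFace H (univ.filter fun x => x ∉ S ∧ lab x = lab σ) T := by
      intro H hH σ T hT x hx y hxy
      obtain ⟨x1, x2⟩ := (mem_filter.1 hx).2
      by_cases hy : y ∈ S
      · exact Or.inr (hT (mem_nb_BalFace.2 ⟨hy, x, x1, x2, hxy⟩))
      · exact Or.inl (mem_filter.2 ⟨mem_univ _, hy, (hlab x y x1 hy (hH hxy)).symm.trans x2⟩)
    have dis : ∀ σ : V, Disjoint (univ.filter fun x => x ∉ S ∧ lab x = lab σ)
        (nb_BalFace G S lab ρ ∪ nb_BalFace G S lab ρ') := fun σ =>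
      disjoint_left.2 fun x hx h => (mem_filter.1 hx).2.1
        ((mem_union.1 h).elim (fun h => (mem_nb_BalFace.1 h).1) fun h => (mem_nb_BalFace.1 h).1)
    have h := key _ _ (nb_BalFace G S lab ρ ∪ nb_BalFace G S lab ρ') _ _
      ⟨ρ, mem_filter.2 ⟨mem_univ _, disjoint_left.1 hRS a1, rfl⟩⟩
      ⟨ρ', mem_filter.2 ⟨mem_univ _, disjoint_left.1 hRS b1, rfl⟩⟩ (dis ρ) (dis ρ')
      (clo G le_rfl ρ _ subset_union_left) (clo G le_rfl ρ' _ subset_union_right)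
      (clo G' hle ρ _ Subset.rfl) (clo G' hle ρ' _ Subset.rfl)
      ((card_union_le _ _).trans (by omega)) a3.le b3.le
    obtain ⟨x, hx, hx'⟩ := not_disjoint_iff.1 h
    exact hinj a1 b1 ((mem_filter.1 hx).2.2.symm.trans (mem_filter.1 hx').2.2)
  have h4 : R ⊆ (R.filter fun ρ => 80 * r ≤ (nb_BalFace G S lab ρ).card) ∪
      (R.filter fun ρ => 80 * r' ≤ (nb_BalFace G' S lab ρ).card) ∪
      R.filter fun ρ => (nb_BalFace G S lab ρ).card < 80 * r ∧
        (nb_BalFace G' S lab ρ).card < 80 * r' := fun ρ hρ => by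
    simp only [mem_union, mem_filter, hρ, true_and]
    omega
  have h5 := (card_le_card h4).trans ((card_union_le _ _).trans
    (Nat.add_le_add_right (card_union_le _ _) _))
  rw [← mul_assoc] at h1 h2
  have h6 := Nat.le_of_mul_le_mul_right h1 hr
  have h7 := Nat.le_of_mul_le_mul_right h2 hr'
  omega

/-- Counting pairs that are sent injectively into a set. -/
theorem pairs_BalFace {α β V : Type} [DecidableEq V] (I : Finset α) (B : α → Finset β)
    (Y : α → β → V) (S : Finset V) (t : ℕ)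
    (hinj : ∀ i ∈ I, ∀ j ∈ B i, ∀ i' ∈ I, ∀ j' ∈ B i', Y i j = Y i' j' → i = i' ∧ j = j')
    (ht : ∀ i ∈ I, t ≤ ((B i).filter fun j => Y i j ∈ S).card) : I.card * t ≤ S.card := by
  classical
  have h1 : (I.sigma fun i => (B i).filter fun j => Y i j ∈ S).card ≤ S.card := by
    refine card_le_card_of_injOn (fun z => Y z.1 z.2) (fun z hz => ?_) fun z hz z' hz' e => ?_
    · exact (mem_filter.1 (mem_sigma.1 hz).2).2
    · obtain ⟨a1, a2⟩ := mem_sigma.1 hz
      obtain ⟨b1, b2⟩ := mem_sigma.1 hz'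
      obtain ⟨c1, c2⟩ := hinj _ a1 _ (mem_filter.1 a2).1 _ b1 _ (mem_filter.1 b2).1 e
      exact Sigma.ext c1 (heq_of_eq c2)
  rw [card_sigma] at h1
  exact (card_nsmul_le_sum I _ t ht).trans h1

section

variable {E : Type} [Fintype E] [DecidableEq E] {W : Submodule ℝ (E → ℝ)} {b : E → ℝ}

/-- The supports of adjacent vertices differ by an exchange. -/
theorem adj_BalFace (hS : Simple W b) {x y : Vtx W b} (h : (PG W b).Adj x y) :
    ∃ e f, x.1 e ≠ 0 ∧ y.1 e = 0 ∧ x.1 f = 0 ∧ y.1 f ≠ 0 ∧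
      ∀ g, g ≠ e → g ≠ f → (x.1 g = 0 ↔ y.1 g = 0) := by
  obtain ⟨hne, φ, hc, hφ⟩ := h
  obtain ⟨e, he, hx⟩ := one_GSeg zero_stmt hS x.2 hc fun e he => (hφ e he).1
  obtain ⟨f, hf, hy⟩ := one_GSeg zero_stmt hS y.2 hc fun e he => (hφ e he).2
  have hef : e ≠ f := by
    rintro rfl
    refine hne (Subtype.ext (eq_GExt y.2 x.2.1 fun g hg => ?_))
    by_contra h
    exact (hy g).2 ((hx g).1 h) hg
  refine ⟨e, f, (hx e).2 (Or.inl rfl), ?_, ?_, (hy f).2 (Or.inl rfl), fun g h1 h2 => ?_⟩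
  · by_contra h
    exact ((hy e).1 h).elim hef he
  · by_contra h
    exact ((hx f).1 h).elim (fun h => hef h.symm) hf
  · rw [← not_iff_not]
    change x.1 g ≠ 0 ↔ y.1 g ≠ 0
    rw [hx, hy]
    simp [h1, h2]

/-- The pivot along a zero coordinate. -/
theorem piv_BalFace (hS : Simple W b) (hB : Bdd W) (x : Vtx W b) {f : E} (hf : x.1 f = 0) :
    ∃ (y : Vtx W b) (e : E), (PG W b).Adj x y ∧ x.1 e ≠ 0 ∧ y.1 e = 0 ∧ y.1 f ≠ 0 ∧
      ∀ g, g ≠ e → g ≠ f → (x.1 g = 0 ↔ y.1 g = 0) := by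
  obtain ⟨z, hz, h1, h2⟩ := hS x.1 x.2 f hf
  obtain ⟨y, hy, τ, hτ, e⟩ := pivot_stmt zero_stmt E W b hS hB x f z hf hz h1 h2
  have yf : y.1 f ≠ 0 := by
    rw [e, Pi.add_apply, Pi.smul_apply, hf, h1, smul_eq_mul, mul_one, zero_add]
    exact hτ.ne'
  obtain ⟨e', f', a1, a2, a3, a4, a5⟩ := adj_BalFace hS hy
  obtain rfl : f = f' := by
    by_contra h
    exact yf ((a5 f (fun h' => a1 (h' ▸ hf)) h).1 hf)
  exact ⟨y, e', hy, a1, a2, a4, a5⟩

omit [DecidableEq E] in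
/-- Below every point of the polytope there is a vertex. -/
theorem below_BalFace (hB : Bdd W) {x : E → ℝ} (hx : x ∈ Poly W b) :
    ∃ y : Vtx W b, ∀ e, x e = 0 → y.1 e = 0 := by
  classical
  have key : ∀ (n : ℕ) (x : E → ℝ), x ∈ Poly W b → (univ.filter fun e => x e ≠ 0).card ≤ n →
      ∃ y : Vtx W b, ∀ e, x e = 0 → y.1 e = 0 := by
    intro n
    induction n with
    | zero =>
      intro x hx hn
      refine ⟨⟨x, hx, fun w _ hw => funext fun e => hw e ?_⟩, fun e he => he⟩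
      by_contra h
      have : 0 < (univ.filter fun e => x e ≠ 0).card :=
        card_pos.2 ⟨e, mem_filter.2 ⟨mem_univ e, h⟩⟩
      omega
    | succ n ih =>
      intro x hx hn
      by_cases hv : IsVtx W b x
      · exact ⟨⟨x, hv⟩, fun e he => he⟩
      have : ∃ w ∈ W, (∀ e, x e = 0 → w e = 0) ∧ w ≠ 0 := by
        by_contra h
        push Not at h
        exact hv ⟨hx, h⟩
      obtain ⟨w, hw, h0, hne⟩ := this
      have hneg : (univ.filter fun e => w e < 0).Nonempty := by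
        by_contra h
        exact hne (hB w hw fun e => not_lt.1 fun he => h ⟨e, by simpa using he⟩)
      obtain ⟨e, he, hmin⟩ := exists_min_image _ (fun e => x e / -w e) hneg
      simp only [mem_filter, mem_univ, true_and] at he hmin
      have xe : 0 < x e := (hx.1 e).lt_of_ne' fun h => he.ne (h0 e h)
      obtain ⟨τ, hτ⟩ : ∃ τ, τ = x e / -w e := ⟨_, rfl⟩
      rw [← hτ] at hmin
      have τ0 : 0 < τ := hτ ▸ div_pos xe (neg_pos.2 he)
      have ye : x e + τ * w e = 0 := by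
        rw [hτ, div_neg, neg_mul, div_mul_cancel₀ _ he.ne, add_neg_cancel]
      have y0 : ∀ g, x g = 0 → (x + τ • w) g = 0 := fun g hg => by
        change x g + τ * w g = 0
        rw [hg, h0 g hg, mul_zero, add_zero]
      refine (ih (x + τ • w) ⟨fun g => ?_, ?_⟩ ?_).imp fun y hy g hg => hy g (y0 g hg)
      · change 0 ≤ x g + τ * w g
        rcases lt_or_ge (w g) 0 with h | h
        · have := (le_div_iff₀ (neg_pos.2 h)).1 (hmin g h)
          linarith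
        · exact add_nonneg (hx.1 g) (mul_nonneg τ0.le h)
      · rw [add_sub_right_comm]
        exact W.add_mem hx.2 (W.smul_mem _ hw)
      · have h1 : (univ.filter fun g => (x + τ • w) g ≠ 0) ⊆
            (univ.filter fun g => x g ≠ 0).erase e := fun g hg => by
          have h2 := (mem_filter.1 hg).2
          refine mem_erase.2 ⟨?_, mem_filter.2 ⟨mem_univ _, fun h => h2 (y0 g h)⟩⟩
          rintro rfl
          exact h2 ye
        have h2 := card_le_card h1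
        have h3 : e ∈ univ.filter fun g => x g ≠ 0 := mem_filter.2 ⟨mem_univ _, xe.ne'⟩
        rw [card_erase_of_mem h3] at h2
        omega
  exact key _ x hx le_rfl

/-- Extension by zero. -/
def ext_BalFace (Z : Finset E) : ({e // e ∉ Z} → ℝ) →ₗ[ℝ] (E → ℝ) where
  toFun y e := if h : e ∈ Z then 0 else y ⟨e, h⟩
  map_add' y z := by
    funext e
    by_cases h : e ∈ Z <;> simp [h]
  map_smul' c y := by
    funext e
    by_cases h : e ∈ Z <;> simp [h]

/-- A face is a simple polytope in standard form. -/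
theorem face_BalFace (hS : Simple W b) (hB : Bdd W) (Z : Finset E) (x0 : Vtx W b)
    (h0 : ∀ e ∈ Z, x0.1 e = 0) :
    ∃ (W' : Submodule ℝ ({e // e ∉ Z} → ℝ)) (b' : {e // e ∉ Z} → ℝ) (ι : Vtx W' b' → Vtx W b),
      Simple W' b' ∧ Bdd W' ∧ Module.finrank ℝ W' + Z.card = Module.finrank ℝ W ∧
      Function.Injective ι ∧ (∀ y, (∀ e ∈ Z, y.1 e = 0) ↔ ∃ a, ι a = y) ∧
      ∀ a a', (PG W' b').Adj a a' → (PG W b).Adj (ι a) (ι a') := by
  classical
  have e1 : ∀ (y : {e // e ∉ Z} → ℝ), ∀ e ∈ Z, ext_BalFace Z y e = 0 := fun y e he => dif_pos he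
  have e2 : ∀ (y : {e // e ∉ Z} → ℝ) (e : {e // e ∉ Z}), ext_BalFace Z y e.1 = y e :=
    fun y e => dif_neg e.2
  have e3 : ∀ x : E → ℝ, (∀ e ∈ Z, x e = 0) → ext_BalFace Z (fun e => x e.1) = x := fun x hx => by
    funext e
    by_cases h : e ∈ Z
    · rw [e1 _ e h, hx e h]
    · exact e2 _ ⟨e, h⟩
  have e4 : ∀ y : {e // e ∉ Z} → ℝ, y ∈ Poly (W.comap (ext_BalFace Z)) (fun e => x0.1 e.1) ↔
      ext_BalFace Z y ∈ Poly W b := fun y => by
    refine and_congr ⟨fun h e => ?_, fun h e => e2 y e ▸ h e.1⟩ ?_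
    · by_cases he : e ∈ Z
      · rw [e1 y e he]
      · exact (e2 y ⟨e, he⟩).symm ▸ h ⟨e, he⟩
    · rw [Submodule.mem_comap, map_sub, e3 _ h0]
      refine ⟨fun h => ?_, fun h => ?_⟩
      · have := W.add_mem h x0.2.1.2
        rwa [sub_add_sub_cancel] at this
      · have := W.sub_mem h x0.2.1.2
        rwa [sub_sub_sub_cancel_right] at this
  have e5 : ∀ y : {e // e ∉ Z} → ℝ, IsVtx (W.comap (ext_BalFace Z)) (fun e => x0.1 e.1) y ↔
      IsVtx W b (ext_BalFace Z y) := fun y => by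
    refine and_congr (e4 y) ⟨fun h w hw hz => ?_, fun h w hw hz => ?_⟩
    · have h1 := e3 w fun e he => hz e (e1 y e he)
      rw [← h1, h (fun e => w e.1) (by rwa [Submodule.mem_comap, h1])
        fun e he => hz e.1 ((e2 y e).trans he), map_zero]
    · have h1 := h (ext_BalFace Z w) hw fun e he => by
        by_cases h2 : e ∈ Z
        · exact e1 w e h2
        · exact (e2 w ⟨e, h2⟩).trans (hz _ ((e2 y ⟨e, h2⟩).symm.trans he))
      funext e
      rw [← e2 w e, h1]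
      rfl
  have hS' : Simple (W.comap (ext_BalFace Z)) (fun e => x0.1 e.1) := by
    intro y hy f hf
    obtain ⟨z, hz, h1, h2⟩ := hS _ ((e5 y).1 hy) f.1 ((e2 y f).trans hf)
    have h3 := e3 z fun e he => h2 e (e1 y e he) fun h => f.2 (h ▸ he)
    exact ⟨fun e => z e.1, by rwa [Submodule.mem_comap, h3], h1,
      fun e he hne => h2 e.1 ((e2 y e).trans he) fun h => hne (Subtype.ext h)⟩
  have hx0 : IsVtx (W.comap (ext_BalFace Z)) (fun e => x0.1 e.1) fun e => x0.1 e.1 := by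
    rw [e5, e3 _ h0]
    exact x0.2
  have hcard : Fintype.card {e // e ∉ Z} + Z.card = Fintype.card E := by
    rw [Fintype.card_subtype_compl, Fintype.card_coe]
    have := card_le_univ Z
    omega
  have hrk : Module.finrank ℝ (W.comap (ext_BalFace Z)) + Z.card = Module.finrank ℝ W := by
    have h1 := supp_GSeg zero_stmt hS' hx0 (S := univ.filter fun e => x0.1 e.1 ≠ 0)
      fun e => by simp
    have h2 := supp_GSeg zero_stmt hS x0.2
      (S := (univ.filter fun e : {e // e ∉ Z} => x0.1 e.1 ≠ 0).map (Function.Embedding.subtype _))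
      fun e => by
        simp only [mem_map, mem_filter, mem_univ, true_and, Function.Embedding.coe_subtype]
        refine ⟨?_, fun h => ⟨⟨e, fun he => h (h0 e he)⟩, h, rfl⟩⟩
        rintro ⟨a, ha, rfl⟩
        exact ha
    rw [card_map] at h2
    omega
  refine ⟨W.comap (ext_BalFace Z), fun e => x0.1 e.1, fun a => ⟨ext_BalFace Z a.1, (e5 _).1 a.2⟩,
    hS', fun w hw h => ?_, hrk, fun a a' h => ?_, fun y => ⟨fun h => ?_, ?_⟩, fun a a' h => ?_⟩
  · have h1 := hB _ hw fun e => by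
      by_cases h2 : e ∈ Z
      · rw [e1 w e h2]
      · exact (e2 w ⟨e, h2⟩).symm ▸ h ⟨e, h2⟩
    funext e
    rw [← e2 w e, h1]
    rfl
  · refine Subtype.ext (funext fun e => ?_)
    rw [← e2 a.1 e, ← e2 a'.1 e]
    exact congrFun (congrArg Subtype.val h) e.1
  · exact ⟨⟨fun e => y.1 e.1, by rw [e5, e3 _ h]; exact y.2⟩, Subtype.ext (e3 _ h)⟩
  · rintro ⟨a, rfl⟩
    exact e1 a.1
  · obtain ⟨hne, φ, h1, h2⟩ := h
    refine ⟨fun h => hne (Subtype.ext (funext fun e => ?_)),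
      φ.map (Function.Embedding.subtype _), by rw [card_map]; omega, fun e he => ?_⟩
    · rw [← e2 a.1 e, ← e2 a'.1 e]
      exact congrFun (congrArg Subtype.val h) e.1
    · obtain ⟨g, hg, rfl⟩ := mem_map.1 he
      exact ⟨fun h => (h2 g hg).1 ((e2 a.1 g).symm.trans h),
        fun h => (h2 g hg).2 ((e2 a'.1 g).symm.trans h)⟩

/-- Balinski's theorem inside a face. -/
theorem bal_BalFace (hS : Simple W b) (hB : Bdd W) (Z : Finset E) {C S T : Finset (Vtx W b)}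
    (hcl : Clo_BalFace (PG W b) C S) (hd : Disjoint C S) {x0 : Vtx W b} (hx0 : x0 ∈ C)
    (h0 : ∀ e ∈ Z, x0.1 e = 0) (hT : ∀ s ∈ S, (∀ e ∈ Z, s.1 e = 0) → s ∈ T)
    (hlt : T.card + Z.card < Module.finrank ℝ W) (y : Vtx W b) (hy : ∀ e ∈ Z, y.1 e = 0)
    (hyS : y ∉ S) : y ∈ C := by
  classical
  obtain ⟨W', b', ι, h1, h2, h3, h4, h5, h6⟩ := face_BalFace hS hB Z x0 h0
  obtain ⟨-, hfin⟩ := ext_stmt _ W' b'
  let _ : Fintype (Vtx W' b') := Fintype.ofFinite _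
  obtain ⟨a0, rfl⟩ := (h5 x0).1 h0
  obtain ⟨a, rfl⟩ := (h5 y).1 hy
  by_contra hn
  obtain ⟨c, hc, w, w1, w2, w3⟩ := bal_stmt (cone_stmt (pivot_stmt zero_stmt)) _ W' b' h1 h2 hfin
    (univ.filter fun c => ι c ∈ S) (univ.filter fun c => ι c ∈ C) (by
      have := card_le_card_of_injOn (s := univ.filter fun c => ι c ∈ S) (t := T) ι
        (fun c hc => hT _ (mem_filter.1 hc).2 ((h5 _).2 ⟨c, rfl⟩)) h4.injOn
      omega) ⟨a0, mem_filter.2 ⟨mem_univ _, hx0⟩⟩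
    (disjoint_left.2 fun c c1 c2 => disjoint_left.1 hd (mem_filter.1 c1).2 (mem_filter.1 c2).2)
    ⟨a, fun h => hn (mem_filter.1 h).2, fun h => hyS (mem_filter.1 h).2⟩
  exact (hcl _ (mem_filter.1 hc).2 _ (h6 _ _ w3)).elim
    (fun h => w1 (mem_filter.2 ⟨mem_univ _, h⟩)) fun h => w2 (mem_filter.2 ⟨mem_univ _, h⟩)

/-- A nonempty face has many vertices. -/
theorem many_BalFace (hS : Simple W b) (hB : Bdd W) (Z : Finset E) (T : Finset (Vtx W b))
    {x : E → ℝ} (hx : x ∈ Poly W b) (h0 : ∀ e ∈ Z, x e = 0)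
    (hlt : T.card + Z.card < Module.finrank ℝ W) :
    ∃ y : Vtx W b, (∀ e ∈ Z, y.1 e = 0) ∧ y ∉ T := by
  classical
  obtain ⟨x0, hx0⟩ := below_BalFace hB hx
  obtain ⟨W', b', ι, h1, h2, h3, h4, h5, -⟩ := face_BalFace hS hB Z x0 fun e he => hx0 e (h0 e he)
  obtain ⟨a0, -⟩ := (h5 x0).1 fun e he => hx0 e (h0 e he)
  obtain ⟨s, hs, -⟩ := (deg_stmt zero_stmt (pivot_stmt zero_stmt) _ W' b' h1 h2).1 a0
  obtain ⟨y, y1, y2⟩ := exists_mem_notMem_of_card_lt_card (s := T) (t := s.image ι) (by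
    rw [card_image_of_injective _ h4]
    omega)
  obtain ⟨a, -, rfl⟩ := mem_image.1 y1
  exact ⟨ι a, (h5 _).2 ⟨a, rfl⟩, y2⟩

end

/-! Leaf moves and blocked moves at a vertex of a nondegenerate transportation polytope. -/

/-- The arrays with zero margins. -/
abbrev KW_Bal (p q : ℕ) : Submodule ℝ (Fin p × Fin q → ℝ) := LinearMap.ker (marg_GTrans p q)

/-- The standing assumptions. -/
structure Ctx_Bal {p q : ℕ} (u : Fin p → ℝ) (v : Fin q → ℝ) (b : Fin p × Fin q → ℝ) : Prop where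
  simple : Simple (KW_Bal p q) b
  bdd : Bdd (KW_Bal p q)
  pos : ∀ j, 0 < v j
  mem : ∀ x : Fin p × Fin q → ℝ, x ∈ Poly (KW_Bal p q) b ↔
    (∀ i j, 0 ≤ x (i, j)) ∧ (∀ i, (∑ j, x (i, j)) = u i) ∧ ∀ j, (∑ i, x (i, j)) = v j

/-- Column `j` is concentrated in row `a`. -/
def Leaf_Bal {p q : ℕ} (x : Fin p × Fin q → ℝ) (j : Fin q) (a : Fin p) : Prop :=
  ∀ i, i ≠ a → x (i, j) = 0

/-- Some column has disjoint supports in the two arrays. -/
def Sep_Bal {p q : ℕ} (x y : Fin p × Fin q → ℝ) : Prop := ∃ j, ∀ i, x (i, j) = 0 ∨ y (i, j) = 0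

/-- The edges whose ends have a common support cell in every column. -/
def GN_Bal {p q : ℕ} (b : Fin p × Fin q → ℝ) : SimpleGraph (Vtx (KW_Bal p q) b) where
  Adj x y := (PG (KW_Bal p q) b).Adj x y ∧ ¬ Sep_Bal x.1 y.1
  symm := ⟨fun _ _ h => ⟨h.1.symm, fun ⟨j, hj⟩ => h.2 ⟨j, fun i => (hj i).symm⟩⟩⟩
  loopless := ⟨fun _ h => h.1.ne rfl⟩

/-- A leaf move of column `h` to row `a'`. -/
def LM_Bal {p q : ℕ} {b : Fin p × Fin q → ℝ} (x : Vtx (KW_Bal p q) b) (h : Fin q) (a' : Fin p)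
    (y : Vtx (KW_Bal p q) b) : Prop :=
  (PG (KW_Bal p q) b).Adj x y ∧ Leaf_Bal y.1 h a' ∧ ∀ g, g.2 ≠ h → (x.1 g = 0 ↔ y.1 g = 0)

/-- A blocked move of column `h` from row `a` to row `a'`. -/
def BM_Bal {p q : ℕ} {b : Fin p × Fin q → ℝ} (x : Vtx (KW_Bal p q) b) (h : Fin q) (a a' : Fin p)
    (y : Vtx (KW_Bal p q) b) : Prop :=
  (GN_Bal b).Adj x y ∧ y.1 (a', h) ≠ 0 ∧ y.1 (a, h) ≠ 0 ∧
    ∀ g, g ≠ (a', h) → x.1 g = 0 → y.1 g = 0

section

variable {p q : ℕ} {u : Fin p → ℝ} {v : Fin q → ℝ} {b : Fin p × Fin q → ℝ}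

theorem col_Bal (H : Ctx_Bal u v b) {x : Fin p × Fin q → ℝ} (hx : x ∈ Poly (KW_Bal p q) b)
    (j : Fin q) : ∃ i, x (i, j) ≠ 0 := by
  by_contra hn
  push Not at hn
  have := ((H.mem x).1 hx).2.2 j
  rw [sum_eq_zero fun a _ => hn a] at this
  exact (H.pos j).ne this

theorem val_Bal (H : Ctx_Bal u v b) {x : Fin p × Fin q → ℝ} (hx : x ∈ Poly (KW_Bal p q) b)
    {j : Fin q} {a : Fin p} (h : Leaf_Bal x j a) : x (a, j) = v j := by
  rw [← ((H.mem x).1 hx).2.2 j, sum_eq_single a (fun i _ hi => h i hi)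
    fun h => absurd (mem_univ _) h]

theorem ne_Bal (H : Ctx_Bal u v b) {x : Fin p × Fin q → ℝ} (hx : x ∈ Poly (KW_Bal p q) b)
    {j : Fin q} {a : Fin p} (h : Leaf_Bal x j a) : x (a, j) ≠ 0 := by
  rw [val_Bal H hx h]
  exact (H.pos j).ne'

theorem move_Bal (H : Ctx_Bal u v b) (x : Vtx (KW_Bal p q) b) {h : Fin q} {a a' : Fin p}
    (hl : Leaf_Bal x.1 h a) (hne : a' ≠ a) : ∃ y, LM_Bal x h a' y ∨ BM_Bal x h a a' y := by
  classical
  obtain ⟨y, e, hy, a1, a2, a3, a4⟩ := piv_BalFace H.simple H.bdd x (hl a' hne)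
  have z : ∀ g, g ≠ (a', h) → x.1 g = 0 → y.1 g = 0 := fun g h1 h2 =>
    (a4 g (fun h3 => a1 (h3 ▸ h2)) h1).1 h2
  refine ⟨y, ?_⟩
  obtain ⟨i, j⟩ := e
  by_cases hj : j = h
  · subst hj
    obtain rfl : i = a := by
      by_contra hi
      exact a1 (hl i hi)
    refine Or.inl ⟨hy, fun c hc => ?_, fun g hg => a4 g (fun h => hg (congrArg Prod.snd h))
      fun h => hg (congrArg Prod.snd h)⟩
    by_cases hci : c = i
    · exact hci ▸ a2
    · exact z _ (fun h => hc (congrArg Prod.fst h)) (hl c hci)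
  · have ya : y.1 (a, h) ≠ 0 := fun h0 => ne_Bal H x.2.1 hl ((a4 _
      (fun h => hj (congrArg Prod.snd h).symm) fun h => hne (congrArg Prod.fst h).symm).2 h0)
    refine Or.inr ⟨⟨hy, ?_⟩, a3, ya, z⟩
    rintro ⟨k, hk⟩
    by_cases hkh : k = h
    · subst hkh
      exact (hk a).elim (ne_Bal H x.2.1 hl) ya
    · obtain ⟨c, hc⟩ := col_Bal H y.2.1 k
      exact hc (z _ (fun h => hkh (congrArg Prod.snd h)) ((hk c).resolve_right hc))

/-- The entries of a pivot direction. -/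
theorem unit_Bal {x w : Fin p × Fin q → ℝ} (hx : IsVtx (KW_Bal p q) b x) (hw : w ∈ KW_Bal p q)
    {f : Fin p × Fin q} (hf : 0 < w f) (w0 : ∀ g, x g = 0 → g ≠ f → w g = 0)
    (e : Fin p × Fin q) : (w e < 0 → w e = -w f) ∧ (0 < w e → w e = w f) := by
  obtain ⟨z, hz, hz0, z1, z2, z3⟩ := cycle_EqCol (show marg_GTrans p q w = 0 from hw) hf
  have zf : z f = 1 := (z2 _ hf).resolve_left fun h =>
    hz0 (hx.2 z hz fun g hg => by
      by_cases hgf : g = f
      · rw [hgf, h]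
      · exact z1 g (w0 g hg hgf))
  have hd := congrFun (dir_GSeg hx hz zf (fun g hg hgf => z1 g (w0 g hg hgf)) hw w0) e
  rw [Pi.smul_apply, smul_eq_mul] at hd
  refine ⟨fun he => ?_, fun he => ?_⟩
  · rcases z3 e he with h | h
    · rw [h, mul_zero] at hd
      exact absurd hd he.ne
    · rw [hd, h, mul_neg, mul_one]
  · rcases z2 e he with h | h
    · rw [h, mul_zero] at hd
      exact absurd hd he.ne'
    · rw [hd, h, mul_one]

theorem four_mem_Bal (a a' : Fin p) (g h : Fin q) :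
    (Pi.single (a, g) 1 - Pi.single (a', g) 1 + Pi.single (a', h) 1 - Pi.single (a, h) 1 :
      Fin p × Fin q → ℝ) ∈ KW_Bal p q := by
  rw [LinearMap.mem_ker, map_sub, map_add, map_sub]
  simp only [marg_single_GTrans]
  refine Prod.ext ?_ ?_ <;> simp

/-- Two opposite leaf moves pass through a column that is larger than both together. -/
theorem two_Bal (H : Ctx_Bal u v b) {x y y' : Vtx (KW_Bal p q) b} {g g' : Fin q} {a a' : Fin p}
    (hne : a ≠ a') (hg : Leaf_Bal x.1 g a) (hg' : Leaf_Bal x.1 g' a') (hy : LM_Bal x g a' y)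
    (hy' : LM_Bal x g' a y') : ∃ k, v g + v g' ≤ v k := by
  classical
  have hgg : g ≠ g' := by
    rintro rfl
    exact ne_Bal H x.2.1 hg (hg' a hne)
  have aux : ∀ {y : Vtx (KW_Bal p q) b} {g : Fin q} {a a' : Fin p}, a ≠ a' → Leaf_Bal x.1 g a →
      LM_Bal x g a' y → (y.1 - x.1) (a', g) = v g ∧ (y.1 - x.1) (a, g) = -v g ∧
        ∀ c, x.1 c = 0 → c ≠ (a', g) → (y.1 - x.1) c = 0 := by
    intro y g a a' hne hg hy
    refine ⟨?_, ?_, fun c h1 h2 => ?_⟩
    · rw [Pi.sub_apply, val_Bal H y.2.1 hy.2.1, hg a' hne.symm, sub_zero]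
    · rw [Pi.sub_apply, val_Bal H x.2.1 hg, hy.2.1 a hne, zero_sub]
    · rw [Pi.sub_apply, h1, sub_zero]
      by_cases h3 : c.2 = g
      · obtain ⟨i, j⟩ := c
        obtain rfl : j = g := h3
        exact hy.2.1 i fun h => h2 (by rw [h])
      · exact (hy.2.2 c h3).1 h1
  obtain ⟨a1, a2, a3⟩ := aux hne hg hy
  obtain ⟨b1, b2, b3⟩ := aux hne.symm hg' hy'
  have hw := sub_mem_GSeg y.2.1 x.2.1
  have hw' := sub_mem_GSeg y'.2.1 x.2.1
  obtain ⟨w, hwe⟩ : ∃ w, w = y.1 - x.1 := ⟨_, rfl⟩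
  obtain ⟨w', hwe'⟩ : ∃ w, w = y'.1 - x.1 := ⟨_, rfl⟩
  rw [← hwe] at a1 a2 a3 hw
  rw [← hwe'] at b1 b2 b3 hw'
  have U := unit_Bal x.2 hw (a1 ▸ H.pos g) a3
  have U' := unit_Bal x.2 hw' (b1 ▸ H.pos g') b3
  rw [a1] at U
  rw [b1] at U'
  have hD := x.2.2 (v g' • w + v g • w' - (v g * v g') • (Pi.single (a', g) 1 -
    Pi.single (a, g) 1 + Pi.single (a, g') 1 - Pi.single (a', g') 1))
    (sub_mem (add_mem (Submodule.smul_mem _ _ hw) (Submodule.smul_mem _ _ hw'))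
      (Submodule.smul_mem _ _ (four_mem_Bal a' a g g'))) fun c hc => by
      have n1 : c ≠ (a, g) := fun h => ne_Bal H x.2.1 hg (h ▸ hc)
      have n2 : c ≠ (a', g') := fun h => ne_Bal H x.2.1 hg' (h ▸ hc)
      simp only [Pi.sub_apply, Pi.add_apply, Pi.smul_apply, smul_eq_mul, Pi.single_eq_of_ne n1,
        Pi.single_eq_of_ne n2]
      by_cases h1 : c = (a', g)
      · have h2 : c ≠ (a, g') := fun h => hgg (congrArg Prod.snd (h1.symm.trans h))
        rw [b3 c hc h2, Pi.single_eq_of_ne h2, h1, a1, Pi.single_eq_same]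
        ring
      · rw [a3 c hc h1, Pi.single_eq_of_ne h1]
        by_cases h2 : c = (a, g')
        · rw [h2, b1, Pi.single_eq_same]
          ring
        · rw [b3 c hc h2, Pi.single_eq_of_ne h2]
          ring
  have we : w (a, g) < 0 := by
    rw [a2, neg_lt_zero]
    exact H.pos g
  obtain ⟨k, hk⟩ := exists_pos_EqCol (fun k => w (a, k)) (row_EqCol hw a) we
  obtain ⟨c, hc⟩ := exists_neg_EqCol (fun c => w (c, k)) (col_EqCol hw k) hk
  have hkg : k ≠ g := by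
    rintro rfl
    exact lt_asymm hk we
  have hkg' : k ≠ g' := by
    rintro rfl
    exact hk.ne' (a3 _ (hg' a hne) fun h => hne (congrArg Prod.fst h))
  have hca : c ≠ a := by
    rintro rfl
    exact lt_asymm hk hc
  have h1 := congrFun hD (a, k)
  have m1 : (a, k) ≠ (a', g) := fun h => hkg (congrArg Prod.snd h)
  have m2 : (a, k) ≠ (a, g) := fun h => hkg (congrArg Prod.snd h)
  have m3 : (a, k) ≠ (a, g') := fun h => hkg' (congrArg Prod.snd h)
  have m4 : (a, k) ≠ (a', g') := fun h => hkg' (congrArg Prod.snd h)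
  simp only [Pi.sub_apply, Pi.add_apply, Pi.smul_apply, smul_eq_mul, Pi.single_eq_of_ne m1,
    Pi.single_eq_of_ne m2, Pi.single_eq_of_ne m3, Pi.single_eq_of_ne m4, Pi.zero_apply,
    (U _).2 hk] at h1
  have h2 : w' (a, k) = -v g' := mul_left_cancel₀ (H.pos g).ne' (by linarith)
  have h3 := (U _).1 hc
  rw [hwe', Pi.sub_apply] at h2
  rw [hwe, Pi.sub_apply] at h3
  have h4 := y.2.1.1 (c, k)
  have h5 := y'.2.1.1 (a, k)
  have h6 : ∑ d ∈ ({c, a} : Finset (Fin p)), x.1 (d, k) ≤ ∑ d, x.1 (d, k) :=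
    sum_le_sum_of_subset_of_nonneg (subset_univ _) fun d _ _ => x.2.1.1 _
  rw [sum_pair hca, ((H.mem _).1 x.2.1).2.2 k] at h6
  exact ⟨k, by linarith⟩

/-- The pivot along a four-cycle. -/
theorem square_Bal (H : Ctx_Bal u v b) (x : Vtx (KW_Bal p q) b) {g h : Fin q} {a a' : Fin p}
    (hne : a ≠ a') (hgh : g ≠ h) (h1 : x.1 (a, h) ≠ 0) (h2 : x.1 (a', h) ≠ 0)
    (hg : Leaf_Bal x.1 g a') :
    ∃ y, (PG (KW_Bal p q) b).Adj x y ∧ y.1 (a, g) ≠ 0 ∧ y.1 (a', h) ≠ 0 ∧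
      (∀ c, c ≠ (a, g) → x.1 c = 0 → y.1 c = 0) ∧ (y.1 (a', g) = 0 ∨ y.1 (a, h) = 0) := by
  classical
  obtain ⟨y, e, hy, a1, a2, a3, a4⟩ := piv_BalFace H.simple H.bdd x (hg a hne)
  have z : ∀ c, c ≠ (a, g) → x.1 c = 0 → y.1 c = 0 := fun c h1 h2 =>
    (a4 c (fun h3 => a1 (h3 ▸ h2)) h1).1 h2
  have n1 : (a, g) ≠ (a', g) := fun h => hne (congrArg Prod.fst h)
  have n2 : (a, g) ≠ (a', h) := fun h => hne (congrArg Prod.fst h)
  have n3 : (a, g) ≠ (a, h) := fun h => hgh (congrArg Prod.snd h)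
  have hd := congrFun (dir_GSeg x.2 (four_mem_Bal a a' g h) (f := (a, g))
    (by simp [Pi.single_eq_of_ne n1, Pi.single_eq_of_ne n2, Pi.single_eq_of_ne n3])
    (fun c c1 c2 => by
      have m1 : c ≠ (a', g) := fun h => ne_Bal H x.2.1 hg (h ▸ c1)
      have m2 : c ≠ (a', h) := fun h => h2 (h ▸ c1)
      have m3 : c ≠ (a, h) := fun h => h1 (h ▸ c1)
      simp [Pi.single_eq_of_ne m1, Pi.single_eq_of_ne m2, Pi.single_eq_of_ne m3,
        Pi.single_eq_of_ne c2])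
    (sub_mem_GSeg y.2.1 x.2.1) fun c c1 c2 => by rw [Pi.sub_apply, z c c2 c1, c1, sub_zero]) e
  have xe : 0 < x.1 e := (x.2.1.1 e).lt_of_ne' a1
  have yf : 0 < y.1 (a, g) := (y.2.1.1 _).lt_of_ne' a3
  have he : e = (a', g) ∨ e = (a, h) := by
    by_contra hn
    push Not at hn
    simp only [Pi.sub_apply, Pi.add_apply, Pi.smul_apply, smul_eq_mul, a2, hg a hne,
      Pi.single_eq_of_ne hn.1, Pi.single_eq_of_ne hn.2, sub_zero, zero_sub] at hd
    have s1 : ∀ c : Fin p × Fin q, 0 ≤ (Pi.single c 1 : Fin p × Fin q → ℝ) e := fun c => by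
      rw [Pi.single_apply]
      split_ifs <;> norm_num
    have := mul_nonneg yf.le (add_nonneg (s1 (a, g)) (s1 (a', h)))
    linarith
  refine ⟨y, hy, a3, fun h0 => h2 ((a4 _ ?_ n2.symm).2 h0), z,
    he.imp (fun h => by rw [← h, a2]) fun h => by rw [← h, a2]⟩
  rcases he with rfl | rfl
  · exact fun h => hgh (congrArg Prod.snd h).symm
  · exact fun h => hne (congrArg Prod.fst h).symm

open Classical in
/-- The support cells in columns with at least two support cells. -/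
noncomputable def spl_Bal (x : Fin p × Fin q → ℝ) : Finset (Fin p × Fin q) :=
  univ.filter fun e => x e ≠ 0 ∧ ∃ a, a ≠ e.1 ∧ x (a, e.2) ≠ 0

theorem mem_spl_Bal {x : Fin p × Fin q → ℝ} {e : Fin p × Fin q} :
    e ∈ spl_Bal x ↔ x e ≠ 0 ∧ ∃ a, a ≠ e.1 ∧ x (a, e.2) ≠ 0 := by
  simp [spl_Bal]

theorem card_spl_Bal (H : Ctx_Bal u v b) (hp : 0 < p) (x : Vtx (KW_Bal p q) b) :
    (spl_Bal x.1).card ≤ 2 * p := by
  classical
  obtain ⟨S, hS⟩ : ∃ S : Finset (Fin p × Fin q), ∀ e, e ∈ S ↔ x.1 e ≠ 0 :=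
    ⟨univ.filter fun e => x.1 e ≠ 0, fun e => by simp⟩
  have h1 := supp_GSeg zero_stmt H.simple x.2 hS
  have h2 := rank_EqCol (q := q) hp
  have h3 := count_EqCol S ∅ fun j => (col_Bal H x.2.1 j).imp fun i hi => (hS _).2 hi
  have h4 : spl_Bal x.1 ⊆ S.filter fun e => (∃ a, (a, e.2) ∈ S ∧ a ≠ e.1) ∨ e.2 ∈ (∅ : Finset _) :=
    fun e he => by
      obtain ⟨a1, a, a2, a3⟩ := mem_spl_Bal.1 he
      exact mem_filter.2 ⟨(hS _).2 a1, Or.inl ⟨a, (hS _).2 a3, a2⟩⟩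
  have h5 := card_le_card h4
  rw [Fintype.card_prod, Fintype.card_fin, Fintype.card_fin] at h1
  rw [card_empty] at h3
  change S.card + Module.finrank ℝ (LinearMap.ker (marg_GTrans p q)) = p * q at h1
  omega

/-- All but few columns are leaves. -/
theorem leaves_Bal (H : Ctx_Bal u v b) (hp : 0 < p) (x : Vtx (KW_Bal p q) b) :
    ∃ (Sp : Finset (Fin q)) (lam : Fin q → Fin p), Sp.card ≤ 2 * p ∧
      ∀ j, j ∉ Sp → Leaf_Bal x.1 j (lam j) := by
  classical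
  choose lam hlam using col_Bal H x.2.1
  refine ⟨(spl_Bal x.1).image Prod.snd, lam, card_image_le.trans (card_spl_Bal H hp x),
    fun j hj i hi => ?_⟩
  by_contra h
  exact hj (mem_image.2 ⟨(lam j, j), mem_spl_Bal.2 ⟨hlam j, i, hi, h⟩, rfl⟩)

theorem cov_Bal (H : Ctx_Bal u v b) (hp : 0 < p) : CliqueCov (GN_Bal b) (2 * p) := by
  classical
  intro x
  obtain ⟨i⟩ : Nonempty (spl_Bal x.1 ↪ Fin (2 * p)) := Function.Embedding.nonempty_of_card_le (by
    rw [Fintype.card_coe, Fintype.card_fin]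
    exact card_spl_Bal H hp x)
  have key : ∀ y : Vtx (KW_Bal p q) b, ∃ c : Fin (2 * p), (GN_Bal b).Adj x y →
      ∃ e : spl_Bal x.1, c = i e ∧ ∀ g, g ≠ e.1 → x.1 g ≠ 0 → y.1 g ≠ 0 := by
    intro y
    by_cases hy : (GN_Bal b).Adj x y
    · obtain ⟨e, f, a1, a2, a3, -, a5⟩ := adj_BalFace H.simple hy.1
      have he : e ∈ spl_Bal x.1 := by
        refine mem_spl_Bal.2 ⟨a1, ?_⟩
        by_contra hn
        push Not at hn
        refine hy.2 ⟨e.2, fun c => ?_⟩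
        by_cases hc : c = e.1
        · exact Or.inr (hc ▸ a2)
        · exact Or.inl (hn c hc)
      exact ⟨i ⟨e, he⟩, fun _ => ⟨⟨e, he⟩, rfl, fun g h1 h2 h3 =>
        h2 ((a5 g h1 fun h => h2 (h ▸ a3)).2 h3)⟩⟩
    · exact ⟨⟨0, by omega⟩, fun h => absurd h hy⟩
  choose c hc using key
  refine ⟨c, fun y z hy hz e hne => ?_⟩
  obtain ⟨e1, a1, a2⟩ := hc y hy
  obtain ⟨e2, b1, b2⟩ := hc z hz
  obtain rfl : e1 = e2 := i.injective (by rw [← a1, ← b1, e])
  obtain ⟨c1, a, c2, c3⟩ := mem_spl_Bal.1 e1.2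
  refine ⟨⟨hne, (univ.filter fun g => x.1 g ≠ 0).erase e1, ?_, fun g hg => ?_⟩, ?_⟩
  · have c4 : e1.1 ∈ univ.filter fun g => x.1 g ≠ 0 := mem_filter.2 ⟨mem_univ _, c1⟩
    rw [card_erase_add_one c4]
    exact supp_GSeg zero_stmt H.simple x.2 fun g => by simp
  · obtain ⟨g1, g2⟩ := mem_erase.1 hg
    exact ⟨a2 g g1 (mem_filter.1 g2).2, b2 g g1 (mem_filter.1 g2).2⟩
  · rintro ⟨j, hj⟩
    obtain ⟨k, k1, k2⟩ : ∃ k, (k, j) ≠ e1.1 ∧ x.1 (k, j) ≠ 0 := by
      by_cases h : j = e1.1.2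
      · exact ⟨a, fun h' => c2 (congrArg Prod.fst h'), h ▸ c3⟩
      · exact (col_Bal H x.2.1 j).imp fun k hk => ⟨fun h' => h (congrArg Prod.snd h'), hk⟩
    exact (hj k).elim (a2 _ k1 k2) (b2 _ k1 k2)

/-- Many large leaves outside a given row. -/
theorem out_Bal (H : Ctx_Bal u v b) (hp : 0 < p) {M : ℝ} (hM : ∀ j, v j ≤ M) (hM0 : 0 < M)
    (hbal : ∀ i, u i + 5000 * p * M ≤ ∑ j ∈ univ.filter fun j => M < 2 * v j, v j)
    (x : Vtx (KW_Bal p q) b) (i : Fin p) :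
    ∃ O : Finset (Fin q), 4998 * p ≤ O.card ∧
      ∀ j ∈ O, M < 2 * v j ∧ ∃ a, a ≠ i ∧ Leaf_Bal x.1 j a := by
  classical
  obtain ⟨Sp, lam, h1, h2⟩ := leaves_Bal H hp x
  obtain ⟨L, hL⟩ : ∃ L, L = univ.filter fun j => M < 2 * v j := ⟨_, rfl⟩
  have h3 := hbal i
  rw [← hL, ← sum_filter_add_sum_filter_not L fun j => Leaf_Bal x.1 j i] at h3
  have h4 : ∑ j ∈ L.filter fun j => Leaf_Bal x.1 j i, v j ≤ u i := by
    rw [← ((H.mem _).1 x.2.1).2.1 i,
      sum_congr rfl fun j hj => (val_Bal H x.2.1 (mem_filter.1 hj).2).symm]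
    exact sum_le_sum_of_subset_of_nonneg (subset_univ _) fun j _ _ => x.2.1.1 _
  have h5 := sum_le_card_nsmul (L.filter fun j => ¬ Leaf_Bal x.1 j i) v M fun j _ => hM j
  rw [nsmul_eq_mul] at h5
  have h6 : ((5000 * p : ℕ) : ℝ) ≤ (L.filter fun j => ¬ Leaf_Bal x.1 j i).card := by
    refine le_of_mul_le_mul_right ?_ hM0
    push_cast
    linarith
  have h7 := Nat.cast_le.1 h6
  refine ⟨(L.filter fun j => ¬ Leaf_Bal x.1 j i) \ Sp, ?_, fun j hj => ?_⟩
  · have := le_card_sdiff Sp (L.filter fun j => ¬ Leaf_Bal x.1 j i)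
    omega
  · obtain ⟨a1, a2⟩ := mem_sdiff.1 hj
    obtain ⟨a3, a4⟩ := mem_filter.1 a1
    rw [hL] at a3
    exact ⟨(mem_filter.1 a3).2, lam j, fun h => a4 (h ▸ h2 j a2), h2 j a2⟩

theorem deg_Bal (H : Ctx_Bal u v b) (hp : 0 < p) {M : ℝ} (hM : ∀ j, v j ≤ M) (hM0 : 0 < M)
    (hbal : ∀ i, u i + 5000 * p * M ≤ ∑ j ∈ univ.filter fun j => M < 2 * v j, v j) :
    MinDeg (GN_Bal b) (4998 * p) := by
  classical
  intro x
  obtain ⟨i, hi⟩ : ∃ i : Fin p, ∀ j a, M < 2 * v j → a ≠ i → Leaf_Bal x.1 j a →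
      ∃ a' y, a' ≠ a ∧ BM_Bal x j a a' y := by
    by_cases h : ∃ g i, M < 2 * v g ∧ Leaf_Bal x.1 g i ∧ ∀ a', a' ≠ i → ∃ y, LM_Bal x g a' y
    · obtain ⟨g, i, h1, h2, h3⟩ := h
      refine ⟨i, fun j a j1 j2 j3 => ?_⟩
      obtain ⟨y, hy | hy⟩ := move_Bal H x j3 j2.symm
      · obtain ⟨y', hy'⟩ := h3 a j2
        obtain ⟨k, hk⟩ := two_Bal H j2 j3 h2 hy hy'
        have := hM k
        linarith
      · exact ⟨i, y, j2.symm, hy⟩
    · refine ⟨⟨0, hp⟩, fun j a j1 _ j3 => ?_⟩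
      by_contra hn
      refine h ⟨j, a, j1, j3, fun a' ha' => ?_⟩
      obtain ⟨y, hy | hy⟩ := move_Bal H x j3 ha'
      · exact ⟨y, hy⟩
      · exact absurd ⟨a', y, ha', hy⟩ hn
  obtain ⟨O, h1, h2⟩ := out_Bal H hp hM hM0 hbal x i
  have key : ∀ j, ∃ (a' : Fin p) (y : Vtx (KW_Bal p q) b), j ∈ O → (GN_Bal b).Adj x y ∧
      x.1 (a', j) = 0 ∧ y.1 (a', j) ≠ 0 ∧ ∀ g, g ≠ (a', j) → x.1 g = 0 → y.1 g = 0 := by
    intro j
    by_cases hj : j ∈ O
    · obtain ⟨j1, a, j2, j3⟩ := h2 j hj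
      obtain ⟨a', y, c1, c2⟩ := hi j a j1 j2 j3
      exact ⟨a', y, fun _ => ⟨c2.1, j3 a' c1, c2.2.1, c2.2.2.2⟩⟩
    · exact ⟨i, x, fun h => absurd h hj⟩
  choose a' y hy using key
  refine ⟨O.image y, ?_, fun z hz => ?_⟩
  · rw [card_image_of_injOn]
    · exact h1
    · intro j hj k hk e
      by_contra hne
      exact (hy j hj).2.2.1 (e ▸ (hy k hk).2.2.2 _ (fun h => hne (congrArg Prod.snd h))
        (hy j hj).2.1)
  · obtain ⟨j, hj, rfl⟩ := mem_image.1 hz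
    exact (hy j hj).1

end

/-! A class with small boundaries contains many separated vertices; two such classes meet. -/

/-- Column `h` separates the member `h` of the family from the other members. -/
def Fam_Bal {p q : ℕ} (T : Finset (Fin q)) (Y : Fin q → Fin p × Fin q → ℝ) : Prop :=
  ∀ h ∈ T, ∀ h' ∈ T, h ≠ h' → ∀ i, Y h (i, h) = 0 ∨ Y h' (i, h) = 0

theorem sep_Bal {p q : ℕ} {x y : Fin p × Fin q → ℝ} {h : Fin q} {a a' : Fin p} (hne : a ≠ a')
    (hx : Leaf_Bal x h a) (hy : Leaf_Bal y h a') (i : Fin p) : x (i, h) = 0 ∨ y (i, h) = 0 := by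
  by_cases hi : i = a
  · exact Or.inr (hy i (hi ▸ hne))
  · exact Or.inl (hx i hi)

section

variable {p q : ℕ} {u : Fin p → ℝ} {v : Fin q → ℝ} {b : Fin p × Fin q → ℝ}

open Classical in
/-- The leaves with a leaf move. -/
noncomputable def unb_Bal (z : Vtx (KW_Bal p q) b) : Finset (Fin q) :=
  univ.filter fun h => ∃ a a' y, a' ≠ a ∧ Leaf_Bal z.1 h a ∧ LM_Bal z h a' y

theorem mem_unb_Bal {z : Vtx (KW_Bal p q) b} {h : Fin q} :
    h ∈ unb_Bal z ↔ ∃ a a' y, a' ≠ a ∧ Leaf_Bal z.1 h a ∧ LM_Bal z h a' y := by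
  simp [unb_Bal]

theorem caseI_Bal (H : Ctx_Bal u v b) (hp : 2 ≤ p) (hq : 4998 * p ≤ q)
    (hdeg : MinDeg (GN_Bal b) (4998 * p)) {C S N : Finset (Vtx (KW_Bal p q) b)} (hC : C.Nonempty)
    (hcl : Clo_BalFace (PG (KW_Bal p q) b) C S) (hcl' : Clo_BalFace (GN_Bal b) C N)
    (hS : S.card ≤ 160 * (p + q)) (hN : N.card ≤ 160 * p)
    (hU : ∀ z ∈ C, q ≤ 10 * (unb_Bal z).card) :
    ∃ (T : Finset (Fin q)) (Y : Fin q → Vtx (KW_Bal p q) b), 200 ≤ T.card ∧ (∀ h ∈ T, Y h ∈ C) ∧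
      Fam_Bal T fun h => (Y h).1 := by
  classical
  obtain ⟨x, hx⟩ := hC
  obtain ⟨Sp, lam, h1, h2⟩ := leaves_Bal H (by omega) x
  obtain ⟨s, hs, hadj⟩ := hdeg x
  have key : ∀ (z : Vtx (KW_Bal p q) b) (h : Fin q), ∃ (a' : Fin p) (y : Vtx (KW_Bal p q) b),
      z ∈ s \ N → h ∈ unb_Bal z \ Sp → a' ≠ lam h ∧ Leaf_Bal z.1 h (lam h) ∧ LM_Bal z h a' y := by
    intro z h
    by_cases hz : z ∈ s \ N ∧ h ∈ unb_Bal z \ Sp
    · obtain ⟨a, a', y, c1, c2, c3⟩ := mem_unb_Bal.1 (mem_sdiff.1 hz.2).1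
      obtain rfl : lam h = a := by
        by_contra hne
        exact (hadj z (mem_sdiff.1 hz.1).1).2 ⟨h, sep_Bal hne (h2 h (mem_sdiff.1 hz.2).2) c2⟩
      exact ⟨a', y, fun _ _ => ⟨c1, c2, c3⟩⟩
    · exact ⟨lam h, x, fun a c => absurd ⟨a, c⟩ hz⟩
  choose a' Y hY using key
  by_contra hn
  have h3 := pairs_BalFace (s \ N) (fun z => unb_Bal z \ Sp) Y S (q / 10 - 2 * p - 200)
    (fun z hz h hh z' hz' h' hh' e => ?_) fun z hz => ?_
  · have h4 := le_card_sdiff N s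
    have h5 := Nat.mul_le_mul_right (q / 10 - 2 * p - 200) (show 9000 ≤ (s \ N).card by omega)
    omega
  · obtain ⟨a1, a2, a3⟩ := hY z h hz hh
    obtain ⟨b1, b2, b3⟩ := hY z' h' hz' hh'
    obtain rfl : h = h' := by
      by_contra hne
      refine (hadj z' (mem_sdiff.1 hz').1).2 ⟨h, sep_Bal a1.symm (h2 h (mem_sdiff.1 hh).2)
        fun i hi => (b3.2.2 (i, h) hne).2 ?_⟩
      rw [← e]
      exact a3.2.1 i hi
    refine ⟨Subtype.ext (eq_GExt z'.2 z.2.1 fun c hc => ?_), rfl⟩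
    by_cases h4 : c.2 = h
    · obtain ⟨i, j⟩ := c
      obtain rfl : j = h := h4
      refine a2 i fun hi => ne_Bal H z'.2.1 b2 (hi ▸ hc)
    · refine (a3.2.2 c h4).2 ?_
      rw [e]
      exact (b3.2.2 c h4).1 hc
  · have hz' : z ∈ C := (hcl' x hx z (hadj z (mem_sdiff.1 hz).1)).resolve_right (mem_sdiff.1 hz).2
    have h4 := card_filter_add_card_filter_not (s := unb_Bal z \ Sp) fun h => Y z h ∈ S
    have h5 := le_card_sdiff Sp (unb_Bal z)
    have h6 := hU z hz'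
    have h7 : ¬ 200 ≤ ((unb_Bal z \ Sp).filter fun h => ¬ Y z h ∈ S).card := fun h7 =>
      hn ⟨_, Y z, h7, fun h hh => (hcl z hz' _ (hY z h hz (mem_filter.1 hh).1).2.2.1).resolve_right
        (mem_filter.1 hh).2, fun h hh h' hh' hne => by
          obtain ⟨a1, a2, a3⟩ := hY z h hz (mem_filter.1 hh).1
          obtain ⟨-, -, b3⟩ := hY z h' hz (mem_filter.1 hh').1
          exact sep_Bal a1 a3.2.1 fun i hi => (b3.2.2 (i, h) hne).1 (a2 i hi)⟩
    omega

theorem caseII_Bal (H : Ctx_Bal u v b) (hp : 2 ≤ p) (hq : 4998 * p ≤ q)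
    {C S N : Finset (Vtx (KW_Bal p q) b)} {x : Vtx (KW_Bal p q) b} (hx : x ∈ C)
    (hout : ∀ i, ∃ O : Finset (Fin q), 600 + 2 * p ≤ O.card ∧
      ∀ j ∈ O, ∃ a, a ≠ i ∧ Leaf_Bal x.1 j a)
    (hcl : Clo_BalFace (PG (KW_Bal p q) b) C S) (hcl' : Clo_BalFace (GN_Bal b) C N)
    (hS : S.card ≤ 160 * (p + q)) (hN : N.card ≤ 160 * p) (hU : 10 * (unb_Bal x).card < q) :
    ∃ (T : Finset (Fin q)) (Y : Fin q → Vtx (KW_Bal p q) b), 200 ≤ T.card ∧ (∀ h ∈ T, Y h ∈ C) ∧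
      Fam_Bal T fun h => (Y h).1 := by
  classical
  obtain ⟨Sp, lam, h1, h2⟩ := leaves_Bal H (by omega) x
  have k1 : ∀ i, ∃ G : Finset (Fin q), G.card = 600 ∧
      ∀ g ∈ G, Leaf_Bal x.1 g (lam g) ∧ lam g ≠ i := by
    intro i
    obtain ⟨O, o1, o2⟩ := hout i
    have := le_card_sdiff Sp O
    obtain ⟨G, g1, g2⟩ := exists_subset_card_eq (s := O \ Sp) (n := 600) (by omega)
    refine ⟨G, g2, fun g hg => ?_⟩
    obtain ⟨g3, g4⟩ := mem_sdiff.1 (g1 hg)
    obtain ⟨a, a1, a2⟩ := o2 g g3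
    refine ⟨h2 g g4, fun h => ne_Bal H x.2.1 a2 (h2 g g4 a (h ▸ a1))⟩
  choose G hG1 hG2 using k1
  have k2 : ∀ (h : Fin q) (a' : Fin p), ∃ y, h ∉ unb_Bal x → h ∉ Sp → a' ≠ lam h →
      BM_Bal x h (lam h) a' y := by
    intro h a'
    by_cases hh : h ∉ unb_Bal x ∧ h ∉ Sp ∧ a' ≠ lam h
    · obtain ⟨y, hy | hy⟩ := move_Bal H x (h2 h hh.2.1) hh.2.2
      · exact absurd (mem_unb_Bal.2 ⟨_, _, y, hh.2.2, h2 h hh.2.1, hy⟩) hh.1
      · exact ⟨y, fun _ _ _ => hy⟩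
    · exact ⟨x, fun a c d => absurd ⟨a, c, d⟩ hh⟩
  choose X hX using k2
  obtain ⟨Bad, hBad⟩ : ∃ Bad : Finset (Fin q), Bad = univ.filter fun h =>
    h ∉ unb_Bal x ∧ h ∉ Sp ∧ ∃ a', a' ≠ lam h ∧ X h a' ∉ C := ⟨_, rfl⟩
  have k3 : Bad.card ≤ N.card := by
    have k : ∀ h, ∃ a', h ∈ Bad → a' ≠ lam h ∧ X h a' ∉ C ∧ BM_Bal x h (lam h) a' (X h a') ∧
        Leaf_Bal x.1 h (lam h) := by
      intro h
      by_cases hh : h ∈ Bad
      · rw [hBad] at hh
        obtain ⟨c1, c2, a', c3, c4⟩ := (mem_filter.1 hh).2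
        exact ⟨a', fun _ => ⟨c3, c4, hX h a' c1 c2 c3, h2 h c2⟩⟩
      · exact ⟨lam h, fun h => absurd h hh⟩
    choose a' ha using k
    refine card_le_card_of_injOn (fun h => X h (a' h)) (fun h hh => ?_) fun h hh h' hh' e => ?_
    · exact (hcl' x hx _ (ha h hh).2.2.1.1).resolve_left (ha h hh).2.1
    · by_contra hne
      obtain ⟨c1, -, c2, c3⟩ := ha h hh
      have e' : X h (a' h) = X h' (a' h') := e
      exact c2.2.1 (e' ▸ (ha h' hh').2.2.1.2.2.2 _ (fun h => hne (congrArg Prod.snd h)) (c3 _ c1))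
  obtain ⟨Hs, hHs⟩ : ∃ Hs : Finset (Fin q), Hs = (unb_Bal x ∪ Sp ∪ univ.biUnion G ∪ Bad)ᶜ :=
    ⟨_, rfl⟩
  have k4 : q ≤ Hs.card + (unb_Bal x).card + 762 * p := by
    have c1 := card_add_card_compl (unb_Bal x ∪ Sp ∪ univ.biUnion G ∪ Bad)
    have c2 := card_union_le (unb_Bal x ∪ Sp ∪ univ.biUnion G) Bad
    have c3 := card_union_le (unb_Bal x ∪ Sp) (univ.biUnion G)
    have c4 := card_union_le (unb_Bal x) Sp
    have c5 := card_biUnion_le_card_mul univ G 600 fun i _ => (hG1 i).le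
    rw [card_univ, Fintype.card_fin] at c5
    rw [← hHs, Fintype.card_fin] at c1
    omega
  have k5 : ∀ h ∈ Hs, h ∉ unb_Bal x ∧ h ∉ Sp ∧ (∀ i, ∀ g ∈ G i, g ≠ h) ∧
      ∀ a', a' ≠ lam h → X h a' ∈ C := by
    intro h hh
    rw [hHs, mem_compl, mem_union, mem_union, mem_union] at hh
    push Not at hh
    obtain ⟨⟨⟨c1, c2⟩, c3⟩, c4⟩ := hh
    refine ⟨c1, c2, fun i g hg e => c3 (mem_biUnion.2 ⟨i, mem_univ _, e ▸ hg⟩), fun a' ha => ?_⟩
    by_contra hn
    exact c4 (hBad ▸ mem_filter.2 ⟨mem_univ _, c1, c2, a', ha, hn⟩)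
  have k6 : ∀ h g, ∃ y : Vtx (KW_Bal p q) b, h ∈ Hs → g ∈ G (lam h) → (y ∉ S → y ∈ C) ∧
      y.1 (lam h, g) ≠ 0 ∧ y.1 (lam g, h) ≠ 0 ∧
      (∀ c, c ≠ (lam h, g) → c ≠ (lam g, h) → x.1 c = 0 → y.1 c = 0) ∧
      (y.1 (lam g, g) = 0 ∨ y.1 (lam h, h) = 0) := by
    intro h g
    by_cases hh : h ∈ Hs ∧ g ∈ G (lam h)
    · obtain ⟨c1, c2, c3, c4⟩ := k5 h hh.1
      obtain ⟨d1, d2⟩ := hG2 _ g hh.2
      obtain ⟨-, e1, e2, e3⟩ := hX h (lam g) c1 c2 d2
      obtain ⟨y, y1, y2, y3, y4, y5⟩ := square_Bal H (X h (lam g)) d2.symm (c3 _ g hh.2) e2 e1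
        fun i hi => e3 _ (fun h' => hi (congrArg Prod.fst h')) (d1 i hi)
      exact ⟨y, fun _ _ => ⟨(hcl _ (c4 _ d2) y y1).resolve_right, y2, y3,
        fun c n1 n2 n3 => y4 c n1 (e3 c n2 n3), y5⟩⟩
    · exact ⟨x, fun a c => absurd ⟨a, c⟩ hh⟩
  choose Y hY using k6
  by_contra hn
  obtain ⟨T, hT⟩ : ∃ T : Finset (Fin q), T = Hs.filter fun h =>
    ∃ g ∈ G (lam h), Y h g ∉ S ∧ (Y h g).1 (lam h, h) = 0 := ⟨_, rfl⟩
  have k7 : ¬ 200 ≤ T.card := by
    intro hc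
    have k : ∀ h, ∃ g, h ∈ T → h ∈ Hs ∧ g ∈ G (lam h) ∧ Y h g ∉ S ∧ (Y h g).1 (lam h, h) = 0 := by
      intro h
      by_cases hh : h ∈ T
      · rw [hT] at hh
        obtain ⟨c1, g, c2⟩ := mem_filter.1 hh
        exact ⟨g, fun _ => ⟨c1, c2⟩⟩
      · exact ⟨h, fun h => absurd h hh⟩
    choose γ hγ using k
    refine hn ⟨T, fun h => Y h (γ h), hc, fun h hh => ?_, fun h hh h' hh' hne => ?_⟩
    · obtain ⟨c1, c2, c3, -⟩ := hγ h hh
      exact (hY h _ c1 c2).1 c3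
    · obtain ⟨c1, c2, -, c4⟩ := hγ h hh
      obtain ⟨d1, d2, -, -⟩ := hγ h' hh'
      have l := h2 h (k5 h c1).2.1
      refine sep_Bal (hG2 _ _ c2).2 (fun i hi => ?_) fun i hi => ?_
      · by_cases h3 : i = lam h
        · exact h3 ▸ c4
        · exact (hY h _ c1 c2).2.2.2.1 _ (fun e => h3 (congrArg Prod.fst e))
            (fun e => hi (congrArg Prod.fst e)) (l i h3)
      · exact (hY h' _ d1 d2).2.2.2.1 _
          (fun e => (k5 h c1).2.2.1 _ _ d2 (congrArg Prod.snd e).symm)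
          (fun e => hne (congrArg Prod.snd e)) (l i hi)
  have h3 := pairs_BalFace (Hs \ T) (fun h => G (lam h)) Y S 400
    (fun h hh g hg h' hh' g' hg' e => ?_) fun h hh => ?_
  · have h4 := le_card_sdiff T Hs
    omega
  · have c1 := (mem_sdiff.1 hh).1
    have d1 := (mem_sdiff.1 hh').1
    obtain ⟨-, c2, c3, -⟩ := hY h g c1 hg
    have d2 := (hY h' g' d1 hg').2.2.2.1
    rw [← e] at d2
    refine ⟨?_, ?_⟩
    · by_contra hne
      exact c3 (d2 _ (fun e => (k5 h c1).2.2.1 _ _ hg' (congrArg Prod.snd e).symm)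
        (fun e => hne (congrArg Prod.snd e)) (h2 h (k5 h c1).2.1 _ (hG2 _ _ hg).2))
    · by_contra hne
      exact c2 (d2 _ (fun e => hne (congrArg Prod.snd e))
        (fun e => (k5 h' d1).2.2.1 _ _ hg (congrArg Prod.snd e))
        ((hG2 _ _ hg).1 _ (hG2 _ _ hg).2.symm))
  · obtain ⟨c1, c2⟩ := mem_sdiff.1 hh
    have h4 := card_filter_add_card_filter_not (s := G (lam h)) fun g => Y h g ∈ S
    have h5 := hG1 (lam h)
    have h6 : ¬ 200 ≤ ((G (lam h)).filter fun g => ¬ Y h g ∈ S).card := fun h6 =>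
      hn ⟨_, Y h, h6, fun g hg => (hY h g c1 (mem_filter.1 hg).1).1 (mem_filter.1 hg).2,
        fun g hg g' hg' hne => by
          obtain ⟨g1, g2⟩ := mem_filter.1 hg
          have g3 := (mem_filter.1 hg').1
          obtain ⟨-, -, -, y1, y2⟩ := hY h g c1 g1
          have y3 := y2.resolve_right fun y3 => c2 (hT ▸ mem_filter.2 ⟨c1, g, g1, g2, y3⟩)
          have n := (k5 h c1).2.2.1 _ g g1
          refine sep_Bal (hG2 _ _ g1).2.symm (fun i hi => ?_) fun i hi => ?_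
          · by_cases h3 : i = lam g
            · exact h3 ▸ y3
            · exact y1 _ (fun e => hi (congrArg Prod.fst e)) (fun e => n (congrArg Prod.snd e))
                ((hG2 _ _ g1).1 i h3)
          · exact (hY h g' c1 g3).2.2.2.1 _ (fun e => hne (congrArg Prod.snd e))
              (fun e => n (congrArg Prod.snd e)) ((hG2 _ _ g1).1 i hi)⟩
    omega

open Classical in
/-- The zero cells of a pattern in the columns of `J`. -/
noncomputable def zer_Bal (y : Fin p × Fin q → ℝ) (J : Finset (Fin q)) : Finset (Fin p × Fin q) :=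
  univ.filter fun e => e.2 ∈ J ∧ y e = 0

theorem mem_zer_Bal {y : Fin p × Fin q → ℝ} {J : Finset (Fin q)} {e : Fin p × Fin q} :
    e ∈ zer_Bal y J ↔ e.2 ∈ J ∧ y e = 0 := by
  simp [zer_Bal]

theorem card_zer_Bal (y : Fin p × Fin q → ℝ) (J : Finset (Fin q)) :
    (zer_Bal y J).card ≤ p * J.card := by
  have h : zer_Bal y J ⊆ univ ×ˢ J := fun e he => mem_product.2 ⟨mem_univ _, (mem_zer_Bal.1 he).1⟩
  have := card_le_card h
  rwa [card_product, card_univ, Fintype.card_fin] at this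

/-- One of the disjoint faces of a family contains few removed vertices. -/
theorem pigeon_Bal (H : Ctx_Bal u v b) {T : Finset (Fin q)} {Y : Fin q → Fin p × Fin q → ℝ}
    (hY : Fam_Bal T Y) (S : Finset (Vtx (KW_Bal p q) b)) {k : ℕ} (hk : S.card < T.card * k) :
    ∃ h ∈ T, ∃ R : Finset (Vtx (KW_Bal p q) b), R.card < k ∧
      ∀ s ∈ S, (∀ e ∈ zer_Bal (Y h) T, s.1 e = 0) → s ∈ R := by
  classical
  by_contra hn
  push Not at hn
  have h1 : ∀ h ∈ T, k ≤ (S.filter fun s => ∀ e ∈ zer_Bal (Y h) T, s.1 e = 0).card := by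
    intro h hh
    by_contra h2
    obtain ⟨s, s1, s2, s3⟩ := hn h hh _ (not_le.1 h2)
    exact s3 (mem_filter.2 ⟨s1, s2⟩)
  have h2 := card_biUnion (s := T)
    (t := fun h => S.filter fun s => ∀ e ∈ zer_Bal (Y h) T, s.1 e = 0) fun h hh h' hh' hne =>
      disjoint_left.2 fun s s1 s2 => by
        obtain ⟨i, hi⟩ := col_Bal H s.2.1 h
        exact hi ((hY h hh h' hh' hne i).elim
          (fun c => (mem_filter.1 s1).2 _ (mem_zer_Bal.2 ⟨hh, c⟩))
          fun c => (mem_filter.1 s2).2 _ (mem_zer_Bal.2 ⟨hh, c⟩))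
  have h3 := card_le_card (show T.biUnion (fun h => S.filter fun s =>
    ∀ e ∈ zer_Bal (Y h) T, s.1 e = 0) ⊆ S from biUnion_subset.2 fun h _ => filter_subset _ _)
  have h4 := card_nsmul_le_sum T _ k h1
  rw [smul_eq_mul] at h4
  omega

/-- Completing prescribed columns to a point of the polytope. -/
theorem feas_Bal (H : Ctx_Bal u v b) (huv : ∑ i, u i = ∑ j, v j) (J : Finset (Fin q))
    (w : Fin p × Fin q → ℝ) (w0 : ∀ e, 0 ≤ w e) (wc : ∀ j ∈ J, ∑ i, w (i, j) = v j)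
    (wr : ∀ i, ∑ j ∈ J, w (i, j) ≤ u i) (hJ : Jᶜ.Nonempty) :
    ∃ x ∈ Poly (KW_Bal p q) b, ∀ e, e.2 ∈ J → x e = w e := by
  classical
  have hτ : 0 < ∑ j ∈ Jᶜ, v j := sum_pos (fun j _ => H.pos j) hJ
  have h1 : ∑ i, (u i - ∑ j ∈ J, w (i, j)) = ∑ j ∈ Jᶜ, v j := by
    rw [sum_sub_distrib, sum_comm, sum_congr rfl wc, huv, ← sum_add_sum_compl J v]
    ring
  refine ⟨fun e => if e.2 ∈ J then w e else
    (u e.1 - ∑ j ∈ J, w (e.1, j)) * v e.2 / ∑ j ∈ Jᶜ, v j,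
    (H.mem _).2 ⟨fun i j => ?_, fun i => ?_, fun j => ?_⟩, fun e he => if_pos he⟩
  · dsimp only
    split_ifs
    · exact w0 _
    · exact div_nonneg (mul_nonneg (sub_nonneg.2 (wr i)) (H.pos j).le) hτ.le
  · dsimp only
    rw [← sum_add_sum_compl J, sum_congr rfl fun j hj => if_pos hj,
      sum_congr (s₁ := Jᶜ) rfl fun j hj => if_neg (mem_compl.1 hj), ← sum_div, ← mul_sum,
      mul_div_cancel_right₀ _ hτ.ne']
    ring
  · dsimp only
    by_cases hj : j ∈ J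
    · simp only [if_pos hj]
      exact wc j hj
    · simp only [if_neg hj]
      rw [← sum_div, ← sum_mul, h1, mul_div_cancel_left₀ _ hτ.ne']

/-- A class with a separated family reaches every pattern carried by large rows. -/
theorem reach_Bal (H : Ctx_Bal u v b) (huv : ∑ i, u i = ∑ j, v j) {M : ℝ} (hM : ∀ j, v j ≤ M)
    {C S : Finset (Vtx (KW_Bal p q) b)} (hcl : Clo_BalFace (PG (KW_Bal p q) b) C S)
    (hd : Disjoint C S) {T J : Finset (Fin q)} {Y : Fin q → Vtx (KW_Bal p q) b}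
    (hT : T.card = 200) (hJ : J.card = 200) (hTJ : Disjoint T J) (hq : 400 < q)
    (hYC : ∀ h ∈ T, Y h ∈ C) (hY : Fam_Bal T fun h => (Y h).1) {k : ℕ} (hk : S.card < 200 * k)
    (hR : k + 400 * p ≤ Module.finrank ℝ (KW_Bal p q)) (w : Fin p × Fin q → ℝ) (w0 : ∀ e, 0 ≤ w e)
    (wc : ∀ j, ∑ i, w (i, j) = v j) (wr : ∀ i, (∀ j, w (i, j) = 0) ∨ 400 * M ≤ u i) :
    ∃ y ∈ C, ∀ e ∈ zer_Bal w J, y.1 e = 0 := by
  classical
  obtain ⟨h, hh, R, r1, r2⟩ := pigeon_Bal H hY S (k := k) (hT ▸ hk)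
  obtain ⟨y0, yr, yc⟩ := (H.mem _).1 (Y h).2.1
  obtain ⟨x, hx, hxw⟩ := feas_Bal H huv (T ∪ J) (fun e => if e.2 ∈ T then (Y h).1 e else w e)
    (fun e => by
      split_ifs
      · exact (Y h).2.1.1 e
      · exact w0 e)
    (fun j _ => by
      by_cases hj : j ∈ T
      · simp only [if_pos hj]
        exact yc j
      · simp only [if_neg hj]
        exact wc j)
    (fun i => by
      rw [sum_union hTJ, sum_congr rfl fun j hj => if_pos hj,
        sum_congr (s₁ := J) rfl fun j hj => if_neg (disjoint_right.1 hTJ hj)]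
      rcases wr i with c | c
      · rw [sum_eq_zero (s := J) fun j _ => c j, add_zero, ← yr i]
        exact sum_le_sum_of_subset_of_nonneg (subset_univ _) fun j _ _ => y0 i j
      · have c1 := sum_le_card_nsmul T (fun j => (Y h).1 (i, j)) M fun j _ =>
          ((single_le_sum (f := fun i => (Y h).1 (i, j)) (fun a _ => y0 a j)
            (mem_univ i)).trans_eq (yc j)).trans (hM j)
        have c2 := sum_le_card_nsmul J (fun j => w (i, j)) M fun j _ =>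
          ((single_le_sum (f := fun i => w (i, j)) (fun a _ => w0 _)
            (mem_univ i)).trans_eq (wc j)).trans (hM j)
        rw [nsmul_eq_mul] at c1 c2
        rw [hT] at c1
        rw [hJ] at c2
        push_cast at c1 c2
        linarith)
    (by
      rw [← card_pos, card_compl, Fintype.card_fin]
      have := card_union_le T J
      omega)
  have z1 := card_zer_Bal (Y h).1 T
  have z2 := card_zer_Bal w J
  have z3 := card_union_le (zer_Bal (Y h).1 T) (zer_Bal w J)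
  rw [hT] at z1
  rw [hJ] at z2
  obtain ⟨y, y1, y2⟩ := many_BalFace H.simple H.bdd (zer_Bal (Y h).1 T ∪ zer_Bal w J) R hx
    (fun e he => by
      rcases mem_union.1 he with c | c
      · obtain ⟨c1, c2⟩ := mem_zer_Bal.1 c
        rw [hxw e (mem_union_left _ c1), if_pos c1, c2]
      · obtain ⟨c1, c2⟩ := mem_zer_Bal.1 c
        rw [hxw e (mem_union_right _ c1), if_neg (disjoint_right.1 hTJ c1), c2]) (by omega)
  have y3 : ∀ e ∈ zer_Bal (Y h).1 T, y.1 e = 0 := fun e he => y1 e (mem_union_left _ he)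
  exact ⟨y, bal_BalFace H.simple H.bdd (zer_Bal (Y h).1 T) hcl hd (hYC h hh)
    (fun e he => (mem_zer_Bal.1 he).2) r2 (by omega) y y3 fun hs => y2 (r2 y hs y3),
    fun e he => y1 e (mem_union_right _ he)⟩

/-- The Hamiltonian listing for balanced margins. -/
theorem ham_Bal (H : Ctx_Bal u v b) (hp : 0 < p) (huv : ∑ i, u i = ∑ j, v j) {M : ℝ}
    (hM : ∀ j, v j ≤ M) (hM0 : 0 < M)
    (hbal : ∀ i, u i + 5000 * p * M ≤ ∑ j ∈ univ.filter fun j => M < 2 * v j, v j) :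
    HamList (PG (KW_Bal p q) b) := by
  classical
  obtain ⟨-, hfin⟩ := ext_stmt _ (KW_Bal p q) b
  let _ : Fintype (Vtx (KW_Bal p q) b) := Fintype.ofFinite _
  have hdeg := deg_Bal H hp hM hM0 hbal
  have hrk : p * q + 1 ≤ p + q + Module.finrank ℝ (KW_Bal p q) := rank_EqCol hp
  have big : ∀ i, ∃ a, a ≠ i ∧ 400 * M ≤ u a := by
    intro i
    by_contra hn
    push Not at hn
    have h1 := hbal i
    have h2 : ∑ j ∈ univ.filter fun j => M < 2 * v j, v j ≤ ∑ j, v j :=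
      sum_le_sum_of_subset_of_nonneg (subset_univ _) fun j _ _ => (H.pos j).le
    have h3 := sum_le_card_nsmul (univ.erase i) u (400 * M) fun a ha =>
      (hn a (ne_of_mem_erase ha)).le
    have h4 : ((univ.erase i).card : ℝ) ≤ p := by
      have := card_le_univ (univ.erase i)
      rw [Fintype.card_fin] at this
      exact_mod_cast this
    have h5 := add_sum_erase univ u (mem_univ i)
    have h6 : (1 : ℝ) ≤ p := by exact_mod_cast hp
    rw [nsmul_eq_mul] at h3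
    nlinarith
  obtain ⟨b1, -, hb1⟩ := big ⟨0, hp⟩
  obtain ⟨b2, hb12, hb2⟩ := big b1
  have hp2 : 2 ≤ p := by
    have := b1.2
    have := b2.2
    have : b2.1 ≠ b1.1 := fun h => hb12 (Fin.ext h)
    omega
  obtain ⟨N, _, _, part, hcl, hbig⟩ := part_stmt haxell_stmt _ (GN_Bal b) _ _ (cov_Bal H hp) hdeg
    (by omega)
  refine ham_BalFace _ part (fun x y h1 h2 => (hcl x y h1 h2).1) hbig
    (tough_BalFace _ (GN_Bal b) (fun x y h => h.1) (r := p + q) (by omega) (by omega)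
      ((deg_stmt zero_stmt (pivot_stmt zero_stmt) _ _ b H.simple H.bdd).2 _ (by omega) (by
        rw [Fintype.card_prod, Fintype.card_fin, Fintype.card_fin]
        omega)) (cov_Bal H hp) fun C₁ C₂ S N₁ N₂ n1 n2 d1 d2 c1 c2 e1 e2 hS s1 s2 => ?_)
  have hq : 4998 * p ≤ q := by
    obtain ⟨O, o1, -⟩ := out_Bal H hp hM hM0 hbal n1.choose b1
    have := card_le_univ O
    rw [Fintype.card_fin] at this
    omega
  have fam : ∀ C N : Finset (Vtx (KW_Bal p q) b), C.Nonempty →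
      Clo_BalFace (PG (KW_Bal p q) b) C S → Clo_BalFace (GN_Bal b) C N → N.card ≤ 80 * (2 * p) →
      ∃ (T : Finset (Fin q)) (Y : Fin q → Vtx (KW_Bal p q) b), T.card = 200 ∧ (∀ h ∈ T, Y h ∈ C) ∧
        Fam_Bal T fun h => (Y h).1 := by
    intro C N n c e s
    obtain ⟨T, Y, t1, t2, t3⟩ : ∃ (T : Finset (Fin q)) (Y : Fin q → Vtx (KW_Bal p q) b),
        200 ≤ T.card ∧ (∀ h ∈ T, Y h ∈ C) ∧ Fam_Bal T fun h => (Y h).1 := by
      by_cases hU : ∀ z ∈ C, q ≤ 10 * (unb_Bal z).card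
      · exact caseI_Bal H hp2 hq hdeg n c e hS (by omega) hU
      · push Not at hU
        obtain ⟨x, hx, hU⟩ := hU
        refine caseII_Bal H hp2 hq hx (fun i => ?_) c e hS (by omega) hU
        obtain ⟨O, o1, o2⟩ := out_Bal H hp hM hM0 hbal x i
        exact ⟨O, by omega, fun j hj => (o2 j hj).2⟩
    obtain ⟨T', t4, t5⟩ := exists_subset_card_eq t1
    exact ⟨T', Y, t5, fun h hh => t2 h (t4 hh), fun h hh h' hh' => t3 h (t4 hh) h' (t4 hh')⟩
  obtain ⟨T₁, Y₁, t1, y1, f1⟩ := fam C₁ N₁ n1 c1 e1 s1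
  obtain ⟨T₂, Y₂, t2, y2, f2⟩ := fam C₂ N₂ n2 c2 e2 s2
  obtain ⟨J, j1, j2⟩ := exists_subset_card_eq (s := (T₁ ∪ T₂)ᶜ) (n := 200) (by
    rw [card_compl, Fintype.card_fin]
    have := card_union_le T₁ T₂
    omega)
  have h2q : 2 * q ≤ p * q := Nat.mul_le_mul_right q hp2
  obtain ⟨k, hk⟩ : ∃ k, k + 400 * p = Module.finrank ℝ (KW_Bal p q) :=
    ⟨Module.finrank ℝ (KW_Bal p q) - 400 * p, by omega⟩
  have hSk : S.card < 200 * k := by omega
  let Y : Fin q → Fin p × Fin q → ℝ := fun s e =>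
    if e.1 = (if e.2 = s then b2 else b1) then v e.2 else 0
  obtain ⟨s, -, R, r1, r2⟩ := pigeon_Bal H (T := J) (Y := Y) (fun h _ h' _ hne i => by
    by_cases hi : i = b2
    · exact Or.inr (by simp [Y, hne, hi, hb12])
    · exact Or.inl (by simp [Y, hi])) S (k := k) (j2 ▸ hSk)
  have w0 : ∀ e, 0 ≤ Y s e := fun e => by
    by_cases h : e.1 = (if e.2 = s then b2 else b1)
    · exact (H.pos e.2).le.trans_eq (if_pos h).symm
    · exact (if_neg h).ge
  have wc : ∀ j, ∑ i, Y s (i, j) = v j := fun j =>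
    (sum_ite_eq' univ (if j = s then b2 else b1) fun _ => v j).trans (if_pos (mem_univ _))
  have wr : ∀ i, (∀ j, Y s (i, j) = 0) ∨ 400 * M ≤ u i := fun i => by
    by_cases h1 : i = b1
    · exact Or.inr (h1 ▸ hb1)
    by_cases h2 : i = b2
    · exact Or.inr (h2 ▸ hb2)
    refine Or.inl fun j => if_neg ?_
    dsimp only
    split_ifs
    exacts [h2, h1]
  have dj : ∀ T, T ⊆ T₁ ∪ T₂ → Disjoint T J := fun T hT =>
    disjoint_left.2 fun j a c => mem_compl.1 (j1 c) (hT a)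
  obtain ⟨z1, a1, a2⟩ := reach_Bal H huv hM c1 d1 t1 j2 (dj _ subset_union_left) (by omega) y1 f1
    hSk hk.le (Y s) w0 wc wr
  obtain ⟨z2, a3, a4⟩ := reach_Bal H huv hM c2 d2 t2 j2 (dj _ subset_union_right) (by omega) y2 f2
    hSk hk.le (Y s) w0 wc wr
  have z := card_zer_Bal (Y s) J
  rw [j2] at z
  exact not_disjoint_iff.2 ⟨z2, bal_BalFace H.simple H.bdd (zer_Bal (Y s) J) c1 d1 a1 a2 r2
    (by omega) z2 a4 (disjoint_left.1 d2 a3), a3⟩

end

end Pool.Agent.MP_3fd310_co.Gen
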