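import Pool.Agent.MP_3fd310_co.Lists

set_option autoImplicit false
set_option linter.unusedSectionVars false

namespace Pool.Agent.MP_3fd310_co

variable {ι : Type*} [DecidableEq ι]

abbrev Vx (ι : Type*) := Finset ι × Option ι

def W (δ : ι → ℝ) (X : Finset ι) : ℝ := ∑ i ∈ X, δ i

def tp (X : Finset ι) (τ : List ι) : Finset ι := X ∪ τ.toFinset

@[simp] theorem mem_tp {X : Finset ι} {τ : List ι} {i : ι} : i ∈ tp X τ ↔ i ∈ X ∨ i ∈ τ := by
  simp [tp]

theorem tp_nil (X : Finset ι) : tp X [] = X := by ext; simp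

theorem tp_cons (X : Finset ι) (k : ι) (τ : List ι) : tp X (k :: τ) = tp (insert k X) τ := by
  ext; simp; tauto

def InC (B : Finset ι) (R : List ι) (X : Finset ι) : Prop :=
  (∀ i ∈ B, i ∈ X) ∧ ∀ i ∈ X, i ∈ B ∨ i ∈ R

def Fresh (X : Finset ι) (τ : List ι) : Prop := τ.Nodup ∧ ∀ k ∈ τ, k ∉ X

section defs
variable (δ : ι → ℝ) (lo hi : ℝ)

def IsV (B : Finset ι) (R : List ι) (v : Vx ι) : Prop :=
  InC B R v.1 ∧ ((v.2 = none ∧ lo ≤ W δ v.1 ∧ W δ v.1 ≤ hi) ∨
    ∃ k, v.2 = some k ∧ k ∈ R ∧ k ∉ v.1 ∧ W δ v.1 < lo ∧ hi < W δ v.1 + δ k)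

noncomputable def pt (X : Finset ι) (k l : ι) : Vx ι :=
  if hi < W δ X + δ k then (X, some k)
  else if W δ X + δ k < lo then (insert k X, some l) else (insert k X, none)

def Adj (u v : Vx ι) : Prop :=
  ∃ X k l, k ≠ l ∧ k ∉ X ∧ l ∉ X ∧ W δ X < lo ∧ hi < W δ X + δ k + δ l ∧
    u = pt δ lo hi X k l ∧ v = pt δ lo hi X l k

def Up (S : Finset ι) (f : Vx ι) : Prop :=
  ∃ j, j ∉ S ∧ ((hi < W δ S + δ j ∧ f = (S, some j)) ∨
    (lo ≤ W δ S + δ j ∧ W δ S + δ j ≤ hi ∧ f = (insert j S, none)))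

def Dn (T : Finset ι) (f : Vx ι) : Prop :=
  ∃ j, j ∈ T ∧ ((W δ T - δ j < lo ∧ f = (T.erase j, some j)) ∨
    (lo ≤ W δ T - δ j ∧ W δ T - δ j ≤ hi ∧ f = (T.erase j, none)))

def Thin (B : Finset ι) (R : List ι) : Prop :=
  ∀ X, InC B R X → ∀ k ∈ R, k ∉ X → lo ≤ W δ X → hi < W δ X + δ k

def Tri (c : ι) (L : List (Vx ι)) : Prop :=
  ∃ p y q, SInf [p, y, q] L ∧
    ((∃ S, c ∉ S ∧ W δ S < lo ∧ lo ≤ W δ S + δ c ∧ Up δ lo hi S p ∧ Up δ lo hi S y ∧
        Up δ lo hi S q) ∨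
     (∃ T, c ∈ T ∧ hi < W δ T ∧ W δ T - δ c ≤ hi ∧ Dn δ lo hi T p ∧ Dn δ lo hi T y ∧
        Dn δ lo hi T q))

noncomputable def gr : Finset ι → List ι → Vx ι
  | X, [] => (X, none)
  | X, k :: τ => if lo ≤ W δ X then (X, none) else if hi < W δ X + δ k then (X, some k)
      else gr (insert k X) τ

end defs

variable {δ : ι → ℝ} {lo hi : ℝ}

theorem W_insert {X : Finset ι} {k : ι} (h : k ∉ X) : W δ (insert k X) = W δ X + δ k := by
  simp [W, Finset.sum_insert h, add_comm]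

theorem W_erase {X : Finset ι} {k : ι} (h : k ∈ X) : W δ (X.erase k) = W δ X - δ k := by
  have := W_insert (δ := δ) (X := X.erase k) (k := k) (by simp)
  rw [Finset.insert_erase h] at this
  linarith

theorem W_mono (hδ : ∀ i, 0 < δ i) {X Y : Finset ι} (h : ∀ i ∈ X, i ∈ Y) : W δ X ≤ W δ Y :=
  Finset.sum_le_sum_of_subset_of_nonneg h (fun i _ _ => (hδ i).le)

theorem W_mono1 (hδ : ∀ i, 0 < δ i) {X Y : Finset ι} {k : ι} (h : ∀ i ∈ X, i ∈ Y) (hk : k ∉ X)
    (hk' : k ∈ Y) : W δ X + δ k ≤ W δ Y := by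
  rw [← W_insert hk]
  apply W_mono hδ
  intro i hi
  rcases Finset.mem_insert.1 hi with rfl | hi
  · exact hk'
  · exact h i hi

theorem W_mono2 (hδ : ∀ i, 0 < δ i) {X Y : Finset ι} {k l : ι} (h : ∀ i ∈ X, i ∈ Y) (hk : k ∉ X)
    (hk' : k ∈ Y) (hl : l ∉ X) (hl' : l ∈ Y) (hkl : k ≠ l) : W δ X + δ k + δ l ≤ W δ Y := by
  rw [← W_insert hk]
  apply W_mono1 hδ _ _ hl'
  · intro i hi
    rcases Finset.mem_insert.1 hi with rfl | hi
    · exact hk'
    · exact h i hi
  · simp [hl, hkl.symm]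

theorem W_mono3 (hδ : ∀ i, 0 < δ i) {X Y : Finset ι} {k l m : ι} (h : ∀ i ∈ X, i ∈ Y)
    (hk : k ∉ X) (hk' : k ∈ Y) (hl : l ∉ X) (hl' : l ∈ Y) (hm : m ∉ X) (hm' : m ∈ Y)
    (hkl : k ≠ l) (hkm : k ≠ m) (hlm : l ≠ m) : W δ X + δ k + δ l + δ m ≤ W δ Y := by
  rw [← W_insert hk]
  apply W_mono2 hδ _ _ hl' _ hm' hlm
  · intro i hi
    rcases Finset.mem_insert.1 hi with rfl | hi
    · exact hk'
    · exact h i hi
  · simp [hl, hkl.symm]
  · simp [hm, hkm.symm]

theorem pt_pos {X : Finset ι} {k l : ι} (h : hi < W δ X + δ k) : pt δ lo hi X k l = (X, some k) := by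
  simp [pt, h]

theorem pt_neg (hlh : lo ≤ hi) {X : Finset ι} {k l : ι} (h : W δ X + δ k < lo) :
    pt δ lo hi X k l = (insert k X, some l) := by
  have : ¬ hi < W δ X + δ k := by linarith
  simp [pt, h, this]

theorem pt_zero {X : Finset ι} {k l : ι} (h : lo ≤ W δ X + δ k) (h' : W δ X + δ k ≤ hi) :
    pt δ lo hi X k l = (insert k X, none) := by
  simp [pt, not_lt.2 h, not_lt.2 h']

theorem pt_cases (X : Finset ι) (k l : ι) :
    (hi < W δ X + δ k ∧ pt δ lo hi X k l = (X, some k)) ∨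
    (W δ X + δ k < lo ∧ W δ X + δ k ≤ hi ∧ pt δ lo hi X k l = (insert k X, some l)) ∨
    (lo ≤ W δ X + δ k ∧ W δ X + δ k ≤ hi ∧ pt δ lo hi X k l = (insert k X, none)) := by
  unfold pt
  split_ifs with h1 h2
  · exact Or.inl ⟨h1, rfl⟩
  · exact Or.inr (Or.inl ⟨h2, not_lt.1 h1, rfl⟩)
  · exact Or.inr (Or.inr ⟨not_lt.1 h2, not_lt.1 h1, rfl⟩)

theorem Adj.symm {u v : Vx ι} (h : Adj δ lo hi u v) : Adj δ lo hi v u := by
  obtain ⟨X, k, l, h1, h2, h3, h4, h5, h6, h7⟩ := h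
  exact ⟨X, l, k, h1.symm, h3, h2, h4, by linarith, h7, h6⟩

theorem adj_symm (δ : ι → ℝ) (lo hi : ℝ) : ∀ u v : Vx ι, Adj δ lo hi u v → Adj δ lo hi v u :=
  fun _ _ h => h.symm

theorem InC.mono {B B' X : Finset ι} {R R' : List ι} (h : InC B R X) (h1 : ∀ i ∈ B', i ∈ B)
    (h2 : ∀ i ∈ B, i ∈ B' ∨ i ∈ R') (h3 : ∀ i ∈ R, i ∈ R') : InC B' R' X := by
  unfold InC at *
  grind

theorem InC.insert {B X : Finset ι} {R : List ι} (h : InC B R X) {k : ι} (hk : k ∈ R) :
    InC B R (insert k X) := by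
  unfold InC at *
  grind

theorem InC.erase {B X : Finset ι} {R : List ι} (h : InC B R X) {k : ι} (hk : k ∉ B) :
    InC B R (X.erase k) := by
  unfold InC at *
  grind

theorem Thin.mono {B B' : Finset ι} {R R' : List ι} (h : Thin δ lo hi B' R')
    (h1 : ∀ i ∈ B', i ∈ B) (h2 : ∀ i ∈ B, i ∈ B' ∨ i ∈ R') (h3 : ∀ i ∈ R, i ∈ R') :
    Thin δ lo hi B R :=
  fun X hX k hk hkX hl => h X (hX.mono h1 h2 h3) k (h3 k hk) hkX hl

theorem up_pt {S : Finset ι} {f : Vx ι} {j : ι}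
    (h : (hi < W δ S + δ j ∧ f = (S, some j)) ∨
    (lo ≤ W δ S + δ j ∧ W δ S + δ j ≤ hi ∧ f = (insert j S, none))) (l : ι) :
    f = pt δ lo hi S j l := by
  rcases h with ⟨h, rfl⟩ | ⟨h, h', rfl⟩
  · rw [pt_pos h]
  · rw [pt_zero h h']

theorem up_adj (hδ : ∀ i, 0 < δ i) {B S : Finset ι} {R : List ι} (hT : Thin δ lo hi B R)
    {f g : Vx ι} (hf : IsV δ lo hi B R f) (hg : IsV δ lo hi B R g) (hS : W δ S < lo)
    (uf : Up δ lo hi S f) (ug : Up δ lo hi S g) (ne : f ≠ g) : Adj δ lo hi f g := by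
  obtain ⟨j, hj, uf⟩ := uf
  obtain ⟨l, hl, ug⟩ := ug
  have hjl : j ≠ l := by
    rintro rfl
    exact ne ((up_pt uf j).trans (up_pt ug j).symm)
  refine ⟨S, j, l, hjl, hj, hl, hS, ?_, up_pt uf l, up_pt ug j⟩
  have := hδ j
  have := hδ l
  rcases uf with ⟨h, rfl⟩ | ⟨h, h', rfl⟩
  · linarith
  rcases ug with ⟨h2, rfl⟩ | ⟨h2, h2', rfl⟩
  · linarith
  have c1 := hf.1
  have c2 := hg.1
  have hlR : l ∈ R := by
    unfold InC at c1 c2
    grind
  have := hT _ c1 l hlR (by simp [hl, hjl.symm]) (by rw [W_insert hj]; exact h)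
  rwa [W_insert hj] at this

theorem dn_pt (hlh : lo ≤ hi) {T : Finset ι} {f : Vx ι} {j l : ι} (hj : j ∈ T) (hl : l ∈ T)
    (hjl : j ≠ l)
    (h : (W δ T - δ j < lo ∧ f = (T.erase j, some j)) ∨
    (lo ≤ W δ T - δ j ∧ W δ T - δ j ≤ hi ∧ f = (T.erase j, none))) :
    f = pt δ lo hi ((T.erase j).erase l) l j := by
  have e1 : l ∈ T.erase j := by simp [hl, hjl.symm]
  have e2 : W δ ((T.erase j).erase l) + δ l = W δ T - δ j := by
    rw [W_erase e1, W_erase hj]; ring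
  rcases h with ⟨h, rfl⟩ | ⟨h, h', rfl⟩
  · rw [pt_neg hlh (by linarith), Finset.insert_erase e1]
  · rw [pt_zero (by linarith) (by linarith), Finset.insert_erase e1]

theorem dn_adj (hδ : ∀ i, 0 < δ i) (hlh : lo ≤ hi) {B T : Finset ι} {R : List ι}
    (hT : Thin δ lo hi B R)
    {f g : Vx ι} (hf : IsV δ lo hi B R f) (hg : IsV δ lo hi B R g) (hS : hi < W δ T)
    (uf : Dn δ lo hi T f) (ug : Dn δ lo hi T g) (ne : f ≠ g) : Adj δ lo hi f g := by
  obtain ⟨j, hj, uf⟩ := uf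
  obtain ⟨l, hl, ug⟩ := ug
  have hjl : j ≠ l := by
    rintro rfl
    apply ne
    rcases uf with ⟨h, rfl⟩ | ⟨h, h', rfl⟩ <;> rcases ug with ⟨h2, rfl⟩ | ⟨h2, h2', rfl⟩ <;>
      first | rfl | linarith
  have e1 : l ∈ T.erase j := by simp [hl, hjl.symm]
  have e2 : W δ ((T.erase j).erase l) = W δ T - δ j - δ l := by
    rw [W_erase e1, W_erase hj]
  refine ⟨(T.erase j).erase l, l, j, hjl.symm, by simp, by simp, ?_, by linarith,
    dn_pt hlh hj hl hjl uf, ?_⟩
  · have := hδ j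
    have := hδ l
    rcases uf with ⟨h, rfl⟩ | ⟨h, h', rfl⟩
    · linarith
    rcases ug with ⟨h2, rfl⟩ | ⟨h2, h2', rfl⟩
    · linarith
    have c1 := hf.1
    have c2 := hg.1
    have hlR : l ∈ R := by
      unfold InC at c1 c2
      grind
    have c3 : InC B R ((T.erase j).erase l) := by
      unfold InC at c1 c2 ⊢
      grind
    by_contra hn
    have := hT _ c3 l hlR (by simp) (not_lt.1 hn)
    linarith
  · rw [Finset.erase_right_comm]
    exact dn_pt hlh hl hj hjl.symm ug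

theorem simplexU (hδ : ∀ i, 0 < δ i) {B : Finset ι} {R : List ι} (hT : Thin δ lo hi B R)
    (hB : W δ B < lo) (hk : ∀ k ∈ R, k ∉ B → lo ≤ W δ B + δ k) {v : Vx ι}
    (hv : IsV δ lo hi B R v) : Up δ lo hi B v := by
  obtain ⟨X, o⟩ := v
  obtain ⟨c, hv⟩ := hv
  simp only at c hv
  by_cases e : X = B
  · subst e
    rcases hv with ⟨_, h, _⟩ | ⟨k, rfl, h1, h2, h3, h4⟩
    · linarith
    · exact ⟨k, h2, Or.inl ⟨h4, rfl⟩⟩
  · obtain ⟨j, hj, hjB⟩ : ∃ j ∈ X, j ∉ B := by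
      by_contra hn
      push Not at hn
      exact e (Finset.ext fun i => ⟨hn i, c.1 i⟩)
    have hjR : j ∈ R := (c.2 j hj).resolve_left hjB
    have h1 := hk j hjR hjB
    have h2 := W_mono1 hδ c.1 hjB hj
    rcases hv with ⟨rfl, h, h'⟩ | ⟨k, rfl, h1, h2, h3, h4⟩
    · by_cases e2 : X = insert j B
      · subst e2
        rw [W_insert hjB] at h h'
        exact ⟨j, hjB, Or.inr ⟨h, h', rfl⟩⟩
      · exfalso
        obtain ⟨l, hl, hlB⟩ : ∃ l ∈ X, l ∉ insert j B := by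
          by_contra hn
          push Not at hn
          apply e2
          ext i
          refine ⟨hn i, ?_⟩
          have := c.1 i
          grind
        have hlR : l ∈ R := by
          have := c.2 l hl
          grind
        have c' : InC B R (insert j B) := by unfold InC; grind
        have h3 := hT _ c' l hlR hlB (by rw [W_insert hjB]; exact h1)
        have h4 : W δ (insert j B) + δ l ≤ W δ X :=
          W_mono1 hδ (by have := c.1; grind) hlB hl
        linarith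
    · linarith

theorem simplexD (hδ : ∀ i, 0 < δ i) {B : Finset ι} {R : List ι} (hT : Thin δ lo hi B R)
    (hB : hi < W δ (tp B R)) (hk : ∀ k ∈ R, W δ (tp B R) - δ k ≤ hi) {v : Vx ι}
    (hv : IsV δ lo hi B R v) : Dn δ lo hi (tp B R) v := by
  obtain ⟨X, o⟩ := v
  obtain ⟨c, hv⟩ := hv
  simp only at c hv
  have sub : ∀ i ∈ X, i ∈ tp B R := fun i hi => mem_tp.2 (c.2 i hi)
  rcases hv with ⟨rfl, h, h'⟩ | ⟨k, rfl, h1, h2, h3, h4⟩
  · obtain ⟨j, hj, hjX⟩ : ∃ j ∈ tp B R, j ∉ X := by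
      by_contra hn
      push Not at hn
      have := W_mono hδ hn
      linarith
    have hjR : j ∈ R := by
      have := c.1 j
      have := mem_tp.1 hj
      grind
    by_cases e2 : X = (tp B R).erase j
    · subst e2
      rw [W_erase hj] at h h'
      exact ⟨j, hj, Or.inr ⟨h, h', rfl⟩⟩
    · exfalso
      obtain ⟨l, hl, hlB⟩ : ∃ l ∈ (tp B R).erase j, l ∉ X := by
        by_contra hn
        push Not at hn
        apply e2
        ext i
        refine ⟨?_, hn i⟩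
        have := sub i
        grind
      have hlR : l ∈ R := by
        have := c.1 l
        have := mem_tp.1 (Finset.mem_of_mem_erase hl)
        grind
      have h3 := hT _ c l hlR hlB h
      have h4 := W_mono2 hδ sub hjX hj hlB (Finset.mem_of_mem_erase hl)
        (Finset.ne_of_mem_erase hl).symm
      have := hk j hjR
      linarith
  · have hkT : k ∈ tp B R := mem_tp.2 (Or.inr h1)
    have e2 : X = (tp B R).erase k := by
      by_contra e2
      obtain ⟨l, hl, hlB⟩ : ∃ l ∈ (tp B R).erase k, l ∉ X := by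
        by_contra hn
        push Not at hn
        apply e2
        ext i
        refine ⟨?_, hn i⟩
        have := sub i
        grind
      have hlR : l ∈ R := by
        have := c.1 l
        have := mem_tp.1 (Finset.mem_of_mem_erase hl)
        grind
      have h5 := W_mono2 hδ sub h2 hkT hlB (Finset.mem_of_mem_erase hl)
        (Finset.ne_of_mem_erase hl).symm
      have := hk l hlR
      linarith
    subst e2
    rw [W_erase hkT] at h3
    exact ⟨k, hkT, Or.inl ⟨h3, rfl⟩⟩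

/-! Greedy vertices -/

theorem Fresh.tail {X : Finset ι} {k : ι} {τ : List ι} (h : Fresh X (k :: τ)) :
    Fresh (insert k X) τ := by
  unfold Fresh at *
  grind

theorem gr_nonneg {X : Finset ι} (τ : List ι) (h : lo ≤ W δ X) : gr δ lo hi X τ = (X, none) := by
  cases τ with
  | nil => rfl
  | cons k τ => simp [gr, h]

theorem gr_pos {X : Finset ι} {k : ι} (τ : List ι) (h : W δ X < lo) (h' : hi < W δ X + δ k) :
    gr δ lo hi X (k :: τ) = (X, some k) := by
  simp [gr, not_le.2 h, h']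

theorem gr_step {X : Finset ι} {k : ι} (τ : List ι) (h : W δ X < lo) (h' : W δ X + δ k ≤ hi) :
    gr δ lo hi X (k :: τ) = gr δ lo hi (insert k X) τ := by
  simp [gr, not_le.2 h, not_lt.2 h']

theorem gr_append {τ : List ι} (σ : List ι) : ∀ {X : Finset ι}, lo ≤ W δ (tp X τ) →
    gr δ lo hi X (τ ++ σ) = gr δ lo hi X τ := by
  induction τ with
  | nil => intro X h; rw [tp_nil] at h; simp [gr_nonneg _ h]
  | cons k τ ih =>
    intro X h
    rw [tp_cons] at h
    simp only [List.cons_append, gr, ih h]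

theorem gr_prefix (hδ : ∀ i, 0 < δ i) (hlh : lo ≤ hi) {τ : List ι} (σ : List ι) :
    ∀ {X : Finset ι}, Fresh X τ → W δ (tp X τ) < lo →
    gr δ lo hi X (τ ++ σ) = gr δ lo hi (tp X τ) σ := by
  induction τ with
  | nil => intro X _ _; rw [tp_nil]; rfl
  | cons k τ ih =>
    intro X hf h
    have hk : k ∉ X := hf.2 k (by simp)
    have h1 : W δ X + δ k ≤ W δ (tp X (k :: τ)) :=
      W_mono1 hδ (by intro i hi; simp [hi]) hk (by simp)
    have := hδ k
    rw [List.cons_append, gr_step _ (by linarith) (by linarith), tp_cons]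
    rw [tp_cons] at h
    exact ih hf.tail h

theorem gr_isV {B : Finset ι} {R : List ι} {τ : List ι} : ∀ {X : Finset ι}, Fresh X τ →
    (∀ k ∈ τ, k ∈ R) → InC B R X → W δ X ≤ hi → lo ≤ W δ (tp X τ) →
    IsV δ lo hi B R (gr δ lo hi X τ) := by
  induction τ with
  | nil =>
    intro X _ _ c h1 h2
    rw [tp_nil] at h2
    exact ⟨c, Or.inl ⟨rfl, h2, h1⟩⟩
  | cons k τ ih =>
    intro X hf hR c h1 h2
    have hk : k ∉ X := hf.2 k (by simp)
    by_cases a : lo ≤ W δ X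
    · rw [gr_nonneg _ a]; exact ⟨c, Or.inl ⟨rfl, a, h1⟩⟩
    by_cases b : hi < W δ X + δ k
    · rw [gr_pos _ (not_le.1 a) b]
      exact ⟨c, Or.inr ⟨k, rfl, hR k (by simp), hk, not_le.1 a, b⟩⟩
    rw [gr_step _ (not_le.1 a) (not_lt.1 b)]
    rw [tp_cons] at h2
    refine ih hf.tail (fun j hj => hR j (by simp [hj])) ?_ (by rw [W_insert hk]; exact not_lt.1 b) h2
    have := hR k (by simp)
    unfold InC at *
    grind

/-- The greedy vertex sits at a prefix of the chain. -/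
theorem gr_shape {τ : List ι} : ∀ X : Finset ι, ∃ τ1 τ2, τ = τ1 ++ τ2 ∧
    (gr δ lo hi X τ = (tp X τ1, none) ∨ ∃ k τ3, τ2 = k :: τ3 ∧ gr δ lo hi X τ = (tp X τ1, some k)) := by
  induction τ with
  | nil => intro X; exact ⟨[], [], rfl, Or.inl (by rw [tp_nil]; rfl)⟩
  | cons k τ ih =>
    intro X
    by_cases a : lo ≤ W δ X
    · exact ⟨[], k :: τ, rfl, Or.inl (by rw [tp_nil, gr_nonneg _ a])⟩
    by_cases b : hi < W δ X + δ k
    · exact ⟨[], k :: τ, rfl, Or.inr ⟨k, τ, rfl, by rw [tp_nil, gr_pos _ (not_le.1 a) b]⟩⟩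
    obtain ⟨τ1, τ2, rfl, h⟩ := ih (insert k X)
    refine ⟨k :: τ1, τ2, rfl, ?_⟩
    rw [gr_step _ (not_le.1 a) (not_lt.1 b), tp_cons]
    exact h

theorem gr_sub (X : Finset ι) (τ : List ι) :
    (∀ i ∈ X, i ∈ (gr δ lo hi X τ).1) ∧ ∀ i ∈ (gr δ lo hi X τ).1, i ∈ X ∨ i ∈ τ := by
  obtain ⟨τ1, τ2, e, h⟩ := gr_shape (δ := δ) (lo := lo) (hi := hi) (τ := τ) X
  rcases h with h | ⟨k, τ3, _, h⟩ <;> rw [h] <;> subst e <;> simp <;> tauto

/-- Either the two greedy vertices of the two layers are adjacent or there is a crossing in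
direction c at a prefix of the chain. -/
theorem gr_route (hδ : ∀ i, 0 < δ i) (hlh : lo ≤ hi) {B : Finset ι} {R : List ι}
    (hT : Thin δ lo hi B R) {c : ι} (hc : c ∈ R) {τ : List ι} : ∀ {X : Finset ι}, Fresh X τ →
    c ∉ X → c ∉ τ → (∀ k ∈ τ, k ∈ R ∧ δ c ≤ δ k) → InC B R X → W δ X < lo → W δ X + δ c ≤ hi →
    lo ≤ W δ (tp X τ) →
    Adj δ lo hi (gr δ lo hi X τ) (gr δ lo hi (insert c X) τ) ∨
      ∃ τ1 τ2, τ = τ1 ++ τ2 ∧ W δ (tp X τ1) < lo ∧ hi < W δ (tp X τ1) + δ c := by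
  induction τ with
  | nil => intro X _ _ _ _ _ h1 _ h2; rw [tp_nil] at h2; linarith
  | cons k τ ih =>
    intro X hf hcX hcτ hR cX h1 h2 h3
    have hk : k ∉ X := hf.2 k (by simp)
    have hkc : k ≠ c := by rintro rfl; simp at hcτ
    obtain ⟨hkR, hck⟩ := hR k (by simp)
    have wc : W δ (insert c X) = W δ X + δ c := W_insert hcX
    have wk : W δ (insert k X) = W δ X + δ k := W_insert hk
    have cc : InC B R (insert c X) := by unfold InC at *; grind
    have ck : InC B R (insert k X) := by unfold InC at *; grind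
    by_cases a : lo ≤ W δ X + δ c
    · left
      have t1 := hT _ cc k hkR (by simp [hk, hkc]) (by linarith)
      refine ⟨X, k, c, hkc, hk, hcX, h1, by linarith, ?_, ?_⟩
      · by_cases b : hi < W δ X + δ k
        · rw [gr_pos _ h1 b, pt_pos b]
        · rw [gr_step _ h1 (not_lt.1 b), gr_nonneg _ (by linarith), pt_zero (by linarith) (not_lt.1 b)]
      · rw [gr_nonneg _ (by linarith), pt_zero a h2]
    have a' := not_le.1 a
    by_cases b : hi < W δ X + δ k
    · left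
      have := hδ c
      refine ⟨X, k, c, hkc, hk, hcX, h1, by linarith, ?_, ?_⟩
      · rw [gr_pos _ h1 b, pt_pos b]
      · rw [gr_pos _ (by linarith) (by linarith), pt_neg hlh a']
    have b' := not_lt.1 b
    by_cases d : lo ≤ W δ X + δ k
    · left
      have t1 := hT _ ck c hc (by simp [hcX, hkc.symm]) (by linarith)
      refine ⟨X, k, c, hkc, hk, hcX, h1, by linarith, ?_, ?_⟩
      · rw [gr_step _ h1 b', gr_nonneg _ (by linarith), pt_zero d b']
      · rw [gr_pos _ (by linarith) (by linarith), pt_neg hlh a']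
    have d' := not_le.1 d
    by_cases e : hi < W δ X + δ k + δ c
    · right
      refine ⟨[k], τ, rfl, ?_, ?_⟩ <;> rw [tp_cons, tp_nil] <;> linarith
    have e' := not_lt.1 e
    rw [tp_cons] at h3
    rcases ih hf.tail (by simp [hcX, hkc.symm]) (fun h => hcτ (by simp [h]))
      (fun j hj => hR j (by simp [hj])) ck (by linarith) (by linarith) h3 with h | ⟨τ1, τ2, rfl, h⟩
    · left
      rw [gr_step _ h1 b', gr_step _ (by linarith) (by linarith), Finset.insert_comm]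
      exact h
    · right
      refine ⟨k :: τ1, τ2, rfl, ?_⟩
      rw [tp_cons]
      exact h

/-- Description of the two greedy vertices when there is a crossing in direction c. -/
theorem gr_mid (hδ : ∀ i, 0 < δ i) (hlh : lo ≤ hi) {c : ι} {τ1 τ2 : List ι} {X : Finset ι}
    (hf : Fresh X (τ1 ++ τ2)) (hcX : c ∉ X) (hcτ : c ∉ τ1 ++ τ2)
    (hR : ∀ k ∈ τ1 ++ τ2, δ c ≤ δ k) (h2 : W δ X + δ c ≤ hi) (h3 : lo ≤ W δ (tp X (τ1 ++ τ2)))
    (h4 : W δ (tp X τ1) < lo) (h5 : hi < W δ (tp X τ1) + δ c) :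
    (∃ k ∈ τ2, gr δ lo hi X (τ1 ++ τ2) = (tp X τ1, some k)) ∧
    (∃ j ∈ τ1, gr δ lo hi (insert c X) (τ1 ++ τ2) = ((insert c (tp X τ1)).erase j, some j)) := by
  constructor
  · cases τ2 with
    | nil => simp at h3; linarith
    | cons k τ3 =>
      refine ⟨k, by simp, ?_⟩
      have := hR k (by simp)
      rw [gr_prefix hδ hlh _ (by unfold Fresh at *; grind) h4, gr_pos _ h4 (by linarith)]
  · rcases List.eq_nil_or_concat τ1 with rfl | ⟨τ0, j, rfl⟩
    · rw [tp_nil] at h5; linarith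
    · rw [List.concat_eq_append] at *
      refine ⟨j, by simp, ?_⟩
      have hj := hR j (by simp)
      have f1 : j ∉ tp X τ0 := by unfold Fresh at hf; simp only [mem_tp]; grind
      have f2 : c ∉ tp X τ0 := by simp only [mem_tp]; grind
      have hjc : j ≠ c := by grind
      have e1 : tp X (τ0 ++ [j]) = insert j (tp X τ0) := by ext; simp; tauto
      have e2 : tp (insert c X) τ0 = insert c (tp X τ0) := by ext; simp; tauto
      rw [e1, W_insert f1] at h4 h5
      have e3 : (insert c (insert j (tp X τ0))).erase j = insert c (tp X τ0) := by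
        ext i; simp only [Finset.mem_erase, Finset.mem_insert]; grind
      rw [List.append_assoc, gr_prefix hδ hlh _ (by unfold Fresh at *; grind)
        (by rw [e2, W_insert f2]; linarith), e1, e2, e3, List.singleton_append,
        gr_pos _ (by rw [W_insert f2]; linarith) (by rw [W_insert f2]; linarith)]

end Pool.Agent.MP_3fd310_co
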