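import Pool.Agent.MP_3fd310_co.Defs

set_option autoImplicit false
set_option linter.unusedSectionVars false

namespace Pool.Agent.MP_3fd310_co

variable {ι : Type*} [DecidableEq ι]

def sd (a : Bool) (c : ι) (X : Finset ι) : Finset ι := cond a (insert c X) X

@[simp] theorem sd_true (c : ι) (X : Finset ι) : sd true c X = insert c X := rfl
@[simp] theorem sd_false (c : ι) (X : Finset ι) : sd false c X = X := rfl

section defs
variable (δ : ι → ℝ) (lo hi : ℝ) (c : ι) (R : List ι)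

def Part0 (y v : Vx ι) : Prop :=
  (∃ k, y.2 = some k ∧ v = (y.1, some k)) ∨ (y.2 = none ∧ lo ≤ W δ y.1 ∧ v = (y.1, none)) ∨
    (y.2 = none ∧ W δ y.1 < lo ∧ ∃ k ∈ R, k ∉ y.1 ∧ v = (y.1, some k))

def Part1 (y v : Vx ι) : Prop :=
  (∃ k, y.2 = some k ∧ v = (insert c y.1, some k)) ∨
    (y.2 = none ∧ W δ y.1 + δ c ≤ hi ∧ v = (insert c y.1, none)) ∨
    (y.2 = none ∧ hi < W δ y.1 + δ c ∧ ∃ j ∈ R, j ∈ y.1 ∧ v = ((insert c y.1).erase j, some j))

def Part (a : Bool) (y v : Vx ι) : Prop := cond a (Part1 δ hi c R y v) (Part0 δ lo R y v)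

def Cen (y v : Vx ι) : Prop := y.2 = none ∧ W δ y.1 < lo ∧ hi < W δ y.1 + δ c ∧ v = (y.1, some c)

def Fib (y v : Vx ι) : Prop := Part0 δ lo R y v ∨ Cen δ lo hi c y v ∨ Part1 δ hi c R y v

def Big (y : Vx ι) : Prop := ∃ a u v, Part δ lo hi c R a y u ∧ Part δ lo hi c R a y v ∧ u ≠ v

def Two (y : Vx ι) : Prop := ¬ Big δ lo hi c R y ∧ ∀ v, ¬ Cen δ lo hi c y v

def Good (y : Vx ι) (L : List (Vx ι)) : Prop :=
  (∀ k, y.2 = some k → SInf [(y.1, some k), (insert c y.1, some k)] L) ∧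
  (y.2 = none → W δ y.1 < lo → ∀ u, Part0 δ lo R y u → ∃ f, Up δ lo hi y.1 f ∧ SInf [u, f] L) ∧
  (y.2 = none → hi < W δ y.1 + δ c → ∀ u, Part1 δ hi c R y u →
    ∃ f, Dn δ lo hi (insert c y.1) f ∧ SInf [u, f] L) ∧
  (Big δ lo hi c R y → Tri δ lo hi c L)

structure LH (B : Finset ι) : Prop where
  pos : ∀ i, 0 < δ i
  lh : lo ≤ hi
  cB : c ∉ B
  cR : c ∉ R
  fr : Fresh B R
  le : ∀ k ∈ R, δ c ≤ δ k
  tP : Thin δ lo hi B (c :: R)
  tQ : Thin δ (lo - δ c) hi B R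

structure Face (B X : Finset ι) (k l : ι) : Prop where
  ne : k ≠ l
  kX : k ∉ X
  lX : l ∉ X
  kR : k ∈ R
  lR : l ∈ R
  inc : InC B R X
  neg : W δ X < lo
  pos : hi < W δ X + δ k + δ l

noncomputable def pr (v : Vx ι) : Vx ι :=
  if c ∈ v.1 then
    match v.2 with
    | none => (v.1.erase c, none)
    | some k => if hi < W δ (v.1.erase c) + δ k then (v.1.erase c, some k)
        else (insert k (v.1.erase c), none)
  else
    match v.2 with
    | none => v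
    | some k => if k = c then (v.1, none) else if W δ v.1 < lo - δ c then v else (v.1, none)

end defs

variable {δ : ι → ℝ} {lo hi : ℝ} {c : ι} {R : List ι} {B : Finset ι}

@[simp] theorem part_true (y v : Vx ι) : Part δ lo hi c R true y v = Part1 δ hi c R y v := rfl
@[simp] theorem part_false (y v : Vx ι) : Part δ lo hi c R false y v = Part0 δ lo R y v := rfl

theorem Tri.mono {L L' : List (Vx ι)} (h : Tri δ lo hi c L) (h' : SInf L L') :
    Tri δ lo hi c L' := by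
  obtain ⟨p, y, q, h1, h2⟩ := h
  exact ⟨p, y, q, h1.trans h', h2⟩

theorem Good.mono {y : Vx ι} {L L' : List (Vx ι)} (h : Good δ lo hi c R y L) (h' : SInf L L') :
    Good δ lo hi c R y L' := by
  obtain ⟨h1, h2, h3, h4⟩ := h
  refine ⟨fun k hk => (h1 k hk).trans h', fun a b u hu => ?_, fun a b u hu => ?_,
    fun hb => (h4 hb).mono h'⟩
  · obtain ⟨f, h5, h6⟩ := h2 a b u hu
    exact ⟨f, h5, h6.trans h'⟩
  · obtain ⟨f, h5, h6⟩ := h3 a b u hu
    exact ⟨f, h5, h6.trans h'⟩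

theorem Face.symm {X : Finset ι} {k l : ι} (h : Face δ lo hi R B X k l) : Face δ lo hi R B X l k :=
  ⟨h.ne.symm, h.lX, h.kX, h.lR, h.kR, h.inc, h.neg, by linarith [h.pos]⟩

theorem Face.adj {X : Finset ι} {k l : ι} (h : Face δ lo hi R B X k l) :
    Adj δ lo hi (pt δ lo hi X k l) (pt δ lo hi X l k) :=
  ⟨X, k, l, h.ne, h.kX, h.lX, h.neg, h.pos, rfl, rfl⟩

theorem Face.isV {X : Finset ι} {k l : ι} (h : Face δ lo hi R B X k l) :
    IsV δ lo hi B R (pt δ lo hi X k l) := by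
  have c1 : InC B R (insert k X) := by
    have := h.inc; have := h.kR; unfold InC at *; grind
  have w := W_insert (δ := δ) h.kX
  rcases pt_cases (δ := δ) (lo := lo) (hi := hi) X k l with ⟨a, e⟩ | ⟨a, b, e⟩ | ⟨a, b, e⟩ <;>
    rw [e]
  · exact ⟨h.inc, Or.inr ⟨k, rfl, h.kR, h.kX, h.neg, a⟩⟩
  · exact ⟨c1, Or.inr ⟨l, rfl, h.lR, by simp [h.lX, h.ne.symm], by simpa [w] using a,
      by simpa [w] using h.pos⟩⟩
  · exact ⟨c1, Or.inl ⟨rfl, by simpa [w] using a, by simpa [w] using b⟩⟩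

theorem adj_face {u v : Vx ι} (hu : IsV δ lo hi B R u) (hv : IsV δ lo hi B R v)
    (h : Adj δ lo hi u v) :
    ∃ X k l, Face δ lo hi R B X k l ∧ u = pt δ lo hi X k l ∧ v = pt δ lo hi X l k := by
  obtain ⟨X, k, l, h1, h2, h3, h4, h5, h6, h7⟩ := h
  refine ⟨X, k, l, ?_, h6, h7⟩
  have a1 : ∀ o, u = (X, o) ∨ u = (insert k X, o) → True := fun _ _ => trivial
  have hu1 : (u = (X, some k) ∧ k ∈ R) ∨ u.1 = insert k X := by
    rcases pt_cases (δ := δ) (lo := lo) (hi := hi) X k l with ⟨a, e⟩ | ⟨a, b, e⟩ | ⟨a, b, e⟩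
    · left
      rw [e] at h6
      subst h6
      refine ⟨rfl, ?_⟩
      rcases hu.2 with ⟨h, _⟩ | ⟨k', h, h', _⟩
      · simp at h
      · simp only [Option.some.injEq] at h; exact h ▸ h'
    · right; rw [h6, e]
    · right; rw [h6, e]
  have hv1 : (v = (X, some l) ∧ l ∈ R) ∨ v.1 = insert l X := by
    rcases pt_cases (δ := δ) (lo := lo) (hi := hi) X l k with ⟨a, e⟩ | ⟨a, b, e⟩ | ⟨a, b, e⟩
    · left
      rw [e] at h7
      subst h7
      refine ⟨rfl, ?_⟩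
      rcases hv.2 with ⟨h, _⟩ | ⟨k', h, h', _⟩
      · simp at h
      · simp only [Option.some.injEq] at h; exact h ▸ h'
    · right; rw [h7, e]
    · right; rw [h7, e]
  have cu := hu.1
  have cv := hv.1
  clear h6 h7 hu hv a1
  have : k ∈ R ∧ l ∈ R ∧ InC B R X := by
    unfold InC at *
    rcases hu1 with ⟨rfl, a⟩ | a <;> rcases hv1 with ⟨rfl, b⟩ | b
    · exact ⟨a, b, cu⟩
    · rw [b] at cv; grind
    · rw [a] at cu; grind
    · rw [a] at cu; rw [b] at cv; grind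
  exact ⟨h1, h2, h3, this.1, this.2.1, this.2.2, h4, h5⟩

theorem LH.cX (H : LH δ lo hi c R B) {X : Finset ι} (h : InC B R X) : c ∉ X := by
  intro hc
  rcases h.2 c hc with h | h
  · exact H.cB h
  · exact H.cR h

theorem LH.inc0 (_ : LH δ lo hi c R B) {X : Finset ι} (h : InC B R X) : InC B (c :: R) X := by
  unfold InC at *; grind

theorem LH.inc1 (_ : LH δ lo hi c R B) {X : Finset ι} (h : InC B R X) :
    InC B (c :: R) (insert c X) := by
  unfold InC at *; grind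

theorem LH.low (H : LH δ lo hi c R B) {X : Finset ι} (h : InC B R X) (h' : W δ X ≤ hi) {j : ι}
    (hj : j ∈ R) (hjX : j ∈ X) : W δ X - δ j + δ c < lo := by
  by_contra hn
  have c1 : InC B R (X.erase j) := by
    have := H.fr.2 j hj
    unfold InC at *; grind
  have := H.tQ _ c1 j hj (by simp) (by rw [W_erase hjX]; linarith)
  rw [W_erase hjX] at this
  linarith

theorem LH.fib_isV (H : LH δ lo hi c R B) {y v : Vx ι} (hy : IsV δ (lo - δ c) hi B R y)
    (h : Fib δ lo hi c R y v) : IsV δ lo hi B (c :: R) v := by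
  obtain ⟨X, o⟩ := y
  obtain ⟨cX, hy⟩ := hy
  simp only at cX hy
  have hc := H.cX cX
  have wc := W_insert (δ := δ) hc
  have pc := H.pos c
  rcases hy with ⟨rfl, h1, h2⟩ | ⟨k, rfl, h1, h2, h3, h4⟩
  · rcases h with (⟨k, h, _⟩ | ⟨_, h, rfl⟩ | ⟨_, h, k, hk, hk', rfl⟩) | ⟨_, h, h', rfl⟩ |
      (⟨k, h, _⟩ | ⟨_, h, rfl⟩ | ⟨_, h, k, hk, hk', rfl⟩)
    · simp at h
    · exact ⟨H.inc0 cX, Or.inl ⟨rfl, h, h2⟩⟩
    · exact ⟨H.inc0 cX, Or.inr ⟨k, rfl, by simp [hk], hk', h, H.tQ _ cX k hk hk' h1⟩⟩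
    · exact ⟨H.inc0 cX, Or.inr ⟨c, rfl, by simp, hc, h, h'⟩⟩
    · simp at h
    · exact ⟨H.inc1 cX, Or.inl ⟨rfl, by simp only [wc]; linarith, by simpa [wc] using h⟩⟩
    · have := H.low cX h2 hk hk'
      have w : W δ ((insert c X).erase k) = W δ X + δ c - δ k := by
        rw [W_erase (by simp only at hk'; simp [hk']), wc]
      refine ⟨?_, Or.inr ⟨k, rfl, by simp [hk], by simp, by simp only [w]; linarith,
        by simp only [w]; simp only at h; linarith⟩⟩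
      have := H.fr.2 k hk
      unfold InC at *; grind
  · have hkc : k ≠ c := by rintro rfl; exact H.cR h1
    rcases h with (⟨k', h, rfl⟩ | ⟨h, _⟩ | ⟨h, _⟩) | ⟨h, _⟩ | (⟨k', h, rfl⟩ | ⟨h, _⟩ | ⟨h, _⟩)
    · obtain rfl : k = k' := by simpa using h
      exact ⟨H.inc0 cX, Or.inr ⟨k, rfl, by simp [h1], h2, by simp only; linarith, h4⟩⟩
    · simp at h
    · simp at h
    · simp at h
    · obtain rfl : k = k' := by simpa using h
      exact ⟨H.inc1 cX, Or.inr ⟨k, rfl, by simp [h1], by simp [h2, hkc],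
        by simp only [wc]; linarith, by simp only [wc]; linarith⟩⟩
    · simp at h
    · simp at h

theorem LH.exists_fib (H : LH δ lo hi c R B) {v : Vx ι} (hv : IsV δ lo hi B (c :: R) v) :
    ∃ y, IsV δ (lo - δ c) hi B R y ∧ Fib δ lo hi c R y v := by
  obtain ⟨X, o⟩ := v
  obtain ⟨cX, hv⟩ := hv
  simp only at cX hv
  have pc := H.pos c
  have lh := H.lh
  by_cases hc : c ∈ X
  · obtain ⟨Y, hY, rfl⟩ : ∃ Y, c ∉ Y ∧ X = insert c Y :=
      ⟨X.erase c, by simp, (Finset.insert_erase hc).symm⟩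
    have cY : InC B R Y := by
      have := H.cB
      unfold InC at *; grind
    have wc := W_insert (δ := δ) hY
    rw [wc] at hv
    rcases hv with ⟨rfl, h1, h2⟩ | ⟨k, rfl, h1, h2, h3, h4⟩
    · exact ⟨(Y, none), ⟨cY, Or.inl ⟨rfl, by simp only; linarith, by simp only; linarith⟩⟩,
        Or.inr (Or.inr (Or.inr (Or.inl ⟨rfl, h2, rfl⟩)))⟩
    · have hkR : k ∈ R := by grind
      have hkY : k ∉ Y := by grind
      have wk := W_insert (δ := δ) hkY
      by_cases e : hi < W δ Y + δ k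
      · exact ⟨(Y, some k), ⟨cY, Or.inr ⟨k, rfl, hkR, hkY, by simp only; linarith, e⟩⟩,
          Or.inr (Or.inr (Or.inl ⟨k, rfl, rfl⟩))⟩
      · refine ⟨(insert k Y, none), ⟨by unfold InC at *; grind, Or.inl ⟨rfl,
          by simp only [wk]; linarith, by simp only [wk]; linarith⟩⟩,
          Or.inr (Or.inr (Or.inr (Or.inr ⟨rfl, by simp only [wk]; linarith, k, hkR, by simp, ?_⟩)))⟩
        simp only [Prod.mk.injEq, and_true]
        ext i; simp only [Finset.mem_erase, Finset.mem_insert]; grind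
  · have cY : InC B R X := by unfold InC at *; grind
    rcases hv with ⟨rfl, h1, h2⟩ | ⟨k, rfl, h1, h2, h3, h4⟩
    · exact ⟨(X, none), ⟨cY, Or.inl ⟨rfl, by simp only; linarith, h2⟩⟩,
        Or.inl (Or.inr (Or.inl ⟨rfl, h1, rfl⟩))⟩
    · by_cases e : k = c
      · subst e
        exact ⟨(X, none), ⟨cY, Or.inl ⟨rfl, by simp only; linarith, by simp only; linarith⟩⟩,
          Or.inr (Or.inl ⟨rfl, h3, h4, rfl⟩)⟩
      have hkR : k ∈ R := by grind
      by_cases e' : W δ X < lo - δ c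
      · exact ⟨(X, some k), ⟨cY, Or.inr ⟨k, rfl, hkR, h2, e', h4⟩⟩, Or.inl (Or.inl ⟨k, rfl, rfl⟩)⟩
      · exact ⟨(X, none), ⟨cY, Or.inl ⟨rfl, not_lt.1 e', by simp only; linarith⟩⟩,
          Or.inl (Or.inr (Or.inr ⟨rfl, h3, k, hkR, h2, rfl⟩))⟩

theorem LH.pr_fib (H : LH δ lo hi c R B) {y v : Vx ι} (hy : IsV δ (lo - δ c) hi B R y)
    (h : Fib δ lo hi c R y v) : pr δ lo hi c v = y := by
  obtain ⟨X, o⟩ := y
  obtain ⟨cX, hy⟩ := hy
  simp only at cX hy
  have hc := H.cX cX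
  have ec : (insert c X).erase c = X := Finset.erase_insert hc
  rcases hy with ⟨rfl, h1, h2⟩ | ⟨k, rfl, h1, h2, h3, h4⟩
  · rcases h with (⟨k, h, _⟩ | ⟨_, h, rfl⟩ | ⟨_, h, k, hk, hk', rfl⟩) | ⟨_, h, h', rfl⟩ |
      (⟨k, h, _⟩ | ⟨_, h, rfl⟩ | ⟨_, h, k, hk, hk', rfl⟩)
    · simp at h
    · simp [pr, hc]
    · simp [pr, hc, not_lt.2 h1]
    · simp [pr, hc]
    · simp at h
    · simp [pr, ec]
    · have hkc : k ≠ c := by rintro rfl; exact H.cR hk
      simp only at hk'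
      have e1 : ((insert c X).erase k).erase c = X.erase k := by
        ext i; simp only [Finset.mem_erase, Finset.mem_insert]; grind
      have e2 : ¬ hi < W δ (X.erase k) + δ k := by rw [W_erase hk']; linarith
      have e3 : c ∈ (insert c X).erase k := by simp [hkc.symm]
      simp only [pr, e3, if_true, e1, e2, if_false, Finset.insert_erase hk']
  · have hkc : k ≠ c := by rintro rfl; exact H.cR h1
    rcases h with (⟨k', h, rfl⟩ | ⟨h, _⟩ | ⟨h, _⟩) | ⟨h, _⟩ | (⟨k', h, rfl⟩ | ⟨h, _⟩ | ⟨h, _⟩)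
    · obtain rfl : k = k' := by simpa using h
      simp [pr, hc, hkc, h3]
    · simp at h
    · simp at h
    · simp at h
    · obtain rfl : k = k' := by simpa using h
      simp [pr, ec, h4]
    · simp at h
    · simp at h

theorem LH.fib_uniq (H : LH δ lo hi c R B) {y y' v : Vx ι} (hy : IsV δ (lo - δ c) hi B R y)
    (hy' : IsV δ (lo - δ c) hi B R y') (h : Fib δ lo hi c R y v) (h' : Fib δ lo hi c R y' v) :
    y = y' := (H.pr_fib hy h).symm.trans (H.pr_fib hy' h')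

theorem Part.fib {a : Bool} {y v : Vx ι} (h : Part δ lo hi c R a y v) : Fib δ lo hi c R y v := by
  cases a
  · exact Or.inl h
  · exact Or.inr (Or.inr h)

theorem LH.part0_c (H : LH δ lo hi c R B) {y v : Vx ι} (hy : IsV δ (lo - δ c) hi B R y)
    (h : Part0 δ lo R y v) : c ∉ v.1 ∧ v.2 ≠ some c := by
  have hc := H.cX hy.1
  have := H.cR
  rcases h with ⟨k, h, rfl⟩ | ⟨_, _, rfl⟩ | ⟨_, _, k, hk, _, rfl⟩
  · refine ⟨hc, ?_⟩
    rcases hy.2 with ⟨h', _⟩ | ⟨k', h1, h2, _⟩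
    · simp [h] at h'
    · grind
  · exact ⟨hc, by simp⟩
  · exact ⟨hc, by grind⟩

theorem LH.part1_c (H : LH δ lo hi c R B) {y v : Vx ι} (h : Part1 δ hi c R y v) : c ∈ v.1 := by
  have := H.cR
  rcases h with ⟨k, h, rfl⟩ | ⟨_, _, rfl⟩ | ⟨_, _, k, hk, _, rfl⟩
  · simp
  · simp
  · grind

theorem LH.part0_up (H : LH δ lo hi c R B) {y v : Vx ι} (hy : IsV δ (lo - δ c) hi B R y)
    (h0 : y.2 = none) (h1 : W δ y.1 < lo) (h : Part0 δ lo R y v) : Up δ lo hi y.1 v := by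
  rcases h with ⟨k, h, rfl⟩ | ⟨_, h, rfl⟩ | ⟨_, _, k, hk, hk', rfl⟩
  · simp [h0] at h
  · linarith
  · refine ⟨k, hk', Or.inl ⟨H.tQ _ hy.1 k hk hk' ?_, rfl⟩⟩
    rcases hy.2 with ⟨_, h, _⟩ | ⟨k', h, _⟩
    · exact h
    · simp [h0] at h

theorem LH.cen_up (H : LH δ lo hi c R B) {y v : Vx ι} (hy : IsV δ (lo - δ c) hi B R y)
    (h : Cen δ lo hi c y v) : Up δ lo hi y.1 v :=
  ⟨c, H.cX hy.1, Or.inl ⟨h.2.2.1, h.2.2.2⟩⟩

theorem LH.part1_up (H : LH δ lo hi c R B) {y v : Vx ι} (hy : IsV δ (lo - δ c) hi B R y)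
    (h0 : y.2 = none) (h1 : W δ y.1 + δ c ≤ hi) (h : Part1 δ hi c R y v) :
    Up δ lo hi y.1 v ∧ v = (insert c y.1, none) := by
  rcases h with ⟨k, h, rfl⟩ | ⟨_, h, rfl⟩ | ⟨_, h, _⟩
  · simp [h0] at h
  · refine ⟨⟨c, H.cX hy.1, Or.inr ⟨?_, h, rfl⟩⟩, rfl⟩
    rcases hy.2 with ⟨_, h, _⟩ | ⟨k', h, _⟩
    · linarith
    · simp [h0] at h
  · linarith

theorem LH.part1_dn (H : LH δ lo hi c R B) {y v : Vx ι} (hy : IsV δ (lo - δ c) hi B R y)
    (h0 : y.2 = none) (h1 : hi < W δ y.1 + δ c) (h : Part1 δ hi c R y v) :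
    Dn δ lo hi (insert c y.1) v := by
  rcases h with ⟨k, h, rfl⟩ | ⟨_, h, rfl⟩ | ⟨_, _, k, hk, hk', rfl⟩
  · simp [h0] at h
  · linarith
  · refine ⟨k, by simp [hk'], Or.inl ⟨?_, rfl⟩⟩
    rw [W_insert (H.cX hy.1)]
    rcases hy.2 with ⟨_, _, h⟩ | ⟨k', h, _⟩
    · linarith [H.low hy.1 h hk hk']
    · simp [h0] at h

theorem LH.cen_dn (H : LH δ lo hi c R B) {y v : Vx ι} (hy : IsV δ (lo - δ c) hi B R y)
    (h : Cen δ lo hi c y v) : Dn δ lo hi (insert c y.1) v := by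
  refine ⟨c, by simp, Or.inl ⟨?_, ?_⟩⟩
  · rw [W_insert (H.cX hy.1)]; linarith [h.2.1]
  · rw [Finset.erase_insert (H.cX hy.1)]; exact h.2.2.2

theorem LH.part0_dn (H : LH δ lo hi c R B) {y v : Vx ι} (hy : IsV δ (lo - δ c) hi B R y)
    (h0 : y.2 = none) (h1 : lo ≤ W δ y.1) (h : Part0 δ lo R y v) :
    Dn δ lo hi (insert c y.1) v ∧ v = (y.1, none) ∧ hi < W δ y.1 + δ c := by
  have hc := H.cX hy.1
  rcases h with ⟨k, h, rfl⟩ | ⟨_, h, rfl⟩ | ⟨_, h, _⟩
  · simp [h0] at h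
  · refine ⟨⟨c, by simp, Or.inr ⟨?_, ?_, ?_⟩⟩, rfl, H.tP _ (H.inc0 hy.1) c (by simp) hc h1⟩
    · rw [W_insert hc]; linarith
    · rw [W_insert hc]
      rcases hy.2 with ⟨_, _, h⟩ | ⟨k', h, _⟩
      · linarith
      · simp [h0] at h
    · rw [Finset.erase_insert hc]
  · linarith

theorem part_twin {y v : Vx ι} {k : ι} (h0 : y.2 = some k) {a : Bool}
    (h : Part δ lo hi c R a y v) : v = (sd a c y.1, some k) := by
  cases a
  · rcases h with ⟨k', h, rfl⟩ | ⟨h, _⟩ | ⟨h, _⟩ <;> simp_all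
  · rcases h with ⟨k', h, rfl⟩ | ⟨h, _⟩ | ⟨h, _⟩ <;> simp_all

/-- Each part together with the centre is a clique. -/
theorem LH.clique (H : LH δ lo hi c R B) {y u v : Vx ι} (hy : IsV δ (lo - δ c) hi B R y)
    (a : Bool) (hu : Part δ lo hi c R a y u ∨ Cen δ lo hi c y u)
    (hv : Part δ lo hi c R a y v ∨ Cen δ lo hi c y v) (ne : u ≠ v) : Adj δ lo hi u v := by
  have vu : IsV δ lo hi B (c :: R) u :=
    H.fib_isV hy (hu.elim Part.fib (fun h => Or.inr (Or.inl h)))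
  have vv : IsV δ lo hi B (c :: R) v :=
    H.fib_isV hy (hv.elim Part.fib (fun h => Or.inr (Or.inl h)))
  cases h0 : y.2 with
  | some k =>
    exfalso
    rcases hu with hu | hu
    · rcases hv with hv | hv
      · exact ne ((part_twin h0 hu).trans (part_twin h0 hv).symm)
      · simp [Cen, h0] at hv
    · simp [Cen, h0] at hu
  | none =>
    cases a
    · by_cases h1 : W δ y.1 < lo
      · exact up_adj H.pos H.tP vu vv h1 (hu.elim (H.part0_up hy h0 h1) (H.cen_up hy))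
          (hv.elim (H.part0_up hy h0 h1) (H.cen_up hy)) ne
      · exfalso
        rcases hu with hu | hu
        · rcases hv with hv | hv
          · exact ne ((H.part0_dn hy h0 (not_lt.1 h1) hu).2.1.trans
              (H.part0_dn hy h0 (not_lt.1 h1) hv).2.1.symm)
          · exact h1 hv.2.1
        · exact h1 hu.2.1
    · by_cases h1 : hi < W δ y.1 + δ c
      · exact dn_adj H.pos H.lh H.tP vu vv (by rw [W_insert (H.cX hy.1)]; exact h1)
          (hu.elim (H.part1_dn hy h0 h1) (H.cen_dn hy))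
          (hv.elim (H.part1_dn hy h0 h1) (H.cen_dn hy)) ne
      · exfalso
        rcases hu with hu | hu
        · rcases hv with hv | hv
          · exact ne ((H.part1_up hy h0 (not_lt.1 h1) hu).2.trans
              (H.part1_up hy h0 (not_lt.1 h1) hv).2.symm)
          · exact h1 hv.2.2.1
        · exact h1 hu.2.2.1

theorem LH.port (H : LH δ lo hi c R B) {X : Finset ι} {k l : ι}
    (F : Face δ (lo - δ c) hi R B X k l) (a : Bool) :
    Part δ lo hi c R a (pt δ (lo - δ c) hi X k l) (pt δ lo hi (sd a c X) k l) := by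
  have hc := H.cX F.inc
  have wc := W_insert (δ := δ) hc
  have wk := W_insert (δ := δ) F.kX
  have pc := H.pos c
  have lh := H.lh
  have hkc : k ≠ c := by rintro rfl; exact H.cR F.kR
  have hl : l ∉ insert k X := by simp [F.lX, F.ne.symm]
  rcases pt_cases (δ := δ) (lo := lo - δ c) (hi := hi) X k l with
    ⟨h, e⟩ | ⟨h, h', e⟩ | ⟨h, h', e⟩ <;> rw [e] <;> cases a
  · exact Or.inl ⟨k, rfl, pt_pos h⟩
  · exact Or.inl ⟨k, rfl, pt_pos (by simp only [sd_true, wc]; linarith)⟩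
  · exact Or.inl ⟨l, rfl, pt_neg lh (by simp only [sd_false]; linarith)⟩
  · refine Or.inl ⟨l, rfl, ?_⟩
    rw [pt_neg lh (by simp only [sd_true, wc]; linarith), sd_true, Finset.insert_comm]
  · by_cases h1 : W δ X + δ k < lo
    · exact Or.inr (Or.inr ⟨rfl, by simpa [wk] using h1, l, F.lR, hl, pt_neg lh h1⟩)
    · exact Or.inr (Or.inl ⟨rfl, by simpa [wk] using h1, pt_zero (not_lt.1 h1) h'⟩)
  · by_cases h1 : hi < W δ X + δ k + δ c
    · refine Or.inr (Or.inr ⟨rfl, by simpa [wk] using h1, k, F.kR, by simp, ?_⟩)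
      rw [pt_pos (by simp only [sd_true, wc]; linarith)]
      simp only [sd_true, Prod.mk.injEq, and_true]
      have := F.kX
      ext i; simp only [Finset.mem_erase, Finset.mem_insert]; grind
    · refine Or.inr (Or.inl ⟨rfl, by simpa [wk] using h1, ?_⟩)
      rw [pt_zero (by simp only [sd_true, wc]; linarith) (by simp only [sd_true, wc]; linarith),
        sd_true, Finset.insert_comm]

theorem LH.port_adj (H : LH δ lo hi c R B) {X : Finset ι} {k l : ι}
    (F : Face δ (lo - δ c) hi R B X k l) (a : Bool) :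
    Adj δ lo hi (pt δ lo hi (sd a c X) k l) (pt δ lo hi (sd a c X) l k) := by
  have hc := H.cX F.inc
  have wc := W_insert (δ := δ) hc
  have pc := H.pos c
  have hkc : k ≠ c := by rintro rfl; exact H.cR F.kR
  have hlc : l ≠ c := by rintro rfl; exact H.cR F.lR
  have := F.neg
  have := F.pos
  cases a
  · exact ⟨X, k, l, F.ne, F.kX, F.lX, by linarith, F.pos, rfl, rfl⟩
  · exact ⟨insert c X, k, l, F.ne, by simp [hkc, F.kX], by simp [hlc, F.lX], by linarith,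
      by linarith, rfl, rfl⟩

theorem LH.rung (H : LH δ lo hi c R B) {X : Finset ι} {k : ι}
    (hy : IsV δ (lo - δ c) hi B R (X, some k)) :
    Adj δ lo hi (X, some k) (insert c X, some k) := by
  have hc := H.cX hy.1
  have pc := H.pos c
  rcases hy.2 with ⟨h, _⟩ | ⟨k', h, h1, h2, h3, h4⟩
  · simp at h
  · obtain rfl : k = k' := by simpa using h
    simp only at h2 h3 h4 hc
    have hkc : k ≠ c := by rintro rfl; exact H.cR h1
    exact ⟨X, k, c, hkc, h2, hc, by linarith, by linarith, (pt_pos h4).symm,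
      (pt_neg H.lh (by linarith)).symm⟩

theorem LH.cen_big (H : LH δ lo hi c R B) (h3 : 3 ≤ R.length) {y v : Vx ι}
    (h : Cen δ lo hi c y v) : Big δ lo hi c R y := by
  have nd := H.fr.1
  obtain ⟨h0, h1, h2, _⟩ := h
  have k0 : ∀ i j, i ∈ R → j ∈ R → i ≠ j → i ∉ y.1 → j ∉ y.1 → Big δ lo hi c R y :=
    fun i j hi hj ne hi' hj' => ⟨false, _, _, Or.inr (Or.inr ⟨h0, h1, i, hi, hi', rfl⟩),
      Or.inr (Or.inr ⟨h0, h1, j, hj, hj', rfl⟩), by simp [ne]⟩
  have k1 : ∀ i j, i ∈ R → j ∈ R → i ≠ j → i ∈ y.1 → j ∈ y.1 → Big δ lo hi c R y :=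
    fun i j hi hj ne hi' hj' => ⟨true, _, _, Or.inr (Or.inr ⟨h0, h2, i, hi, hi', rfl⟩),
      Or.inr (Or.inr ⟨h0, h2, j, hj, hj', rfl⟩), by simp [ne]⟩
  match R, h3, nd, k0, k1 with
  | i :: j :: l :: t, _, nd, k0, k1 =>
    have n1 : i ≠ j := by grind
    have n2 : i ≠ l := by grind
    have n3 : j ≠ l := by grind
    by_cases a1 : i ∈ y.1 <;> by_cases a2 : j ∈ y.1 <;> by_cases a3 : l ∈ y.1
    · exact k1 i j (by simp) (by simp) n1 a1 a2
    · exact k1 i j (by simp) (by simp) n1 a1 a2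
    · exact k1 i l (by simp) (by simp) n2 a1 a3
    · exact k0 j l (by simp) (by simp) n3 a2 a3
    · exact k1 j l (by simp) (by simp) n3 a2 a3
    · exact k0 i l (by simp) (by simp) n2 a1 a3
    · exact k0 i j (by simp) (by simp) n1 a1 a2
    · exact k0 i j (by simp) (by simp) n1 a1 a2

end Pool.Agent.MP_3fd310_co
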