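import Pool.Agent.MP_3fd310_co.Geom

set_option autoImplicit false

namespace Pool.Agent.MP_3fd310_co

def TP {p q : ℕ} (u : Fin p → ℝ) (v : Fin q → ℝ) : Set (Fin p → Fin q → ℝ) :=
  {x | (∀ i j, 0 ≤ x i j) ∧ (∀ i, (∑ j, x i j) = u i) ∧ (∀ j, (∑ i, x i j) = v j)}

theorem tp_convex {p q : ℕ} (u : Fin p → ℝ) (v : Fin q → ℝ) : Convex ℝ (TP u v) := by
  rintro x ⟨x1, x2, x3⟩ y ⟨y1, y2, y3⟩ a b ha hb hab
  refine ⟨fun i j => ?_, fun i => ?_, fun j => ?_⟩
  · simp only [Pi.add_apply, Pi.smul_apply, smul_eq_mul]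
    exact add_nonneg (mul_nonneg ha (x1 i j)) (mul_nonneg hb (y1 i j))
  · simp only [Pi.add_apply, Pi.smul_apply, smul_eq_mul, Finset.sum_add_distrib, ← Finset.mul_sum,
      x2, y2]
    rw [← add_mul, hab, one_mul]
  · simp only [Pi.add_apply, Pi.smul_apply, smul_eq_mul, Finset.sum_add_distrib, ← Finset.mul_sum,
      x3, y3]
    rw [← add_mul, hab, one_mul]

theorem tp_small {p q : ℕ} (u : Fin p → ℝ) (v : Fin q → ℝ) (h : p ≤ 1 ∨ q ≤ 1) :
    (Set.extremePoints ℝ (TP u v)).ncard ≤ 1 := by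
  have : (TP u v).Subsingleton := by
    rintro x ⟨_, x2, x3⟩ y ⟨_, y2, y3⟩
    funext i j
    rcases h with h | h
    · have : Subsingleton (Fin p) := Fin.subsingleton_iff_le_one.2 h
      have e := (x3 j).trans (y3 j).symm
      rwa [Fintype.sum_subsingleton _ i, Fintype.sum_subsingleton _ i] at e
    · have : Subsingleton (Fin q) := Fin.subsingleton_iff_le_one.2 h
      have e := (x2 i).trans (y2 i).symm
      rwa [Fintype.sum_subsingleton _ j, Fintype.sum_subsingleton _ j] at e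
  have h2 : (Set.extremePoints ℝ (TP u v)).Subsingleton := this.anti extremePoints_subset
  exact (Set.ncard_le_one h2.finite).2 (fun a ha b hb => h2 ha hb)

theorem tp_rows {q : ℕ} (hq : 2 ≤ q) (u : Fin 2 → ℝ) (v : Fin q → ℝ) (hu : ∀ i, 0 < u i)
    (hv : ∀ j, 0 < v j) (h : (∑ i, u i) = ∑ j, v j) :
    ∃ (n : ℕ) (f : Fin n → (Fin 2 → Fin q → ℝ)), Function.Injective f ∧
      Set.range f = Set.extremePoints ℝ (TP u v) ∧
      ∀ i : Fin n, IsExtreme ℝ (TP u v) (segment ℝ (f i) (f (finRotate n i))) := by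
  rw [Fin.sum_univ_two] at h
  refine transfer (tp_convex u v) (LinearMap.proj 0) (Q := Box v (u 0)) ?_ ?_
    (box_ham hv (by simpa using hq) (hu 0) (by linarith [hu 1]))
  · rintro x ⟨_, _, x3⟩ y ⟨_, _, y3⟩ e
    simp only [LinearMap.proj_apply] at e
    funext i j
    have a := x3 j
    have b := y3 j
    rw [Fin.sum_univ_two] at a b
    have c := congrFun e j
    fin_cases i
    · exact c
    · simp only [Fin.mk_one, Fin.isValue]; linarith
  · ext y
    constructor
    · rintro ⟨x, ⟨x1, x2, x3⟩, rfl⟩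
      refine ⟨fun j => ⟨x1 0 j, ?_⟩, x2 0⟩
      have a := x3 j
      rw [Fin.sum_univ_two] at a
      simp only [LinearMap.proj_apply]
      linarith [x1 1 j]
    · rintro ⟨y1, y2⟩
      refine ⟨![y, fun j => v j - y j], ⟨?_, ?_, ?_⟩, by simp⟩
      · intro i j
        fin_cases i
        · exact (y1 j).1
        · simpa using (y1 j).2
      · intro i
        fin_cases i
        · simpa using y2
        · simp [Finset.sum_sub_distrib, y2]; linarith
      · intro j; simp [Fin.sum_univ_two]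

theorem tp_cols {p : ℕ} (hp : 2 ≤ p) (u : Fin p → ℝ) (v : Fin 2 → ℝ) (hu : ∀ i, 0 < u i)
    (hv : ∀ j, 0 < v j) (h : (∑ i, u i) = ∑ j, v j) :
    ∃ (n : ℕ) (f : Fin n → (Fin p → Fin 2 → ℝ)), Function.Injective f ∧
      Set.range f = Set.extremePoints ℝ (TP u v) ∧
      ∀ i : Fin n, IsExtreme ℝ (TP u v) (segment ℝ (f i) (f (finRotate n i))) := by
  rw [Fin.sum_univ_two] at h
  refine transfer (tp_convex u v)
    (LinearMap.pi fun i => (LinearMap.proj (R := ℝ) (φ := fun _ : Fin 2 => ℝ) 0).comp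
      (LinearMap.proj (R := ℝ) (φ := fun _ : Fin p => Fin 2 → ℝ) i)) (Q := Box u (v 0)) ?_ ?_
    (box_ham hu (by simpa using hp) (hv 0) (by linarith [hv 1]))
  · rintro x ⟨_, x3, _⟩ y ⟨_, y3, _⟩ e
    funext i j
    have a := x3 i
    have b := y3 i
    rw [Fin.sum_univ_two] at a b
    have c : x i 0 = y i 0 := congrFun e i
    fin_cases j
    · exact c
    · simp only [Fin.mk_one, Fin.isValue]; linarith
  · ext y
    constructor
    · rintro ⟨x, ⟨x1, x2, x3⟩, rfl⟩
      refine ⟨fun i => ⟨x1 i 0, ?_⟩, x3 0⟩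
      have a := x2 i
      rw [Fin.sum_univ_two] at a
      show x i 0 ≤ u i
      linarith [x1 i 1]
    · rintro ⟨y1, y2⟩
      refine ⟨fun i => ![y i, u i - y i], ⟨?_, ?_, ?_⟩, by funext i; simp⟩
      · intro i j
        fin_cases j
        · exact (y1 i).1
        · simpa using (y1 i).2
      · intro i; simp [Fin.sum_univ_two]
      · intro j
        fin_cases j
        · simpa using y2
        · simp [Finset.sum_sub_distrib, y2]; linarith

theorem tp_ham (p q : ℕ) (hpq : p ≤ 2 ∨ q ≤ 2) (u : Fin p → ℝ) (v : Fin q → ℝ)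
    (hu : ∀ i, 0 < u i) (hv : ∀ j, 0 < v j) (h : (∑ i, u i) = ∑ j, v j)
    (h3 : 3 ≤ (Set.extremePoints ℝ (TP u v)).ncard) :
    ∃ (n : ℕ) (f : Fin n → (Fin p → Fin q → ℝ)), Function.Injective f ∧
      Set.range f = Set.extremePoints ℝ (TP u v) ∧
      ∀ i : Fin n, IsExtreme ℝ (TP u v) (segment ℝ (f i) (f (finRotate n i))) := by
  by_cases hs : p ≤ 1 ∨ q ≤ 1
  · have := tp_small u v hs
    omega
  push Not at hs
  rcases hpq with h2 | h2
  · obtain rfl : p = 2 := by omega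
    exact tp_rows hs.2 u v hu hv h
  · obtain rfl : q = 2 := by omega
    exact tp_cols hs.1 u v hu hv h

end Pool.Agent.MP_3fd310_co
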