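import Mathlib
import Pool.Agent.MP_3fd310_co.GDefs

set_option autoImplicit false

namespace Pool.Agent.MP_3fd310_co.Gen

open Finset

theorem pos_term_GBal {E : Type} [Fintype E] {c d : E → ℝ} (hc : ∀ f, 0 ≤ c f)
    (h : 0 < ∑ f, c f * d f) : ∃ f, c f ≠ 0 ∧ 0 < d f := by
  by_contra hne
  push Not at hne
  refine h.not_ge (sum_nonpos fun f _ => ?_)
  by_cases h0 : c f = 0
  · simp [h0]
  · exact mul_nonpos_of_nonneg_of_nonpos (hc f) (hne f h0)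

theorem cone_GBal (hC : ConeStmt) {E : Type} [Fintype E] [DecidableEq E]
    {W : Submodule ℝ (E → ℝ)} {b : E → ℝ} (hS : Simple W b) (hB : Bdd W) (x y : Vtx W b) :
    ∃ (n : E → Vtx W b) (c : E → ℝ), (∀ f, c f ≠ 0 → (PG W b).Adj x (n f)) ∧ (∀ f, 0 ≤ c f) ∧
      ∀ g : (E → ℝ) →ₗ[ℝ] ℝ, g y.1 - g x.1 = ∑ f, c f * (g (n f).1 - g x.1) := by
  obtain ⟨n, c, h1, h2, h3⟩ := hC E W b hS hB x (y.1 - x.1)
    (by simpa using W.sub_mem y.2.1.2 x.2.1.2)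
  refine ⟨n, c, h1, h3 fun e he => by simpa [he] using y.2.1.1 e, fun g => ?_⟩
  rw [← map_sub, h2]
  simp

theorem key_GBal (hC : ConeStmt) {E : Type} [Fintype E] [DecidableEq E]
    {W : Submodule ℝ (E → ℝ)} {b : E → ℝ} (hS : Simple W b) (hB : Bdd W)
    {Z B : Finset (Vtx W b)} (g : (E → ℝ) →ₗ[ℝ] ℝ) {c : ℝ} (hZ : ∀ z ∈ Z, g z.1 = c)
    (hcl : ∀ a ∈ B, ∀ y, y ∉ Z → (PG W b).Adj a y → y ∈ B) {v y : Vtx W b} (hv : v ∈ B)
    (hc : c ≤ g v.1) (hy : ∀ u : Vtx W b, g u.1 ≤ g y.1) (hy' : c < g y.1) : y ∈ B := by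
  classical
  obtain ⟨a, ha, hmax⟩ := B.exists_max_image (fun u => g u.1) ⟨v, hv⟩
  have h1 : g a.1 = g y.1 := by
    refine (hy a).eq_of_not_lt fun hlt => ?_
    obtain ⟨n, k, h1, h2, h3⟩ := cone_GBal hC hS hB a y
    obtain ⟨f, h4, h5⟩ := pos_term_GBal h2 (h3 g ▸ sub_pos.2 hlt)
    have := hmax _ (hcl a ha (n f) (fun hz => by linarith [hZ _ hz, hmax v hv]) (h1 f h4))
    linarith
  let h : (E → ℝ) →ₗ[ℝ] ℝ := -∑ e with y.1 e = 0, LinearMap.proj e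
  have hh : ∀ u, h u = -∑ e with y.1 e = 0, u e := fun u => by simp [h]
  obtain ⟨a', ha', hmax'⟩ := (B.filter fun u => g u.1 = g y.1).exists_max_image (fun u => h u.1)
    ⟨a, mem_filter.2 ⟨ha, h1⟩⟩
  rw [mem_filter] at ha'
  by_contra hne
  have h2 : h a'.1 < h y.1 := by
    rw [hh, hh, neg_lt_neg_iff, sum_eq_zero fun e he => (mem_filter.1 he).2]
    refine (sum_nonneg fun e _ => a'.2.1.1 e).lt_of_ne' fun h0 => hne ?_
    have := y.2.2 (a'.1 - y.1) (by simpa using W.sub_mem a'.2.1.2 y.2.1.2) fun e he => by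
      simpa [he] using (sum_eq_zero_iff_of_nonneg fun e _ => a'.2.1.1 e).1 h0 e (by simpa using he)
    exact (Subtype.ext (sub_eq_zero.1 this) : a' = y) ▸ ha'.1
  obtain ⟨n, k, h3, h4, h5⟩ := cone_GBal hC hS hB a' y
  obtain ⟨f, h6, h7⟩ := pos_term_GBal h4 (h5 h ▸ sub_pos.2 h2)
  have h8 := (sum_eq_zero_iff_of_nonpos fun f _ => mul_nonpos_of_nonneg_of_nonpos (h4 f)
    (sub_nonpos.2 (ha'.2 ▸ hy (n f)))).1 (by rw [← h5 g, ha'.2, sub_self]) f (mem_univ f)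
  have h9 : g (n f).1 = g y.1 := by
    rw [← ha'.2]; exact sub_eq_zero.1 ((mul_eq_zero.1 h8).resolve_left h6)
  have := hmax' _ (mem_filter.2 ⟨hcl a' ha'.1 (n f) (fun hz => by linarith [hZ _ hz]) (h3 f h6), h9⟩)
  linarith

theorem bal_stmt (hC : ConeStmt) : BalStmt := by
  classical
  intro E _ _ W b hS hB hfin Z A hZ ⟨v, hv⟩ hd ⟨w, hw, hw'⟩
  have := Fintype.ofFinite (Vtx W b)
  by_contra hne
  push Not at hne
  have c1 : ∀ a ∈ A, ∀ y, y ∉ Z → (PG W b).Adj a y → y ∈ A := fun a ha y hy h =>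
    by_contra fun h' => hne a ha y h' hy h
  have c2 : ∀ a ∈ (A ∪ Z)ᶜ, ∀ y, y ∉ Z → (PG W b).Adj a y → y ∈ (A ∪ Z)ᶜ := fun a ha y hy h => by
    simp only [mem_compl, mem_union, not_or] at ha ⊢
    exact ⟨fun h' => hne y h' a ha.1 ha.2 h.symm, hy⟩
  have hwB : w ∈ (A ∪ Z)ᶜ := by simp [hw, hw']
  have main : ∀ g : (E → ℝ) →ₗ[ℝ] ℝ, (∀ z ∈ Z, g z.1 = g v.1) → g v.1 ≤ g w.1 →
      ∀ u : Vtx W b, g u.1 ≤ g v.1 := fun g h1 h2 u => by
    by_contra h3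
    obtain ⟨y, -, hy⟩ := univ.exists_max_image (fun u : Vtx W b => g u.1) ⟨v, mem_univ v⟩
    have h4 := (not_le.1 h3).trans_le (hy u (mem_univ u))
    have h5 := key_GBal hC hS hB g h1 c2 hwB h2 (fun u => hy u (mem_univ u)) h4
    simp [key_GBal hC hS hB g h1 c1 hv le_rfl (fun u => hy u (mem_univ u)) h4] at h5
  let S := Submodule.span ℝ ((Z.image fun z => z.1 - v.1 : Finset (E → ℝ)) : Set (E → ℝ))
  obtain ⟨x, hx, hx'⟩ : ∃ x ∈ W, x ∉ S := by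
    by_contra h
    push Not at h
    exact (((Submodule.finrank_mono h).trans (finrank_span_finset_le_card _)).trans
      card_image_le).not_gt hZ
  obtain ⟨g, hg, hg'⟩ := S.exists_dual_map_eq_bot_of_notMem hx' inferInstance
  have h1 : ∀ z ∈ Z, g z.1 = g v.1 := fun z hz => by
    rw [← sub_eq_zero, ← map_sub]
    exact (Submodule.eq_bot_iff _).1 hg' _ ⟨_, Submodule.subset_span
      (mem_coe.2 (mem_image_of_mem _ hz)), rfl⟩
  have h1' : ∀ z ∈ Z, (-g) z.1 = (-g) v.1 := fun z hz => by simp [h1 z hz]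
  have h2 : ∃ u : Vtx W b, g u.1 ≠ g v.1 := by
    by_contra h
    push Not at h
    obtain ⟨n, c, -, h2, -⟩ := hC E W b hS hB v x hx
    apply hg
    rw [h2]
    simp [h]
  obtain ⟨u, hu⟩ := h2
  rcases lt_trichotomy (g v.1) (g w.1) with h | h | h
  · exact h.not_ge (main g h1 h.le w)
  · exact hu (le_antisymm (main g h1 h.le u) (by simpa using main (-g) h1' (by simp [h]) u))
  · exact h.not_ge (by simpa using main (-g) h1' (by simpa using h.le) w)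

end Pool.Agent.MP_3fd310_co.Gen
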