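import Mathlib
import Pool.Agent.MP_3fd310_co.GDefs

set_option autoImplicit false

namespace Pool.Agent.MP_3fd310_co.Gen

open Finset

theorem piv_GCone (hP : PivotStmt) {E : Type} [Fintype E] [DecidableEq E]
    {W : Submodule ℝ (E → ℝ)} {b : E → ℝ} (hS : Simple W b) (hB : Bdd W) (x : Vtx W b) :
    ∃ (z : E → E → ℝ) (y : E → Vtx W b) (τ : E → ℝ), ∀ f, x.1 f = 0 → z f ∈ W ∧ z f f = 1 ∧
      (∀ e, x.1 e = 0 → e ≠ f → z f e = 0) ∧ (PG W b).Adj x (y f) ∧ 0 < τ f ∧
        (y f).1 = x.1 + τ f • z f := by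
  have h : ∀ f, ∃ (z : E → ℝ) (y : Vtx W b) (τ : ℝ), x.1 f = 0 → z ∈ W ∧ z f = 1 ∧
      (∀ e, x.1 e = 0 → e ≠ f → z e = 0) ∧ (PG W b).Adj x y ∧ 0 < τ ∧ y.1 = x.1 + τ • z := by
    intro f
    by_cases hf : x.1 f = 0
    · obtain ⟨z, hz, h1, h2⟩ := hS x.1 x.2 f hf
      obtain ⟨y, hy, τ, hτ, e⟩ := hP E W b hS hB x f z hf hz h1 h2
      exact ⟨z, y, τ, fun _ => ⟨hz, h1, h2, hy, hτ, e⟩⟩
    · exact ⟨0, x, 0, fun h => absurd h hf⟩
  choose z y τ h using h
  exact ⟨z, y, τ, h⟩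

theorem cone_stmt (hP : PivotStmt) : ConeStmt := by
  intro E _ _ W b hS hB x w hw
  classical
  obtain ⟨z, y, τ, h⟩ := piv_GCone hP hS hB x
  refine ⟨y, fun f => if x.1 f = 0 then w f / τ f else 0, fun f hf => ?_, ?_, fun h0 f => ?_⟩
  · by_cases h0 : x.1 f = 0
    · exact (h f h0).2.2.2.1
    · simp [h0] at hf
  · have e : ∀ f, (if x.1 f = 0 then w f / τ f else 0) • ((y f).1 - x.1) =
        if x.1 f = 0 then w f • z f else 0 := fun f => by
      split_ifs with h0
      · obtain ⟨-, -, -, -, h1, h2⟩ := h f h0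
        rw [h2, add_sub_cancel_left, smul_smul, div_mul_cancel₀ _ h1.ne']
      · rw [zero_smul]
    simp only [e]
    refine sub_eq_zero.1 (x.2.2 _ (W.sub_mem hw (W.sum_mem fun f _ => ?_)) fun g hg => ?_)
    · split_ifs with h0
      · exact W.smul_mem _ (h f h0).1
      · exact W.zero_mem
    · rw [Pi.sub_apply, Finset.sum_apply, Finset.sum_eq_single g]
      · rw [if_pos hg, Pi.smul_apply, (h g hg).2.1, smul_eq_mul, mul_one, sub_self]
      · intro f _ hne
        split_ifs with h0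
        · rw [Pi.smul_apply, (h f h0).2.2.1 g hg hne.symm, smul_zero]
        · rfl
      · simp
  · dsimp only
    split_ifs with h1
    · exact div_nonneg (h0 f h1) (h f h1).2.2.2.2.1.le
    · exact le_rfl

theorem deg_stmt (hZ : ZeroStmt) (hP : PivotStmt) : DegStmt := by
  intro E _ _ W b hS hB
  classical
  have hz : ∀ x : Vtx W b, (univ.filter fun e => x.1 e = 0).card = Module.finrank ℝ W :=
    fun x => hZ E W b hS x.1 x.2 _ fun e => by simp
  refine ⟨fun x => ?_, fun r hr hE x => ?_⟩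
  · obtain ⟨z, y, τ, h⟩ := piv_GCone hP hS hB x
    refine ⟨(univ.filter fun e => x.1 e = 0).image y, ?_, fun v hv => ?_⟩
    · rw [Finset.card_image_of_injOn, hz x]
      intro f hf g hg e
      have hf0 : x.1 f = 0 := by simpa using hf
      have hg0 : x.1 g = 0 := by simpa using hg
      by_contra hne
      obtain ⟨-, a1, -, -, a2, a3⟩ := h f hf0
      obtain ⟨-, -, b1, -, -, b3⟩ := h g hg0
      have c1 := congrFun a3 f
      have c2 := congrFun b3 f
      rw [Pi.add_apply, Pi.smul_apply, a1, hf0] at c1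
      rw [Pi.add_apply, Pi.smul_apply, b1 f hf0 hne, hf0, ← e, c1] at c2
      simp only [smul_eq_mul, mul_one, zero_add, mul_zero] at c2
      exact a2.ne' c2
    · obtain ⟨f, hf, rfl⟩ := Finset.mem_image.1 hv
      exact (h f (by simpa using hf)).2.2.2.1
  · obtain ⟨S, hS'⟩ : ∃ S : Finset E, S = univ.filter fun e => ¬ x.1 e = 0 := ⟨_, rfl⟩
    have hc : Module.finrank ℝ W + S.card = Fintype.card E := by
      rw [← hz x, hS', Finset.card_filter_add_card_filter_not, Finset.card_univ]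
    obtain ⟨i⟩ : Nonempty (S ↪ Fin r) := Function.Embedding.nonempty_of_card_le (by
      rw [Fintype.card_coe, Fintype.card_fin]
      omega)
    have key : ∀ y : Vtx W b, ∃ c : Fin r, (PG W b).Adj x y →
        ∃ e : S, c = i e ∧ ∀ g ∈ S.erase e, y.1 g ≠ 0 := by
      intro y
      by_cases hy : (PG W b).Adj x y
      · obtain ⟨φ, h1, h2⟩ := hy.2
        have hφ : φ ⊆ S := fun g hg => by
          rw [hS']
          exact Finset.mem_filter.2 ⟨mem_univ _, (h2 g hg).1⟩
        obtain ⟨e, he, he'⟩ := Finset.exists_mem_notMem_of_card_lt_card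
          (show φ.card < S.card by omega)
        have e1 : φ = S.erase e := Finset.eq_of_subset_of_card_le
          (Finset.subset_erase.2 ⟨hφ, he'⟩) (by rw [Finset.card_erase_of_mem he]; omega)
        exact ⟨i ⟨e, he⟩, fun _ => ⟨⟨e, he⟩, rfl, fun g hg => (h2 g (e1 ▸ hg)).2⟩⟩
      · exact ⟨⟨0, hr⟩, fun h => absurd h hy⟩
    choose c hc' using key
    refine ⟨c, fun u v hu hv e hne => ?_⟩
    obtain ⟨e1, a1, a2⟩ := hc' u hu
    obtain ⟨e2, b1, b2⟩ := hc' v hv
    obtain rfl : e1 = e2 := i.injective (by rw [← a1, ← b1, e])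
    refine ⟨hne, S.erase e1, ?_, fun g hg => ⟨a2 g hg, b2 g hg⟩⟩
    rw [Finset.card_erase_add_one e1.2]
    omega

end Pool.Agent.MP_3fd310_co.Gen
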