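import Mathlib
import Pool.Agent.MP_3fd310_co.GDefs

set_option autoImplicit false

namespace Pool.Agent.MP_3fd310_co.Gen

open Finset

theorem count_stmt : CountStmt := by
  classical
  intro V N _ _ _ _ _ G part M blk hB hT hS hb ht hadj
  have hm : ∀ n m, m ∈ blk n ↔ blk m = blk n := fun n m => ⟨hb.2 n m, fun h => h ▸ hb.1 m⟩
  let Bl := univ.image blk
  have h1 : Fintype.card N = ∑ X ∈ Bl, X.card := by
    rw [← card_univ, card_eq_sum_card_image blk]
    refine sum_congr rfl fun X hX => ?_
    obtain ⟨n, -, rfl⟩ := mem_image.1 hX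
    congr 1
    ext m
    simp [hm]
  let C := M.filter (Cross part blk)
  have h2 : (M.filter fun e => ¬ Cross part blk e).card =
      ∑ X ∈ Bl, (ins (sr part) (tg part) M X).card := by
    rw [card_eq_sum_card_fiberwise (f := fun e : V × V => blk (part e.1)) (t := Bl)
      fun e _ => mem_coe.2 (mem_image_of_mem _ (mem_univ _))]
    refine sum_congr rfl fun X hX => ?_
    obtain ⟨n, -, rfl⟩ := mem_image.1 hX
    congr 1
    ext e
    simp only [ins, Cross, sr, tg, mem_filter, hm, not_not]
    exact ⟨fun h => ⟨h.1.1, h.2, h.1.2 ▸ h.2⟩, fun h => ⟨⟨h.1, h.2.1.trans h.2.2.symm⟩, h.2.1⟩⟩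
  have h3 : ∑ X ∈ Bl, ((ins (sr part) (tg part) M X).card + 2) = ∑ X ∈ Bl, 2 * X.card :=
    sum_congr rfl fun X hX => by
      obtain ⟨n, -, rfl⟩ := mem_image.1 hX
      exact ht n
  rw [sum_add_distrib, ← h2, ← mul_sum, ← h1, sum_const, smul_eq_mul] at h3
  have h4 : C.card + _ = M.card := card_filter_add_card_filter_not (s := M) (Cross part blk)
  have h5 := hS univ univ_nonempty
  rw [show ins (sr part) (tg part) M univ = M by simp [ins], card_univ] at h5
  have h6 : 0 < Bl.card := card_pos.2 (univ_nonempty.image _)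
  by_contra hne
  let S := C.image Prod.fst ∪ C.image Prod.snd
  have h7 : S.card ≤ C.card + C.card :=
    (card_union_le _ _).trans (add_le_add card_image_le card_image_le)
  let lab : V → Finset N := fun v => blk (part v)
  obtain ⟨R, h8, h9, h10⟩ := exists_subset_injOn_image_eq_of_surjOn (f := lab) (Sᶜ : Finset V)
    (Sᶜ.image lab) (by rw [coe_image]; exact Set.surjOn_image _ _)
  have h11 : R.card = (Sᶜ.image lab).card := by rw [← h10, card_image_of_injOn h9]
  have h12 : 5 * (Bl \ Sᶜ.image lab).card ≤ S.card := by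
    rw [mul_comm, ← smul_eq_mul, ← sum_const]
    refine (sum_le_sum fun X hX => ?_).trans
      ((sum_card_fiberwise_eq_card_filter S _ lab).le.trans (card_filter_le _ _))
    obtain ⟨hX, hX'⟩ := mem_sdiff.1 hX
    obtain ⟨n, -, rfl⟩ := mem_image.1 hX
    obtain ⟨F, hF, hF'⟩ := hB n
    refine hF.trans (card_le_card fun x hx => mem_filter.2 ⟨?_, by simp only [lab, hF' x hx]⟩)
    by_contra h
    exact hX' (mem_image.2 ⟨x, mem_compl.2 h, by simp only [lab, hF' x hx]⟩)
  have h13 := le_card_sdiff (Sᶜ.image lab) Bl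
  have h14 := hT (Finset N) S R lab (fun x y hx hy h => by
    by_contra h'
    obtain ⟨e, he, hc, h⟩ := hadj x y h h'
    have he' : e ∈ C := mem_filter.2 ⟨he, hc⟩
    have a : e.1 ∈ S := mem_union_left _ (mem_image_of_mem _ he')
    have b : e.2 ∈ S := mem_union_right _ (mem_image_of_mem _ he')
    rcases h with rfl | rfl | rfl | rfl
    exacts [hx a, hx b, hy a, hy b])
    (disjoint_left.2 fun x hx => mem_compl.1 (mem_coe.1 (h8 hx))) h9 (by omega)
  omega

end Pool.Agent.MP_3fd310_co.Gen
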