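import Mathlib
import Pool.Agent.MP_3fd310_co.GDefs
set_option autoImplicit false
namespace Pool.Agent.MP_3fd310_co.Gen
open Finset

lemma eq_of_mem_GCyc {V N : Type} {G : SimpleGraph V} {part : V → N} {D : Finset (V × V)}
    (hL : Links G part D) {e e' : V × V} (he : e ∈ D) (he' : e' ∈ D) {x : V}
    (h1 : x = e.1 ∨ x = e.2) (h2 : x = e'.1 ∨ x = e'.2) : e = e' := by
  by_contra hne
  obtain ⟨a1, a2, a3, a4⟩ := hL.2 e he e' he' hne
  rcases h1 with h1 | h1 <;> rcases h2 with h2 | h2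
  · exact a1 (h1.symm.trans h2)
  · exact a2 (h1.symm.trans h2)
  · exact a3 (h1.symm.trans h2)
  · exact a4 (h1.symm.trans h2)

lemma good_GCyc {V N : Type} {G : SimpleGraph V} {part : V → N} {D : Finset (V × V)}
    (hL : Links G part D) {σ : Equiv.Perm V} (hA : Adm part D σ) (x : V) :
    ∃ z, σ.SameCycle x z ∧ part z = part x ∧ part (σ z) = part z := by
  by_cases h1 : part (σ x) = part x
  · exact ⟨x, Equiv.Perm.SameCycle.refl _ _, rfl, h1⟩
  have hu : σ (σ.symm x) = x := σ.apply_symm_apply x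
  by_cases h2 : part x = part (σ.symm x)
  · refine ⟨σ.symm x, ?_, h2.symm, by rw [hu, h2.symm]⟩
    exact ⟨-1, by simp [Equiv.Perm.inv_def]⟩
  exfalso
  have hne : σ x ≠ x := fun h => h1 (by rw [h])
  have a1 := (hA.1 x).resolve_left h1
  have a2 := hA.1 (σ.symm x)
  rw [hu] at a2
  have a3 := a2.resolve_left h2
  have key : σ x = σ.symm x := by
    rcases a1 with a1 | a1 <;> rcases a3 with a3 | a3
    · have h := eq_of_mem_GCyc hL a1 a3 (Or.inl rfl) (Or.inr rfl)
      exact absurd (congrArg Prod.snd h) hne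
    · have h := eq_of_mem_GCyc hL a1 a3 (Or.inl rfl) (Or.inl rfl)
      exact congrArg Prod.snd h
    · have h := eq_of_mem_GCyc hL a1 a3 (Or.inr rfl) (Or.inr rfl)
      exact congrArg Prod.fst h
    · have h := eq_of_mem_GCyc hL a1 a3 (Or.inr rfl) (Or.inl rfl)
      exact absurd (congrArg Prod.fst h) hne
  have k2 : σ (σ x) = x := by rw [key, hu]
  rcases a1 with a1 | a1
  · rcases hA.2 _ a1 with h | h
    · exact h.2 k2
    · exact h.2 rfl
  · rcases hA.2 _ a1 with h | h
    · exact h.2 rfl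
    · exact h.2 k2

lemma swap_adm_GCyc {V N : Type} [DecidableEq V] {G : SimpleGraph V} {part : V → N}
    {D : Finset (V × V)} (hL : Links G part D) {σ : Equiv.Perm V} (hA : Adm part D σ) {x y : V}
    (hxy : part x = part y) (hx : part (σ x) = part x) (hy : part (σ y) = part y) :
    Adm part D (σ * Equiv.swap x y) := by
  have h1 : ∀ z, (σ * Equiv.swap x y) z = σ z ∨
      (part ((σ * Equiv.swap x y) z) = part z ∧ part (σ z) = part z) := by
    intro z
    rw [Equiv.Perm.mul_apply]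
    by_cases hzx : z = x
    · subst hzx
      rw [Equiv.swap_apply_left]
      exact Or.inr ⟨hy.trans hxy.symm, hx⟩
    by_cases hzy : z = y
    · subst hzy
      rw [Equiv.swap_apply_right]
      exact Or.inr ⟨hx.trans hxy, hy⟩
    · rw [Equiv.swap_apply_of_ne_of_ne hzx hzy]
      exact Or.inl rfl
  have h2 : ∀ a b, part a ≠ part b → σ a = b → σ b ≠ a →
      (σ * Equiv.swap x y) a = b ∧ (σ * Equiv.swap x y) b ≠ a := by
    intro a b hab h3 h4
    constructor
    · rcases h1 a with h | h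
      · rw [h, h3]
      · exact absurd (by rw [← h.2, h3]) hab
    · rcases h1 b with h | h
      · rw [h]; exact h4
      · intro h5
        exact hab (by rw [← h.1, h5])
  refine ⟨fun z => ?_, fun e he => ?_⟩
  · rcases h1 z with h | h
    · rw [h]; exact hA.1 z
    · exact Or.inl h.1
  · rcases hA.2 e he with h | h
    · exact Or.inl (h2 _ _ (hL.1 e he).2 h.1 h.2)
    · exact Or.inr (h2 _ _ (hL.1 e he).2.symm h.1 h.2)

lemma step_GCyc {V : Type} {τ : Equiv.Perm V} {x z : V} (h : τ.SameCycle x z) :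
    τ.SameCycle x (τ z) := by
  rwa [Equiv.Perm.sameCycle_apply_right]

lemma merge_GCyc {V : Type} [Fintype V] [DecidableEq V] (σ : Equiv.Perm V) {x y : V}
    (hxy : ¬ σ.SameCycle x y) : (σ * Equiv.swap x y).SameCycle x y ∧
      ∀ z, σ.SameCycle x z → (σ * Equiv.swap x y).SameCycle x z := by
  have hx : (σ * Equiv.swap x y).SameCycle x x := Equiv.Perm.SameCycle.refl _ _
  have hy : (σ * Equiv.swap x y).SameCycle x y := by
    by_contra hy
    have h1 : ∀ k : ℕ, (σ * Equiv.swap x y).SameCycle x ((σ ^ (k + 1)) y) := by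
      intro k
      induction k with
      | zero =>
        have h := step_GCyc hx
        rw [Equiv.Perm.mul_apply, Equiv.swap_apply_left] at h
        simpa using h
      | succ k ih =>
        have h := step_GCyc ih
        have n1 : (σ ^ (k + 1)) y ≠ x := fun h2 =>
          hxy (Equiv.Perm.SameCycle.symm ⟨((k + 1 : ℕ) : ℤ), by rw [zpow_natCast]; exact h2⟩)
        have n2 : (σ ^ (k + 1)) y ≠ y := fun h2 => hy (by rwa [h2] at ih)
        rw [Equiv.Perm.mul_apply, Equiv.swap_apply_of_ne_of_ne n1 n2] at h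
        rwa [pow_succ', Equiv.Perm.mul_apply]
    have h2 := h1 (orderOf σ - 1)
    rw [Nat.sub_add_cancel (orderOf_pos σ), pow_orderOf_eq_one] at h2
    exact hy h2
  refine ⟨hy, fun z hz => ?_⟩
  have h3 : ∀ w, (σ * Equiv.swap x y).SameCycle x w → (σ * Equiv.swap x y).SameCycle x (σ w) := by
    intro w hw
    have h4 : (σ * Equiv.swap x y).SameCycle x (Equiv.swap x y w) := by
      by_cases hwx : w = x
      · rw [hwx, Equiv.swap_apply_left]; exact hy
      by_cases hwy : w = y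
      · rw [hwy, Equiv.swap_apply_right]
      · rwa [Equiv.swap_apply_of_ne_of_ne hwx hwy]
    have h5 := step_GCyc h4
    rwa [Equiv.Perm.mul_apply, Equiv.swap_apply_self] at h5
  have h6 : ∀ k : ℕ, (σ * Equiv.swap x y).SameCycle x ((σ ^ k) x) := by
    intro k
    induction k with
    | zero => simpa using hx
    | succ k ih =>
      rw [pow_succ', Equiv.Perm.mul_apply]
      exact h3 _ ih
  obtain ⟨k, -, rfl⟩ := hz.exists_pow_eq'
  exact h6 k

lemma cross_GCyc {V N : Type} [Fintype V] [DecidableEq V] [Fintype N] [DecidableEq N]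
    {part : V → N} {D : Finset (V × V)} (hc : Conn (sr part) (tg part) D univ)
    {σ : Equiv.Perm V} (hA : Adm part D σ) {x0 w : V} (hw : ¬ σ.SameCycle x0 w) :
    ∃ x y, part x = part y ∧ σ.SameCycle x0 x ∧ ¬ σ.SameCycle x0 y := by
  by_contra hno
  have h1 : ∀ x y, part x = part y → σ.SameCycle x0 x → σ.SameCycle x0 y := by
    intro x y h2 h3
    by_contra h4
    exact hno ⟨x, y, h2, h3, h4⟩
  have h2 : ∀ z, part z ∈ (univ.filter fun a => σ.SameCycle x0 a).image part ↔
      σ.SameCycle x0 z := by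
    intro z
    constructor
    · intro h
      obtain ⟨a, ha, haz⟩ := mem_image.1 h
      exact h1 a z haz (mem_filter.1 ha).2
    · intro h
      exact mem_image.2 ⟨z, mem_filter.2 ⟨mem_univ _, h⟩, rfl⟩
  obtain ⟨e, he, h3⟩ := hc ((univ.filter fun a => σ.SameCycle x0 a).image part) (subset_univ _)
    ⟨part x0, (h2 x0).2 (Equiv.Perm.SameCycle.refl _ _)⟩
    (fun h => hw ((h2 w).1 (by rw [h]; exact mem_univ _)))
  have h4 : σ.SameCycle x0 e.1 ↔ σ.SameCycle x0 e.2 := by
    rcases hA.2 e he with h | h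
    · rw [← h.1, Equiv.Perm.sameCycle_apply_right]
    · rw [← h.1, Equiv.Perm.sameCycle_apply_right]
  simp only [sr, tg, h2] at h3
  rcases h3 with h3 | h3
  · exact h3.2 (h4.1 h3.1)
  · exact h3.1 (h4.2 h3.2)

lemma one_GCyc {V N : Type} [Fintype V] [DecidableEq V] [Fintype N] [DecidableEq N]
    {G : SimpleGraph V} {part : V → N} {D : Finset (V × V)} (hL : Links G part D)
    (hc : Conn (sr part) (tg part) D univ) {σ : Equiv.Perm V} (hA : Adm part D σ) (x0 : V) :
    ∃ τ : Equiv.Perm V, Adm part D τ ∧ ∀ w, τ.SameCycle x0 w := by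
  classical
  obtain ⟨τ, hτ, hmax⟩ := exists_max_image (univ.filter fun τ : Equiv.Perm V => Adm part D τ)
    (fun τ => (univ.filter fun a => τ.SameCycle x0 a).card) ⟨σ, mem_filter.2 ⟨mem_univ _, hA⟩⟩
  have hτA := (mem_filter.1 hτ).2
  refine ⟨τ, hτA, fun w => ?_⟩
  by_contra hw
  obtain ⟨x1, y1, hp, hx1, hy1⟩ := cross_GCyc hc hτA hw
  obtain ⟨x, hx2, hx3, hx4⟩ := good_GCyc hL hτA x1
  obtain ⟨y, hy2, hy3, hy4⟩ := good_GCyc hL hτA y1
  have hx : τ.SameCycle x0 x := hx1.trans hx2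
  have hy : ¬ τ.SameCycle x0 y := fun h => hy1 (h.trans hy2.symm)
  have hxy : ¬ τ.SameCycle x y := fun h => hy (hx.trans h)
  have hadm := swap_adm_GCyc hL hτA (hx3.trans (hp.trans hy3.symm)) hx4 hy4
  obtain ⟨m1, m2⟩ := merge_GCyc τ hxy
  have m3 : (τ * Equiv.swap x y).SameCycle x0 x := (m2 x0 hx.symm).symm
  have h1 := hmax _ (mem_filter.2 ⟨mem_univ _, hadm⟩)
  refine absurd h1 (not_le.2 (card_lt_card ⟨fun a ha => ?_, fun h => ?_⟩))
  · exact mem_filter.2 ⟨mem_univ _, m3.trans (m2 a (hx.symm.trans (mem_filter.1 ha).2))⟩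
  · exact hy (mem_filter.1 (h (mem_filter.2 ⟨mem_univ _, m3.trans m1⟩))).2

lemma ham_GCyc {V : Type} [Fintype V] [DecidableEq V] (G : SimpleGraph V) (τ : Equiv.Perm V)
    (x0 : V) (h : ∀ w, τ.SameCycle x0 w) (hadj : ∀ x, G.Adj x (τ x))
    (h2 : 2 ≤ Fintype.card V) : HamList G := by
  obtain ⟨m, hm⟩ : ∃ m, Fintype.card V = m + 2 := ⟨Fintype.card V - 2, by omega⟩
  have hcyc : τ.IsCycleOn ((univ : Finset V) : Set V) := by
    rw [coe_univ]
    exact ⟨Set.bijOn_univ.2 τ.bijective, fun x _ y _ => (h x).symm.trans (h y)⟩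
  have hp : ∀ a b : ℕ, (τ ^ a) x0 = (τ ^ b) x0 ↔ a ≡ b [MOD (m + 2)] := by
    intro a b
    rw [hcyc.pow_apply_eq_pow_apply (mem_univ x0), card_univ, hm]
  refine ⟨m + 2, fun i => (τ ^ (i : ℕ)) x0, ?_, fun i => ?_⟩
  · rw [Fintype.bijective_iff_injective_and_card]
    refine ⟨fun i j hij => ?_, by rw [Fintype.card_fin, hm]⟩
    exact Fin.ext (Nat.ModEq.eq_of_lt_of_lt ((hp _ _).1 hij) i.2 j.2)
  · have h3 : (τ ^ ((finRotate (m + 2) i : Fin (m + 2)) : ℕ)) x0 = τ ((τ ^ (i : ℕ)) x0) := by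
      rw [← Equiv.Perm.mul_apply, ← pow_succ', hp, finRotate_apply, Fin.val_add, Fin.val_one]
      exact Nat.mod_modEq _ _
    change G.Adj ((τ ^ (i : ℕ)) x0) ((τ ^ ((finRotate (m + 2) i : Fin (m + 2)) : ℕ)) x0)
    rw [h3]
    exact hadj _

theorem cyc_stmt : CycStmt := by
  intro V N _ _ _ _ G part D σ hC hL hc hA h2
  obtain ⟨x0⟩ : Nonempty V := Fintype.card_pos_iff.1 (by omega)
  obtain ⟨τ, hτ, hall⟩ := one_GCyc hL hc hA x0
  refine ham_GCyc G τ x0 hall (fun x => ?_) h2
  rcases hτ.1 x with h | h | h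
  · refine hC x (τ x) h.symm fun hx => ?_
    obtain ⟨z, hz⟩ := Fintype.exists_ne_of_one_lt_card (by omega : 1 < Fintype.card V) x
    exact hz (((hall x).symm.trans (hall z)).eq_of_left hx.symm).symm
  · exact (hL.1 _ h).1
  · exact (hL.1 _ h).1.symm

end Pool.Agent.MP_3fd310_co.Gen
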