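import Mathlib
import Pool.Agent.MP_3fd310_co.GDefs
set_option autoImplicit false
namespace Pool.Agent.MP_3fd310_co.Gen
open Finset

section
variable {ε N : Type} [DecidableEq ε] [DecidableEq N]

/-- the boundary of an edge modulo two -/
def ed_GEven (s t : ε → N) (e : ε) : N → ZMod 2 := Pi.single (s e) 1 + Pi.single (t e) 1

omit [DecidableEq N] in
lemma self_GEven (f : N → ZMod 2) : f + f = 0 := by
  funext n
  exact CharTwo.add_self_eq_zero (f n)

omit [DecidableEq ε] in
lemma deg_GEven (s t : ε → N) (J : Finset ε) (n : N) :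
    (deg s t J n : ZMod 2) = (∑ e ∈ J, ed_GEven s t e) n := by
  rw [Finset.sum_apply]
  simp only [deg, ed_GEven, Pi.add_apply, sum_add_distrib, card_filter, Nat.cast_add, Nat.cast_sum,
    Pi.single_apply, Nat.cast_ite, Nat.cast_one, Nat.cast_zero, eq_comm (a := n)]

lemma join_GEven (s t : ε → N) (D : Finset ε) (f : N → ZMod 2)
    (hf : f ∈ AddSubmonoid.closure (ed_GEven s t '' (D : Set ε))) :
    ∃ J ⊆ D, ∑ e ∈ J, ed_GEven s t e = f := by
  induction hf using AddSubmonoid.closure_induction_left with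
  | zero => exact ⟨∅, empty_subset _, sum_empty⟩
  | add_left x hx y _ ih =>
    obtain ⟨e, he, rfl⟩ := hx
    obtain ⟨J, hJ, rfl⟩ := ih
    by_cases h : e ∈ J
    · refine ⟨J.erase e, (erase_subset _ _).trans hJ, ?_⟩
      rw [← add_sum_erase J _ h, ← add_assoc, self_GEven, zero_add]
    · exact ⟨insert e J, insert_subset he hJ, sum_insert h⟩

omit [DecidableEq ε] in
lemma pair_GEven [Fintype N] (s t : ε → N) (D : Finset ε) (hD : Conn s t D univ) (a b : N) :
    (Pi.single a 1 + Pi.single b 1 : N → ZMod 2) ∈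
      AddSubmonoid.closure (ed_GEven s t '' (D : Set ε)) := by
  classical
  set S := AddSubmonoid.closure (ed_GEven s t '' (D : Set ε)) with hS
  let X : Finset N := univ.filter fun c => (Pi.single a 1 + Pi.single c 1 : N → ZMod 2) ∈ S
  have hX : ∀ c, c ∈ X ↔ (Pi.single a 1 + Pi.single c 1 : N → ZMod 2) ∈ S := fun c => by
    simp only [X, mem_filter, mem_univ, true_and]
  have ha : a ∈ X := by
    rw [hX, self_GEven]
    exact S.zero_mem
  have hU : X = univ := by
    by_contra hne
    obtain ⟨e, he, h⟩ := hD X (subset_univ _) ⟨a, ha⟩ hne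
    have hm : ed_GEven s t e ∈ S := AddSubmonoid.subset_closure ⟨e, he, rfl⟩
    rcases h with ⟨h1, h2⟩ | ⟨h2, h1⟩
    · apply h2
      have := S.add_mem ((hX _).1 h1) hm
      rw [ed_GEven, add_assoc, ← add_assoc (Pi.single (s e) 1), self_GEven, zero_add] at this
      exact (hX _).2 this
    · apply h2
      have := S.add_mem ((hX _).1 h1) hm
      rw [ed_GEven, add_comm (Pi.single (s e) 1), add_assoc, ← add_assoc (Pi.single (t e) 1),
        self_GEven, zero_add] at this
      exact (hX _).2 this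
  exact (hX b).1 (hU ▸ mem_univ b)

end

theorem even_stmt : EvenStmt := by
  intro ε N _ _ _ s t D₁ D₂ hd h1 h2
  obtain ⟨J, hJ, e⟩ := join_GEven s t D₂ (∑ e ∈ D₁, ed_GEven s t e)
    (AddSubmonoid.sum_mem _ fun e _ => pair_GEven s t D₂ h2 (s e) (t e))
  refine ⟨D₁ ∪ J, union_subset_union_right hJ, fun X hX hne hU => ?_, fun n => ?_⟩
  · obtain ⟨f, hf, h⟩ := h1 X hX hne hU
    exact ⟨f, mem_union_left _ hf, h⟩
  · rw [← ZMod.natCast_eq_zero_iff_even, deg_GEven, sum_union (hd.mono_right hJ), e, self_GEven]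
    rfl

end Pool.Agent.MP_3fd310_co.Gen
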