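import Mathlib
import Pool.Agent.MP_3fd310_co.GDefs

set_option autoImplicit false

namespace Pool.Agent.MP_3fd310_co.Gen

open Finset

theorem eq_GExt {E : Type} {W : Submodule ℝ (E → ℝ)} {b x y : E → ℝ} (hx : IsVtx W b x)
    (hy : y ∈ Poly W b) (h : ∀ e, x e = 0 → y e = 0) : y = x := by
  have h1 : y - x ∈ W := by
    have := W.sub_mem hy.2 hx.1.2
    rwa [sub_sub_sub_cancel_right] at this
  exact sub_eq_zero.1 (hx.2 _ h1 fun e he => by simp [he, h e he])

theorem eps_GExt {E : Type} [Fintype E] (x w : E → ℝ) (hx : ∀ e, 0 ≤ x e) :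
    ∃ t : ℝ, 0 < t ∧ ∀ e, x e ≠ 0 → t * |w e| ≤ x e := by
  have h : ∀ᶠ t in nhds (0 : ℝ), ∀ e, x e ≠ 0 → t * |w e| ≤ x e := by
    refine Filter.eventually_all.2 fun e => ?_
    by_cases he : x e = 0
    · exact Filter.Eventually.of_forall fun t h => (h he).elim
    · have h0 : (0 : ℝ) * |w e| < x e := by
        rw [zero_mul]
        exact lt_of_le_of_ne (hx e) (Ne.symm he)
      have hc : ContinuousAt (fun t : ℝ => t * |w e|) 0 := by fun_prop
      exact (hc.eventually_lt continuousAt_const h0).mono fun t ht _ => ht.le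
  have h2 : ∀ᶠ t in nhdsWithin (0 : ℝ) (Set.Ioi 0), 0 < t ∧ ∀ e, x e ≠ 0 → t * |w e| ≤ x e :=
    Filter.Eventually.and self_mem_nhdsWithin (h.filter_mono nhdsWithin_le_nhds)
  exact h2.exists

theorem ext_stmt : ExtStmt := by
  intro E _ _ W b
  constructor
  · ext x
    rw [mem_extremePoints]
    constructor
    · rintro ⟨hx, h⟩
      refine ⟨hx, fun w hw h0 => ?_⟩
      obtain ⟨t, ht, ht'⟩ := eps_GExt x w hx.1
      have key : ∀ s : ℝ, |s| = t → x + s • w ∈ Poly W b := fun s hs => by
        refine ⟨fun e => ?_, ?_⟩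
        · by_cases he : x e = 0
          · simp [he, h0 e he]
          · have h1 := ht' e he
            have h2 : -(s * w e) ≤ t * |w e| := by
              rw [← hs, ← abs_mul]
              exact neg_le_abs _
            simp only [Pi.add_apply, Pi.smul_apply, smul_eq_mul]
            linarith
        · have := W.add_mem hx.2 (W.smul_mem s hw)
          rwa [sub_add_eq_add_sub] at this
      have h1 := (h _ (key t (abs_of_pos ht)) _ (key (-t) (by rw [abs_neg, abs_of_pos ht]))
        ⟨1 / 2, 1 / 2, by norm_num, by norm_num, by norm_num, by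
          ext e
          simp only [Pi.add_apply, Pi.smul_apply, smul_eq_mul]
          ring⟩).1
      have h2 : t • w = 0 := by simpa using h1
      exact (smul_eq_zero.1 h2).resolve_left ht.ne'
    · intro hx
      refine ⟨hx.1, fun y hy z hz ⟨p, q, hp, hq, _, h⟩ => ?_⟩
      have h0 : ∀ e, x e = 0 → y e = 0 ∧ z e = 0 := fun e he => by
        have h1 := congrFun h e
        simp only [Pi.add_apply, Pi.smul_apply, smul_eq_mul, he] at h1
        have h2 := mul_nonneg hp.le (hy.1 e)
        have h3 := mul_nonneg hq.le (hz.1 e)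
        exact ⟨(mul_eq_zero.1 (by linarith : p * y e = 0)).resolve_left hp.ne',
          (mul_eq_zero.1 (by linarith : q * z e = 0)).resolve_left hq.ne'⟩
      exact ⟨eq_GExt hx hy fun e he => (h0 e he).1, eq_GExt hx hz fun e he => (h0 e he).2⟩
  · refine Finite.of_injective (fun x : Vtx W b => {e | x.1 e = 0}) fun x y h => ?_
    refine Subtype.ext (eq_GExt y.2 x.2.1 fun e he => ?_)
    have h1 : e ∈ {e | y.1 e = 0} := he
    have h2 : {e | x.1 e = 0} = {e | y.1 e = 0} := h
    rw [← h2] at h1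
    exact h1

theorem zero_stmt : ZeroStmt := by
  intro E _ _ W b hs x hx Z hZ
  let r : W →ₗ[ℝ] (Z → ℝ) :=
    { toFun := fun w e => w.1 e.1
      map_add' := fun _ _ => rfl
      map_smul' := fun _ _ => rfl }
  have hi : Function.Injective r := by
    rw [← LinearMap.ker_eq_bot, LinearMap.ker_eq_bot']
    intro w hw
    exact Subtype.ext (hx.2 w.1 w.2 fun e he => congrFun hw ⟨e, (hZ e).2 he⟩)
  have hsj : Function.Surjective r := by
    rw [← LinearMap.range_eq_top, eq_top_iff, ← (Pi.basisFun ℝ Z).span_eq, Submodule.span_le]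
    rintro _ ⟨f, rfl⟩
    obtain ⟨z, hz, h1, h2⟩ := hs x hx f.1 ((hZ f.1).1 f.2)
    refine ⟨⟨z, hz⟩, funext fun e => ?_⟩
    rw [Pi.basisFun_apply]
    by_cases he : e = f
    · subst he
      rw [Pi.single_eq_same]
      exact h1
    · rw [Pi.single_eq_of_ne he]
      exact h2 e.1 ((hZ e.1).1 e.2) fun h => he (Subtype.ext h)
  rw [(LinearEquiv.ofBijective r ⟨hi, hsj⟩).finrank_eq, Module.finrank_fintype_fun_eq_card,
    Fintype.card_coe]

end Pool.Agent.MP_3fd310_co.Gen
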