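import Mathlib
import Pool.Agent.MP_3fd310_co.GDefs
set_option autoImplicit false
namespace Pool.Agent.MP_3fd310_co.Gen
open Finset

theorem apart_symm_GFree {V : Type} {e e' : V × V} (h : Apart e e') : Apart e' e :=
  ⟨h.1.symm, h.2.2.1.symm, h.2.1.symm, h.2.2.2.symm⟩

theorem free_stmt (hR : ReplaceStmt) : FreeStmt := by
  intro V N _ _ G part M blk v hG hv
  obtain ⟨hL, hS, hB, hT, hF⟩ := hG
  obtain ⟨L, lL, lS, lX, lc, lv, lA⟩ := hF v hv
  set X := blk (part v) with hX
  have hin : ∀ n, n ∈ X ↔ blk n = X := fun n =>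
    ⟨fun h => hB.2 _ _ h, fun h => h ▸ hB.1 n⟩
  have hins : ∀ (K : Finset (V × V)) (Y : Finset N) (e : V × V),
      e ∈ ins (sr part) (tg part) K Y ↔ e ∈ K ∧ part e.1 ∈ Y ∧ part e.2 ∈ Y := by
    intro K Y e
    simp [ins, sr, tg]
  have hmem : ∀ e, e ∈ (M \ ins (sr part) (tg part) M X) ∪ L ↔
      (e ∈ M ∧ ¬ (part e.1 ∈ X ∧ part e.2 ∈ X)) ∨ e ∈ L := by
    intro e
    rw [mem_union, mem_sdiff, hins]
    tauto
  have hnc : ∀ e : V × V, part e.1 ∈ X ∧ part e.2 ∈ X → ¬ Cross part blk e := by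
    intro e h hc
    exact hc (((hin _).1 h.1).trans ((hin _).1 h.2).symm)
  have hout : ∀ e : V × V, ¬ (part e.1 ∈ X ∧ part e.2 ∈ X) → ¬ Cross part blk e →
      part e.1 ∉ X ∧ part e.2 ∉ X := by
    intro e h hc
    have hc' : blk (part e.1) = blk (part e.2) := not_not.1 hc
    rw [hin, hin] at h ⊢
    rw [hc'] at h ⊢
    tauto
  have hcr : ∀ e, Cross part blk e → (e ∈ (M \ ins (sr part) (tg part) M X) ∪ L ↔ e ∈ M) := by
    intro e hc
    rw [hmem]
    constructor
    · rintro (h | h)
      · exact h.1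
      · exact absurd hc (hnc e (lX e h))
    · exact fun h => Or.inl ⟨h, fun h' => hnc e h' hc⟩
  have hap : ∀ e ∈ M, ¬ (part e.1 ∈ X ∧ part e.2 ∈ X) → ∀ e' ∈ L, Apart e' e := by
    intro e he hn e' he'
    by_cases hc : Cross part blk e
    · exact lA e' he' e he hc
    · obtain ⟨h1, h2⟩ := hout e hn hc
      obtain ⟨h3, h4⟩ := lX e' he'
      exact ⟨fun h => h1 (h ▸ h3), fun h => h2 (h ▸ h3), fun h => h1 (h ▸ h4),
        fun h => h2 (h ▸ h4)⟩
  have hTX : (ins (sr part) (tg part) M X).card + 2 = 2 * X.card := hT (part v)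
  refine ⟨(M \ ins (sr part) (tg part) M X) ∪ L, ⟨⟨?_, ?_⟩, ?_, hB, ?_, ?_⟩, ?_, ?_, hcr, ?_⟩
  · intro e he
    rcases (hmem e).1 he with h | h
    · exact hL.1 e h.1
    · exact lL.1 e h
  · intro e he e' he' hne
    rcases (hmem e).1 he with h | h <;> rcases (hmem e').1 he' with h' | h'
    · exact hL.2 e h.1 e' h'.1 hne
    · exact apart_symm_GFree (hap e h.1 h.2 e' h')
    · exact hap e' h'.1 h'.2 e h
    · exact lL.2 e h e' h' hne
  · exact hR _ _ _ _ M L X hS (hT (part v)) lS lX
  · intro n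
    by_cases hn : blk n = X
    · have : ins (sr part) (tg part) ((M \ ins (sr part) (tg part) M X) ∪ L) X = L := by
        ext e
        rw [hins, hmem]
        have := lX e
        tauto
      unfold Tight
      rw [hn, this]
      exact lc
    · have : ins (sr part) (tg part) ((M \ ins (sr part) (tg part) M X) ∪ L) (blk n) =
          ins (sr part) (tg part) M (blk n) := by
        ext e
        rw [hins, hins, hmem]
        have h1 : part e.1 ∈ blk n → part e.1 ∉ X :=
          fun h h' => hn ((hB.2 _ _ h).symm.trans ((hin _).1 h'))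
        have := lX e
        tauto
      unfold Tight
      rw [this]
      exact hT n
  · intro w hw
    obtain ⟨L', a1, a2, a3, a4, a5, a6⟩ := hF w (fun e he hc => hw e ((hcr e hc).2 he) hc)
    exact ⟨L', a1, a2, a3, a4, a5, fun e he e' he' hc => a6 e he e' ((hcr e' hc).1 he') hc⟩
  · have hd : Disjoint (M \ ins (sr part) (tg part) M X) L := by
      rw [disjoint_left]
      intro e he h
      rw [mem_sdiff, hins] at he
      exact he.2 ⟨he.1, lX e h⟩
    have hs : ins (sr part) (tg part) M X ⊆ M := filter_subset _ _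
    rw [card_union_of_disjoint hd]
    have := card_sdiff_add_card_eq_card hs
    omega
  · intro e he
    rcases (hmem e).1 he with h | h
    · by_cases hc : Cross part blk e
      · exact hv e h.1 hc
      · obtain ⟨h1, h2⟩ := hout e h.2 hc
        have h0 : part v ∈ X := hB.1 _
        exact ⟨fun h => h1 (h ▸ h0), fun h => h2 (h ▸ h0)⟩
    · exact lv e h
  · intro e he
    rcases (hmem e).1 he with h | h
    · exact Or.inl h.1
    · exact Or.inr (lX e h)

end Pool.Agent.MP_3fd310_co.Gen
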