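import Mathlib
import Pool.Agent.MP_3fd310_co.GDefs

set_option autoImplicit false

namespace Pool.Agent.MP_3fd310_co.Gen

open Finset

/-- The edge `e` joins `x` and `y`. -/
def J_GHenn {ε N : Type} (s t : ε → N) (e : ε) (x y : N) : Prop :=
  (s e = x ∧ t e = y) ∨ (s e = y ∧ t e = x)

theorem cross_GHenn {ε N : Type} {s t : ε → N} {e : ε} {x y : N} (h : J_GHenn s t e x y)
    (X : Finset N) (hxy : (x ∈ X ∧ y ∉ X) ∨ (x ∉ X ∧ y ∈ X)) :
    (s e ∈ X ∧ t e ∉ X) ∨ (s e ∉ X ∧ t e ∈ X) := by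
  rcases h with ⟨h1, h2⟩ | ⟨h1, h2⟩ <;> rw [h1, h2] <;> tauto

theorem lift_GHenn {ε N : Type} [DecidableEq N] {s t s' t' : ε → N} {D D' : Finset ε}
    {U : Finset N} {v : N} (hv : v ∈ U) (hc : Conn s' t' D' (U.erase v))
    (h0 : ∃ e ∈ D, ∃ a ∈ U.erase v, J_GHenn s t e v a)
    (h1 : ∀ e' ∈ D', (s' e' ≠ v ∧ t' e' ≠ v) ∧ ((e' ∈ D ∧ s e' = s' e' ∧ t e' = t' e') ∨
      (∃ e1 ∈ D, ∃ e2 ∈ D, J_GHenn s t e1 v (s' e') ∧ J_GHenn s t e2 v (t' e')))) :
    Conn s t D U := by
  intro X hXU hXne hXneq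
  obtain ⟨e, he, a, ha, hJ⟩ := h0
  have hav : a ≠ v := (mem_erase.1 ha).1
  by_cases hA : X.erase v = ∅
  · refine ⟨e, he, cross_GHenn hJ X (Or.inl ⟨?_, ?_⟩)⟩
    · obtain ⟨x, hx⟩ := hXne
      by_contra hvX
      have : x ∈ X.erase v := mem_erase.2 ⟨fun h => hvX (h ▸ hx), hx⟩
      rw [hA] at this
      simp at this
    · intro haX
      have : a ∈ X.erase v := mem_erase.2 ⟨hav, haX⟩
      rw [hA] at this
      simp at this
  by_cases hB : X.erase v = U.erase v
  · refine ⟨e, he, cross_GHenn hJ X (Or.inr ⟨?_, ?_⟩)⟩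
    · intro hvX
      apply hXneq
      rw [← insert_erase hvX, hB, insert_erase hv]
    · rw [← hB] at ha
      exact (mem_erase.1 ha).2
  obtain ⟨e', he', hx⟩ := hc (X.erase v) (erase_subset_erase v hXU)
    (nonempty_iff_ne_empty.2 hA) hB
  obtain ⟨⟨hs, ht⟩, h2⟩ := h1 e' he'
  simp only [mem_erase, ne_eq, hs, ht, not_false_eq_true, true_and] at hx
  rcases h2 with ⟨h3, h4, h5⟩ | ⟨e1, he1, e2, he2, hJ1, hJ2⟩
  · exact ⟨e', h3, by rw [h4, h5]; exact hx⟩
  · by_cases hvX : v ∈ X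
    · rcases hx with hx | hx
      · exact ⟨e2, he2, cross_GHenn hJ2 X (Or.inl ⟨hvX, hx.2⟩)⟩
      · exact ⟨e1, he1, cross_GHenn hJ1 X (Or.inl ⟨hvX, hx.1⟩)⟩
    · rcases hx with hx | hx
      · exact ⟨e1, he1, cross_GHenn hJ1 X (Or.inr ⟨hvX, hx.1⟩)⟩
      · exact ⟨e2, he2, cross_GHenn hJ2 X (Or.inr ⟨hvX, hx.2⟩)⟩

theorem sparse_mono_GHenn {ε N : Type} [DecidableEq N] {s t : ε → N} {M R : Finset ε}
    (h : R ⊆ M) (hM : Sparse s t M) : Sparse s t R := by
  intro X hX
  have := card_le_card (filter_subset_filter (fun e => s e ∈ X ∧ t e ∈ X) h)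
  have h2 := hM X hX
  unfold ins at *
  omega

/-- The conclusion of the statement. -/
def Two_GHenn {ε N : Type} (s t : ε → N) (M : Finset ε) (U : Finset N) : Prop :=
  ∃ D₁ D₂ : Finset ε, D₁ ⊆ M ∧ D₂ ⊆ M ∧ Disjoint D₁ D₂ ∧ Conn s t D₁ U ∧ Conn s t D₂ U

theorem notin_GHenn {ε N : Type} [DecidableEq N] {s t : ε → N} {M : Finset ε} {v a : N} {e : ε}
    (hJ : J_GHenn s t e v a) : e ∉ M.filter (fun e => s e ≠ v ∧ t e ≠ v) := by
  intro h
  have := (mem_filter.1 h).2
  rcases hJ with h1 | h1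
  · exact this.1 h1.1
  · exact this.2 h1.2

theorem core3_GHenn {ε N : Type} [DecidableEq ε] [DecidableEq N] {s t : ε → N} {M : Finset ε}
    {U : Finset N} {v : N} (hv : v ∈ U) (hMU : ∀ e ∈ M, s e ∈ U ∧ t e ∈ U) (hM : Sparse s t M)
    (ih : ∀ (s t : ε → N) (M : Finset ε), (∀ e ∈ M, s e ∈ U.erase v ∧ t e ∈ U.erase v) →
      Sparse s t M → M.card + 2 = 2 * (U.erase v).card → Two_GHenn s t M (U.erase v))
    {e1 e2 e3 : ε} {a b c : N} (h1 : e1 ∈ M) (h2 : e2 ∈ M) (h3 : e3 ∈ M)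
    (h13 : e1 ≠ e3) (h23 : e2 ≠ e3) (ha : a ∈ U.erase v) (hb : b ∈ U.erase v)
    (hc : c ∈ U.erase v) (hJ1 : J_GHenn s t e1 v a) (hJ2 : J_GHenn s t e2 v b)
    (hJ3 : J_GHenn s t e3 v c)
    (hcard : (M.filter (fun e => s e ≠ v ∧ t e ≠ v)).card + 3 = 2 * (U.erase v).card)
    (hnt : ∀ X : Finset N, v ∉ X → a ∈ X → b ∈ X → ¬ Tight s t M X) :
    Two_GHenn s t M U := by
  set R := M.filter (fun e => s e ≠ v ∧ t e ≠ v) with hR
  have hRM : R ⊆ M := filter_subset _ _
  have n1 : e1 ∉ R := notin_GHenn hJ1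
  have n2 : e2 ∉ R := notin_GHenn hJ2
  have n3 : e3 ∉ R := notin_GHenn hJ3
  set s' := Function.update s e1 a with hs'
  set t' := Function.update t e1 b with ht'
  have hsR : ∀ e ∈ R, s' e = s e := fun e he =>
    Function.update_of_ne (ne_of_mem_of_not_mem he n1) _ _
  have htR : ∀ e ∈ R, t' e = t e := fun e he =>
    Function.update_of_ne (ne_of_mem_of_not_mem he n1) _ _
  have hs1 : s' e1 = a := Function.update_self _ _ _
  have ht1 : t' e1 = b := Function.update_self _ _ _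
  have hends : ∀ e ∈ insert e1 R, s' e ∈ U.erase v ∧ t' e ∈ U.erase v := by
    intro e he
    rcases mem_insert.1 he with rfl | he
    · rw [hs1, ht1]; exact ⟨ha, hb⟩
    · rw [hsR e he, htR e he]
      have h4 := mem_filter.1 he
      exact ⟨mem_erase.2 ⟨h4.2.1, (hMU e h4.1).1⟩, mem_erase.2 ⟨h4.2.2, (hMU e h4.1).2⟩⟩
  have hsp : Sparse s' t' (insert e1 R) := by
    intro X hX
    by_cases hab : a ∈ X ∧ b ∈ X
    · have ha' : a ∈ X.erase v := mem_erase.2 ⟨(mem_erase.1 ha).1, hab.1⟩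
      have hb' : b ∈ X.erase v := mem_erase.2 ⟨(mem_erase.1 hb).1, hab.2⟩
      have k1 := hM (X.erase v) ⟨a, ha'⟩
      have k2 := hnt (X.erase v) (notMem_erase v X) ha' hb'
      have k3 : ins s' t' (insert e1 R) X ⊆ insert e1 (ins s t M (X.erase v)) := by
        intro e he
        obtain ⟨he1, he2⟩ := mem_filter.1 he
        rcases mem_insert.1 he1 with rfl | he1
        · exact mem_insert_self _ _
        · rw [hsR e he1, htR e he1] at he2
          have h4 := mem_filter.1 he1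
          exact mem_insert_of_mem (mem_filter.2 ⟨h4.1, mem_erase.2 ⟨h4.2.1, he2.1⟩,
            mem_erase.2 ⟨h4.2.2, he2.2⟩⟩)
      have k4 := (card_le_card k3).trans (card_insert_le _ _)
      have k5 : (X.erase v).card ≤ X.card := card_erase_le
      unfold Tight at k2
      omega
    · have k3 : ins s' t' (insert e1 R) X ⊆ ins s t M X := by
        intro e he
        obtain ⟨he1, he2⟩ := mem_filter.1 he
        rcases mem_insert.1 he1 with rfl | he1
        · rw [hs1, ht1] at he2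
          exact absurd he2 hab
        · rw [hsR e he1, htR e he1] at he2
          exact mem_filter.2 ⟨hRM he1, he2⟩
      have k1 := hM X hX
      have k4 := card_le_card k3
      omega
  have key : ∀ D₁ D₂ : Finset ε, D₁ ⊆ insert e1 R → D₂ ⊆ insert e1 R → Disjoint D₁ D₂ →
      Conn s' t' D₁ (U.erase v) → Conn s' t' D₂ (U.erase v) → e1 ∉ D₂ → Two_GHenn s t M U := by
    intro D₁ D₂ k1 k2 k3 k4 k5 k6
    have k2' : D₂ ⊆ R := by
      intro e he
      rcases mem_insert.1 (k2 he) with rfl | h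
      · exact absurd he k6
      · exact h
    refine ⟨insert e1 (insert e2 D₁), insert e3 D₂, ?_, ?_, ?_, ?_, ?_⟩
    · refine insert_subset h1 (insert_subset h2 (k1.trans (insert_subset h1 hRM)))
    · exact insert_subset h3 (k2'.trans hRM)
    · rw [disjoint_insert_left, disjoint_insert_left, disjoint_insert_right]
      refine ⟨?_, ?_, ?_, k3⟩
      · rw [mem_insert, not_or]; exact ⟨h13, k6⟩
      · rw [mem_insert, not_or]; exact ⟨h23, fun h => n2 (k2' h)⟩
      · intro h
        rcases mem_insert.1 (k1 h) with h | h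
        · exact h13 h.symm
        · exact n3 h
    · refine lift_GHenn hv k4 ⟨e1, mem_insert_self _ _, a, ha, hJ1⟩ fun e he => ?_
      have k7 := hends e (k1 he)
      refine ⟨⟨(mem_erase.1 k7.1).1, (mem_erase.1 k7.2).1⟩, ?_⟩
      rcases mem_insert.1 (k1 he) with rfl | h
      · right
        rw [hs1, ht1]
        exact ⟨e, mem_insert_self _ _, e2, mem_insert_of_mem (mem_insert_self _ _), hJ1, hJ2⟩
      · left
        exact ⟨mem_insert_of_mem (mem_insert_of_mem he), (hsR e h).symm, (htR e h).symm⟩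
    · refine lift_GHenn hv k5 ⟨e3, mem_insert_self _ _, c, hc, hJ3⟩ fun e he => ?_
      have k7 := hends e (k2 he)
      refine ⟨⟨(mem_erase.1 k7.1).1, (mem_erase.1 k7.2).1⟩, Or.inl ?_⟩
      exact ⟨mem_insert_of_mem he, (hsR e (k2' he)).symm, (htR e (k2' he)).symm⟩
  obtain ⟨D₁, D₂, k1, k2, k3, k4, k5⟩ := ih s' t' (insert e1 R) hends hsp
    (by rw [card_insert_of_notMem n1]; omega)
  by_cases h : e1 ∈ D₂
  · exact key D₂ D₁ k2 k1 k3.symm k5 k4 (disjoint_right.1 k3 h)
  · exact key D₁ D₂ k1 k2 k3 k4 k5 h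

theorem henn_aux_GHenn (hU : UnionStmt) (ε N : Type) [DecidableEq ε] [DecidableEq N] (n : ℕ) :
    ∀ (U : Finset N) (s t : ε → N) (M : Finset ε), U.card = n →
      (∀ e ∈ M, s e ∈ U ∧ t e ∈ U) → Sparse s t M → M.card + 2 = 2 * U.card →
      Two_GHenn s t M U := by
  induction n with
  | zero => intro U s t M hn _ _ hc; omega
  | succ n ih =>
    intro U s t M hn hMU hM hc
    by_cases hn0 : n = 0
    · subst hn0
      have : Conn s t (∅ : Finset ε) U := by
        intro X hXU hX hne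
        exact absurd (eq_of_subset_of_card_le hXU (by have := card_pos.2 hX; omega)) hne
      exact ⟨∅, ∅, empty_subset _, empty_subset _, disjoint_empty_left _, this, this⟩
    have hloop : ∀ e ∈ M, s e ≠ t e := by
      intro e he h
      have k1 := hM {s e} (singleton_nonempty _)
      have k2 : e ∈ ins s t M {s e} := mem_filter.2 ⟨he, mem_singleton_self _, by simp [h]⟩
      have k3 := card_pos.2 ⟨e, k2⟩
      rw [card_singleton] at k1
      omega
    obtain ⟨v, hv, hdeg⟩ : ∃ v ∈ U, (M.filter (fun e => ¬ (s e ≠ v ∧ t e ≠ v))).card ≤ 3 := by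
      by_contra hcon
      push Not at hcon
      have k1 : M.card = ∑ v ∈ U, (M.filter (fun e => s e = v)).card :=
        card_eq_sum_card_fiberwise (fun e he => (hMU e he).1)
      have k2 : M.card = ∑ v ∈ U, (M.filter (fun e => t e = v)).card :=
        card_eq_sum_card_fiberwise (fun e he => (hMU e he).2)
      have k3 : ∑ _v ∈ U, 4 ≤ ∑ v ∈ U, ((M.filter (fun e => s e = v)).card +
          (M.filter (fun e => t e = v)).card) := by
        refine sum_le_sum fun v hv => ?_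
        have k4 := hcon v hv
        have k5 : M.filter (fun e => s e ≠ v → t e = v) ⊆
            M.filter (fun e => s e = v) ∪ M.filter (fun e => t e = v) := by
          intro e he
          obtain ⟨he1, he2⟩ := mem_filter.1 he
          by_cases h : s e = v
          · exact mem_union_left _ (mem_filter.2 ⟨he1, h⟩)
          · exact mem_union_right _ (mem_filter.2 ⟨he1, he2 h⟩)
        have k6 := (card_le_card k5).trans (card_union_le _ _)
        omega
      rw [sum_add_distrib, ← k1, ← k2, sum_const, smul_eq_mul] at k3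
      omega
    set R := M.filter (fun e => s e ≠ v ∧ t e ≠ v) with hR
    set E := M.filter (fun e => ¬ (s e ≠ v ∧ t e ≠ v)) with hE
    have hRE : R.card + E.card = M.card := card_filter_add_card_filter_not _
    have hUv : (U.erase v).card = n := by rw [card_erase_of_mem hv]; omega
    have hends : ∀ e ∈ R, s e ∈ U.erase v ∧ t e ∈ U.erase v := by
      intro e he
      have h4 := mem_filter.1 he
      exact ⟨mem_erase.2 ⟨h4.2.1, (hMU e h4.1).1⟩, mem_erase.2 ⟨h4.2.2, (hMU e h4.1).2⟩⟩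
    have hRle : R.card + 2 ≤ 2 * n := by
      have k1 := hM (U.erase v) (card_pos.1 (by omega))
      have k2 : R ⊆ ins s t M (U.erase v) := fun e he =>
        mem_filter.2 ⟨(mem_filter.1 he).1, hends e he⟩
      have k3 := card_le_card k2
      omega
    have hoth : ∀ e ∈ E, ∃ a ∈ U.erase v, J_GHenn s t e v a := by
      intro e he
      obtain ⟨he1, he2⟩ := mem_filter.1 he
      by_cases h : s e = v
      · exact ⟨t e, mem_erase.2 ⟨fun h' => hloop e he1 (h.trans h'.symm), (hMU e he1).2⟩,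
          Or.inl ⟨h, rfl⟩⟩
      · have h' : t e = v := by
          by_contra h'
          exact he2 ⟨h, h'⟩
        exact ⟨s e, mem_erase.2 ⟨h, (hMU e he1).1⟩, Or.inr ⟨rfl, h'⟩⟩
    have hEM : E ⊆ M := filter_subset _ _
    have hRM : R ⊆ M := filter_subset _ _
    have ih' : ∀ (s t : ε → N) (M : Finset ε), (∀ e ∈ M, s e ∈ U.erase v ∧ t e ∈ U.erase v) →
        Sparse s t M → M.card + 2 = 2 * (U.erase v).card → Two_GHenn s t M (U.erase v) :=
      fun s t M => ih (U.erase v) s t M hUv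
    by_cases h2 : E.card = 2
    · obtain ⟨e1, e2, h12, hE2⟩ := card_eq_two.1 h2
      have m1 : e1 ∈ E := by rw [hE2]; simp
      have m2 : e2 ∈ E := by rw [hE2]; simp
      obtain ⟨a, ha, hJ1⟩ := hoth e1 m1
      obtain ⟨b, hb, hJ2⟩ := hoth e2 m2
      have n1 : e1 ∉ R := notin_GHenn hJ1
      have n2 : e2 ∉ R := notin_GHenn hJ2
      obtain ⟨D₁, D₂, k1, k2, k3, k4, k5⟩ := ih' s t R hends (sparse_mono_GHenn hRM hM)
        (by omega)
      refine ⟨insert e1 D₁, insert e2 D₂, insert_subset (hEM m1) (k1.trans hRM),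
        insert_subset (hEM m2) (k2.trans hRM), ?_, ?_, ?_⟩
      · rw [disjoint_insert_left, disjoint_insert_right]
        refine ⟨?_, fun h => n2 (k1 h), k3⟩
        rw [mem_insert, not_or]; exact ⟨h12, fun h => n1 (k2 h)⟩
      · refine lift_GHenn hv k4 ⟨e1, mem_insert_self _ _, a, ha, hJ1⟩ fun e he => ?_
        exact ⟨(mem_filter.1 (k1 he)).2, Or.inl ⟨mem_insert_of_mem he, rfl, rfl⟩⟩
      · refine lift_GHenn hv k5 ⟨e2, mem_insert_self _ _, b, hb, hJ2⟩ fun e he => ?_
        exact ⟨(mem_filter.1 (k2 he)).2, Or.inl ⟨mem_insert_of_mem he, rfl, rfl⟩⟩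
    · have h3 : E.card = 3 := by omega
      obtain ⟨e1, e2, e3, h12, h13, h23, hE3⟩ := card_eq_three.1 h3
      have m1 : e1 ∈ E := by rw [hE3]; simp
      have m2 : e2 ∈ E := by rw [hE3]; simp
      have m3 : e3 ∈ E := by rw [hE3]; simp
      obtain ⟨a, ha, hJ1⟩ := hoth e1 m1
      obtain ⟨b, hb, hJ2⟩ := hoth e2 m2
      obtain ⟨c, hc', hJ3⟩ := hoth e3 m3
      have hR3 : R.card + 3 = 2 * (U.erase v).card := by omega
      by_cases hab : ∀ X : Finset N, v ∉ X → a ∈ X → b ∈ X → ¬ Tight s t M X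
      · exact core3_GHenn hv hMU hM ih' (hEM m1) (hEM m2) (hEM m3) h13 h23 ha hb hc' hJ1 hJ2 hJ3
          hR3 hab
      by_cases hac : ∀ X : Finset N, v ∉ X → a ∈ X → c ∈ X → ¬ Tight s t M X
      · exact core3_GHenn hv hMU hM ih' (hEM m1) (hEM m3) (hEM m2) h12 h23.symm ha hc' hb hJ1 hJ3
          hJ2 hR3 hac
      exfalso
      push Not at hab hac
      obtain ⟨X, hvX, haX, hbX, hX⟩ := hab
      obtain ⟨Y, hvY, haY, hcY, hY⟩ := hac
      have hXY := (hU ε N s t M X Y hM hX hY ⟨a, mem_inter.2 ⟨haX, haY⟩⟩).1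
      have hvXY : v ∉ X ∪ Y := by rw [mem_union, not_or]; exact ⟨hvX, hvY⟩
      have k1 := hM (insert v (X ∪ Y)) (insert_nonempty _ _)
      rw [card_insert_of_notMem hvXY] at k1
      have hin : ∀ (e : ε) (x : N), e ∈ E → x ∈ X ∪ Y → J_GHenn s t e v x →
          e ∈ ins s t M (insert v (X ∪ Y)) := by
        intro e x he hx hJ
        refine mem_filter.2 ⟨hEM he, ?_⟩
        rcases hJ with ⟨p, q⟩ | ⟨p, q⟩ <;> rw [p, q]
        · exact ⟨mem_insert_self _ _, mem_insert_of_mem hx⟩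
        · exact ⟨mem_insert_of_mem hx, mem_insert_self _ _⟩
      have k2 : E ∪ ins s t M (X ∪ Y) ⊆ ins s t M (insert v (X ∪ Y)) := by
        refine union_subset ?_ ?_
        · rw [hE3]
          refine insert_subset (hin e1 a m1 (mem_union_left _ haX) hJ1)
            (insert_subset (hin e2 b m2 (mem_union_left _ hbX) hJ2) ?_)
          rw [singleton_subset_iff]
          exact hin e3 c m3 (mem_union_right _ hcY) hJ3
        · intro e he
          obtain ⟨p, q, r⟩ := mem_filter.1 he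
          exact mem_filter.2 ⟨p, mem_insert_of_mem q, mem_insert_of_mem r⟩
      have k3 : Disjoint E (ins s t M (X ∪ Y)) := by
        rw [disjoint_left]
        intro e he he'
        obtain ⟨-, q, r⟩ := mem_filter.1 he'
        exact (mem_filter.1 he).2 ⟨fun h => hvXY (h ▸ q), fun h => hvXY (h ▸ r)⟩
      have k4 := card_le_card k2
      rw [card_union_of_disjoint k3] at k4
      unfold Tight at hXY
      omega

theorem henn_stmt (hU : UnionStmt) : HennStmt := by
  intro ε N _ _ U s t M h1 h2 h3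
  exact henn_aux_GHenn hU ε N U.card U s t M rfl h1 h2 h3

end Pool.Agent.MP_3fd310_co.Gen
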