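import Mathlib
import Pool.Agent.MP_3fd310_co.GDefs
set_option autoImplicit false
namespace Pool.Agent.MP_3fd310_co.Gen
open Finset

theorem colour_GInit {V : Type} (μ τ : Equiv.Perm V) (h1 : μ * μ = 1) (h2 : τ * τ = 1)
    (h : ∀ x, μ x = x ↔ τ x = x) :
    ∃ c : V → Prop, ∀ x, μ x ≠ x → (c (μ x) ↔ ¬ c x) ∧ (c (τ x) ↔ ¬ c x) := by
  have hμ : ∀ x, μ (μ x) = x := fun x => congrArg (fun f : Equiv.Perm V => f x) h1
  have hτ : ∀ x, τ (τ x) = x := fun x => congrArg (fun f : Equiv.Perm V => f x) h2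
  have e1 : μ * (μ * τ) * μ⁻¹ = (μ * τ)⁻¹ := by
    rw [← mul_assoc, h1, one_mul, mul_inv_rev, ← inv_eq_of_mul_eq_one_right h2, inv_inv,
      inv_eq_of_mul_eq_one_right h2]
  have e2 : ∀ (j : ℤ) x, μ (((μ * τ) ^ j) x) = ((μ * τ) ^ (-j)) (μ x) := fun j x => by
    rw [← inv_zpow', ← e1, conj_zpow]
    simp
  have key : ∀ x, μ x ≠ x → ¬ (μ * τ).SameCycle x (μ x) := by
    rintro x hx ⟨k, hk⟩
    have e3 : ∀ j : ℤ, μ (((μ * τ) ^ j) x) ≠ ((μ * τ) ^ j) x := fun j e => by
      have e4 : (μ * τ).SameCycle x (((μ * τ) ^ j) x) := ⟨j, rfl⟩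
      have e5 := e4.eq_of_right (by
        change μ (τ _) = _
        rw [(h _).1 e, e])
      rw [← e5] at e
      exact hx e
    obtain ⟨j, rfl | rfl⟩ := Int.even_or_odd' k
    · refine e3 j ?_
      rw [e2, ← hk, ← Equiv.Perm.mul_apply, ← zpow_add]
      congr 2
      ring
    · refine e3 j ((h _).2 (μ.injective ?_))
      rw [e2, ← hk, ← Equiv.Perm.mul_apply ((μ * τ) ^ (-j)), ← zpow_add,
        show -j + (2 * j + 1) = 1 + j by ring, zpow_add, zpow_one]
      rfl
  let q : V → Set V := fun x => {y | (μ * τ).SameCycle x y}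
  have hq : ∀ x y, q x = q y ↔ (μ * τ).SameCycle x y := fun x y =>
    ⟨fun e => by
      have : y ∈ q y := Equiv.Perm.SameCycle.refl _ _
      rwa [← e] at this,
    fun e => Set.ext fun z => ⟨fun e' => e.symm.trans e', fun e' => e.trans e'⟩⟩
  refine ⟨fun x => WellOrderingRel (q x) (q (μ x)), fun x hx => ?_⟩
  have e6 : WellOrderingRel (q (μ x)) (q x) ↔ ¬ WellOrderingRel (q x) (q (μ x)) :=
    ⟨fun a => asymm a, fun a => ((trichotomous_of WellOrderingRel (q x) (q (μ x))).resolve_left
      a).resolve_left fun e => key x hx ((hq _ _).1 e)⟩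
  have e7 : q (τ x) = q (μ x) := ((hq _ _).2 ⟨1, by simp [hτ]⟩)
  have e8 : q (μ (τ x)) = q x := ((hq _ _).2 ⟨1, by simp⟩).symm
  simp only [hμ, e7, e8, e6, and_self]

theorem pair_GInit {V N : Type} [DecidableEq V] [DecidableEq N] (part : V → N) (F : Finset V)
    (h : ∀ n, Even (F.filter fun x => part x = n).card) :
    ∃ τ : Equiv.Perm V, τ * τ = 1 ∧ (∀ x, τ x = x ↔ x ∉ F) ∧ ∀ x, part (τ x) = part x := by
  induction F using Finset.strongInduction with
  | H F ih =>
    rcases F.eq_empty_or_nonempty with rfl | ⟨x, hx⟩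
    · exact ⟨1, by simp, by simp, by simp⟩
    have h1 : 1 < (F.filter fun z => part z = part x).card := by
      have h2 : 0 < (F.filter fun z => part z = part x).card := card_pos.2 ⟨x, by simp [hx]⟩
      obtain ⟨k, hk⟩ := h (part x)
      omega
    obtain ⟨y, hy, hyx⟩ := exists_mem_ne h1 x
    obtain ⟨hy, hp⟩ := mem_filter.1 hy
    obtain ⟨τ, t1, t2, t3⟩ := ih ((F.erase x).erase y)
      ((erase_subset _ _).trans_ssubset (erase_ssubset hx)) fun n => by
        rw [filter_erase, filter_erase]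
        by_cases e : part x = n
        · rw [card_erase_of_mem (by simp [hyx, hy, hp, e]), card_erase_of_mem (by simp [hx, e])]
          obtain ⟨k, hk⟩ := h n
          rw [e] at h1
          exact ⟨k - 1, by omega⟩
        · rw [erase_eq_of_notMem (by simp [hp, e]), erase_eq_of_notMem (by simp [e])]
          exact h n
    have tx : τ x = x := (t2 x).2 (by simp)
    have ty : τ y = y := (t2 y).2 (by simp)
    have hc : τ * Equiv.swap x y = Equiv.swap x y * τ := by
      rw [Equiv.mul_swap_eq_swap_mul, tx, ty]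
    refine ⟨τ * Equiv.swap x y, ?_, fun z => ?_, fun z => ?_⟩
    · rw [mul_assoc, ← mul_assoc (Equiv.swap x y), ← hc, mul_assoc, Equiv.swap_mul_self, mul_one,
        t1]
    · by_cases e1 : z = x
      · simp [e1, ty, hyx, hx]
      by_cases e2 : z = y
      · simp [e2, tx, hyx.symm, hy]
      simp [Equiv.swap_apply_of_ne_of_ne e1 e2, t2, e1, e2]
    · rw [Equiv.Perm.mul_apply, t3]
      by_cases e1 : z = x
      · simp [e1, hp]
      by_cases e2 : z = y
      · simp [e2, hp]
      rw [Equiv.swap_apply_of_ne_of_ne e1 e2]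

theorem init_stmt : InitStmt := by
  classical
  intro V N _ _ _ G part D ⟨hl, ha⟩ hev
  let R : V → V → Prop := fun x y => (x, y) ∈ D ∨ (y, x) ∈ D
  have hne : ∀ x y, R x y → part x ≠ part y := by
    rintro x y (h | h)
    · exact (hl _ h).2
    · exact (hl _ h).2.symm
  have hu : ∀ x y z, R x y → R x z → y = z := by
    rintro x y z (h | h) (h' | h') <;> by_contra e
    · exact (ha _ h _ h' (by simp [e])).1 rfl
    · exact (ha _ h _ h' fun e' => (hl _ h).2 (by simp_all)).2.1 rfl
    · exact (ha _ h _ h' fun e' => (hl _ h).2 (by simp_all)).2.2.1 rfl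
    · exact (ha _ h _ h' (by simp [e])).2.2.2 rfl
  let m : V → V := fun x => if h : ∃ y, R x y then h.choose else x
  have m1 : ∀ x y, R x y → m x = y := fun x y h => by
    have h' : ∃ y, R x y := ⟨y, h⟩
    simp only [m, dif_pos h']
    exact hu x _ _ h'.choose_spec h
  have m2 : ∀ x, (¬ ∃ y, R x y) → m x = x := fun x h => dif_neg h
  have m3 : Function.Involutive m := fun x => by
    by_cases h : ∃ y, R x y
    · obtain ⟨y, hy⟩ := h
      rw [m1 x y hy, m1 y x hy.symm]
    · rw [m2 x h, m2 x h]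
  obtain ⟨τ, t1, t2, t3⟩ := pair_GInit part (univ.filter fun x => ∃ y, R x y) fun n => by
    convert hev n using 1
    rw [deg, ← card_image_of_injOn (f := Prod.fst) (s := D.filter fun e => sr part e = n),
      ← card_image_of_injOn (f := Prod.snd) (s := D.filter fun e => tg part e = n),
      ← card_union_of_disjoint]
    · congr 1
      ext x
      simp only [R, sr, tg, mem_filter, mem_univ, true_and, mem_union, mem_image, Prod.exists]
      constructor
      · rintro ⟨⟨y, h | h⟩, e⟩
        · exact Or.inl ⟨x, y, ⟨h, e⟩, rfl⟩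
        · exact Or.inr ⟨y, x, ⟨h, e⟩, rfl⟩
      · rintro (⟨a, b, ⟨h, e⟩, rfl⟩ | ⟨a, b, ⟨h, e⟩, rfl⟩)
        · exact ⟨⟨b, Or.inl h⟩, e⟩
        · exact ⟨⟨a, Or.inr h⟩, e⟩
    · rw [disjoint_left]
      intro x h1 h2
      obtain ⟨e, he, rfl⟩ := mem_image.1 h1
      obtain ⟨e', he', h3⟩ := mem_image.1 h2
      refine (ha e (mem_filter.1 he).1 e' (mem_filter.1 he').1 ?_).2.1 h3.symm
      rintro rfl
      exact (hl e (mem_filter.1 he).1).2 (by rw [h3])
    · intro e he e' he' h
      by_contra hh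
      exact (ha e (mem_filter.1 he).1 e' (mem_filter.1 he').1 hh).2.2.2 h
    · intro e he e' he' h
      by_contra hh
      exact (ha e (mem_filter.1 he).1 e' (mem_filter.1 he').1 hh).1 h
  have m4 : ∀ x, m x = x ↔ τ x = x := fun x => by
    rw [t2]
    simp only [mem_filter, mem_univ, true_and]
    exact ⟨fun h ⟨y, hy⟩ => hne x y hy (by rw [← m1 x y hy, h]), m2 x⟩
  obtain ⟨c, hc⟩ := colour_GInit m3.toPerm τ (Equiv.ext m3) t1 m4
  simp only [Function.Involutive.coe_toPerm] at hc
  let s : V → V := fun x => if c x then τ x else m x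
  have key : ∀ x y, c x → ¬ c y → τ x ≠ m y := fun x y hx hy e => by
    by_cases h : m x = x
    · rw [(m4 x).1 h] at e
      exact hy (by rwa [← m3 y, ← e, h])
    by_cases h' : m y = y
    · have e1 : τ (τ x) = x := congrArg (fun f : Equiv.Perm V => f x) t1
      rw [e, h', (m4 y).1 h'] at e1
      exact hy (e1 ▸ hx)
    exact (hc x h).2.1 (e ▸ (hc y h').1.2 hy) hx
  have hs : Function.Injective s := fun x y e => by
    by_cases hx : c x <;> by_cases hy : c y <;> simp only [s, hx, hy, if_true, if_false] at e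
    · exact τ.injective e
    · exact (key x y hx hy e).elim
    · exact (key y x hy hx e.symm).elim
    · exact m3.injective e
  refine ⟨Equiv.ofBijective s hs.bijective_of_finite, fun x => ?_, fun e he => ?_⟩
  · by_cases hx : c x <;> simp only [Equiv.ofBijective_apply, s, hx, if_true, if_false]
    · exact Or.inl (t3 x)
    · by_cases h : ∃ y, R x y
      · obtain ⟨y, hy⟩ := h
        rw [m1 x y hy]
        exact Or.inr hy
      · rw [m2 x h]
        exact Or.inl rfl
  · have e1 : m e.1 = e.2 := m1 _ _ (Or.inl he)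
    have e2 : m e.2 = e.1 := m1 _ _ (Or.inr he)
    have e3 := (hc e.1 (by rw [e1]; exact (hl e he).1.ne')).1
    rw [e1] at e3
    by_cases hx : c e.1
    · have hy : ¬ c e.2 := fun h => e3.1 h hx
      simp only [Equiv.ofBijective_apply, s, hx, hy, if_true, if_false]
      exact Or.inr ⟨e2, fun h => (hl e he).2 (by rw [← h, t3])⟩
    · have hy : c e.2 := e3.2 hx
      simp only [Equiv.ofBijective_apply, s, hx, hy, if_true, if_false]
      exact Or.inl ⟨e1, fun h => (hl e he).2 (by rw [← h, t3])⟩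

end Pool.Agent.MP_3fd310_co.Gen
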