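import Mathlib
import Pool.Agent.MP_3fd310_co.GDefs

set_option autoImplicit false

namespace Pool.Agent.MP_3fd310_co.Gen

open Finset

theorem good_single_GLink {V N : Type} [DecidableEq N] (G : SimpleGraph V) (part : V → N)
    (M : Finset (V × V)) (hL : Links G part M) (hS : Sparse (sr part) (tg part) M) :
    Good G part M (fun n => {n}) := by
  refine ⟨hL, hS, ⟨fun n => mem_singleton_self n, fun n m hm => by rw [mem_singleton.1 hm]⟩, ?_, ?_⟩
  · intro n
    have : ins (sr part) (tg part) M {n} = ∅ := by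
      refine eq_empty_of_forall_notMem fun e he => ?_
      obtain ⟨h1, h2, h3⟩ := mem_filter.1 he
      exact (hL.1 e h1).2 ((mem_singleton.1 h2).trans (mem_singleton.1 h3).symm)
    unfold Tight
    rw [this]
    simp
  · intro v _
    refine ⟨∅, ⟨by simp, by simp⟩, ?_, by simp, by simp, by simp, by simp⟩
    intro X hX
    have := hX.card_pos
    simp only [ins, filter_empty, card_empty]
    omega

theorem link_stmt (hF : FreeStmt) (hM : MergeStmt) (hC : CountStmt) : LinkStmt := by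
  intro V N _ _ _ _ _ G part hB hT
  classical
  have hne : ((univ : Finset (Finset (V × V))).filter
      fun M => Links G part M ∧ Sparse (sr part) (tg part) M).Nonempty := by
    refine ⟨∅, mem_filter.2 ⟨mem_univ _, ⟨by simp, by simp⟩, ?_⟩⟩
    intro X hX
    have := hX.card_pos
    simp only [ins, filter_empty, card_empty]
    omega
  obtain ⟨M0, hM0, hmax⟩ := exists_max_image _ card hne
  obtain ⟨-, hL0, hS0⟩ := mem_filter.1 hM0
  have hmax' : ∀ M' : Finset (V × V), Links G part M' → Sparse (sr part) (tg part) M' →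
      M'.card ≤ M0.card := fun M' h1 h2 => hmax M' (mem_filter.2 ⟨mem_univ _, h1, h2⟩)
  have hne2 : ((univ : Finset (Finset (V × V) × (N → Finset N))).filter
      fun z => Good G part z.1 z.2 ∧ z.1.card = M0.card).Nonempty :=
    ⟨(M0, fun n => {n}), mem_filter.2 ⟨mem_univ _, good_single_GLink G part M0 hL0 hS0, rfl⟩⟩
  obtain ⟨⟨M, blk⟩, hz, hzmax⟩ := exists_max_image _ (fun z => ∑ n, (z.2 n).card) hne2
  obtain ⟨-, hG, hc⟩ := mem_filter.1 hz
  dsimp only at hG hc hzmax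
  refine ⟨M, hG.1, hG.2.1, hC V N G part M blk hB hT hG.2.1 hG.2.2.1 hG.2.2.2.1 ?_⟩
  intro u v huv hblk
  by_contra hno
  have hu : ∀ e ∈ M, Cross part blk e → u ≠ e.1 ∧ u ≠ e.2 := fun e he hx =>
    ⟨fun h => hno ⟨e, he, hx, Or.inl h⟩, fun h => hno ⟨e, he, hx, Or.inr (Or.inl h)⟩⟩
  have hv : ∀ e ∈ M, Cross part blk e → v ≠ e.1 ∧ v ≠ e.2 := fun e he hx =>
    ⟨fun h => hno ⟨e, he, hx, Or.inr (Or.inr (Or.inl h))⟩,
      fun h => hno ⟨e, he, hx, Or.inr (Or.inr (Or.inr h))⟩⟩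
  obtain ⟨M1, hG1, hc1, hu1, hx1, -⟩ := hF V N G part M blk u hG hu
  obtain ⟨M2, hG2, hc2, hv2, -, hin2⟩ := hF V N G part M1 blk v hG1
    fun e he hx => hv e ((hx1 e hx).1 he) hx
  have hu2 : ∀ e ∈ M2, u ≠ e.1 ∧ u ≠ e.2 := by
    intro e he
    rcases hin2 e he with h | h
    · exact hu1 e h
    · refine ⟨fun h' => hblk ?_, fun h' => hblk ?_⟩
      · exact hG.2.2.1.2 _ _ (h' ▸ h.1)
      · exact hG.2.2.1.2 _ _ (h' ▸ h.2)
  obtain ⟨blk', hG', hlt⟩ := hM V N G part M2 blk u v hG2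
    (fun M' h1 h2 => by have := hmax' M' h1 h2; omega) huv hblk
    fun e he => ⟨(hu2 e he).1, (hu2 e he).2, (hv2 e he).1, (hv2 e he).2⟩
  have := hzmax (M2, blk') (mem_filter.2 ⟨mem_univ _, hG', by dsimp only; omega⟩)
  dsimp only at this
  omega

theorem links_mono_GLink {V N : Type} {G : SimpleGraph V} {part : V → N}
    {M D : Finset (V × V)} (h : Links G part M) (hD : D ⊆ M) : Links G part D :=
  ⟨fun e he => h.1 e (hD he), fun e he e' he' => h.2 e (hD he) e' (hD he')⟩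

theorem graph_stmt (hP : PartStmt) (hT : ToughStmt) (hL : LinkStmt) (hH : HennStmt)
    (hE : EvenStmt) (hI : InitStmt) (hC : CycStmt) : GraphStmt := by
  intro V _ _ G r d hcov hdeg hconn hrd
  rcases isEmpty_or_nonempty V with hV | hV
  · exact ⟨0, fun i => i.elim0, ⟨fun i => i.elim0, fun v => (hV.false v).elim⟩, fun i => i.elim0⟩
  obtain ⟨N, _, _, part, hcl, hbig⟩ := hP V G r d hcov hdeg hrd
  have hN : Nonempty N := ⟨part hV.some⟩
  obtain ⟨M, hM, hS, hc⟩ := hL V N G part hbig (hT V G r d hcov hconn (by omega))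
  obtain ⟨D₁, D₂, h1, h2, hd, hc1, hc2⟩ := hH (V × V) N univ (sr part) (tg part) M
    (fun e _ => ⟨mem_univ _, mem_univ _⟩) hS (by rw [card_univ]; exact hc)
  obtain ⟨D, hD, hDc, hDe⟩ := hE (V × V) N (sr part) (tg part) D₁ D₂ hd hc1 hc2
  have hDL : Links G part D := links_mono_GLink hM (hD.trans (union_subset h1 h2))
  obtain ⟨σ, hσ⟩ := hI V N G part D hDL hDe
  refine hC V N G part D σ hcl hDL hDc hσ ?_
  obtain ⟨F, hF, -⟩ := hbig hN.some
  have := card_le_univ F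
  omega

/-- The polytope theorem. -/
theorem poly_thm (hG : GraphStmt) (hX : ExtStmt) (hS : SegStmt) (hD : DegStmt) (hB : BalStmt)
    (E : Type) [Fintype E] [DecidableEq E] (W : Submodule ℝ (E → ℝ)) (b : E → ℝ)
    (hs : Simple W b) (hb : Bdd W) (r : ℕ) (hr : 0 < r)
    (h1 : Fintype.card E ≤ r + Module.finrank ℝ W) (h2 : 2400 * r ≤ Module.finrank ℝ W) :
    ∃ (n : ℕ) (f : Fin n → (E → ℝ)), Function.Injective f ∧
      Set.range f = Set.extremePoints ℝ (Poly W b) ∧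
      ∀ i : Fin n, IsExtreme ℝ (Poly W b) (segment ℝ (f i) (f (finRotate n i))) := by
  classical
  obtain ⟨hx, hfin⟩ := hX E W b
  let _ : Fintype (Vtx W b) := Fintype.ofFinite _
  obtain ⟨hd, hc⟩ := hD E W b hs hb
  obtain ⟨n, f, hf, hadj⟩ := hG (Vtx W b) (PG W b) r _ (hc r hr h1) hd (hB E W b hs hb hfin) h2
  refine ⟨n, fun i => (f i).1, fun i j h => hf.1 (Subtype.ext h), ?_,
    fun i => hS E W b hs _ _ (hadj i)⟩
  rw [hx]
  ext x
  constructor
  · rintro ⟨i, rfl⟩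
    exact (f i).2
  · intro h
    obtain ⟨i, hi⟩ := hf.2 ⟨x, h⟩
    exact ⟨i, by simp only [hi]⟩

theorem isExtreme_image_GLink {A B : Type} [AddCommGroup A] [Module ℝ A] [AddCommGroup B]
    [Module ℝ B] (φ : A ≃ₗ[ℝ] B) {P : Set A} {x y : A} (h : IsExtreme ℝ P (segment ℝ x y)) :
    IsExtreme ℝ (φ '' P) (segment ℝ (φ x) (φ y)) := by
  have e : φ '' segment ℝ x y = segment ℝ (φ x) (φ y) :=
    image_segment ℝ φ.toLinearMap.toAffineMap x y
  rw [← e]
  refine ⟨Set.image_mono h.1, ?_⟩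
  rintro _ ⟨a, ha, rfl⟩ _ ⟨a', ha', rfl⟩ _ ⟨w, hw, rfl⟩ hop
  have e2 : φ '' openSegment ℝ a a' = openSegment ℝ (φ a) (φ a') :=
    image_openSegment ℝ φ.toLinearMap.toAffineMap a a'
  rw [← e2] at hop
  obtain ⟨w', hw', hww⟩ := hop
  rw [φ.injective hww] at hw'
  exact ⟨a, h.2 ha ha' hw hw', rfl⟩

/-- The transportation theorem from the intermediate statements. -/
theorem trans_thm (hG : GraphStmt) (hX : ExtStmt) (hS : SegStmt) (hD : DegStmt) (hB : BalStmt)
    (hT : TransStmt) (p q : ℕ) (u : Fin p → ℝ) (v : Fin q → ℝ) (hpq : 2401 * (p + q) < p * q)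
    (hu : ∀ i, 0 < u i) (hv : ∀ j, 0 < v j) (hsum : (∑ i, u i) = (∑ j, v j))
    (hnd : ∀ (I : Finset (Fin p)) (J : Finset (Fin q)), I.Nonempty → I ≠ univ → J.Nonempty →
      J ≠ univ → (∑ i ∈ I, u i) ≠ ∑ j ∈ J, v j)
    (P : Set (Fin p → Fin q → ℝ))
    (hP : P = {x | (∀ i j, 0 ≤ x i j) ∧ (∀ i, (∑ j, x i j) = u i) ∧ (∀ j, (∑ i, x i j) = v j)}) :
    ∃ (n : ℕ) (f : Fin n → (Fin p → Fin q → ℝ)), Function.Injective f ∧
      Set.range f = Set.extremePoints ℝ P ∧
      ∀ i : Fin n, IsExtreme ℝ P (segment ℝ (f i) (f (finRotate n i))) := by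
  have hp : 0 < p := by
    rcases Nat.eq_zero_or_pos p with h | h
    · subst h
      simp at hpq
    · exact h
  obtain ⟨W, b, hs, hb, hrk, hmem⟩ := hT p q u v hp hu hv hsum hnd
  obtain ⟨n, f, hf, hr, hseg⟩ := poly_thm hG hX hS hD hB (Fin p × Fin q) W b hs hb (p + q)
    (by omega) (by simpa using hrk) (by omega)
  let φ : (Fin p × Fin q → ℝ) ≃ₗ[ℝ] (Fin p → Fin q → ℝ) := LinearEquiv.curry ℝ ℝ (Fin p) (Fin q)
  have hφ : ∀ x i j, φ x i j = x (i, j) := fun _ _ _ => rfl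
  have hPe : φ '' Poly W b = P := by
    rw [hP]
    ext x
    constructor
    · rintro ⟨y, hy, rfl⟩
      exact (hmem y).1 hy
    · intro hx
      refine ⟨φ.symm x, (hmem _).2 ?_, φ.apply_symm_apply x⟩
      exact hx
  refine ⟨n, fun i => φ (f i), fun i j h => hf (φ.injective h), ?_, fun i => ?_⟩
  · rw [← hPe, ← image_extremePoints φ, ← hr, ← Set.range_comp]
    rfl
  · rw [← hPe]
    exact isExtreme_image_GLink φ (hseg i)

end Pool.Agent.MP_3fd310_co.Gen
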