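import Mathlib
import Pool.Agent.MP_3fd310_co.GDefs

set_option autoImplicit false

namespace Pool.Agent.MP_3fd310_co.Gen

open Finset

theorem sparse_mono_GMerge {ε N : Type} [DecidableEq N] (s t : ε → N) {M M' : Finset ε}
    (h : M' ⊆ M) (hM : Sparse s t M) : Sparse s t M' := by
  intro X hX
  have h1 : (ins s t M' X).card ≤ (ins s t M X).card :=
    card_le_card (filter_subset_filter _ h)
  have h2 := hM X hX
  omega

theorem links_mono_GMerge {V N : Type} (G : SimpleGraph V) (part : V → N)
    {M M' : Finset (V × V)} (h : M' ⊆ M) (hM : Links G part M) : Links G part M' :=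
  ⟨fun e he => hM.1 e (h he), fun e he e' he' hne => hM.2 e (h he) e' (h he') hne⟩

theorem apart_symm_GMerge {V : Type} {e e' : V × V} (h : Apart e e') : Apart e' e :=
  ⟨h.1.symm, h.2.2.1.symm, h.2.1.symm, h.2.2.2.symm⟩

theorem mem_ins_GMerge {V N : Type} [DecidableEq N] (part : V → N) (M : Finset (V × V))
    (X : Finset N) (e : V × V) :
    e ∈ ins (sr part) (tg part) M X ↔ e ∈ M ∧ part e.1 ∈ X ∧ part e.2 ∈ X := by
  simp [ins, sr, tg]

theorem merge_stmt (hR : ReplaceStmt) (hE : ExchStmt) (hB : BlkStmt) : MergeStmt := by
  intro V N _ _ _ G part M blk u v hG hmax huv hne hu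
  obtain ⟨hL, hS, hblk, hT, hF⟩ := hG
  have hfM : (u, v) ∉ M := fun h => (hu _ h).1 rfl
  have hpne : part u ≠ part v := fun h => hne (by rw [h])
  have hLf : Links G part (insert (u, v) M) := by
    refine ⟨?_, ?_⟩
    · intro e he
      rcases mem_insert.1 he with rfl | he
      · exact ⟨huv, hpne⟩
      · exact hL.1 e he
    · intro e he e' he' hee
      rcases mem_insert.1 he with rfl | he
      · rcases mem_insert.1 he' with rfl | he'
        · exact absurd rfl hee
        · exact hu e' he'
      · rcases mem_insert.1 he' with rfl | he'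
        · exact apart_symm_GMerge (e := (u, v)) (hu e he)
        · exact hL.2 e he e' he' hee
  have hnS : ¬ Sparse (sr part) (tg part) (insert (u, v) M) := by
    intro h
    have h1 := hmax _ hLf h
    rw [card_insert_of_notMem hfM] at h1
    omega
  obtain ⟨Y, hYT, hYu, hYv, hYe⟩ := hE _ _ (sr part) (tg part) M (u, v) hS hnS
  obtain ⟨hZT, hZe⟩ := hB _ _ (sr part) (tg part) M blk Y hS hblk hT hYT
  set Z : Finset N := Y.biUnion blk with hZ
  have hZ1 : ∀ m, m ∈ Z → blk m ⊆ Z := by
    intro m hm x hx
    obtain ⟨y, hy, hmy⟩ := mem_biUnion.1 hm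
    rw [hblk.2 y m hmy] at hx
    exact mem_biUnion.2 ⟨y, hy, hx⟩
  have hZ2 : ∀ n m, n ∉ Z → m ∈ blk n → m ∉ Z := by
    intro n m hn hm hmZ
    apply hn
    apply hZ1 m hmZ
    rw [hblk.2 n m hm]
    exact hblk.1 n
  have hYZ : Y ⊆ Z := fun y hy => mem_biUnion.2 ⟨y, hy, hblk.1 y⟩
  have huZ : part u ∈ Z := hYZ hYu
  have hvZ : part v ∈ Z := hYZ hYv
  let blk' : N → Finset N := fun n => if n ∈ Z then Z else blk n
  have hin : ∀ n, n ∈ Z → blk' n = Z := fun n hn => if_pos hn
  have hout : ∀ n, n ∉ Z → blk' n = blk n := fun n hn => if_neg hn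
  have hC1 : ∀ e : V × V, Cross part blk' e → Cross part blk e := by
    intro e he h
    apply he
    by_cases h1 : part e.1 ∈ Z
    · have h2 : part e.2 ∈ Z := by
        apply hZ1 _ h1
        rw [h]
        exact hblk.1 _
      rw [hin _ h1, hin _ h2]
    · have h2 : part e.2 ∉ Z := by
        apply hZ2 _ _ h1
        rw [h]
        exact hblk.1 _
      rw [hout _ h1, hout _ h2]
      exact h
  have hC2 : ∀ e : V × V, Cross part blk' e → ¬ (part e.1 ∈ Z ∧ part e.2 ∈ Z) := by
    intro e he h
    apply he
    rw [hin _ h.1, hin _ h.2]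
  have hC3 : ∀ e : V × V, Cross part blk e → ¬ (part e.1 ∈ Z ∧ part e.2 ∈ Z) →
      Cross part blk' e := by
    intro e he h h'
    by_cases h1 : part e.1 ∈ Z
    · have h2 : part e.2 ∉ Z := fun h2 => h ⟨h1, h2⟩
      rw [hin _ h1, hout _ h2] at h'
      apply h2
      rw [h']
      exact hblk.1 _
    · by_cases h2 : part e.2 ∈ Z
      · rw [hout _ h1, hin _ h2] at h'
        apply h1
        rw [← h']
        exact hblk.1 _
      · rw [hout _ h1, hout _ h2] at h'
        exact he h'
  refine ⟨blk', ⟨hL, hS, ⟨?_, ?_⟩, ?_, ?_⟩, ?_⟩
  · intro n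
    by_cases hn : n ∈ Z
    · rw [hin n hn]; exact hn
    · rw [hout n hn]; exact hblk.1 n
  · intro n m hm
    by_cases hn : n ∈ Z
    · rw [hin n hn] at hm ⊢
      exact hin m hm
    · rw [hout n hn] at hm ⊢
      rw [hout m (hZ2 n m hn hm)]
      exact hblk.2 n m hm
  · intro n
    by_cases hn : n ∈ Z
    · rw [hin n hn]; exact hZT
    · rw [hout n hn]; exact hT n
  · intro w hw
    by_cases hwZ : part w ∈ Z
    · rw [hin _ hwZ]
      by_cases hcov : ∀ e ∈ M, Cross part blk e → w ≠ e.1 ∧ w ≠ e.2
      · obtain ⟨L, hL1, hL2, hL3, hL4, hL5, hL6⟩ := hF w hcov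
        set X : Finset N := blk (part w) with hX
        have hXZ : X ⊆ Z := hZ1 _ hwZ
        have hwX : part w ∈ X := hblk.1 _
        have hkey : ∀ e ∈ M, e ∉ ins (sr part) (tg part) M X → ¬ Cross part blk e →
            part e.1 ∉ X ∧ part e.2 ∉ X := by
          intro e he hn hc
          have hc' : blk (part e.1) = blk (part e.2) := not_not.1 hc
          have h12 : part e.1 ∈ X → part e.2 ∈ X := by
            intro h1
            have h3 := hblk.2 _ _ h1
            rw [hX, ← h3, hc']
            exact hblk.1 _
          have h21 : part e.2 ∈ X → part e.1 ∈ X := by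
            intro h1
            have h3 := hblk.2 _ _ h1
            rw [hX, ← h3, ← hc']
            exact hblk.1 _
          exact ⟨fun h1 => hn ((mem_ins_GMerge part M X e).2 ⟨he, h1, h12 h1⟩),
            fun h1 => hn ((mem_ins_GMerge part M X e).2 ⟨he, h21 h1, h1⟩)⟩
        have hap : ∀ e ∈ M, e ∉ ins (sr part) (tg part) M X → ∀ e' ∈ L, Apart e' e := by
          intro e he hn e' he'
          by_cases hc : Cross part blk e
          · exact hL6 e' he' e he hc
          · obtain ⟨k1, k2⟩ := hkey e he hn hc
            obtain ⟨k3, k4⟩ := hL3 e' he'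
            refine ⟨?_, ?_, ?_, ?_⟩
            · intro h; rw [h] at k3; exact k1 k3
            · intro h; rw [h] at k3; exact k2 k3
            · intro h; rw [h] at k4; exact k1 k4
            · intro h; rw [h] at k4; exact k2 k4
        refine ⟨(ins (sr part) (tg part) M Z \ ins (sr part) (tg part) M X) ∪ L, ⟨?_, ?_⟩, ?_, ?_,
          ?_, ?_, ?_⟩
        · intro e he
          rcases mem_union.1 he with he | he
          · exact hL.1 e ((mem_ins_GMerge part M Z e).1 (mem_sdiff.1 he).1).1
          · exact hL1.1 e he
        · intro e he e' he' hee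
          rcases mem_union.1 he with he | he
          · have heM := ((mem_ins_GMerge part M Z e).1 (mem_sdiff.1 he).1).1
            rcases mem_union.1 he' with he' | he'
            · exact hL.2 e heM e' ((mem_ins_GMerge part M Z e').1 (mem_sdiff.1 he').1).1 hee
            · exact apart_symm_GMerge (hap e heM (mem_sdiff.1 he).2 e' he')
          · rcases mem_union.1 he' with he' | he'
            · exact hap e' ((mem_ins_GMerge part M Z e').1 (mem_sdiff.1 he').1).1
                (mem_sdiff.1 he').2 e he
            · exact hL1.2 e he e' he' hee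
        · have h1 := hR _ _ (sr part) (tg part) M L X hS (hT _) hL2 hL3
          refine sparse_mono_GMerge _ _ ?_ h1
          apply union_subset_union _ Subset.rfl
          apply sdiff_subset_sdiff _ Subset.rfl
          exact filter_subset _ _
        · intro e he
          rcases mem_union.1 he with he | he
          · exact ((mem_ins_GMerge part M Z e).1 (mem_sdiff.1 he).1).2
          · exact ⟨hXZ (hL3 e he).1, hXZ (hL3 e he).2⟩
        · have hdis : Disjoint (ins (sr part) (tg part) M Z \ ins (sr part) (tg part) M X) L := by
            rw [disjoint_left]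
            intro e he heL
            apply (mem_sdiff.1 he).2
            exact (mem_ins_GMerge part M X e).2
              ⟨((mem_ins_GMerge part M Z e).1 (mem_sdiff.1 he).1).1, hL3 e heL⟩
          have hsub : ins (sr part) (tg part) M X ⊆ ins (sr part) (tg part) M Z := by
            intro e he
            obtain ⟨k1, k2, k3⟩ := (mem_ins_GMerge part M X e).1 he
            exact (mem_ins_GMerge part M Z e).2 ⟨k1, hXZ k2, hXZ k3⟩
          have h1 := card_sdiff_add_card_eq_card hsub
          have h2 : (ins (sr part) (tg part) M X).card + 2 = 2 * X.card := hT _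
          have h3 : (ins (sr part) (tg part) M Z).card + 2 = 2 * Z.card := hZT
          rw [card_union_of_disjoint hdis]
          omega
        · intro e he
          rcases mem_union.1 he with he | he
          · have heM := ((mem_ins_GMerge part M Z e).1 (mem_sdiff.1 he).1).1
            by_cases hc : Cross part blk e
            · exact hcov e heM hc
            · obtain ⟨k1, k2⟩ := hkey e heM (mem_sdiff.1 he).2 hc
              refine ⟨?_, ?_⟩
              · intro h; rw [← h] at k1; exact k1 hwX
              · intro h; rw [← h] at k2; exact k2 hwX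
          · exact hL5 e he
        · intro e he e' he' hc
          rcases mem_union.1 he with he | he
          · obtain ⟨k1, k2⟩ := (mem_ins_GMerge part M Z e).1 (mem_sdiff.1 he).1
            apply hL.2 e k1 e' he'
            intro h
            rw [h] at k2
            exact hC2 e' hc k2
          · exact hL6 e he e' he' (hC1 e' hc)
      · push Not at hcov
        obtain ⟨e, heM, hc, hwe⟩ := hcov
        have hwe' : w = e.1 ∨ w = e.2 := by
          by_cases h : w = e.1
          · exact Or.inl h
          · exact Or.inr (hwe h)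
        have hZZ : part e.1 ∈ Z ∧ part e.2 ∈ Z := by
          by_contra h
          obtain ⟨k1, k2⟩ := hw e heM (hC3 e hc h)
          rcases hwe' with h | h
          · exact k1 h
          · exact k2 h
        have heZ : e ∈ ins (sr part) (tg part) M Z := (mem_ins_GMerge part M Z e).2 ⟨heM, hZZ⟩
        have heY : e ∈ ins (sr part) (tg part) M Y := by
          rcases hZe e heZ with h | h
          · exact h
          · exact absurd h hc
        have hsubM : (ins (sr part) (tg part) M Z).erase e ⊆ M.erase e :=
          erase_subset_erase _ (filter_subset _ _)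
        have hfn : (u, v) ∉ (ins (sr part) (tg part) M Z).erase e :=
          fun h => hfM (mem_of_mem_erase (hsubM h))
        refine ⟨insert (u, v) ((ins (sr part) (tg part) M Z).erase e), ?_, ?_, ?_, ?_, ?_, ?_⟩
        · refine links_mono_GMerge G part ?_ hLf
          exact insert_subset_insert _ (hsubM.trans (erase_subset _ _))
        · exact sparse_mono_GMerge _ _ (insert_subset_insert _ hsubM) (hYe e heY)
        · intro a ha
          rcases mem_insert.1 ha with rfl | ha
          · exact ⟨huZ, hvZ⟩
          · exact ((mem_ins_GMerge part M Z a).1 (mem_of_mem_erase ha)).2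
        · have h3 : (ins (sr part) (tg part) M Z).card + 2 = 2 * Z.card := hZT
          have h4 := card_erase_add_one heZ
          rw [card_insert_of_notMem hfn]
          omega
        · intro a ha
          obtain ⟨k1, k2, k3, k4⟩ := hu e heM
          rcases mem_insert.1 ha with rfl | ha
          · rcases hwe' with h | h
            · rw [h]; exact ⟨k1.symm, k3.symm⟩
            · rw [h]; exact ⟨k2.symm, k4.symm⟩
          · have haM := mem_of_mem_erase (hsubM ha)
            obtain ⟨j1, j2, j3, j4⟩ := hL.2 e heM a haM (ne_of_mem_erase ha).symm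
            rcases hwe' with h | h
            · rw [h]; exact ⟨j1, j2⟩
            · rw [h]; exact ⟨j3, j4⟩
        · intro a ha e' he' hc'
          rcases mem_insert.1 ha with rfl | ha
          · exact hu e' he'
          · obtain ⟨k1, k2⟩ := (mem_ins_GMerge part M Z a).1 (mem_of_mem_erase ha)
            apply hL.2 a k1 e' he'
            intro h
            rw [h] at k2
            exact hC2 e' hc' k2
    · rw [hout _ hwZ]
      have hcov : ∀ e ∈ M, Cross part blk e → w ≠ e.1 ∧ w ≠ e.2 := by
        intro e he hc
        refine ⟨?_, ?_⟩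
        · intro h
          refine (hw e he (hC3 e hc ?_)).1 h
          intro k
          rw [← h] at k
          exact hwZ k.1
        · intro h
          refine (hw e he (hC3 e hc ?_)).2 h
          intro k
          rw [← h] at k
          exact hwZ k.2
      obtain ⟨L, hL1, hL2, hL3, hL4, hL5, hL6⟩ := hF w hcov
      exact ⟨L, hL1, hL2, hL3, hL4, hL5, fun e he e' he' hc => hL6 e he e' he' (hC1 e' hc)⟩
  · apply sum_lt_sum
    · intro n _
      by_cases hn : n ∈ Z
      · rw [hin n hn]; exact card_le_card (hZ1 n hn)
      · rw [hout n hn]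
    · refine ⟨part u, mem_univ _, ?_⟩
      rw [hin _ huZ]
      apply card_lt_card
      refine ⟨hZ1 _ huZ, fun h => hne ?_⟩
      exact (hblk.2 _ _ (h hvZ)).symm

end Pool.Agent.MP_3fd310_co.Gen
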