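import Mathlib
import Pool.Agent.MP_3fd310_co.GDefs

set_option autoImplicit false

namespace Pool.Agent.MP_3fd310_co.Gen

open Finset

theorem maxfam_GPart {V : Type} [Fintype V] [DecidableEq V] (Q : Finset V → Prop) :
    ∃ P : Finset (Finset V), (∀ p ∈ P, Q p) ∧ (∀ p ∈ P, ∀ p' ∈ P, p ≠ p' → Disjoint p p') ∧
      ∀ q, Q q → q.Nonempty → ∃ p ∈ P, ¬ Disjoint p q := by
  classical
  have hne : ((univ : Finset (Finset (Finset V))).filter fun P =>
      (∀ p ∈ P, Q p) ∧ ∀ p ∈ P, ∀ p' ∈ P, p ≠ p' → Disjoint p p').Nonempty :=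
    ⟨∅, mem_filter.2 ⟨mem_univ _, by simp, by simp⟩⟩
  obtain ⟨P, hP, hmax⟩ := exists_max_image _ card hne
  obtain ⟨-, h1, h2⟩ := mem_filter.1 hP
  refine ⟨P, h1, h2, fun q hq hqn => ?_⟩
  by_contra hno
  push Not at hno
  have hqP : q ∉ P := fun h => by
    obtain ⟨a, ha⟩ := hqn
    exact disjoint_left.1 (hno q h) ha ha
  have := hmax (insert q P) (mem_filter.2 ⟨mem_univ _, ?_, ?_⟩)
  · rw [card_insert_of_notMem hqP] at this
    omega
  · intro p hp
    rcases mem_insert.1 hp with rfl | hp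
    · exact hq
    · exact h1 p hp
  · intro p hp p' hp' hne
    rcases mem_insert.1 hp with rfl | hp1
    · rcases mem_insert.1 hp' with rfl | hp2
      · exact absurd rfl hne
      · exact (hno p' hp2).symm
    · rcases mem_insert.1 hp' with rfl | hp2
      · exact hno p hp1
      · exact h2 p hp1 p' hp2 hne

theorem left_GPart {V : Type} [DecidableEq V] {r : ℕ} (k : ℕ) (c : V → Fin r)
    (Q : Finset V → Prop) (P : Finset (Finset V))
    (hmax : ∀ q, Q q → q.Nonempty → ∃ p ∈ P, ¬ Disjoint p q) (X : Finset V)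
    (hX : ∀ q ⊆ X, q.card = k + 1 → (∀ x ∈ q, ∀ y ∈ q, c x = c y) → Q q)
    (hX' : ∀ x ∈ X, ∀ p ∈ P, x ∉ p) : X.card ≤ k * r := by
  have h := card_le_mul_card_image_of_maps_to (s := X) (t := (univ : Finset (Fin r))) (f := c)
    (fun _ _ => mem_univ _) k ?_
  · simpa using h
  intro j _
  by_contra hlt
  obtain ⟨q, hq, hqc⟩ := exists_subset_card_eq (s := X.filter fun x => c x = j) (n := k + 1)
    (by omega)
  have hqX : q ⊆ X := hq.trans (filter_subset _ _)
  obtain ⟨p, hp, hd⟩ := hmax q (hX q hqX hqc fun x hx y hy =>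
    (mem_filter.1 (hq hx)).2.trans (mem_filter.1 (hq hy)).2.symm) (card_pos.1 (by omega))
  exact hd (disjoint_right.2 fun a ha => hX' a (hqX ha) p hp)

theorem part_stmt (hH : HaxellStmt) : PartStmt := by
  intro V _ _ G r d hcov hdeg hrd
  classical
  rcases isEmpty_or_nonempty V with hV | hV
  · exact ⟨Empty, inferInstance, inferInstance, fun v => (hV.false v).elim,
      fun v => (hV.false v).elim, fun n => n.elim⟩
  choose c hc using hcov
  have hr : 0 < r := (c hV.some hV.some).pos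
  obtain ⟨P, hPQ, hPd, hPm⟩ := maxfam_GPart
    (fun p : Finset V => p.card = 9 ∧ ∀ x ∈ p, ∀ y ∈ p, x ≠ y → G.Adj x y)
  have hU : ∀ (w : V) (X : Finset V), (∀ x ∈ X, (∀ p ∈ P, x ∉ p) ∧ G.Adj w x) →
      X.card ≤ 8 * r := fun w X hX =>
    left_GPart 8 (c w) _ P hPm X (fun q hq hqc hcol => ⟨hqc, fun x hx y hy hxy =>
      hc w x y (hX x (hq hx)).2 (hX y (hq hy)).2 (hcol x hx y hy) hxy⟩) fun x hx => (hX x hx).1
  have hhome : ∀ a : V, ∃ p : Finset V, p.card ≤ 9 ∧ ((∃ p' ∈ P, a ∈ p') → p ∈ P ∧ a ∈ p) := by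
    intro a
    by_cases h : ∃ p' ∈ P, a ∈ p'
    · obtain ⟨p, hp, ha⟩ := h
      exact ⟨p, (hPQ p hp).1.le, fun _ => ⟨hp, ha⟩⟩
    · exact ⟨∅, by simp, fun h' => absurd h' h⟩
  choose home hh9 hhome using hhome
  have hhome' : ∀ a, ∀ p ∈ P, a ∈ p → home a = p := by
    intro a p hp ha
    obtain ⟨h1, h2⟩ := hhome a ⟨p, hp, ha⟩
    by_contra hne
    exact disjoint_left.1 (hPd _ h1 _ hp hne) h2 ha
  have hO : ∀ u : V, ∃ O : Finset (Finset V),
      (∀ q ∈ O, q.card = 4 ∧ (∀ x ∈ q, (∃ p ∈ P, x ∈ p) ∧ G.Adj u x) ∧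
        ∀ x ∈ q, ∀ y ∈ q, x ≠ y → G.Adj x y) ∧
      (∀ q ∈ O, ∀ q' ∈ O, q ≠ q' → Disjoint q q') ∧ 576 * r < O.card := by
    intro u
    obtain ⟨O, h1, h2, h3⟩ := maxfam_GPart (fun q : Finset V => q.card = 4 ∧
      (∀ x ∈ q, (∃ p ∈ P, x ∈ p) ∧ G.Adj u x) ∧ ∀ x ∈ q, ∀ y ∈ q, x ≠ y → G.Adj x y)
    refine ⟨O, h1, h2, ?_⟩
    obtain ⟨s, hs, hsa⟩ := hdeg u
    have a1 := hU u (s.filter fun x => ∀ p ∈ P, x ∉ p) fun x hx =>
      ⟨(mem_filter.1 hx).2, hsa x (mem_filter.1 hx).1⟩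
    have a2 := left_GPart 3 (c u) _ O h3
      (s.filter fun x => (∃ p ∈ P, x ∈ p) ∧ ∀ q ∈ O, x ∉ q)
      (fun q hq hqc hcol => ⟨hqc, fun x hx =>
        ⟨(mem_filter.1 (hq hx)).2.1, hsa x (mem_filter.1 (hq hx)).1⟩, fun x hx y hy hxy =>
        hc u x y (hsa x (mem_filter.1 (hq hx)).1) (hsa y (mem_filter.1 (hq hy)).1)
          (hcol x hx y hy) hxy⟩) fun x hx => (mem_filter.1 hx).2.2
    have a3 : (O.biUnion id).card ≤ O.card * 4 :=
      card_biUnion_le_card_mul _ _ _ fun q hq => (h1 q hq).1.le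
    have a4 : s ⊆ (s.filter fun x => ∀ p ∈ P, x ∉ p) ∪
        (s.filter fun x => (∃ p ∈ P, x ∈ p) ∧ ∀ q ∈ O, x ∉ q) ∪ O.biUnion id := by
      intro x hx
      simp only [mem_union, mem_filter, mem_biUnion, id]
      by_cases h : ∃ q ∈ O, x ∈ q
      · exact Or.inr h
      · by_cases h' : ∃ p ∈ P, x ∈ p
        · exact Or.inl (Or.inr ⟨hx, h', fun q hq hxq => h ⟨q, hq, hxq⟩⟩)
        · exact Or.inl (Or.inl ⟨hx, fun p hp hxp => h' ⟨p, hp, hxp⟩⟩)
    have a5 := (card_le_card a4).trans ((card_union_le _ _).trans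
      (Nat.add_le_add_right (card_union_le _ _) _))
    omega
  choose O hOQ hOd hOc using hO
  let I : Type := {u : V // ∀ p ∈ P, u ∉ p}
  let Ω : Type := {x : I × Finset V // x.2 ∈ O x.1.1}
  obtain ⟨T, hT1, hT2⟩ := hH I Ω (fun x => x.1.1)
    (fun x y => ∃ a ∈ x.1.2, ∃ b ∈ y.1.2, home a = home b) (288 * r)
    (fun x y ⟨a, ha, b, hb, h⟩ => ⟨b, hb, a, ha, h.symm⟩) (by
      intro x s hs
      have b1 : (x.1.2.biUnion home).card ≤ x.1.2.card * 9 :=
        card_biUnion_le_card_mul _ _ _ fun a _ => hh9 a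
      have b2 : x.1.2.card = 4 := (hOQ _ _ x.2).1
      have b3 : s ⊆ (x.1.2.biUnion home).biUnion
          fun b => (univ : Finset Ω).filter fun y => b ∈ y.1.2 := by
        intro y hy
        obtain ⟨a, ha, b, hb, h⟩ := hs y hy
        refine mem_biUnion.2 ⟨b, mem_biUnion.2 ⟨a, ha, ?_⟩, mem_filter.2 ⟨mem_univ _, hb⟩⟩
        rw [h]
        exact (hhome b ((hOQ _ _ y.2).2.1 b hb).1).2
      have b4 : ∀ b : V, ((univ : Finset Ω).filter fun y => b ∈ y.1.2).card ≤ 8 * r := by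
        intro b
        have hinj : Set.InjOn (fun y : Ω => y.1.1.1)
            ((univ : Finset Ω).filter fun y => b ∈ y.1.2 : Finset Ω) := by
          intro y hy y' hy' h
          have e1 : y.1.1 = y'.1.1 := Subtype.ext h
          have e2 : y.1.2 = y'.1.2 := by
            by_contra hne
            have h3 : y'.1.2 ∈ O y.1.1.1 := by rw [e1]; exact y'.2
            exact disjoint_left.1 (hOd _ _ y.2 _ h3 hne) (mem_filter.1 (mem_coe.1 hy)).2
              (mem_filter.1 (mem_coe.1 hy')).2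
          exact Subtype.ext (Prod.ext e1 e2)
        rw [← card_image_of_injOn hinj]
        refine hU b _ fun z hz => ?_
        obtain ⟨y, hy, rfl⟩ := mem_image.1 hz
        exact ⟨y.1.1.2, ((hOQ _ _ y.2).2.1 b (mem_filter.1 hy).2).2.symm⟩
      have b5 := (card_le_card b3).trans (card_biUnion_le_card_mul _ _ _ fun b _ => b4 b)
      calc s.card ≤ _ := b5
        _ ≤ 36 * (8 * r) := Nat.mul_le_mul_right _ (by omega)
        _ = 288 * r := by ring) (by
      intro i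
      refine ⟨(O i.1).attach.map ⟨fun q => (⟨(i, q.1), q.2⟩ : Ω), fun q q' h =>
        Subtype.ext (congrArg (fun z : Ω => z.1.2) h)⟩, ?_, ?_⟩
      · rw [card_map, card_attach]
        have := hOc i.1
        omega
      · intro x hx
        obtain ⟨q, -, rfl⟩ := mem_map.1 hx
        rfl)
  let o : I → Finset V := fun i => (T i).1.2
  have ho : ∀ i, o i ∈ O i.1 := fun i => by
    have := (T i).2
    rw [hT1 i] at this
    exact this
  have hoh : ∀ i j, ∀ a ∈ o i, ∀ b ∈ o j, home a = home b → i = j := fun i j a ha b hb h => by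
    by_contra hne
    exact hT2 i j hne ⟨a, ha, b, hb, h⟩
  let R : V → I ⊕ {p // p ∈ P} → Prop := fun v n =>
    Sum.elim (fun u : I => v = u.1 ∨ v ∈ o u) (fun p => v ∈ p.1 ∧ ∀ u, v ∉ o u) n
  have hex : ∀ v, ∃ n, R v n := by
    intro v
    by_cases h : ∃ u, v ∈ o u
    · obtain ⟨u, hu⟩ := h
      exact ⟨Sum.inl u, Or.inr hu⟩
    · by_cases h' : ∃ p ∈ P, v ∈ p
      · obtain ⟨p, hp, hv⟩ := h'
        exact ⟨Sum.inr ⟨p, hp⟩, hv, fun u hu => h ⟨u, hu⟩⟩
      · exact ⟨Sum.inl ⟨v, fun p hp hv => h' ⟨p, hp, hv⟩⟩, Or.inl rfl⟩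
  have hnot : ∀ (u u' : I), u.1 ∉ o u' := fun u u' h => by
    obtain ⟨p, hp, hv⟩ := ((hOQ _ _ (ho u')).2.1 _ h).1
    exact u.2 p hp hv
  have huniq : ∀ v n n', R v n → R v n' → n = n' := by
    rintro v (u | p) (u' | p') h h'
    · rcases h with h | h <;> rcases h' with h' | h'
      · exact congrArg Sum.inl (Subtype.ext (h.symm.trans h'))
      · exact absurd (h ▸ h') (hnot u u')
      · exact absurd (h' ▸ h) (hnot u' u)
      · exact congrArg Sum.inl (hoh u u' v h v h' rfl)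
    · rcases h with h | h
      · exact absurd (h ▸ h'.1) (u.2 p'.1 p'.2)
      · exact absurd h (h'.2 u)
    · rcases h' with h' | h'
      · exact absurd (h' ▸ h.1) (u'.2 p.1 p.2)
      · exact absurd h' (h.2 u')
    · exact congrArg Sum.inr (Subtype.ext
        ((hhome' v _ p.2 h.1).symm.trans (hhome' v _ p'.2 h'.1)))
  choose part hpart using hex
  refine ⟨I ⊕ {p // p ∈ P}, inferInstance, inferInstance, part, ?_, ?_⟩
  · intro x y hxy hne
    have hx := hpart x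
    have hy := hpart y
    rw [hxy] at hx
    rcases hn : part y with u | p <;> rw [hn] at hx hy
    · rcases hx with hx | hx <;> rcases hy with hy | hy
      · exact absurd (hx.trans hy.symm) hne
      · exact hx ▸ ((hOQ _ _ (ho u)).2.1 y hy).2
      · exact hy ▸ ((hOQ _ _ (ho u)).2.1 x hx).2.symm
      · exact (hOQ _ _ (ho u)).2.2 x hx y hy hne
    · exact (hPQ p.1 p.2).2 x hx.1 y hy.1 hne
  · rintro (u | p)
    · refine ⟨insert u.1 (o u), ?_, fun x hx => huniq x _ _ (hpart x) (mem_insert.1 hx)⟩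
      rw [card_insert_of_notMem (hnot u u), (hOQ _ _ (ho u)).1]
    · by_cases h : ∃ u, ∃ a ∈ p.1, a ∈ o u
      · obtain ⟨u, a, ha, hau⟩ := h
        refine ⟨p.1 \ o u, ?_, fun x hx => huniq x _ _ (hpart x)
          ⟨(mem_sdiff.1 hx).1, fun u' hu' => (mem_sdiff.1 hx).2 ?_⟩⟩
        · have h1 := le_card_sdiff (o u) p.1
          have h2 := (hOQ _ _ (ho u)).1
          have h3 := (hPQ p.1 p.2).1
          omega
        · rw [← hoh u' u x hu' a hau
            ((hhome' x _ p.2 (mem_sdiff.1 hx).1).trans (hhome' a _ p.2 ha).symm)]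
          exact hu'
      · refine ⟨p.1, ?_, fun x hx => huniq x _ _ (hpart x) ⟨hx, fun u hu => h ⟨u, x, hx, hu⟩⟩⟩
        have h3 := (hPQ p.1 p.2).1
        omega

end Pool.Agent.MP_3fd310_co.Gen
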