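import Mathlib
import Pool.Agent.MP_3fd310_co.GDefs

set_option autoImplicit false

namespace Pool.Agent.MP_3fd310_co.Gen

open Finset

theorem sub_mem_GSeg {E : Type} {W : Submodule ℝ (E → ℝ)} {b x y : E → ℝ} (hx : x ∈ Poly W b)
    (hy : y ∈ Poly W b) : x - y ∈ W := by
  have := W.sub_mem hx.2 hy.2
  rwa [sub_sub_sub_cancel_right] at this

theorem dir_GSeg {E : Type} {W : Submodule ℝ (E → ℝ)} {b x z w : E → ℝ} {f : E}
    (hx : IsVtx W b x) (hz : z ∈ W) (h1 : z f = 1) (h0 : ∀ e, x e = 0 → e ≠ f → z e = 0)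
    (hw : w ∈ W) (hw0 : ∀ e, x e = 0 → e ≠ f → w e = 0) : w = w f • z := by
  refine sub_eq_zero.1 (hx.2 _ (W.sub_mem hw (W.smul_mem _ hz)) fun e he => ?_)
  by_cases h : e = f
  · simp [h, h1]
  · simp [h0 e he h, hw0 e he h]

theorem convex_GSeg {E : Type} (W : Submodule ℝ (E → ℝ)) (b : E → ℝ) : Convex ℝ (Poly W b) := by
  intro x hx y hy s t hs ht hst
  refine ⟨fun e => add_nonneg (mul_nonneg hs (hx.1 e)) (mul_nonneg ht (hy.1 e)), ?_⟩
  have : s • x + t • y - b = s • (x - b) + t • (y - b) := by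
    rw [smul_sub, smul_sub, sub_add_sub_comm, ← add_smul, hst, one_smul]
  rw [this]
  exact W.add_mem (W.smul_mem _ hx.2) (W.smul_mem _ hy.2)

theorem supp_GSeg (hZ : ZeroStmt) {E : Type} [Fintype E] [DecidableEq E]
    {W : Submodule ℝ (E → ℝ)} {b x : E → ℝ} (hS : Simple W b) (hx : IsVtx W b x) {S : Finset E}
    (h : ∀ e, e ∈ S ↔ x e ≠ 0) : S.card + Module.finrank ℝ W = Fintype.card E := by
  rw [← hZ E W b hS x hx Sᶜ fun e => by rw [mem_compl, h, not_not], card_add_card_compl]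

theorem one_GSeg (hZ : ZeroStmt) {E : Type} [Fintype E] [DecidableEq E]
    {W : Submodule ℝ (E → ℝ)} {b x : E → ℝ} (hS : Simple W b) (hx : IsVtx W b x) {φ : Finset E}
    (hc : φ.card + 1 + Module.finrank ℝ W = Fintype.card E) (hφ : ∀ e ∈ φ, x e ≠ 0) :
    ∃ e, e ∉ φ ∧ ∀ g, x g ≠ 0 ↔ g = e ∨ g ∈ φ := by
  classical
  have h := supp_GSeg hZ hS hx (S := univ.filter fun e => x e ≠ 0) fun e => by simp
  obtain ⟨e, he, h'⟩ := (exists_eq_insert_iff (s := φ) (t := univ.filter fun e => x e ≠ 0)).2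
    ⟨fun e he => by simpa using hφ e he, by omega⟩
  refine ⟨e, he, fun g => ?_⟩
  rw [← mem_insert, h']
  simp

theorem seg_stmt (hZ : ZeroStmt) : SegStmt := by
  intro E _ _ W b hS x y ⟨hne, φ, hc, hφ⟩
  obtain ⟨e, he, hx⟩ := one_GSeg hZ hS x.2 hc fun e he => (hφ e he).1
  obtain ⟨f, hf, hy⟩ := one_GSeg hZ hS y.2 hc fun e he => (hφ e he).2
  have hef : e ≠ f := by
    rintro rfl
    refine hne (Subtype.ext (sub_eq_zero.1 (x.2.2 _ (sub_mem_GSeg x.2.1 y.2.1) fun g hg => ?_)))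
    have : y.1 g = 0 := by
      by_contra h
      exact (hx g).2 ((hy g).1 h) hg
    simp [hg, this]
  have xf : x.1 f = 0 := by
    by_contra h
    exact ((hx f).1 h).elim (fun h => hef h.symm) hf
  have ye : y.1 e = 0 := by
    by_contra h
    exact ((hy e).1 h).elim hef he
  have xe : 0 < x.1 e := (x.2.1.1 e).lt_of_ne' ((hx e).2 (Or.inl rfl))
  have yf : 0 < y.1 f := (y.2.1.1 f).lt_of_ne' ((hy f).2 (Or.inl rfl))
  obtain ⟨z, hz, h1, h0⟩ := hS x.1 x.2 f xf
  have y0 : ∀ g, x.1 g = 0 → g ≠ f → y.1 g = 0 := fun g hg hgf => by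
    by_contra h
    exact ((hy g).1 h).elim hgf fun h => (hφ g h).1 hg
  have key : ∀ w ∈ Poly W b, (∀ g, x.1 g = 0 → g ≠ f → w g = 0) → w - x.1 = w f • z := by
    intro w hw h
    have := dir_GSeg x.2 hz h1 h0 (sub_mem_GSeg hw x.2.1) fun g hg hgf => by
      simp [hg, h g hg hgf]
    simpa [xf] using this
  have ky := key y.1 y.2.1 y0
  refine ⟨(convex_GSeg W b).segment_subset x.2.1 y.2.1, fun a ha a' ha' w hw hwa => ?_⟩
  obtain ⟨s, t, -, -, -, rfl⟩ := hw
  obtain ⟨s', t', hs', ht', -, hwa⟩ := hwa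
  have ka := key a ha fun g hg hgf => by
    have h := congrFun hwa g
    simp only [Pi.add_apply, Pi.smul_apply, smul_eq_mul, hg, y0 g hg hgf, mul_zero,
      add_zero] at h
    have h2 := mul_nonneg ht'.le (ha'.1 g)
    have h3 := mul_nonneg hs'.le (ha.1 g)
    exact (mul_eq_zero.1 (by linarith : s' * a g = 0)).resolve_left hs'.ne'
  have ea : a = (1 - a f / y.1 f) • x.1 + (a f / y.1 f) • y.1 := by
    rw [sub_smul, one_smul, sub_add, ← smul_sub, ← neg_sub y.1, smul_neg, sub_neg_eq_add, ky,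
      smul_smul, div_mul_cancel₀ _ yf.ne', ← ka, add_sub_cancel]
  refine ⟨1 - a f / y.1 f, a f / y.1 f, ?_, div_nonneg (ha.1 f) yf.le, by ring, ea.symm⟩
  have h := ha.1 e
  rw [congrFun ea e] at h
  simp only [Pi.add_apply, Pi.smul_apply, smul_eq_mul, ye, mul_zero, add_zero] at h
  exact nonneg_of_mul_nonneg_left h xe

theorem pivot_stmt (hZ : ZeroStmt) : PivotStmt := by
  intro E _ _ W b hS hB x f z xf hz h1 h0
  classical
  have hne : (univ.filter fun e => z e < 0).Nonempty := by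
    by_contra h
    have := hB z hz fun e => not_lt.1 fun he => h ⟨e, by simpa using he⟩
    simp [this] at h1
  obtain ⟨e, he, hmin⟩ := exists_min_image _ (fun e => x.1 e / -z e) hne
  simp only [mem_filter, mem_univ, true_and] at he hmin
  have hef : e ≠ f := by
    rintro rfl
    linarith
  have xe : 0 < x.1 e := (x.2.1.1 e).lt_of_ne' fun h => he.ne (h0 e h hef)
  obtain ⟨τ, hτ⟩ : ∃ τ, τ = x.1 e / -z e := ⟨_, rfl⟩
  rw [← hτ] at hmin
  have τ0 : 0 < τ := hτ ▸ div_pos xe (neg_pos.2 he)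
  have ye : x.1 e + τ * z e = 0 := by
    rw [hτ, div_neg, neg_mul, div_mul_cancel₀ _ he.ne, add_neg_cancel]
  have y0 : ∀ g, x.1 g = 0 → g ≠ f → x.1 g + τ * z g = 0 := fun g hg hgf => by
    rw [hg, h0 g hg hgf, mul_zero, add_zero]
  have hy : IsVtx W b (x.1 + τ • z) := by
    refine ⟨⟨fun g => ?_, ?_⟩, fun w hw hw0 => ?_⟩
    · change 0 ≤ x.1 g + τ * z g
      rcases lt_or_ge (z g) 0 with h | h
      · have := (le_div_iff₀ (neg_pos.2 h)).1 (hmin g h)
        linarith
      · exact add_nonneg (x.2.1.1 g) (mul_nonneg τ0.le h)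
    · rw [add_sub_right_comm]
      exact W.add_mem x.2.1.2 (W.smul_mem _ hz)
    · have h := dir_GSeg x.2 hz h1 h0 hw fun g hg hgf => hw0 g (y0 g hg hgf)
      have h2 := hw0 e ye
      rw [congrFun h e] at h2
      rw [h, (mul_eq_zero.1 h2).resolve_right he.ne, zero_smul]
  refine ⟨⟨_, hy⟩, ⟨fun h => ?_, (univ.filter fun g => x.1 g ≠ 0).erase e, ?_, ?_⟩, τ, τ0, rfl⟩
  · have := congrFun (congrArg Subtype.val h) e
    exact xe.ne' (this.trans ye)
  · rw [card_erase_add_one (by simpa using xe.ne')]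
    exact supp_GSeg hZ hS x.2 fun g => by simp
  · have c1 := hZ E W b hS x.1 x.2 (univ.filter fun g => x.1 g = 0) fun g => by simp
    have c2 := hZ E W b hS _ hy (univ.filter fun g => x.1 g + τ * z g = 0) fun g => by simp
    have c3 : insert e ((univ.filter fun g => x.1 g = 0).erase f) =
        univ.filter fun g => x.1 g + τ * z g = 0 := by
      refine eq_of_subset_of_card_le (fun g hg => ?_) ?_
      · simp only [mem_insert, mem_erase, mem_filter, mem_univ, true_and] at hg ⊢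
        rcases hg with rfl | hg
        · exact ye
        · exact y0 g hg.2 hg.1
      · rw [card_insert_of_notMem (by simp [xe.ne']), card_erase_add_one (by simpa using xf), c1,
          c2]
    intro g hg
    simp only [mem_erase, mem_filter, mem_univ, true_and] at hg
    refine ⟨hg.2, fun h => ?_⟩
    have : g ∈ insert e ((univ.filter fun g => x.1 g = 0).erase f) := by
      rw [c3]
      exact mem_filter.2 ⟨mem_univ _, h⟩
    simp only [mem_insert, mem_erase, mem_filter, mem_univ, true_and] at this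
    exact this.elim hg.1 fun h => hg.2 h.2

end Pool.Agent.MP_3fd310_co.Gen
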