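import Mathlib
import Pool.Agent.MP_3fd310_co.GDefs

set_option autoImplicit false

namespace Pool.Agent.MP_3fd310_co.Gen

open Finset

section
variable {ε N : Type} [DecidableEq N] {s t : ε → N} {M : Finset ε}

lemma mem_GTight {X : Finset N} {e : ε} : e ∈ ins s t M X ↔ e ∈ M ∧ s e ∈ X ∧ t e ∈ X :=
  mem_filter

lemma mono_GTight {M' : Finset ε} {X X' : Finset N} (h : M ⊆ M') (h' : X ⊆ X') :
    ins s t M X ⊆ ins s t M' X' := fun _ he =>
  mem_GTight.2 ⟨h (mem_GTight.1 he).1, h' (mem_GTight.1 he).2.1, h' (mem_GTight.1 he).2.2⟩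

variable [DecidableEq ε]

lemma inter_GTight (A B : Finset N) : ins s t M A ∩ ins s t M B = ins s t M (A ∩ B) := by
  ext e
  simp only [mem_inter, mem_GTight]
  tauto

lemma viol_GTight {M' : Finset ε} {f : ε} (hM : Sparse s t M) (h : M' ⊆ M)
    (hf : ¬ Sparse s t (insert f M')) :
    ∃ Y, (Tight s t M Y ∧ s f ∈ Y ∧ t f ∈ Y) ∧ ins s t M Y ⊆ M' := by
  simp only [Sparse, not_forall, not_le] at hf
  obtain ⟨Y, hY, h1⟩ := hf
  have h2 := hM Y hY
  have h3 : ins s t M' Y ⊆ ins s t M Y := mono_GTight h Subset.rfl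
  have h4 := card_le_card h3
  have h5 : s f ∈ Y ∧ t f ∈ Y := by
    by_contra hn
    have : ins s t (insert f M') Y ⊆ ins s t M' Y := fun e he => by
      obtain ⟨a1, a2⟩ := mem_GTight.1 he
      refine mem_GTight.2 ⟨(mem_insert.1 a1).resolve_left ?_, a2⟩
      rintro rfl
      exact hn a2
    have := card_le_card this
    omega
  have h6 : ins s t (insert f M') Y ⊆ insert f (ins s t M' Y) := fun e he => by
    obtain ⟨a1, a2⟩ := mem_GTight.1 he
    exact mem_insert.2 ((mem_insert.1 a1).imp_right fun a => mem_GTight.2 ⟨a, a2⟩)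
  have h7 := (card_le_card h6).trans (card_insert_le _ _)
  refine ⟨Y, ⟨by unfold Tight; omega, h5⟩, ?_⟩
  rw [← eq_of_subset_of_card_le h3 (by omega)]
  exact filter_subset _ _

end

theorem union_stmt : UnionStmt := by
  intro ε N _ _ s t M A B hM hA hB hne
  have h1 : ins s t M A ∪ ins s t M B ⊆ ins s t M (A ∪ B) :=
    union_subset (mono_GTight Subset.rfl subset_union_left)
      (mono_GTight Subset.rfl subset_union_right)
  have h2 := card_union_add_card_inter (ins s t M A) (ins s t M B)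
  rw [inter_GTight] at h2
  have h3 := card_union_add_card_inter A B
  have h4 := hM _ hne
  have h5 := hM (A ∪ B) (hne.mono (inter_subset_left.trans subset_union_left))
  have h6 := card_le_card h1
  unfold Tight at *
  refine ⟨by omega, by omega, fun e he => mem_union.1 ?_⟩
  rwa [eq_of_subset_of_card_le h1 (by omega)]

theorem replace_stmt : ReplaceStmt := by
  intro ε N _ _ s t M L X hM hX hL hLX Y hY
  have h1 : ins s t ((M \ ins s t M X) ∪ L) Y ⊆
      (ins s t M Y \ ins s t M X) ∪ ins s t L (X ∩ Y) := fun e he => by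
    obtain ⟨a1, a2⟩ := mem_GTight.1 he
    rcases mem_union.1 a1 with a | a
    · exact mem_union_left _ (mem_sdiff.2 ⟨mem_GTight.2 ⟨(mem_sdiff.1 a).1, a2⟩, (mem_sdiff.1 a).2⟩)
    · exact mem_union_right _ (mem_GTight.2
        ⟨a, mem_inter.2 ⟨(hLX e a).1, a2.1⟩, mem_inter.2 ⟨(hLX e a).2, a2.2⟩⟩)
  have h2 := (card_le_card h1).trans (card_union_le _ _)
  rcases (X ∩ Y).eq_empty_or_nonempty with h | h
  · have h3 : ins s t L (X ∩ Y) = ∅ := by
      rw [h]
      exact eq_empty_of_forall_notMem fun e he => notMem_empty _ (mem_GTight.1 he).2.1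
    have h4 : (ins s t M Y \ ins s t M X).card ≤ (ins s t M Y).card := card_le_card sdiff_subset
    have h5 := hM Y hY
    rw [h3, card_empty] at h2
    omega
  · have h3 := hL _ h
    have h4 := card_sdiff_add_card (ins s t M Y) (ins s t M X)
    have h5 : (ins s t M Y ∪ ins s t M X).card ≤ (ins s t M (X ∪ Y)).card :=
      card_le_card (union_subset (mono_GTight Subset.rfl subset_union_right)
        (mono_GTight Subset.rfl subset_union_left))
    have h6 := hM (X ∪ Y) (hY.mono subset_union_right)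
    have h7 := card_union_add_card_inter X Y
    unfold Tight at hX
    omega

theorem exch_stmt : ExchStmt := by
  intro ε N _ _ s t M f hM hf
  obtain ⟨Y0, h0, -⟩ := viol_GTight hM Subset.rfl hf
  obtain ⟨Y, hY, hmin⟩ := (wellFounded_lt (α := Finset N)).has_min
    {Y | Tight s t M Y ∧ s f ∈ Y ∧ t f ∈ Y} ⟨Y0, h0⟩
  refine ⟨Y, hY.1, hY.2.1, hY.2.2, fun e he => ?_⟩
  by_contra hn
  obtain ⟨Y', h1, h2⟩ := viol_GTight hM (erase_subset e M) hn
  have h3 : s f ∈ Y ∩ Y' := mem_inter.2 ⟨hY.2.1, h1.2.1⟩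
  have h4 := hmin (Y ∩ Y') ⟨(union_stmt ε N s t M Y Y' hM hY.1 h1.1 ⟨_, h3⟩).2.1, h3,
    mem_inter.2 ⟨hY.2.2, h1.2.2⟩⟩
  have h5 : Y ∩ Y' = Y := (inter_subset_left.eq_or_ssubset).resolve_right h4
  exact notMem_erase e M (h2 (mono_GTight Subset.rfl (inter_eq_left.1 h5) he))

theorem blk_stmt : BlkStmt := by
  intro ε N _ _ s t M blk Y hM hb hT hY
  have key : ∀ Y' : Finset N, Y' ⊆ Y → Tight s t M (Y ∪ Y'.biUnion blk) ∧
      ∀ e ∈ ins s t M (Y ∪ Y'.biUnion blk), e ∈ ins s t M Y ∨ blk (s e) = blk (t e) := by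
    intro Y'
    induction Y' using Finset.induction_on with
    | empty =>
      intro _
      rw [biUnion_empty, union_empty]
      exact ⟨hY, fun e he => Or.inl he⟩
    | insert y Y' _ ih =>
      intro h
      obtain ⟨h1, h2⟩ := ih ((subset_insert _ _).trans h)
      obtain ⟨h3, -, h4⟩ := union_stmt ε N s t M _ (blk y) hM h1 (hT y)
        ⟨y, mem_inter.2 ⟨mem_union_left _ (h (mem_insert_self _ _)), hb.1 y⟩⟩
      rw [biUnion_insert, union_comm (blk y), ← union_assoc]
      refine ⟨h3, fun e he => (h4 e he).elim (h2 e) fun a => Or.inr ?_⟩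
      obtain ⟨-, a1, a2⟩ := mem_GTight.1 a
      rw [hb.2 y _ a1, hb.2 y _ a2]
  have h := key Y Subset.rfl
  rwa [union_eq_right.2 fun y hy => mem_biUnion.2 ⟨y, hy, hb.1 y⟩] at h

end Pool.Agent.MP_3fd310_co.Gen
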