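import Mathlib
import Pool.Agent.MP_3fd310_co.GDefs

set_option autoImplicit false

namespace Pool.Agent.MP_3fd310_co.Gen

open Finset

theorem tough_stmt : ToughStmt := by
  intro V _ _ G r d hcov hcut hd L S R lab hlab hRS hinj hR
  classical
  choose c hc using hcov
  obtain ⟨ρ0, -⟩ : R.Nonempty := card_pos.1 (by omega)
  have hr : 0 < r := (c ρ0 ρ0).pos
  have key := card_mul_le_card_mul (s := R) (t := S) (m := d) (n := r)
    (fun ρ s => ∃ a, a ∉ S ∧ lab a = lab ρ ∧ G.Adj a s) (fun ρ hρ => ?_) fun s hs => ?_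
  · have h1 : r * (20 * R.card) ≤ r * S.card := by nlinarith
    exact Nat.le_of_mul_le_mul_left h1 hr
  · by_contra hn
    obtain ⟨ρ', hρ', hne⟩ := exists_mem_ne (by omega : 1 < R.card) ρ
    have n1 : ∀ x, x ∉ S → x ∉ S.bipartiteAbove
        (fun ρ s => ∃ a, a ∉ S ∧ lab a = lab ρ ∧ G.Adj a s) ρ :=
      fun x hx h => hx ((mem_bipartiteAbove _).1 h).1
    obtain ⟨a, ha, w, hw1, hw2, haw⟩ := hcut _ (univ.filter fun v => v ∉ S ∧ lab v = lab ρ)
      (not_le.1 hn) ⟨ρ, mem_filter.2 ⟨mem_univ _, disjoint_left.1 hRS hρ, rfl⟩⟩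
      (disjoint_left.2 fun x hx => n1 x (mem_filter.1 hx).2.1)
      ⟨ρ', fun h => hne (hinj hρ' hρ (mem_filter.1 h).2.2), n1 _ (disjoint_left.1 hRS hρ')⟩
    obtain ⟨a1, a2⟩ := (mem_filter.1 ha).2
    by_cases hw : w ∈ S
    · exact hw2 ((mem_bipartiteAbove _).2 ⟨hw, a, a1, a2, haw⟩)
    · exact hw1 (mem_filter.2 ⟨mem_univ _, hw, (hlab a w a1 hw haw).symm.trans a2⟩)
  · have hex : ∀ ρ, ∃ a, ρ ∈ R.bipartiteBelow
        (fun ρ s => ∃ a, a ∉ S ∧ lab a = lab ρ ∧ G.Adj a s) s →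
        a ∉ S ∧ lab a = lab ρ ∧ G.Adj a s := fun ρ => by
      by_cases h : ρ ∈ R.bipartiteBelow (fun ρ s => ∃ a, a ∉ S ∧ lab a = lab ρ ∧ G.Adj a s) s
      · obtain ⟨a, ha⟩ := ((mem_bipartiteBelow _).1 h).2
        exact ⟨a, fun _ => ha⟩
      · exact ⟨ρ, fun h' => absurd h' h⟩
    choose a ha using hex
    refine (card_le_card_of_injOn (t := univ) (fun ρ => c s (a ρ)) (fun _ _ => mem_univ _)
      fun x hx y hy e => ?_).trans (by simp)
    obtain ⟨x1, x2, x3⟩ := ha x hx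
    obtain ⟨y1, y2, y3⟩ := ha y hy
    refine hinj ((mem_bipartiteBelow _).1 hx).1 ((mem_bipartiteBelow _).1 hy).1 ?_
    rw [← x2, ← y2]
    by_cases h : a x = a y
    · rw [h]
    · exact hlab _ _ x1 y1 (hc s _ _ x3.symm y3.symm e h)

end Pool.Agent.MP_3fd310_co.Gen
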