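import Mathlib
import Pool.Agent.MP_3fd310_co.GDefs

/-! Nondegenerate transportation polytopes are simple polytopes in standard form. -/

set_option autoImplicit false

namespace Pool.Agent.MP_3fd310_co.Gen

open Finset

/-- Row sums and column sums. -/
def marg_GTrans (p q : ℕ) : (Fin p × Fin q → ℝ) →ₗ[ℝ] (Fin p → ℝ) × (Fin q → ℝ) where
  toFun x := (fun i => ∑ j, x (i, j), fun j => ∑ i, x (i, j))
  map_add' x y := by
    ext <;> simp [sum_add_distrib]
  map_smul' c x := by
    ext <;> simp [mul_sum]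

theorem marg_single_GTrans {p q : ℕ} (i : Fin p) (j : Fin q) :
    marg_GTrans p q (Pi.single (i, j) 1) = (Pi.single i 1, Pi.single j 1) := by
  ext k
  · by_cases h : k = i <;> simp [marg_GTrans, Pi.single_apply, h, filter_eq']
  · by_cases h : k = j <;> simp [marg_GTrans, Pi.single_apply, h, filter_eq']

/-- Functions vanishing where `x` vanishes. -/
def supp_GTrans {E : Type} (x : E → ℝ) : Submodule ℝ (E → ℝ) where
  carrier := {y | ∀ e, x e = 0 → y e = 0}
  add_mem' := fun {a b} ha hb e he => by simp [ha e he, hb e he]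
  zero_mem' := fun _ _ => rfl
  smul_mem' := fun c a ha e he => by simp [ha e he]

theorem release_GTrans {p q : ℕ} {u : Fin p → ℝ} {v : Fin q → ℝ} (hu : ∀ i, 0 < u i)
    (hv : ∀ j, 0 < v j) (huv : (∑ i, u i) = ∑ j, v j)
    (hnd : ∀ (I : Finset (Fin p)) (J : Finset (Fin q)), I.Nonempty → I ≠ univ → J.Nonempty →
      J ≠ univ → (∑ i ∈ I, u i) ≠ ∑ j ∈ J, v j)
    (x : Fin p × Fin q → ℝ) (hr : ∀ i, (∑ j, x (i, j)) = u i) (hc : ∀ j, (∑ i, x (i, j)) = v j)
    (i0 : Fin p) (j0 : Fin q) :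
    ∃ y : Fin p × Fin q → ℝ, (∀ e, x e = 0 → y e = 0) ∧
      marg_GTrans p q y = marg_GTrans p q (Pi.single (i0, j0) 1) := by
  classical
  let S := (supp_GTrans x).map (marg_GTrans p q)
  have hS : ∀ i j, x (i, j) ≠ 0 →
      ((Pi.single i 1, Pi.single j 1) : (Fin p → ℝ) × (Fin q → ℝ)) ∈ S := by
    intro i j h
    refine ⟨Pi.single (i, j) 1, fun e he => ?_, marg_single_GTrans i j⟩
    have : e ≠ (i, j) := fun h' => h (h' ▸ he)
    simp [this]
  let I : Finset (Fin p) := univ.filter fun i =>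
    ((Pi.single i 1 - Pi.single i0 1, 0) : (Fin p → ℝ) × (Fin q → ℝ)) ∈ S
  let J : Finset (Fin q) := univ.filter fun j =>
    ((Pi.single i0 1, Pi.single j 1) : (Fin p → ℝ) × (Fin q → ℝ)) ∈ S
  have hIJ : ∀ i j, x (i, j) ≠ 0 → (i ∈ I ↔ j ∈ J) := by
    intro i j h
    simp only [I, J, mem_filter, mem_univ, true_and]
    constructor
    · intro h1
      simpa using S.sub_mem (hS i j h) h1
    · intro h1
      simpa using S.sub_mem (hS i j h) h1
  have hsum : ∑ i ∈ I, u i = ∑ j ∈ J, v j := by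
    have h1 : ∑ i ∈ I, u i = ∑ i, ∑ j, if i ∈ I then x (i, j) else 0 := by
      rw [← Finset.sum_ite_mem_eq I u]
      refine sum_congr rfl fun i _ => ?_
      split_ifs
      · exact (hr i).symm
      · simp
    have h2 : ∑ j ∈ J, v j = ∑ j, ∑ i, if j ∈ J then x (i, j) else 0 := by
      rw [← Finset.sum_ite_mem_eq J v]
      refine sum_congr rfl fun j _ => ?_
      split_ifs
      · exact (hc j).symm
      · simp
    rw [h1, h2, sum_comm]
    refine sum_congr rfl fun j _ => sum_congr rfl fun i _ => ?_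
    by_cases h : x (i, j) = 0
    · simp [h]
    · simp only [hIJ i j h]
  have hi0 : i0 ∈ I := by
    simp only [I, mem_filter, mem_univ, true_and, sub_self]
    exact S.zero_mem
  have hj0 : j0 ∈ J := by
    by_contra hj0
    have hJ : J ≠ univ := fun h => hj0 (h ▸ mem_univ j0)
    have hpos : 0 < ∑ i ∈ I, u i := sum_pos (fun i _ => hu i) ⟨i0, hi0⟩
    have hne : J.Nonempty := by
      rw [nonempty_iff_ne_empty]
      intro h
      rw [hsum, h, sum_empty] at hpos
      exact lt_irrefl _ hpos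
    have hI : I ≠ univ := by
      intro h
      have := sum_lt_sum_of_subset (subset_univ J) (mem_univ j0) hj0 (hv j0)
        fun j _ _ => (hv j).le
      rw [← hsum, h, huv] at this
      exact lt_irrefl _ this
    exact hnd I J ⟨i0, hi0⟩ hI hne hJ hsum
  obtain ⟨y, hy, he⟩ := (mem_filter.1 hj0).2
  exact ⟨y, hy, he.trans (marg_single_GTrans i0 j0).symm⟩

theorem trans_stmt : TransStmt := by
  classical
  intro p q u v hp hu hv huv hnd
  have hT : 0 < ∑ i, u i := sum_pos (fun i _ => hu i) ⟨⟨0, hp⟩, mem_univ _⟩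
  let b : Fin p × Fin q → ℝ := fun e => u e.1 * v e.2 / ∑ i, u i
  have hb : marg_GTrans p q b = (u, v) := by
    ext k
    · change ∑ j, u k * v j / ∑ i, u i = u k
      rw [← sum_div, ← mul_sum, ← huv, mul_div_cancel_right₀ _ hT.ne']
    · change ∑ i, u i * v k / ∑ i, u i = v k
      rw [← sum_div, ← sum_mul, mul_div_cancel_left₀ _ hT.ne']
  have hmem : ∀ x : Fin p × Fin q → ℝ, x ∈ Poly (LinearMap.ker (marg_GTrans p q)) b ↔
      (∀ i j, 0 ≤ x (i, j)) ∧ (∀ i, (∑ j, x (i, j)) = u i) ∧ ∀ j, (∑ i, x (i, j)) = v j := by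
    intro x
    simp only [Poly, Set.mem_ofPred_eq, LinearMap.mem_ker, map_sub, sub_eq_zero, hb, Prod.forall]
    refine and_congr_right fun _ => ⟨fun h => ?_, fun h => ?_⟩
    · exact ⟨fun i => congrFun (congrArg Prod.fst h) i, fun j => congrFun (congrArg Prod.snd h) j⟩
    · exact Prod.ext (funext h.1) (funext h.2)
  refine ⟨LinearMap.ker (marg_GTrans p q), b, ?_, ?_, ?_, hmem⟩
  · rintro x ⟨hx, -⟩ ⟨i0, j0⟩ h0
    obtain ⟨-, hr, hc⟩ := (hmem x).1 hx
    obtain ⟨y, hy, he⟩ := release_GTrans hu hv huv hnd x hr hc i0 j0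
    refine ⟨Pi.single (i0, j0) 1 - y, ?_, ?_, fun e he hne => ?_⟩
    · rw [LinearMap.mem_ker, map_sub, he, sub_self]
    · simp [hy _ h0]
    · simp [hy _ he, hne]
  · intro w hw h0
    funext ⟨i, j⟩
    have h1 : ∑ j, w (i, j) = 0 := congrFun (congrArg Prod.fst (LinearMap.mem_ker.1 hw)) i
    exact (sum_eq_zero_iff_of_nonneg fun j _ => h0 (i, j)).1 h1 j (mem_univ j)
  · have h1 := LinearMap.finrank_range_add_finrank_ker (marg_GTrans p q)
    have h2 := Submodule.finrank_le (LinearMap.range (marg_GTrans p q))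
    simp only [Module.finrank_prod, Module.finrank_fintype_fun_eq_card, Fintype.card_prod,
      Fintype.card_fin] at h1 h2
    omega

end Pool.Agent.MP_3fd310_co.Gen
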