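import Pool.Agent.MP_3fd310_co.Main

set_option autoImplicit false
set_option linter.unusedSectionVars false

namespace Pool.Agent.MP_3fd310_co

variable {ι : Type*} [DecidableEq ι] [Fintype ι]

def Box (δ : ι → ℝ) (s : ℝ) : Set (ι → ℝ) := {y | (∀ j, 0 ≤ y j ∧ y j ≤ δ j) ∧ ∑ j, y j = s}

noncomputable def emb (δ : ι → ℝ) (s : ℝ) (v : Vx ι) : ι → ℝ :=
  fun j => if j ∈ v.1 then δ j else if v.2 = some j then s - W δ v.1 else 0

def Fc (δ : ι → ℝ) (s : ℝ) (X Z : Finset ι) : Set (ι → ℝ) :=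
  {y | y ∈ Box δ s ∧ (∀ j ∈ X, y j = δ j) ∧ ∀ j, j ∉ X → j ∉ Z → y j = 0}

variable {δ : ι → ℝ} {s : ℝ} {R : List ι}

theorem sum_face {X Z : Finset ι} {y : ι → ℝ} (d : ∀ j ∈ Z, j ∉ X) (h1 : ∀ j ∈ X, y j = δ j)
    (h2 : ∀ j, j ∉ X → j ∉ Z → y j = 0) : ∑ j, y j = W δ X + ∑ j ∈ Z, y j := by
  rw [← Finset.sum_subset (Finset.subset_univ (X ∪ Z)) (fun j _ hj => by
    simp only [Finset.mem_union, not_or] at hj; exact h2 j hj.1 hj.2),
    Finset.sum_union (Finset.disjoint_right.2 d), W, Finset.sum_congr rfl h1]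

theorem fc_extreme (X Z : Finset ι) : IsExtreme ℝ (Box δ s) (Fc δ s X Z) := by
  refine ⟨fun _ h => h.1, ?_⟩
  rintro x hx y hy z ⟨_, h1, h2⟩ ⟨a, b, ha, hb, hab, rfl⟩
  refine ⟨hx, fun j hj => ?_, fun j hj hj' => ?_⟩
  · have := h1 j hj
    simp only [Pi.add_apply, Pi.smul_apply, smul_eq_mul] at this
    have := hx.1 j
    have := hy.1 j
    have e : δ j = a * δ j + b * δ j := by rw [← add_mul, hab, one_mul]
    nlinarith
  · have := h2 j hj hj'
    simp only [Pi.add_apply, Pi.smul_apply, smul_eq_mul] at this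
    have := hx.1 j
    have := hy.1 j
    nlinarith

theorem fc_convex (X Z : Finset ι) : Convex ℝ (Fc δ s X Z) := by
  rintro x ⟨⟨x1, x2⟩, x3, x4⟩ y ⟨⟨y1, y2⟩, y3, y4⟩ a b ha hb hab
  refine ⟨⟨fun j => ?_, ?_⟩, fun j hj => ?_, fun j hj hj' => ?_⟩
  · have := x1 j
    have := y1 j
    have e : δ j = a * δ j + b * δ j := by rw [← add_mul, hab, one_mul]
    simp only [Pi.add_apply, Pi.smul_apply, smul_eq_mul]
    constructor <;> nlinarith
  · simp only [Pi.add_apply, Pi.smul_apply, smul_eq_mul, Finset.sum_add_distrib, ← Finset.mul_sum,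
      x2, y2]
    rw [← add_mul, hab, one_mul]
  · simp only [Pi.add_apply, Pi.smul_apply, smul_eq_mul, x3 j hj, y3 j hj]
    rw [← add_mul, hab, one_mul]
  · simp [x4 j hj hj', y4 j hj hj']

theorem emb_extreme (hδ : ∀ i, 0 < δ i) {v : Vx ι} (hv : IsV δ s s ∅ R v) :
    emb δ s v ∈ (Box δ s).extremePoints ℝ := by
  obtain ⟨X, o⟩ := v
  rw [← isExtreme_singleton]
  rcases hv.2 with ⟨rfl, h1, h2⟩ | ⟨k, rfl, _, h1, h2, h3⟩
  · simp only at h1 h2
    convert fc_extreme (δ := δ) (s := s) X ∅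
    ext y
    constructor
    · rintro rfl
      have a1 : ∀ j ∈ X, emb δ s (X, none) j = δ j := fun j hj => by simp [emb, hj]
      have a2 : ∀ j, j ∉ X → j ∉ (∅ : Finset ι) → emb δ s (X, none) j = 0 :=
        fun j hj _ => by simp [emb, hj]
      refine ⟨⟨fun j => ?_, ?_⟩, a1, a2⟩
      · by_cases hj : j ∈ X <;> simp [emb, hj, (hδ j).le]
      · rw [sum_face (by simp) a1 a2]; simp; linarith
    · rintro ⟨_, a1, a2⟩
      funext j
      by_cases hj : j ∈ X
      · simp [emb, hj, a1 j hj]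
      · simp [emb, hj, a2 j hj]
  · simp only at h1 h2 h3
    convert fc_extreme (δ := δ) (s := s) X {k}
    ext y
    constructor
    · rintro rfl
      have a1 : ∀ j ∈ X, emb δ s (X, some k) j = δ j := fun j hj => by simp [emb, hj]
      have a2 : ∀ j, j ∉ X → j ∉ ({k} : Finset ι) → emb δ s (X, some k) j = 0 :=
        fun j hj hj' => by
          have : k ≠ j := by rintro rfl; simp at hj'
          simp [emb, hj, this]
      refine ⟨⟨fun j => ?_, ?_⟩, a1, a2⟩
      · by_cases hj : j ∈ X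
        · simp [emb, hj, (hδ j).le]
        by_cases hk : k = j
        · subst hk; simp only [emb, hj, if_false, if_true]; constructor <;> linarith
        · simp [emb, hj, hk, (hδ j).le]
      · rw [sum_face (by simpa using h1) a1 a2]; simp [emb, h1]
    · rintro ⟨⟨_, a0⟩, a1, a2⟩
      rw [sum_face (by simpa using h1) a1 a2, Finset.sum_singleton] at a0
      funext j
      by_cases hj : j ∈ X
      · simp [emb, hj, a1 j hj]
      by_cases hk : k = j
      · subst hk; simp only [emb, hj, if_false, if_true]; linarith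
      · simp [emb, hj, hk, a2 j hj (by simpa using Ne.symm hk)]

theorem emb_inj (hδ : ∀ i, 0 < δ i) {u v : Vx ι} (hu : IsV δ s s ∅ R u) (hv : IsV δ s s ∅ R v)
    (e : emb δ s u = emb δ s v) : u = v := by
  have k1 : ∀ v, IsV δ s s ∅ R v → ∀ j, (j ∈ v.1 ↔ emb δ s v j = δ j) ∧
      (v.2 = some j ↔ 0 < emb δ s v j ∧ emb δ s v j < δ j) := by
    rintro ⟨X, o⟩ hv j
    have := hδ j
    rcases hv.2 with ⟨rfl, h1, h2⟩ | ⟨k, rfl, _, h1, h2, h3⟩
    · by_cases hj : j ∈ X <;> simp [emb, hj, this.ne]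
    · simp only at h1 h2 h3
      by_cases hj : j ∈ X
      · have : k ≠ j := by rintro rfl; exact h1 hj
        simp [emb, hj, this]
      by_cases hk : k = j
      · subst hk
        simp only [emb, hj, if_false, if_true, false_iff, true_iff]
        refine ⟨by linarith, by linarith, by linarith⟩
      · simp [emb, hj, hk, this.ne]
  refine Prod.ext ?_ ?_
  · ext j; rw [(k1 u hu j).1, (k1 v hv j).1, e]
  · ext j; rw [(k1 u hu j).2, (k1 v hv j).2, e]

theorem extreme_emb (hR : ∀ i, i ∈ R) {y : ι → ℝ} (hy : y ∈ (Box δ s).extremePoints ℝ) :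
    ∃ v, IsV δ s s ∅ R v ∧ emb δ s v = y := by
  classical
  obtain ⟨⟨h1, h2⟩, h3⟩ := hy
  let X := Finset.univ.filter (fun j => y j = δ j)
  have hX : ∀ j, j ∈ X ↔ y j = δ j := by simp [X]
  have inc : InC ∅ R X := ⟨by simp, fun i _ => Or.inr (hR i)⟩
  by_cases hF : ∃ k, y k ≠ δ k ∧ y k ≠ 0
  · obtain ⟨k, k1, k2⟩ := hF
    have a2 : ∀ j, j ∉ X → j ∉ ({k} : Finset ι) → y j = 0 := by
      intro l l1 l2
      by_contra l3
      have kl : l ≠ k := by simpa using l2
      rw [hX] at l1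
      have b1 := lt_of_le_of_ne (h1 k).1 (Ne.symm k2)
      have b2 := lt_of_le_of_ne (h1 k).2 k1
      have b3 := lt_of_le_of_ne (h1 l).1 (Ne.symm l3)
      have b4 := lt_of_le_of_ne (h1 l).2 l1
      obtain ⟨ε, e0, e1, e2, e3, e4⟩ : ∃ ε : ℝ, 0 < ε ∧ ε ≤ y k ∧ ε ≤ δ k - y k ∧ ε ≤ y l ∧
          ε ≤ δ l - y l :=
        ⟨min (min (y k) (δ k - y k)) (min (y l) (δ l - y l)),
          lt_min (lt_min b1 (by linarith)) (lt_min b3 (by linarith)),
          (min_le_left _ _).trans (min_le_left _ _), (min_le_left _ _).trans (min_le_right _ _),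
          (min_le_right _ _).trans (min_le_left _ _), (min_le_right _ _).trans (min_le_right _ _)⟩
      have mem : ∀ t : ℝ, |t| ≤ ε →
          y + Pi.single k t - Pi.single l t ∈ Box δ s := by
        intro t ht
        have := abs_le.1 ht
        refine ⟨fun j => ?_, ?_⟩
        · by_cases c1 : j = k
          · subst c1; simp [kl.symm]; constructor <;> linarith
          by_cases c2 : j = l
          · subst c2; simp [kl]; constructor <;> linarith
          simpa [c1, c2] using h1 j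
        · simp [Finset.sum_add_distrib, Finset.sum_sub_distrib, h2]
      have := h3 (mem ε (by rw [abs_of_pos e0])) (mem (-ε) (by rw [abs_neg, abs_of_pos e0]))
        ⟨1 / 2, 1 / 2, by norm_num, by norm_num, by norm_num, by
          funext j
          simp only [Pi.add_apply, Pi.smul_apply, Pi.sub_apply, smul_eq_mul, Pi.single_neg,
            Pi.neg_apply]
          ring⟩
      have := congrFun this k
      simp [kl.symm] at this
      linarith
    have kX : k ∉ X := by rw [hX]; exact k1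
    have a0 := h2
    rw [sum_face (by simpa using kX) (fun j hj => (hX j).1 hj) a2, Finset.sum_singleton] at a0
    have b1 := lt_of_le_of_ne (h1 k).1 (Ne.symm k2)
    have b2 := lt_of_le_of_ne (h1 k).2 k1
    refine ⟨(X, some k), ⟨inc, Or.inr ⟨k, rfl, hR k, kX, by simp only; linarith,
      by simp only; linarith⟩⟩, ?_⟩
    funext j
    by_cases hj : j ∈ X
    · simp [emb, hj, (hX j).1 hj]
    by_cases hk : k = j
    · subst hk; simp only [emb, hj, if_false, if_true]; linarith
    · simp [emb, hj, hk, a2 j hj (by simpa using Ne.symm hk)]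
  · push Not at hF
    have a2 : ∀ j, j ∉ X → j ∉ (∅ : Finset ι) → y j = 0 := fun j hj _ => hF j (by rwa [hX] at hj)
    have a0 := h2
    rw [sum_face (by simp) (fun j hj => (hX j).1 hj) a2, Finset.sum_empty] at a0
    refine ⟨(X, none), ⟨inc, Or.inl ⟨rfl, by simp only; linarith, by simp only; linarith⟩⟩, ?_⟩
    funext j
    by_cases hj : j ∈ X
    · simp [emb, hj, (hX j).1 hj]
    · simp [emb, hj, a2 j hj]

theorem emb_pt {X : Finset ι} {k l : ι} (h1 : k ≠ l) (h2 : k ∉ X) (h3 : l ∉ X) (j : ι) :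
    emb δ s (pt δ s s X k l) j = if j ∈ X then δ j else if j = k then min (δ k) (s - W δ X)
      else if j = l then s - W δ X - min (δ k) (s - W δ X) else 0 := by
  rcases pt_cases (δ := δ) (lo := s) (hi := s) X k l with ⟨a, e⟩ | ⟨a, b, e⟩ | ⟨a, b, e⟩ <;>
    rw [e]
  · rw [min_eq_right (by linarith)]
    by_cases c1 : j ∈ X
    · simp [emb, c1]
    by_cases c2 : j = k
    · simp [emb, c2, h2]
    · simp [emb, c1, c2, Ne.symm c2]
  · rw [min_eq_left (by linarith)]
    by_cases c1 : j ∈ X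
    · simp [emb, c1]
    by_cases c2 : j = k
    · simp [emb, c2, h2]
    by_cases c3 : j = l
    · simp [emb, c3, h3, h1.symm, W_insert h2]; ring
    · simp [emb, c1, c2, c3, Ne.symm c3]
  · rw [min_eq_left (by linarith)]
    by_cases c1 : j ∈ X
    · simp [emb, c1]
    by_cases c2 : j = k
    · simp [emb, c2, h2]
    by_cases c3 : j = l
    · simp [emb, c3, h3, h1.symm]; linarith
    · simp [emb, c1, c2, c3]

theorem adj_extreme (hδ : ∀ i, 0 < δ i) {u v : Vx ι} (h : Adj δ s s u v) :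
    IsExtreme ℝ (Box δ s) (segment ℝ (emb δ s u) (emb δ s v)) := by
  obtain ⟨X, k, l, h1, h2, h3, h4, h5, rfl, rfl⟩ := h
  have dZ : ∀ j ∈ ({k, l} : Finset ι), j ∉ X := by simp [h2, h3]
  have mem : ∀ k l : ι, k ≠ l → k ∉ X → l ∉ X → s < W δ X + δ k + δ l →
      emb δ s (pt δ s s X k l) ∈ Fc δ s X {k, l} := by
    intro k l h1 h2 h3 h5
    have a1 : ∀ j ∈ X, emb δ s (pt δ s s X k l) j = δ j := fun j hj => by
      simp [emb_pt h1 h2 h3, hj]
    have a2 : ∀ j, j ∉ X → j ∉ ({k, l} : Finset ι) → emb δ s (pt δ s s X k l) j = 0 :=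
      fun j hj hj' => by
        simp only [Finset.mem_insert, Finset.mem_singleton, not_or] at hj'
        simp [emb_pt h1 h2 h3, hj, hj'.1, hj'.2]
    refine ⟨⟨fun j => ?_, ?_⟩, a1, a2⟩
    · rw [emb_pt h1 h2 h3]
      have := hδ j
      have := hδ k
      have m1 := min_le_left (δ k) (s - W δ X)
      have m2 := min_le_right (δ k) (s - W δ X)
      split_ifs with c1 c2 c3
      · exact ⟨by linarith, le_rfl⟩
      · subst c2; exact ⟨le_min (by linarith) (by linarith), m1⟩
      · subst c3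
        refine ⟨by linarith, ?_⟩
        rcases min_cases (δ k) (s - W δ X) with ⟨e, _⟩ | ⟨e, _⟩ <;> rw [e] <;> linarith
      · exact ⟨le_rfl, by linarith⟩
    · rw [sum_face (by simp [h2, h3]) a1 a2, Finset.sum_pair h1, emb_pt h1 h2 h3, emb_pt h1 h2 h3]
      simp [h2, h3, h1.symm]
  have m1 := mem k l h1 h2 h3 h5
  have m2 := mem l k h1.symm h3 h2 (by linarith)
  rw [Finset.pair_comm] at m2
  convert fc_extreme (δ := δ) (s := s) X {k, l}
  refine Set.Subset.antisymm ((fc_convex X {k, l}).segment_subset m1 m2) ?_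
  rintro y ⟨⟨y1, y2⟩, y3, y4⟩
  rw [sum_face dZ y3 y4, Finset.sum_pair h1] at y2
  have pk := hδ k
  have pl := hδ l
  have yk := y1 k
  have yl := y1 l
  obtain ⟨a, ha⟩ : ∃ a, a = min (δ k) (s - W δ X) := ⟨_, rfl⟩
  obtain ⟨b, hb⟩ : ∃ b, b = min (δ l) (s - W δ X) := ⟨_, rfl⟩
  have a1 : y k ≤ a := ha ▸ le_min yk.2 (by linarith)
  have b1 : y l ≤ b := hb ▸ le_min yl.2 (by linarith)
  have ab : 0 < a + b - (s - W δ X) := by
    rcases min_cases (δ k) (s - W δ X) with ⟨e, _⟩ | ⟨e, _⟩ <;>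
    rcases min_cases (δ l) (s - W δ X) with ⟨e', _⟩ | ⟨e', _⟩ <;> rw [ha, hb, e, e'] <;> linarith
  refine ⟨(b - y l) / (a + b - (s - W δ X)), (a - y k) / (a + b - (s - W δ X)),
    div_nonneg (by linarith) ab.le, div_nonneg (by linarith) ab.le, ?_, ?_⟩
  · rw [← add_div, div_eq_one_iff_eq ab.ne']; linarith
  · funext j
    simp only [Pi.add_apply, Pi.smul_apply, smul_eq_mul, emb_pt h1 h2 h3, emb_pt h1.symm h3 h2,
      ← ha, ← hb]
    have e : s - W δ X = y k + y l := by linarith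
    rw [e] at ab ⊢
    by_cases c1 : j ∈ X
    · simp only [c1, if_true, y3 j c1]
      field_simp
      ring
    by_cases c2 : j = k
    · subst c2
      simp only [c1, if_false, if_true, h1]
      field_simp
      ring
    by_cases c3 : j = l
    · subst c3
      simp only [c1, if_false, if_true, c2]
      field_simp
      ring
    · simp [c1, c2, c3, y4 j c1 (by simp [c2, c3])]

theorem box_ham (hδ : ∀ i, 0 < δ i) (h2 : 2 ≤ Fintype.card ι) (s0 : 0 < s) (s1 : s < ∑ j, δ j) :
    ∃ (n : ℕ) (f : Fin n → (ι → ℝ)), Function.Injective f ∧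
      Set.range f = (Box δ s).extremePoints ℝ ∧
      ∀ i, IsExtreme ℝ (Box δ s) (segment ℝ (f i) (f (finRotate n i))) := by
  classical
  obtain ⟨R, hp, so⟩ : ∃ R : List ι, R.Perm Finset.univ.toList ∧
      R.Pairwise (fun a b => δ a ≤ δ b) :=
    ⟨Finset.univ.toList.mergeSort (fun a b => decide (δ a ≤ δ b)), List.mergeSort_perm _ _, by
      simpa using List.pairwise_mergeSort (le := fun a b => decide (δ a ≤ δ b))
        (fun a b c => by simpa using le_trans) (fun a b => by simpa using le_total _ _) _⟩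
  have hR : ∀ i, i ∈ R := fun i => hp.mem_iff.2 (by simp)
  have nd : R.Nodup := hp.nodup_iff.2 (Finset.nodup_toList _)
  have hl : 2 ≤ R.length := by rw [hp.length_eq]; simpa using h2
  match R, hR, nd, hl, so with
  | c :: d :: R, hR, nd, _, so =>
    have eT : tp ∅ (c :: d :: R) = Finset.univ := by ext i; simpa using hR i
    obtain ⟨L, ⟨x, z, hL, ad⟩, _⟩ := ht (B := ∅) (hi := s) hδ le_rfl ⟨nd, by simp⟩ so
      (fun X _ k _ _ h => by linarith [hδ k]) (by simpa [W] using s0) (by rw [eT]; exact s1)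
    obtain ⟨m, hm⟩ : ∃ m, L.length = m + 1 := ⟨L.length - 1, by have := hL.pos; omega⟩
    have vL : ∀ i (h : i < L.length), IsV δ s s ∅ (c :: d :: R) L[i] :=
      fun i h => (hL.cov _).1 (List.getElem_mem h)
    refine ⟨m + 1, fun i => emb δ s (L[i.1]'(by omega)), ?_, ?_, ?_⟩
    · intro i j hij
      have := emb_inj hδ (vL _ _) (vL _ _) hij
      exact Fin.ext ((List.Nodup.getElem_inj_iff hL.nd).1 this)
    · ext y
      constructor
      · rintro ⟨i, rfl⟩
        exact emb_extreme hδ (vL _ _)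
      · intro hy
        obtain ⟨v, hv, rfl⟩ := extreme_emb hR hy
        obtain ⟨i, hi, rfl⟩ := List.getElem_of_mem ((hL.cov v).2 hv)
        exact ⟨⟨i, by omega⟩, rfl⟩
    · intro i
      apply adj_extreme hδ
      by_cases e : i = Fin.last m
      · subst e
        have e1 : L[(Fin.last m).1]'(by simp [hm]) = z := by
          have := hL.lt
          rw [List.getLast?_eq_getElem?, hm, List.getElem?_eq_some_iff] at this
          obtain ⟨_, h⟩ := this
          simpa using h
        have e2 : L[(finRotate (m + 1) (Fin.last m)).1]'(by simp [hm]) = x := by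
          have := hL.hd
          rw [List.head?_eq_getElem?, List.getElem?_eq_some_iff] at this
          obtain ⟨_, h⟩ := this
          simpa using h
        rw [e1, e2]; exact ad
      · have e1 := coe_finRotate_of_ne_last e
        have := List.isChain_iff_getElem.1 hL.ch i.1 (by
          have := (finRotate (m + 1) i).2
          omega)
        simpa only [e1] using this

theorem transfer {E : Type*} [AddCommGroup E] [Module ℝ E] {P : Set E} (hP : Convex ℝ P)
    (ρ : E →ₗ[ℝ] (ι → ℝ)) {Q : Set (ι → ℝ)} (inj : Set.InjOn ρ P) (im : ρ '' P = Q)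
    (h : ∃ (n : ℕ) (f : Fin n → (ι → ℝ)), Function.Injective f ∧
      Set.range f = Q.extremePoints ℝ ∧
      ∀ i, IsExtreme ℝ Q (segment ℝ (f i) (f (finRotate n i)))) :
    ∃ (n : ℕ) (f : Fin n → E), Function.Injective f ∧
      Set.range f = P.extremePoints ℝ ∧
      ∀ i, IsExtreme ℝ P (segment ℝ (f i) (f (finRotate n i))) := by
  obtain ⟨n, f, h1, h2, h3⟩ := h
  have hf : ∀ i, ∃ x ∈ P, ρ x = f i := by
    intro i
    have : f i ∈ Q := extremePoints_subset (h2 ▸ Set.mem_range_self i)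
    rw [← im] at this
    exact this
  choose g g1 g2 using hf
  have mQ : ∀ x ∈ P, ρ x ∈ Q := fun x hx => im ▸ Set.mem_image_of_mem _ hx
  have os : ∀ x y z : E, z ∈ openSegment ℝ x y → ρ z ∈ openSegment ℝ (ρ x) (ρ y) := by
    rintro x y z ⟨a, b, ha, hb, hab, rfl⟩
    exact ⟨a, b, ha, hb, hab, by simp⟩
  refine ⟨n, g, fun i j hij => h1 (by rw [← g2, ← g2, hij]), ?_, ?_⟩
  · ext x
    constructor
    · rintro ⟨i, rfl⟩
      have : f i ∈ Q.extremePoints ℝ := h2 ▸ Set.mem_range_self i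
      refine ⟨g1 i, fun x1 a1 x2 a2 a3 => inj a1 (g1 i) ?_⟩
      rw [g2]
      exact this.2 (mQ _ a1) (mQ _ a2) (g2 i ▸ os _ _ _ a3)
    · intro hx
      have : ρ x ∈ Q.extremePoints ℝ := by
        refine ⟨mQ _ hx.1, ?_⟩
        rw [← im]
        rintro _ ⟨x1, a1, rfl⟩ _ ⟨x2, a2, rfl⟩ ⟨a, b, ha, hb, hab, e⟩
        have : a • x1 + b • x2 = x := inj (hP a1 a2 ha.le hb.le hab) hx.1 (by simpa using e)
        rw [hx.2 a1 a2 ⟨a, b, ha, hb, hab, this⟩]
      rw [← h2] at this
      obtain ⟨i, hi⟩ := this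
      exact ⟨i, inj (g1 i) hx.1 (by rw [g2, hi])⟩
  · intro i
    refine ⟨hP.segment_subset (g1 _) (g1 _), ?_⟩
    rintro x hx y hy z ⟨a, b, ha, hb, hab, rfl⟩ hz
    obtain ⟨a', b', ha', hb', hab', e⟩ := (h3 i).2 (mQ _ hx) (mQ _ hy)
      ⟨a, b, ha, hb, hab, by simp [← g2]⟩ (os _ _ _ hz)
    exact ⟨a', b', ha', hb', hab', inj (hP (g1 _) (g1 _) ha' hb' hab') hx (by simpa [g2] using e)⟩

end Pool.Agent.MP_3fd310_co
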