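import Pool.Agent.MP_3fd310_co.Zig

set_option autoImplicit false
set_option linter.unusedSectionVars false

namespace Pool.Agent.MP_3fd310_co

variable {ι : Type*} [DecidableEq ι] [Finite ι]
variable {δ : ι → ℝ} {lo hi : ℝ} {c : ι} {R : List ι} {B : Finset ι}

theorem three_le {a b d : ι} (ha : a ∈ R) (hb : b ∈ R) (hd : d ∈ R) (h1 : a ≠ b) (h2 : a ≠ d)
    (h3 : b ≠ d) : 3 ≤ R.length := by
  have : ({a, b, d} : Finset ι) ⊆ R.toFinset := by
    intro i; simp only [Finset.mem_insert, Finset.mem_singleton, List.mem_toFinset]; grind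
  have h4 := Finset.card_le_card this
  rw [Finset.card_eq_three.2 ⟨a, b, d, h1, h2, h3, rfl⟩] at h4
  exact h4.trans (List.toFinset_card_le R)

theorem four_le {a b d e : ι} (ha : a ∈ R) (hb : b ∈ R) (hd : d ∈ R) (he : e ∈ R) (h1 : a ≠ b)
    (h2 : a ≠ d) (h3 : b ≠ d) (h4 : a ≠ e) (h5 : b ≠ e) (h6 : d ≠ e) : 4 ≤ R.length := by
  have : ({e, a, b, d} : Finset ι) ⊆ R.toFinset := by
    intro i; simp only [Finset.mem_insert, Finset.mem_singleton, List.mem_toFinset]; grind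
  have h7 := Finset.card_le_card this
  rw [Finset.card_insert_of_notMem (by simp [h4.symm, h5.symm, h6.symm]),
    Finset.card_eq_three.2 ⟨a, b, d, h1, h2, h3, rfl⟩] at h7
  exact h7.trans (List.toFinset_card_le R)

theorem adj_irrefl {u : Vx ι} (h : Adj δ lo hi u u) : False := by
  obtain ⟨X, k, l, h1, h2, h3, h4, h5, h6, h7⟩ := h
  have e := h6.symm.trans h7
  have n1 : X ≠ insert l X := fun h => h3 (h ▸ Finset.mem_insert_self l X)
  have n2 : insert k X ≠ X := fun h => h2 (h ▸ Finset.mem_insert_self k X)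
  have n3 : insert k X ≠ insert l X := by
    intro h
    have : k ∈ insert l X := h ▸ Finset.mem_insert_self k X
    simp [h1, h2] at this
  rcases pt_cases (δ := δ) (lo := lo) (hi := hi) X k l with ⟨_, a⟩ | ⟨_, _, a⟩ | ⟨_, _, a⟩ <;>
  rcases pt_cases (δ := δ) (lo := lo) (hi := hi) X l k with ⟨_, b⟩ | ⟨_, _, b⟩ | ⟨_, _, b⟩ <;>
  rw [a, b] at e <;> simp [h1, n1, n2, n3] at e

theorem face_of_isV {X : Finset ι} {k l : ι} (h1 : k ≠ l) (h2 : k ∉ X) (h3 : l ∉ X)
    (h4 : W δ X < lo) (h5 : hi < W δ X + δ k + δ l) (hu : IsV δ lo hi B R (pt δ lo hi X k l))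
    (hv : IsV δ lo hi B R (pt δ lo hi X l k)) : Face δ lo hi R B X k l := by
  have hu1 : ((pt δ lo hi X k l).1 = X ∧ k ∈ R) ∨ (pt δ lo hi X k l).1 = insert k X := by
    rcases pt_cases (δ := δ) (lo := lo) (hi := hi) X k l with ⟨a, e⟩ | ⟨a, b, e⟩ | ⟨a, b, e⟩
    · left
      rw [e] at hu ⊢
      refine ⟨rfl, ?_⟩
      rcases hu.2 with ⟨h, _⟩ | ⟨k', h, h', _⟩
      · simp at h
      · simp only [Option.some.injEq] at h; exact h ▸ h'
    · right; rw [e]
    · right; rw [e]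
  have hv1 : ((pt δ lo hi X l k).1 = X ∧ l ∈ R) ∨ (pt δ lo hi X l k).1 = insert l X := by
    rcases pt_cases (δ := δ) (lo := lo) (hi := hi) X l k with ⟨a, e⟩ | ⟨a, b, e⟩ | ⟨a, b, e⟩
    · left
      rw [e] at hv ⊢
      refine ⟨rfl, ?_⟩
      rcases hv.2 with ⟨h, _⟩ | ⟨k', h, h', _⟩
      · simp at h
      · simp only [Option.some.injEq] at h; exact h ▸ h'
    · right; rw [e]
    · right; rw [e]
  have cu := hu.1
  have cv := hv.1
  clear hu hv
  have : k ∈ R ∧ l ∈ R ∧ InC B R X := by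
    unfold InC at *
    rcases hu1 with ⟨a', a⟩ | a <;> rcases hv1 with ⟨b', b⟩ | b
    · rw [a'] at cu; exact ⟨a, b, cu⟩
    · rw [a'] at cu; rw [b] at cv; grind
    · rw [a] at cu; rw [b'] at cv; grind
    · rw [a] at cu; rw [b] at cv; grind
  exact ⟨h1, h2, h3, this.1, this.2.1, this.2.2, h4, h5⟩

theorem up_face (hδ : ∀ i, 0 < δ i) (hlh : lo ≤ hi) {S : Finset ι} (hT : Thin δ lo hi B R)
    {f g : Vx ι} (hf : IsV δ lo hi B R f) (hg : IsV δ lo hi B R g) (hS : W δ S < lo)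
    (uf : Up δ lo hi S f) (ug : Up δ lo hi S g) (ne : f ≠ g) :
    ∃ j l, Face δ lo hi R B S j l ∧ f = pt δ lo hi S j l ∧ g = pt δ lo hi S l j ∧
      lo ≤ W δ S + δ j := by
  obtain ⟨j, hj, uf⟩ := uf
  obtain ⟨l, hl, ug⟩ := ug
  have hjl : j ≠ l := by
    rintro rfl
    exact ne ((up_pt uf j).trans (up_pt ug j).symm)
  refine ⟨j, l, face_of_isV hjl hj hl hS ?_ (up_pt uf l ▸ hf) (up_pt ug j ▸ hg), up_pt uf l,
    up_pt ug j, ?_⟩
  · have := hδ j
    have := hδ l
    rcases uf with ⟨h, rfl⟩ | ⟨h, h', rfl⟩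
    · linarith
    rcases ug with ⟨h2, rfl⟩ | ⟨h2, h2', rfl⟩
    · linarith
    have c1 := hf.1
    have c2 := hg.1
    have hlR : l ∈ R := by
      unfold InC at c1 c2
      grind
    have := hT _ c1 l hlR (by simp [hl, hjl.symm]) (by rw [W_insert hj]; exact h)
    rwa [W_insert hj] at this
  · rcases uf with ⟨h, _⟩ | ⟨h, _⟩ <;> linarith

theorem dn_face (hδ : ∀ i, 0 < δ i) (hlh : lo ≤ hi) {T : Finset ι} (hT : Thin δ lo hi B R)
    {f g : Vx ι} (hf : IsV δ lo hi B R f) (hg : IsV δ lo hi B R g) (hS : hi < W δ T)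
    (uf : Dn δ lo hi T f) (ug : Dn δ lo hi T g) (ne : f ≠ g) :
    ∃ j l, j ∈ T ∧ l ∈ T ∧ Face δ lo hi R B ((T.erase j).erase l) l j ∧
      f = pt δ lo hi ((T.erase j).erase l) l j ∧ g = pt δ lo hi ((T.erase j).erase l) j l ∧
      f.1 = T.erase j := by
  obtain ⟨j, hj, uf⟩ := uf
  obtain ⟨l, hl, ug⟩ := ug
  have hjl : j ≠ l := by
    rintro rfl
    apply ne
    rcases uf with ⟨h, rfl⟩ | ⟨h, h', rfl⟩ <;> rcases ug with ⟨h2, rfl⟩ | ⟨h2, h2', rfl⟩ <;>
      first | rfl | linarith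
  have e1 : l ∈ T.erase j := by simp [hl, hjl.symm]
  have e2 : W δ ((T.erase j).erase l) = W δ T - δ j - δ l := by
    rw [W_erase e1, W_erase hj]
  have e3 := dn_pt hlh hj hl hjl uf
  have e4 : g = pt δ lo hi ((T.erase j).erase l) j l := by
    rw [Finset.erase_right_comm]
    exact dn_pt hlh hl hj hjl.symm ug
  refine ⟨j, l, hj, hl, face_of_isV hjl.symm (by simp) (by simp) ?_ (by linarith) (e3 ▸ hf)
    (e4 ▸ hg), e3, e4, ?_⟩
  · have := hδ j
    have := hδ l
    rcases uf with ⟨h, rfl⟩ | ⟨h, h', rfl⟩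
    · linarith
    rcases ug with ⟨h2, rfl⟩ | ⟨h2, h2', rfl⟩
    · linarith
    have c1 := hf.1
    have c2 := hg.1
    have hlR : l ∈ R := by
      unfold InC at c1 c2
      grind
    have c3 : InC B R ((T.erase j).erase l) := by
      unfold InC at c1 c2 ⊢
      grind
    by_contra hn
    have := hT _ c3 l hlR (by simp) (not_lt.1 hn)
    linarith
  · rcases uf with ⟨_, rfl⟩ | ⟨_, _, rfl⟩ <;> rfl

theorem pt_none {X : Finset ι} {k l : ι} (h : (pt δ lo hi X k l).2 = none) :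
    lo ≤ W δ X + δ k ∧ W δ X + δ k ≤ hi ∧ (pt δ lo hi X k l).1 = insert k X := by
  rcases pt_cases (δ := δ) (lo := lo) (hi := hi) X k l with ⟨a, e⟩ | ⟨a, b, e⟩ | ⟨a, b, e⟩ <;>
    rw [e] at h ⊢
  · simp at h
  · simp at h
  · exact ⟨a, b, rfl⟩

def OK (δ : ι → ℝ) (lo hi : ℝ) (c : ι) (R : List ι) (a : Bool) (y u u' : Vx ι) : Prop :=
  u ≠ u' ∨ ∀ v, Part δ lo hi c R a y v → v = u

theorem LH.ok0 (H : LH δ lo hi c R B) {X X' : Finset ι} {k l k' l' : ι} {y : Vx ι}
    (F : Face δ (lo - δ c) hi R B X k l) (F' : Face δ (lo - δ c) hi R B X' k' l')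
    (e : y = pt δ (lo - δ c) hi X k l) (e' : y = pt δ (lo - δ c) hi X' k' l')
    (h : y.2 = none → l ≠ l' ∨ ∀ m ∈ R, m ∉ y.1 → m = l) :
    OK δ lo hi c R false y (pt δ lo hi X k l) (pt δ lo hi X' k' l') := by
  have hy : IsV δ (lo - δ c) hi B R y := e ▸ F.isV
  have p1 : Part0 δ lo R y (pt δ lo hi X k l) := e ▸ H.port F false
  cases h0 : y.2 with
  | some m =>
    exact Or.inr fun v hv => (part_twin h0 hv).trans
      (part_twin (hi := hi) (c := c) (a := false) h0 p1).symm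
  | none =>
    by_cases h1 : W δ y.1 < lo
    · obtain ⟨a1, a2, a3⟩ := pt_none (e ▸ h0)
      obtain ⟨b1, b2, b3⟩ := pt_none (e' ▸ h0)
      rw [← e] at a3
      rw [← e'] at b3
      have q1 : pt δ lo hi X k l = (y.1, some l) := by
        rw [a3] at h1 ⊢
        exact pt_neg H.lh (by rwa [W_insert F.kX] at h1)
      have q2 : pt δ lo hi X' k' l' = (y.1, some l') := by
        rw [b3] at h1 ⊢
        exact pt_neg H.lh (by rwa [W_insert F'.kX] at h1)
      rw [q1, q2]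
      rcases h h0 with h | h
      · left; simp [h]
      · right
        rintro v (⟨m, hm, _⟩ | ⟨_, hm, _⟩ | ⟨_, _, m, hm, hm', rfl⟩)
        · simp [h0] at hm
        · linarith
        · rw [h m hm hm']
    · exact Or.inr fun v hv => (H.part0_dn hy h0 (not_lt.1 h1) hv).2.1.trans
        (H.part0_dn hy h0 (not_lt.1 h1) p1).2.1.symm

theorem LH.ok1 (H : LH δ lo hi c R B) {X X' : Finset ι} {k l k' l' : ι} {y : Vx ι}
    (F : Face δ (lo - δ c) hi R B X k l) (F' : Face δ (lo - δ c) hi R B X' k' l')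
    (e : y = pt δ (lo - δ c) hi X k l) (e' : y = pt δ (lo - δ c) hi X' k' l')
    (h : y.2 = none → k ≠ k' ∨ ∀ m ∈ R, m ∈ y.1 → m = k) :
    OK δ lo hi c R true y (pt δ lo hi (insert c X) k l) (pt δ lo hi (insert c X') k' l') := by
  have hy : IsV δ (lo - δ c) hi B R y := e ▸ F.isV
  have p1 : Part1 δ hi c R y (pt δ lo hi (insert c X) k l) := e ▸ H.port F true
  cases h0 : y.2 with
  | some m =>
    exact Or.inr fun v hv => (part_twin h0 hv).trans
      (part_twin (lo := lo) (a := true) h0 p1).symm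
  | none =>
    by_cases h1 : hi < W δ y.1 + δ c
    · obtain ⟨a1, a2, a3⟩ := pt_none (e ▸ h0)
      obtain ⟨b1, b2, b3⟩ := pt_none (e' ▸ h0)
      rw [← e] at a3
      rw [← e'] at b3
      have q1 : pt δ lo hi (insert c X) k l = (insert c X, some k) := by
        rw [a3, W_insert F.kX] at h1
        exact pt_pos (by rw [W_insert (H.cX F.inc)]; linarith)
      have q2 : pt δ lo hi (insert c X') k' l' = (insert c X', some k') := by
        rw [b3, W_insert F'.kX] at h1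
        exact pt_pos (by rw [W_insert (H.cX F'.inc)]; linarith)
      rw [q1, q2]
      rcases h h0 with h | h
      · left; simp [h]
      · right
        rintro v (⟨m, hm, _⟩ | ⟨_, hm, _⟩ | ⟨_, _, m, hm, hm', rfl⟩)
        · simp [h0] at hm
        · linarith
        · rw [h m hm hm', a3]
          simp only [Prod.mk.injEq, and_true]
          have := F.kX
          have : k ≠ c := by rintro rfl; exact H.cR F.kR
          ext i; simp only [Finset.mem_erase, Finset.mem_insert]; grind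
    · exact Or.inr fun v hv => (H.part1_up hy h0 (not_lt.1 h1) hv).2.trans
        (H.part1_up hy h0 (not_lt.1 h1) p1).2.symm

theorem same_face {X X' : Finset ι} {k : ι} (h : k ∉ X) (h' : k ∉ X')
    (e : insert k X = insert k X') : X = X' := by
  rw [← Finset.erase_insert h, e, Finset.erase_insert h']

theorem LH.ok3 (H : LH δ lo hi c R B) (h3 : R.length ≤ 3) {X X' : Finset ι} {k l k' l' : ι}
    {y : Vx ι} (F : Face δ (lo - δ c) hi R B X k l) (F' : Face δ (lo - δ c) hi R B X' k' l')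
    (e : y = pt δ (lo - δ c) hi X k l) (e' : y = pt δ (lo - δ c) hi X' k' l')
    (ne : pt δ (lo - δ c) hi X l k ≠ pt δ (lo - δ c) hi X' l' k') (a : Bool) :
    OK δ lo hi c R a y (pt δ lo hi (sd a c X) k l) (pt δ lo hi (sd a c X') k' l') := by
  have key : y.2 = none → y.1 = insert k X ∧ y.1 = insert k' X' ∧ (k ≠ k' ∨ l ≠ l') := by
    intro h0
    obtain ⟨a1, a2, a3⟩ := pt_none (e ▸ h0)
    obtain ⟨b1, b2, b3⟩ := pt_none (e' ▸ h0)
    rw [← e] at a3
    rw [← e'] at b3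
    refine ⟨a3, b3, ?_⟩
    by_contra hn
    push Not at hn
    obtain ⟨rfl, rfl⟩ := hn
    have := same_face F.kX F'.kX (a3.symm.trans b3)
    subst this
    exact ne rfl
  have f1 := F.lX
  have f2 := F.ne
  have f3 := F'.lX
  have f4 := F'.ne
  cases a
  · apply H.ok0 F F' e e'
    intro h0
    obtain ⟨a1, a2, a3⟩ := key h0
    by_contra hn
    push Not at hn
    obtain ⟨rfl, m, hm, hm', hml⟩ := hn
    have b1 : k ∈ y.1 := by simp [a1]
    have b2 : k' ∈ y.1 := by simp [a2]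
    have b3 : l ∉ y.1 := by rw [a1]; grind
    have := four_le F.kR F'.kR F.lR hm (by grind) (by grind) (by grind) (by grind) (by grind)
      (by grind)
    omega
  · apply H.ok1 F F' e e'
    intro h0
    obtain ⟨a1, a2, a3⟩ := key h0
    by_contra hn
    push Not at hn
    obtain ⟨rfl, m, hm, hm', hml⟩ := hn
    have b1 : k ∈ y.1 := by simp [a1]
    have b2 : l' ∉ y.1 := by rw [a2]; grind
    have b3 : l ∉ y.1 := by rw [a1]; grind
    have := four_le F.kR F'.lR F.lR hm (by grind) (by grind) (by grind) (by grind) (by grind)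
      (by grind)
    omega

def Out (δ : ι → ℝ) (lo hi : ℝ) (c : ι) (R : List ι) (B : Finset ι) (g : Vx ι)
    (L : List (Vx ι)) : Prop :=
  Cyc (Adj δ lo hi) (IsV δ lo hi B (c :: R)) L ∧ (Big δ lo hi c R g → Tri δ lo hi c L) ∧
    ((∀ w, IsV δ (lo - δ c) hi B R w → Two δ lo hi c R w) → Even L.length)

theorem LH.lift_even (H : LH δ lo hi c R B) {C : List (Vx ι)}
    (hC : Cyc (Adj δ (lo - δ c) hi) (IsV δ (lo - δ c) hi B R) C) (ev : Even C.length)
    {g : Vx ι} (hg : IsV δ (lo - δ c) hi B R g) : ∃ L, Out δ lo hi c R B g L := by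
  obtain ⟨y, y', p, ad⟩ := hC
  obtain ⟨X, k, l, F, e1, e2⟩ := adj_face p.mem_lt p.mem_hd ad
  have hb : C.length.bodd = false := by
    obtain ⟨m, hm⟩ := ev
    rw [hm]; simp
  obtain ⟨L, h1, h2, h3⟩ := H.zp p (fun _ h => h) false (e2 ▸ H.port F.symm false)
    (z := pt δ lo hi (sd false c X) k l) (by rw [hb, e1]; exact H.port F false)
  exact ⟨L, ⟨_, _, h1.congr H.cover, H.port_adj F false⟩, (h2 g hg).2.2.2, h3⟩

theorem LH.dp (H : LH δ lo hi c R B) (h3 : R.length = 3) {Y : List (Vx ι)} :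
    ∀ {y y' : Vx ι} {S : Vx ι → Prop}, HP (Adj δ (lo - δ c) hi) S y y' Y →
    (∀ v, S v → IsV δ (lo - δ c) hi B R v) → ∀ {X : Finset ι} {k l : ι},
    Face δ (lo - δ c) hi R B X k l → y = pt δ (lo - δ c) hi X k l →
    ¬ S (pt δ (lo - δ c) hi X l k) →
      ∃ L, HP (Adj δ lo hi) (fun v => ∃ w, S w ∧ Fib δ lo hi c R w v)
        (pt δ lo hi (sd false c X) k l) (pt δ lo hi (sd true c X) k l) L ∧
        ((∀ w, S w → Two δ lo hi c R w) → Even L.length) := by
  induction Y with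
  | nil => intro y y' S h; have := h.hd; simp at this
  | cons y0 t ih =>
    intro y y' S h hV X k l F e hn
    obtain rfl : y0 = y := by simpa using h.hd
    cases t with
    | nil =>
      have hS : ∀ w, S w ↔ w = y0 := fun w => by rw [← h.cov w]; simp
      obtain ⟨L, h1, h2, h3⟩ := H.zig (hV _ h.mem_hd) false (e ▸ H.port F false)
        (e ▸ H.port F true)
      refine ⟨L, h1.congr ?_, ?_⟩
      · intro v; simp [hS]
      · intro hw; rw [h3 (hw _ h.mem_hd)]; exact even_two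
    | cons y2 t =>
      obtain ⟨y1, y2', p1, p2, ad, dj⟩ := HP.split (l1 := [y0]) (l2 := y2 :: t) h (by simp) (by simp)
      obtain rfl : y0 = y1 := by simpa using p1.lt
      have hS : ∀ w, S w ↔ w = y0 ∨ w ∈ y2 :: t := fun w => by rw [← h.cov w]; simp
      have hV2 : ∀ v, v ∈ y2 :: t → IsV δ (lo - δ c) hi B R v :=
        fun v hv => hV v ((hS v).2 (Or.inr hv))
      have v0 := hV _ h.mem_hd
      obtain ⟨X2, k2, l2, F2, e1, e2⟩ := adj_face v0 (hV2 _ p2.mem_hd) ad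
      obtain ⟨M, h4, h5⟩ := ih p2 hV2 F2.symm e2 (by rw [← e1]; exact dj _ (by simp))
      have ne : pt δ (lo - δ c) hi X l k ≠ pt δ (lo - δ c) hi X2 l2 k2 := by
        intro h'
        apply hn
        rw [h', ← e2]
        exact (hS _).2 (Or.inr p2.mem_hd)
      obtain ⟨L, h6, _, h8⟩ := H.host v0 false (e ▸ H.port F false) (e1 ▸ H.port F2 false)
        (e1 ▸ H.port F2 true) (e ▸ H.port F true) (H.ok3 h3.le F F2 e e1 ne false)
        (H.ok3 h3.le F2 F e1 e ne.symm true) (fun v hv => H.cen_big h3.ge hv) h4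
        (H.port_adj F2 false) (H.port_adj F2.symm true) (by
          rintro v hv ⟨w, hw, hw'⟩
          have := H.fib_uniq v0 (hV2 w hw) hv hw'
          subst this
          exact dj _ (by simp) hw)
      refine ⟨L, h6.congr ?_, ?_⟩
      · intro v
        simp only [hS]
        constructor
        · rintro (h | ⟨w, hw, hw'⟩)
          · exact ⟨y0, Or.inl rfl, h⟩
          · exact ⟨w, Or.inr hw, hw'⟩
        · rintro ⟨w, rfl | hw, hw'⟩
          · exact Or.inl hw'
          · exact Or.inr ⟨w, hw, hw'⟩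
      · intro hw
        rw [h8 (hw _ h.mem_hd)]
        exact (h5 (fun w hw' => hw w ((hS w).2 (Or.inr hw')))).add even_two

theorem LH.lift_dp (H : LH δ lo hi c R B) (h3 : R.length = 3) {C : List (Vx ι)}
    (hC : Cyc (Adj δ (lo - δ c) hi) (IsV δ (lo - δ c) hi B R) C)
    {g : Vx ι} (hg : IsV δ (lo - δ c) hi B R g) : ∃ L, Out δ lo hi c R B g L := by
  have hgC : g ∈ C := by
    obtain ⟨y, y', p, _⟩ := hC
    exact (p.cov g).2 hg
  obtain ⟨l1, l2, rfl⟩ := List.append_of_mem hgC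
  obtain ⟨y, y', p, ad⟩ := hC.rot
  obtain rfl : g = y := by simpa using p.hd
  have hne : l2 ++ l1 ≠ [] := by
    intro h
    have h1 := p.lt
    rw [List.cons_append, h] at h1
    obtain rfl : g = y' := by simpa using h1
    exact adj_irrefl ad
  obtain ⟨y1, y2, p1, p2, ad2, dj⟩ := HP.split (l1 := [g]) (l2 := l2 ++ l1) p (by simp) hne
  obtain rfl : g = y1 := by simpa using p1.lt
  have hS : ∀ w, IsV δ (lo - δ c) hi B R w ↔ w = g ∨ w ∈ l2 ++ l1 := fun w => by
    rw [← p.cov w]; simp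
  have hV2 : ∀ v, v ∈ l2 ++ l1 → IsV δ (lo - δ c) hi B R v := fun v hv => (hS v).2 (Or.inr hv)
  obtain ⟨X, k, l, F, e1, e2⟩ := adj_face hg (hV2 _ p2.mem_hd) ad2
  obtain ⟨M, h4, h5⟩ := H.dp h3 p2 hV2 F.symm e2 (by rw [← e1]; exact dj _ (by simp))
  obtain ⟨L, h1, h2, h6⟩ := H.zig hg true (e1 ▸ H.port F true) (e1 ▸ H.port F false)
  have q := h1.append h4 (H.port_adj F false) (by
    rintro v hv ⟨w, hw, hw'⟩
    have := H.fib_uniq hg (hV2 w hw) hv hw'
    subst this
    exact dj _ (by simp) hw)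
  refine ⟨L ++ M, ⟨_, _, q.congr ?_, H.port_adj F.symm true⟩,
    fun hb => (h2.2.2.2 hb).mono (SInf.of_infix ⟨[], M, by simp⟩), ?_⟩
  · intro v
    rw [← H.cover]
    simp only [hS]
    constructor
    · rintro (h | ⟨w, hw, hw'⟩)
      · exact ⟨g, Or.inl rfl, h⟩
      · exact ⟨w, Or.inr hw, hw'⟩
    · rintro ⟨w, rfl | hw, hw'⟩
      · exact Or.inl hw'
      · exact Or.inr ⟨w, hw, hw'⟩
  · intro hw
    rw [List.length_append, h6 (hw _ hg)]
    exact even_two.add (h5 (fun w hw' => hw w (hV2 w hw')))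

theorem LH.lift_host (H : LH δ lo hi c R B) (h3 : 3 ≤ R.length) {y h p q g : Vx ι}
    {rest : List (Vx ι)}
    (hC : Cyc (Adj δ (lo - δ c) hi) (IsV δ (lo - δ c) hi B R) (y :: h :: rest))
    (hq : rest.head? = some q) (hp : rest.getLast? = some p) (od : ¬ Even rest.length)
    (hg : IsV δ (lo - δ c) hi B R g) (hgh : h ≠ g) (a : Bool)
    {X1 X2 X3 : Finset ι} {k1 l1 k2 l2 k3 l3 : ι}
    (F1 : Face δ (lo - δ c) hi R B X1 k1 l1) (e1 : h = pt δ (lo - δ c) hi X1 k1 l1)
    (e1' : y = pt δ (lo - δ c) hi X1 l1 k1)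
    (F2 : Face δ (lo - δ c) hi R B X2 k2 l2) (e2 : h = pt δ (lo - δ c) hi X2 k2 l2)
    (e2' : p = pt δ (lo - δ c) hi X2 l2 k2)
    (F3 : Face δ (lo - δ c) hi R B X3 k3 l3) (e3 : h = pt δ (lo - δ c) hi X3 k3 l3)
    (e3' : q = pt δ (lo - δ c) hi X3 l3 k3)
    (o1 : OK δ lo hi c R a h (pt δ lo hi (sd a c X2) k2 l2) (pt δ lo hi (sd a c X1) k1 l1))
    (o2 : OK δ lo hi c R (!a) h (pt δ lo hi (sd (!a) c X1) k1 l1)
      (pt δ lo hi (sd (!a) c X3) k3 l3)) :
    ∃ L, Out δ lo hi c R B g L := by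
  obtain ⟨x, z, P, _⟩ := hC
  have hne : rest ≠ [] := by rintro rfl; simp at hq
  obtain ⟨y1, y2, p1, p2, _, dj⟩ := HP.split (l1 := [y, h]) (l2 := rest) P (by simp) hne
  obtain rfl : q = y2 := by have := p2.hd; rw [hq] at this; simpa using this
  obtain rfl : p = z := by have := p2.lt; rw [hp] at this; simpa using this
  have hyh : y ≠ h := by have := p1.nd; simpa using this
  have hS : ∀ w, IsV δ (lo - δ c) hi B R w ↔ w = y ∨ w = h ∨ w ∈ rest := fun w => by
    rw [← P.cov w]; simp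
  have hV2 : ∀ v, v ∈ rest → IsV δ (lo - δ c) hi B R v :=
    fun v hv => (hS v).2 (Or.inr (Or.inr hv))
  have vy : IsV δ (lo - δ c) hi B R y := (hS y).2 (Or.inl rfl)
  have vh : IsV δ (lo - δ c) hi B R h := (hS h).2 (Or.inr (Or.inl rfl))
  obtain ⟨M, m1, m2, m3⟩ := H.zig vy a (e1' ▸ H.port F1.symm a) (e1' ▸ H.port F1.symm (!a))
  obtain ⟨L1, q1, q2, q3⟩ := H.host vh a (e2 ▸ H.port F2 a) (e1 ▸ H.port F1 a)
    (e1 ▸ H.port F1 (!a)) (e3 ▸ H.port F3 (!a)) o1 o2 (fun v hv => H.cen_big h3 hv) m1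
    (H.port_adj F1 a) (H.port_adj F1.symm (!a))
    (fun v hv hv' => hyh (H.fib_uniq vy vh hv' hv))
  have hb : rest.length.bodd = true := by
    obtain ⟨m, hm⟩ := Nat.not_even_iff_odd.1 od
    rw [hm, two_mul]; simp
  obtain ⟨L2, r1, r2, r3⟩ := H.zp p2 hV2 (!a) (e3' ▸ H.port F3.symm (!a))
    (z := pt δ lo hi (sd a c X2) l2 k2)
    (by rw [hb, e2']; simpa using H.port F2.symm a)
  have s := q1.append r1 (H.port_adj F3 (!a)) (by
    rintro v (hv | hv) ⟨w, hw, hw'⟩
    · have := H.fib_uniq vh (hV2 w hw) hv hw'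
      subst this
      exact dj _ (by simp) hw
    · have := H.fib_uniq vy (hV2 w hw) hv hw'
      subst this
      exact dj _ (by simp) hw)
  refine ⟨L1 ++ L2, ⟨_, _, s.congr ?_, H.port_adj F2.symm a⟩, ?_, ?_⟩
  · intro v
    rw [← H.cover]
    simp only [hS]
    constructor
    · rintro ((h' | h') | ⟨w, hw, hw'⟩)
      · exact ⟨h, Or.inr (Or.inl rfl), h'⟩
      · exact ⟨y, Or.inl rfl, h'⟩
      · exact ⟨w, Or.inr (Or.inr hw), hw'⟩
    · rintro ⟨w, rfl | rfl | hw, hw'⟩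
      · exact Or.inl (Or.inr hw')
      · exact Or.inl (Or.inl hw')
      · exact Or.inr ⟨w, hw, hw'⟩
  · intro hb
    rcases (hS g).1 hg with rfl | rfl | hg'
    · exact ((m2.2.2.2 hb).mono q2).mono (SInf.of_infix ⟨[], L2, by simp⟩)
    · exact absurd rfl hgh
    · exact ((r2 g hg').2.2.2 hb).mono (SInf.of_infix ⟨L1, [], by simp⟩)
  · intro hw
    rw [List.length_append, q3 (hw _ vh), m3 (hw _ vy)]
    exact (even_two.add even_two).add (r3 (fun w hw' => hw w (hV2 w hw')))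

theorem up_idx {S : Finset ι} {j j' l l' : ι} (hj : j ∉ S)
    (h : lo ≤ W δ S + δ j) (h' : lo ≤ W δ S + δ j')
    (e : pt δ lo hi S j l = pt δ lo hi S j' l') : j = j' := by
  rcases pt_cases (δ := δ) (lo := lo) (hi := hi) S j l with ⟨_, a⟩ | ⟨_, _, a⟩ | ⟨_, _, a⟩ <;>
  rcases pt_cases (δ := δ) (lo := lo) (hi := hi) S j' l' with ⟨_, b⟩ | ⟨_, _, b⟩ | ⟨_, _, b⟩ <;>
  rw [a, b] at e <;> first | linarith | (simp at e; done) | skip
  · simpa using e
  · have : j ∈ insert j' S := by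
      rw [← (Prod.mk.inj e).1]; simp
    simpa [hj] using this

theorem LH.lift_tri (H : LH δ lo hi c R B) {c2 : ι} (h2 : ∀ k ∈ R, δ c2 ≤ δ k) {C : List (Vx ι)}
    (hC : Cyc (Adj δ (lo - δ c) hi) (IsV δ (lo - δ c) hi B R) C) (od : ¬ Even C.length)
    (tr : Tri δ (lo - δ c) hi c2 C)
    {g : Vx ι} (hg : IsV δ (lo - δ c) hi B R g) : ∃ L, Out δ lo hi c R B g L := by
  have lh' : lo - δ c ≤ hi := by linarith [H.lh, H.pos c]
  have prep : ∀ {p y h q : Vx ι} {rest : List (Vx ι)},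
      Cyc (Adj δ (lo - δ c) hi) (IsV δ (lo - δ c) hi B R) (y :: h :: rest) →
      rest.head? = some q → rest.getLast? = some p →
      IsV δ (lo - δ c) hi B R y ∧ IsV δ (lo - δ c) hi B R h ∧ IsV δ (lo - δ c) hi B R p ∧
        IsV δ (lo - δ c) hi B R q ∧ h ≠ y ∧ h ≠ p ∧ y ≠ p ∧ Adj δ (lo - δ c) hi h q := by
    rintro p y h q rest ⟨x, z, P, _⟩ hq hp
    have mp := List.mem_of_mem_getLast? hp
    have mq := List.mem_of_mem_head? hq
    have nd := P.nd
    have ch := P.ch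
    refine ⟨(P.cov _).1 (by simp), (P.cov _).1 (by simp), (P.cov _).1 (by simp [mp]),
      (P.cov _).1 (by simp [mq]), by grind, by grind, by grind, ?_⟩
    cases rest with
    | nil => simp at hq
    | cons a t =>
      obtain rfl : a = q := by simpa using hq
      simp only [List.isChain_cons_cons] at ch
      exact ch.2.1
  obtain ⟨p0, y0, q0, tr, ⟨S, s1, s2, s3, k1, k2, k3⟩ | ⟨T, s1, s2, s3, k1, k2, k3⟩⟩ := tr
  · obtain ⟨p, y, h, q, rest, c1, c2, c3, kp, ky, kh, hg', hq, len⟩ :=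
      hC.host (adj_symm _ _ _) tr k1 k2 k3 g
    obtain ⟨vy, vh, vp, vq, n1, n2, n3, ad⟩ := prep c1 c2 c3
    obtain ⟨j, l, F1, e1, e1', a1⟩ := up_face H.pos lh' H.tQ vh vy s2 kh ky n1
    obtain ⟨j', l', F2, e2, e2', a2⟩ := up_face H.pos lh' H.tQ vh vp s2 kh kp n2
    obtain rfl : j = j' := up_idx F1.kX a1 a2 (e1.symm.trans e2)
    have hl : l ≠ l' := by rintro rfl; exact n3 (e1'.trans e2'.symm)
    obtain ⟨X, k, m, F3, e3, e3'⟩ := adj_face vh vq ad
    refine H.lift_host (three_le F1.kR F1.lR F2.lR F1.ne F2.ne hl) c1 c2 c3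
      (by rw [← len] at od; intro h; exact od (h.add even_two)) hg hg' false F1 e1 e1' F2 e2 e2'
      F3 e3 e3' (H.ok0 F2 F1 e2 e1 (fun _ => Or.inl hl.symm)) (H.ok1 F1 F3 e1 e3 ?_)
    intro h0
    obtain ⟨b1, b2, b3⟩ := pt_none (e1 ▸ h0)
    obtain ⟨_, _, b4⟩ := pt_none (e3 ▸ h0)
    rw [← e1] at b3
    rw [← e3] at b4
    rcases hq with hq | hq
    · left
      rintro rfl
      have := same_face F1.kX F3.kX (b3.symm.trans b4)
      subst this
      apply hq
      have := h2 m F3.lR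
      refine ⟨m, F3.lX, ?_⟩
      rw [e3']
      rcases pt_cases (δ := δ) (lo := lo - δ c) (hi := hi) S m j with a | ⟨a, _⟩ | a
      · exact Or.inl a
      · linarith
      · exact Or.inr a
    · right
      intro i hi1 hi2
      by_contra hij
      have hiS : i ∈ S := by rw [b3] at hi2; simpa [hij] using hi2
      have hiB := H.fr.2 i hi1
      have w1 : W δ ((insert j S).erase i) = W δ S + δ j - δ i := by
        rw [W_erase (by simp [hiS]), W_insert F1.kX]
      have inc : InC B R ((insert j S).erase i) := (F1.inc.insert F1.kR).erase hiB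
      have f1 := F1.lX
      have f2 := F1.ne
      have hli : l ≠ i := by rintro rfl; exact f1 hiS
      have F : Face δ (lo - δ c) hi R B ((insert j S).erase i) l i := by
        refine ⟨hli, by simp [f1, f2.symm], by simp, F1.lR, hi1, inc, ?_, by linarith [F1.pos]⟩
        by_contra hn
        have := H.tQ _ inc i hi1 (by simp) (not_lt.1 hn)
        linarith
      obtain ⟨t, _, ht⟩ := hq _ F.isV
      have : i ∈ (pt δ (lo - δ c) hi ((insert j S).erase i) l i).1 := by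
        rcases ht with ⟨_, ht⟩ | ⟨_, _, ht⟩ <;> rw [ht] <;> simp [hiS]
      rcases pt_cases (δ := δ) (lo := lo - δ c) (hi := hi) ((insert j S).erase i) l i with
        ⟨_, a⟩ | ⟨_, _, a⟩ | ⟨_, _, a⟩ <;> rw [a] at this <;> simp [hli.symm] at this
  · obtain ⟨p, y, h, q, rest, c1, c2, c3, kp, ky, kh, hg', hq, len⟩ :=
      hC.host (adj_symm _ _ _) tr k1 k2 k3 g
    obtain ⟨vy, vh, vp, vq, n1, n2, n3, ad⟩ := prep c1 c2 c3
    obtain ⟨j, l, hj, hl, F1, e1, e1', a1⟩ := dn_face H.pos lh' H.tQ vh vy s2 kh ky n1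
    obtain ⟨j', l', hj', hl', F2, e2, e2', a2⟩ := dn_face H.pos lh' H.tQ vh vp s2 kh kp n2
    obtain rfl : j = j' := by
      by_contra hn
      have : j ∈ T.erase j' := by simp [hn, hj]
      rw [← a2, a1] at this
      simp at this
    have hll : l ≠ l' := by rintro rfl; exact n3 (e1'.trans e2'.symm)
    obtain ⟨X, k, m, F3, e3, e3'⟩ := adj_face vh vq ad
    refine H.lift_host (three_le F1.lR F1.kR F2.kR F1.ne.symm F2.ne.symm hll) c1 c2 c3
      (by rw [← len] at od; intro h; exact od (h.add even_two)) hg hg' true F1 e1 e1' F2 e2 e2'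
      F3 e3 e3' (H.ok1 F2 F1 e2 e1 (fun _ => Or.inl hll.symm)) (H.ok0 F1 F3 e1 e3 ?_)
    intro h0
    obtain ⟨b1, b2, b3⟩ := pt_none (e1 ▸ h0)
    obtain ⟨b5, b6, b4⟩ := pt_none (e3 ▸ h0)
    rw [← e3] at b4
    have f0 := F1.ne
    have w0 : W δ ((T.erase j).erase l) = W δ T - δ j - δ l := by
      rw [W_erase (by simp [hl, f0]), W_erase hj]
    rcases hq with hq | hq
    · left
      rintro rfl
      apply hq
      have f1 := F3.kX
      have f2 := F3.ne
      have b7 : insert k X = T.erase j := b4.symm.trans a1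
      have hk : k ∈ T := by
        have : k ∈ T.erase j := by rw [← b7]; simp
        exact Finset.mem_of_mem_erase this
      have b8 : insert j X = T.erase k := by
        ext i
        have : i ∈ insert k X ↔ i ∈ T.erase j := by rw [b7]
        simp only [Finset.mem_erase, Finset.mem_insert] at this ⊢
        clear * - this f1 f2 hj hk
        grind
      have w1 : W δ X + δ j = W δ T - δ k := by
        rw [← W_insert F3.lX, b8, W_erase hk]
      have := h2 k F3.kR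
      refine ⟨k, hk, ?_⟩
      rw [e3', ← w1, ← b8]
      rcases pt_cases (δ := δ) (lo := lo - δ c) (hi := hi) X j k with ⟨a, _⟩ | ⟨a, _, b⟩ | a
      · linarith
      · exact Or.inl ⟨a, b⟩
      · exact Or.inr a
    · right
      intro i hi1 hi2
      by_contra hij
      have hiT : i ∉ T := by rw [a1] at hi2; simpa [hij] using hi2
      have t1 := H.tQ _ vh.1 i hi1 hi2 (by rw [a1, W_erase hj]; linarith)
      rw [a1, W_erase hj] at t1
      have F : Face δ (lo - δ c) hi R B ((T.erase j).erase l) i l :=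
        ⟨by rintro rfl; exact hiT hl, by simp [hiT], by simp, hi1, F1.kR, F1.inc, F1.neg,
          by linarith⟩
      obtain ⟨t, ht0, ht⟩ := hq _ F.isV
      rcases pt_cases (δ := δ) (lo := lo - δ c) (hi := hi) ((T.erase j).erase l) i l with
        ⟨_, a⟩ | ⟨_, _, a⟩ | ⟨_, _, a⟩ <;> rw [a] at ht <;>
        rcases ht with ⟨_, ht⟩ | ⟨_, _, ht⟩
      · obtain rfl : i = t := by simpa using (Prod.mk.inj ht).2
        exact hiT ht0
      · simp at ht
      all_goals
        have : i ∈ T.erase t := by rw [← (Prod.mk.inj ht).1]; simp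
        exact hiT (Finset.mem_of_mem_erase this)

theorem LH.lift (H : LH δ lo hi c R B) {c2 : ι} (h2 : ∀ k ∈ R, δ c2 ≤ δ k) (hl : 2 ≤ R.length)
    {C : List (Vx ι)} (hC : Cyc (Adj δ (lo - δ c) hi) (IsV δ (lo - δ c) hi B R) C)
    (h : Even C.length ∨ Tri δ (lo - δ c) hi c2 C ∨ R.length = 3) :
    ∃ L, Cyc (Adj δ lo hi) (IsV δ lo hi B (c :: R)) L ∧
      (Even L.length ∨ Tri δ lo hi c L ∨ R.length = 2) := by
  have key : ∀ g, IsV δ (lo - δ c) hi B R g → ∃ L, Out δ lo hi c R B g L := by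
    intro g hg
    by_cases ev : Even C.length
    · exact H.lift_even hC ev hg
    rcases h with h | h | h
    · exact absurd h ev
    · exact H.lift_tri h2 hC ev h hg
    · exact H.lift_dp h hC hg
  by_cases hb : ∃ g, IsV δ (lo - δ c) hi B R g ∧ Big δ lo hi c R g
  · obtain ⟨g, hg, hb⟩ := hb
    obtain ⟨L, h1, h2, _⟩ := key g hg
    exact ⟨L, h1, Or.inr (Or.inl (h2 hb))⟩
  · obtain ⟨x, z, P, _⟩ := hC
    obtain ⟨L, h1, _, h3⟩ := key x P.mem_hd
    refine ⟨L, h1, ?_⟩
    by_cases h4 : 3 ≤ R.length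
    · left
      exact h3 fun w hw => ⟨fun h => hb ⟨w, hw, h⟩, fun v hv => hb ⟨w, hw, H.cen_big h4 hv⟩⟩
    · right; right; omega

end Pool.Agent.MP_3fd310_co
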