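import Mathlib

set_option autoImplicit false

namespace Pool.Agent.MP_3fd310_co

open List

variable {α : Type*}

/-- A Hamilton path of the set S from x to z. -/
structure HP (A : α → α → Prop) (S : α → Prop) (x z : α) (L : List α) : Prop where
  nd : L.Nodup
  ch : L.IsChain A
  cov : ∀ v, v ∈ L ↔ S v
  hd : L.head? = some x
  lt : L.getLast? = some z

/-- t or its reverse is a contiguous block of L. -/
def SInf (t L : List α) : Prop := t <:+: L ∨ t.reverse <:+: L

theorem SInf.rev {t L : List α} (h : SInf t L) : SInf t L.reverse := by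
  rcases h with h | h
  · right; exact List.reverse_infix.2 h
  · left
    have := List.reverse_infix.2 h
    simpa using this

theorem SInf.rev' {t L : List α} (h : SInf t L) : SInf t.reverse L := by
  rcases h with h | h
  · right; simpa using h
  · left; exact h

theorem SInf.mono {t L L' : List α} (h : SInf t L) (h' : L <:+: L') : SInf t L' := by
  rcases h with h | h
  · left; exact h.trans h'
  · right; exact h.trans h'

theorem SInf.trans {t L L' : List α} (h : SInf t L) (h' : SInf L L') : SInf t L' := by
  rcases h' with h' | h'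
  · exact h.mono h'
  · exact h.rev.mono h'

theorem SInf.of_infix {t L : List α} (h : t <:+: L) : SInf t L := Or.inl h

theorem SInf.mem {t L : List α} (h : SInf t L) {v : α} (hv : v ∈ t) : v ∈ L := by
  rcases h with h | h
  · exact h.subset hv
  · exact h.subset (by simpa using hv)

theorem SInf.symm2 {L : List α} {u v : α} (h : SInf [u, v] L) : SInf [v, u] L := by
  simpa using h.rev'

theorem SInf.symm3 {L : List α} {u v w : α} (h : SInf [u, v, w] L) : SInf [w, v, u] L := by
  simpa using h.rev'

theorem infix_pair_pair {a b c d : α} (h : [a, b] <:+: [c, d]) : a = c ∧ b = d := by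
  have := h.sublist.eq_of_length (by simp)
  simpa using this

theorem sinf_pair_pair {a b c d : α} (h : SInf [a, b] [c, d]) :
    (a = c ∧ b = d) ∨ (a = d ∧ b = c) := by
  rcases h with h | h
  · exact Or.inl (infix_pair_pair h)
  · have := infix_pair_pair (by simpa using h : [b, a] <:+: [c, d])
    exact Or.inr ⟨this.2, this.1⟩

theorem HP.mem_hd {A : α → α → Prop} {S : α → Prop} {x z : α} {L : List α} (h : HP A S x z L) :
    S x := (h.cov x).1 (List.mem_of_mem_head? h.hd)

theorem HP.mem_lt {A : α → α → Prop} {S : α → Prop} {x z : α} {L : List α} (h : HP A S x z L) :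
    S z := (h.cov z).1 (List.mem_of_mem_getLast? h.lt)

theorem HP.congr {A : α → α → Prop} {S S' : α → Prop} {x z : α} {L : List α} (h : HP A S x z L)
    (e : ∀ v, S v ↔ S' v) : HP A S' x z L :=
  ⟨h.nd, h.ch, fun v => (h.cov v).trans (e v), h.hd, h.lt⟩

theorem HP.rev {A : α → α → Prop} (hs : ∀ a b, A a b → A b a) {S : α → Prop} {x z : α}
    {L : List α} (h : HP A S x z L) : HP A S z x L.reverse := by
  refine ⟨List.nodup_reverse.2 h.nd, ?_, fun v => by simpa using h.cov v, by simpa using h.lt,
    by simpa using h.hd⟩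
  rw [List.isChain_reverse]
  exact h.ch.imp (fun a b hab => hs a b hab)

theorem HP.single (A : α → α → Prop) (x : α) : HP A (fun v => v = x) x x [x] :=
  ⟨by simp, by simp, by simp, rfl, rfl⟩

theorem HP.append {A : α → α → Prop} {S S' : α → Prop} {x y y' z : α} {L L' : List α}
    (h : HP A S x y L) (h' : HP A S' y' z L') (a : A y y') (d : ∀ v, S v → ¬ S' v) :
    HP A (fun v => S v ∨ S' v) x z (L ++ L') := by
  refine ⟨?_, ?_, ?_, ?_, ?_⟩
  · rw [List.nodup_append]
    refine ⟨h.nd, h'.nd, ?_⟩
    intro a ha b hb hab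
    subst hab
    exact d a ((h.cov a).1 ha) ((h'.cov a).1 hb)
  · rw [List.isChain_append]
    refine ⟨h.ch, h'.ch, ?_⟩
    intro a ha b hb
    rw [h.lt] at ha
    rw [h'.hd] at hb
    simp only [Option.mem_def, Option.some.injEq] at ha hb
    subst ha; subst hb; exact a
  · intro v
    simp [h.cov v, h'.cov v]
  · simp [List.head?_append, h.hd]
  · simp [List.getLast?_append, h'.lt]

theorem HP.eq_cons {A : α → α → Prop} {S : α → Prop} {x z : α} {L : List α} (h : HP A S x z L) :
    ∃ t, L = x :: t := by
  have := h.hd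
  cases L with
  | nil => simp at this
  | cons a t => simp at this; exact ⟨t, by rw [this]⟩

theorem HP.eq_concat {A : α → α → Prop} {S : α → Prop} {x z : α} {L : List α}
    (h : HP A S x z L) : ∃ t, L = t ++ [z] := by
  have := h.lt
  rcases List.eq_nil_or_concat L with rfl | ⟨t, a, rfl⟩
  · simp at this
  · simp at this; exact ⟨t, by simp [this]⟩

theorem isChain_of_clique {A : α → α → Prop} {L : List α} (nd : L.Nodup)
    (h : ∀ a ∈ L, ∀ b ∈ L, a ≠ b → A a b) : L.IsChain A := by
  apply List.Pairwise.isChain
  exact List.Pairwise.imp_of_mem (fun ha hb hab => h _ ha _ hb hab) nd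

/-- Ordering of a finite clique with prescribed ends. -/
theorem exists_order [Finite α] {A : α → α → Prop} {S : α → Prop} {x z : α} (hx : S x) (hz : S z)
    (hxz : x ≠ z ∨ ∀ v, S v → v = x) (cl : ∀ a b, S a → S b → a ≠ b → A a b) :
    ∃ L, HP A S x z L := by
  classical
  by_cases e : x = z
  · subst e
    have h1 : ∀ v, S v → v = x := by simpa using hxz
    exact ⟨[x], (HP.single A x).congr (fun v => ⟨fun h => h ▸ hx, h1 v⟩)⟩
  · have := Fintype.ofFinite α
    let M := (Finset.univ.filter (fun v => S v ∧ v ≠ x ∧ v ≠ z)).toList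
    have hM : ∀ v, v ∈ M ↔ S v ∧ v ≠ x ∧ v ≠ z := by intro v; simp [M]
    have nd : (x :: (M ++ [z])).Nodup := by
      rw [List.nodup_cons, List.nodup_append]
      refine ⟨?_, Finset.nodup_toList _, by simp, ?_⟩
      · simp [hM, e]
      · intro a ha b hb
        simp only [List.mem_singleton] at hb
        subst hb
        exact ((hM a).1 ha).2.2
    have cov : ∀ v, v ∈ x :: (M ++ [z]) ↔ S v := by
      intro v
      simp only [List.mem_cons, List.mem_append, hM, List.not_mem_nil, or_false]
      constructor
      · rintro (rfl | h | rfl)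
        · exact hx
        · exact h.1
        · exact hz
      · intro h
        by_cases h1 : v = x
        · exact Or.inl h1
        by_cases h2 : v = z
        · exact Or.inr (Or.inr h2)
        exact Or.inr (Or.inl ⟨h, h1, h2⟩)
    refine ⟨x :: (M ++ [z]), nd, isChain_of_clique nd ?_, cov, rfl, ?_⟩
    · intro a ha b hb hab
      exact cl a b ((cov a).1 ha) ((cov b).1 hb) hab
    · rw [← List.cons_append, List.getLast?_append]; simp

theorem exists_order_from [Finite α] {A : α → α → Prop} {S : α → Prop} {x : α} (hx : S x)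
    (cl : ∀ a b, S a → S b → a ≠ b → A a b) : ∃ z L, HP A S x z L := by
  by_cases h : ∀ v, S v → v = x
  · obtain ⟨L, hL⟩ := exists_order hx hx (Or.inr h) cl
    exact ⟨x, L, hL⟩
  · push Not at h
    obtain ⟨z, hz, hzx⟩ := h
    obtain ⟨L, hL⟩ := exists_order hx hz (Or.inl hzx.symm) cl
    exact ⟨z, L, hL⟩

theorem infix_split {t l1 l2 : List α} {u v : α} (h : t <:+: l1 ++ u :: v :: l2) :
    t <:+: l1 ++ [u] ∨ t <:+: v :: l2 ∨ [u, v] <:+: t := by
  have e : l1 ++ u :: v :: l2 = (l1 ++ [u]) ++ (v :: l2) := by simp
  rw [e, List.infix_append_iff] at h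
  rcases h with h | h | ⟨a, b, rfl, ha, hb⟩
  · exact Or.inl h
  · exact Or.inr (Or.inl h)
  · rcases List.eq_nil_or_concat a with rfl | ⟨a', x, rfl⟩
    · exact Or.inr (Or.inl (by simpa using hb.isInfix))
    · cases b with
      | nil => exact Or.inl (by simpa using ha.isInfix)
      | cons y b' =>
        right; right
        obtain ⟨s, hs⟩ := ha
        obtain ⟨s', hs'⟩ := hb
        have h1 : x = u := by
          have := congrArg List.getLast? hs
          simpa [List.getLast?_append] using this
        have h2 : y = v := by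
          simp only [List.cons_append, List.cons.injEq] at hs'
          exact hs'.1
        subst h1; subst h2
        exact ⟨a', b', by simp⟩

theorem HP.insert0 {A : α → α → Prop} {S S' : α → Prop} {x z u v m m' : α} {L M : List α}
    (h : HP A S x z L) (e : [u, v] <:+: L) (hM : HP A S' m m' M) (a1 : A u m) (a2 : A m' v)
    (d : ∀ w, S w → ¬ S' w) :
    ∃ L', HP A (fun w => S w ∨ S' w) x z L' ∧ (∀ t, t <:+: L → t <:+: L' ∨ [u, v] <:+: t) ∧
      (u :: (M ++ [v])) <:+: L' ∧ L'.length = L.length + M.length := by
  obtain ⟨l1, l2, rfl⟩ := e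
  have e1 : l1 ++ [u, v] ++ l2 = (l1 ++ [u]) ++ (v :: l2) := by simp
  have nd := h.nd
  have ch := h.ch
  rw [e1] at nd ch
  rw [List.nodup_append] at nd
  rw [List.isChain_append] at ch
  have p1 : HP A (fun w => w ∈ l1 ++ [u]) x u (l1 ++ [u]) := by
    refine ⟨nd.1, ch.1, fun _ => Iff.rfl, ?_, by simp⟩
    have := h.hd
    cases l1 with
    | nil => simpa using this
    | cons a t => simpa using this
  have p2 : HP A (fun w => w ∈ v :: l2) v z (v :: l2) := by
    refine ⟨nd.2.1, ch.2.1, fun _ => Iff.rfl, rfl, ?_⟩
    have := h.lt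
    rw [e1, List.getLast?_append] at this
    cases hl : (v :: l2).getLast? with
    | none => simp at hl
    | some w => rw [hl] at this; simpa using this
  have hS : ∀ w, S w ↔ (w ∈ l1 ++ [u] ∨ w ∈ v :: l2) := by
    intro w
    rw [← h.cov w, e1, List.mem_append]
  have p3 := (p1.append hM a1 (fun w hw => d w ((hS w).2 (Or.inl hw)))).append p2 a2 (by
    rintro w (hw | hw) hw'
    · exact nd.2.2 w hw w hw' rfl
    · exact d w ((hS w).2 (Or.inr hw')) hw)
  refine ⟨_, p3.congr (fun w => by rw [hS w]; tauto), ?_, ⟨l1, l2, by simp⟩, by simp; omega⟩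
  intro t ht
  have ht' : t <:+: l1 ++ u :: v :: l2 := by simpa using ht
  rcases infix_split ht' with h1 | h1 | h1
  · left; exact h1.trans ⟨[], M ++ v :: l2, by simp⟩
  · left; exact h1.trans ⟨l1 ++ [u] ++ M, [], by simp⟩
  · right; exact h1

theorem HP.insert {A : α → α → Prop} (hs : ∀ a b, A a b → A b a) {S S' : α → Prop}
    {x z u v m m' : α} {L M : List α}
    (h : HP A S x z L) (e : SInf [u, v] L) (hM : HP A S' m m' M) (a1 : A u m) (a2 : A m' v)
    (d : ∀ w, S w → ¬ S' w) :
    ∃ L', HP A (fun w => S w ∨ S' w) x z L' ∧ (∀ t, SInf t L → SInf t L' ∨ SInf [u, v] t) ∧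
      SInf (u :: (M ++ [v])) L' ∧ L'.length = L.length + M.length := by
  rcases e with e | e
  · obtain ⟨L', h1, h2, h3, h4⟩ := h.insert0 e hM a1 a2 d
    refine ⟨L', h1, ?_, Or.inl h3, h4⟩
    rintro t (ht | ht)
    · rcases h2 t ht with h5 | h5
      · exact Or.inl (Or.inl h5)
      · exact Or.inr (Or.inl h5)
    · rcases h2 _ ht with h5 | h5
      · exact Or.inl (Or.inr h5)
      · right
        have := (SInf.of_infix h5).rev
        simpa using this
  · have e' : [v, u] <:+: L := by simpa using e
    obtain ⟨L', h1, h2, h3, h4⟩ := h.insert0 e' (hM.rev hs) (hs _ _ a2) (hs _ _ a1) d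
    refine ⟨L', h1, ?_, Or.inr (by simpa using h3), by simpa using h4⟩
    rintro t (ht | ht)
    · rcases h2 t ht with h5 | h5
      · exact Or.inl (Or.inl h5)
      · exact Or.inr (SInf.of_infix h5).symm2
    · rcases h2 _ ht with h5 | h5
      · exact Or.inl (Or.inr h5)
      · right
        have := (SInf.of_infix h5).rev
        have h6 : SInf [v, u] t := by simpa using this
        exact h6.symm2

/-- If the last vertex z of a path has the neighbour f, then the list ends with f, z. -/
theorem HP.last_nbr {A : α → α → Prop} {S : α → Prop} {x z f : α} {L : List α}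
    (h : HP A S x z L) (e : SInf [z, f] L) : ∃ t, L = t ++ [f, z] := by
  obtain ⟨t, rfl⟩ := h.eq_concat
  have nd := h.nd
  rcases e with ⟨l1, l2, e⟩ | ⟨l1, l2, e⟩
  · exfalso
    rw [← e] at nd
    have hl := congrArg List.getLast? e
    have hz : z ∈ f :: l2 := by
      have e1 : l1 ++ [z, f] ++ l2 = (l1 ++ [z]) ++ (f :: l2) := by simp
      rw [e1, List.getLast?_append] at hl
      cases hl2 : (f :: l2).getLast? with
      | none => simp at hl2
      | some w =>
        rw [hl2] at hl
        have : w = z := by simpa using hl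
        subst this
        exact List.mem_of_mem_getLast? hl2
    have e1 : l1 ++ [z, f] ++ l2 = (l1 ++ [z]) ++ (f :: l2) := by simp
    rw [e1, List.nodup_append] at nd
    exact nd.2.2 z (by simp) z hz rfl
  · rcases List.eq_nil_or_concat l2 with rfl | ⟨l3, w, rfl⟩
    · exact ⟨l1, by simpa using e.symm⟩
    · exfalso
      rw [← e] at nd
      have hl := congrArg List.getLast? e
      have : w = z := by
        rw [List.concat_eq_append, ← List.append_assoc, List.getLast?_append,
          List.getLast?_append] at hl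
        simpa using hl
      subst this
      have e1 : l1 ++ [w, f].reverse ++ l3.concat w = (l1 ++ [f, w]) ++ (l3 ++ [w]) := by simp
      rw [e1, List.nodup_append] at nd
      exact nd.2.2 w (by simp) w (by simp) rfl

theorem exists_nbr {L : List α} {u : α} (hu : u ∈ L) (h2 : 2 ≤ L.length) :
    ∃ f ∈ L, SInf [u, f] L := by
  obtain ⟨l1, l2, rfl⟩ := List.append_of_mem hu
  cases l2 with
  | cons f l3 => exact ⟨f, by simp, Or.inl ⟨l1, l3, by simp⟩⟩
  | nil =>
    rcases List.eq_nil_or_concat l1 with rfl | ⟨l3, f, rfl⟩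
    · simp at h2
    · exact ⟨f, by simp, Or.inr ⟨l3, [], by simp⟩⟩

theorem HP.two_le {A : α → α → Prop} {S : α → Prop} {x z : α} {L : List α} (h : HP A S x z L)
    {a b : α} (ha : S a) (hb : S b) (hab : a ≠ b) : 2 ≤ L.length := by
  have ha' := (h.cov a).2 ha
  have hb' := (h.cov b).2 hb
  match L, ha', hb' with
  | [], ha', _ => simp at ha'
  | [c], ha', hb' =>
    simp only [List.mem_singleton] at ha' hb'
    exact absurd (ha'.trans hb'.symm) hab
  | _ :: _ :: _, _, _ => simp

theorem HP.eq_single {A : α → α → Prop} {S : α → Prop} {x z : α} {L : List α} (h : HP A S x z L)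
    (hs : ∀ a b, S a → S b → a = b) : L = [x] := by
  obtain ⟨t, rfl⟩ := h.eq_cons
  cases t with
  | nil => rfl
  | cons b t =>
    have := hs x b h.mem_hd ((h.cov b).1 (by simp))
    subst this
    have := h.nd
    simp at this

/-- A cyclic enumeration of S. -/
def Cyc (A : α → α → Prop) (S : α → Prop) (L : List α) : Prop := ∃ x z, HP A S x z L ∧ A z x

theorem HP.split {A : α → α → Prop} {S : α → Prop} {x z : α} {l1 l2 : List α}
    (h : HP A S x z (l1 ++ l2)) (h1 : l1 ≠ []) (h2 : l2 ≠ []) :
    ∃ y y', HP A (fun w => w ∈ l1) x y l1 ∧ HP A (fun w => w ∈ l2) y' z l2 ∧ A y y' ∧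
      (∀ w, w ∈ l1 → w ∉ l2) := by
  have nd := h.nd
  have ch := h.ch
  rw [List.nodup_append] at nd
  rw [List.isChain_append] at ch
  obtain ⟨t1, y, rfl⟩ : ∃ t y, l1 = t ++ [y] := by
    rcases List.eq_nil_or_concat l1 with rfl | ⟨t, y, rfl⟩
    · exact absurd rfl h1
    · exact ⟨t, y, by simp⟩
  obtain ⟨y', t2, rfl⟩ := List.exists_cons_of_ne_nil h2
  refine ⟨y, y', ⟨nd.1, ch.1, fun _ => Iff.rfl, ?_, by simp⟩,
    ⟨nd.2.1, ch.2.1, fun _ => Iff.rfl, rfl, ?_⟩, ch.2.2 y (by simp) y' (by simp),
    fun w hw hw' => nd.2.2 w hw w hw' rfl⟩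
  · have := h.hd
    cases t1 with
    | nil => simpa using this
    | cons a t => simpa using this
  · have := h.lt
    rw [List.getLast?_append] at this
    cases hl : (y' :: t2).getLast? with
    | none => simp at hl
    | some w => rw [hl] at this; simpa using this

theorem Cyc.rot {A : α → α → Prop} {S : α → Prop} {l1 l2 : List α} (h : Cyc A S (l1 ++ l2)) :
    Cyc A S (l2 ++ l1) := by
  by_cases h1 : l1 = []
  · subst h1; simpa using h
  by_cases h2 : l2 = []
  · subst h2; simpa using h
  obtain ⟨x, z, h, a⟩ := h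
  obtain ⟨y, y', p1, p2, a', d⟩ := h.split h1 h2
  refine ⟨y', y, (p2.append p1 a (fun w hw hw' => d w hw' hw)).congr ?_, a'⟩
  intro v
  rw [← h.cov v, List.mem_append]; tauto

theorem Cyc.rev {A : α → α → Prop} (hs : ∀ a b, A a b → A b a) {S : α → Prop} {L : List α}
    (h : Cyc A S L) : Cyc A S L.reverse := by
  obtain ⟨x, z, h, a⟩ := h
  exact ⟨z, x, h.rev hs, hs _ _ a⟩

theorem first_not {K : α → Prop} {N : List α} (h : ∃ w ∈ N, ¬ K w) :
    ∃ N1 w N2, N = N1 ++ w :: N2 ∧ (∀ v ∈ N1, K v) ∧ ¬ K w := by
  induction N with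
  | nil => simp at h
  | cons a t ih =>
    by_cases ha : K a
    · obtain ⟨w, hw, hk⟩ := h
      have : w ∈ t := by
        rcases List.mem_cons.1 hw with rfl | hw
        · exact absurd ha hk
        · exact hw
      obtain ⟨N1, w', N2, rfl, h1, h2⟩ := ih ⟨w, this, hk⟩
      refine ⟨a :: N1, w', N2, by simp, ?_, h2⟩
      intro v hv
      rcases List.mem_cons.1 hv with rfl | hv
      · exact ha
      · exact h1 v hv
    · exact ⟨[], a, t, by simp, by simp, ha⟩

theorem three_suffix {L : List α} (h : 3 ≤ L.length) : ∃ t p y q, L = t ++ [p, y, q] := by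
  have : 3 ≤ L.reverse.length := by simpa using h
  match hL : L.reverse, this with
  | q :: y :: p :: t, _ =>
    refine ⟨t.reverse, p, y, q, ?_⟩
    have := congrArg List.reverse hL
    simpa using this

/-- In a cycle with three consecutive vertices in K, one can find three consecutive vertices
p, y, h in K with h different from g, such that the successor of h is outside K, unless all
vertices are in K. -/
theorem Cyc.host {A : α → α → Prop} (hs : ∀ a b, A a b → A b a) {S K : α → Prop} {L : List α}
    (h : Cyc A S L) {p y q : α} (t : SInf [p, y, q] L) (kp : K p) (ky : K y) (kq : K q) (g : α) :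
    ∃ p' y' h' q' rest, Cyc A S (y' :: h' :: rest) ∧ rest.head? = some q' ∧
      rest.getLast? = some p' ∧ K p' ∧ K y' ∧ K h' ∧ h' ≠ g ∧ (¬ K q' ∨ ∀ v, S v → K v) ∧
      rest.length + 2 = L.length := by
  -- first a version with a run at the start
  have key : ∀ run mid : List α, Cyc A S (run ++ mid) → 3 ≤ run.length → (∀ v ∈ run, K v) →
      ((∀ w ∈ mid.head?, ¬ K w) ∧ mid ≠ [] ∨ ∀ v, S v → K v) → run.getLast? ≠ some g →
      ∃ p' y' h' q' rest, Cyc A S (y' :: h' :: rest) ∧ rest.head? = some q' ∧
        rest.getLast? = some p' ∧ K p' ∧ K y' ∧ K h' ∧ h' ≠ g ∧ (¬ K q' ∨ ∀ v, S v → K v) ∧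
        rest.length + 2 = (run ++ mid).length := by
    intro run mid hc h3 hk hm hg
    obtain ⟨t, p', y', h', rfl⟩ := three_suffix h3
    have e : t ++ [p', y', h'] ++ mid = (t ++ [p']) ++ (y' :: h' :: mid) := by simp
    rw [e] at hc
    have hc2 := hc.rot
    have hne : mid ++ (t ++ [p']) ≠ [] := by simp
    obtain ⟨q', r', hq⟩ := List.exists_cons_of_ne_nil hne
    refine ⟨p', y', h', q', mid ++ (t ++ [p']), by simpa using hc2, by rw [hq]; rfl,
      by simp [List.getLast?_append], hk _ (by simp), hk _ (by simp), hk _ (by simp), ?_, ?_,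
      by simp; omega⟩
    · intro e; subst e; apply hg; simp [List.getLast?_append]
    · rcases hm with ⟨hm, hm'⟩ | hm
      · left
        obtain ⟨a, b, rfl⟩ := List.exists_cons_of_ne_nil hm'
        have : a = q' := by simpa using (List.cons.inj hq).1
        subst this
        exact hm a (by simp)
      · exact Or.inr hm
  have key2 : ∀ run mid : List α, Cyc A S (run ++ mid) → 3 ≤ run.length → (∀ v ∈ run, K v) →
      ((∀ w ∈ mid.head?, ¬ K w) ∧ (∀ w ∈ mid.getLast?, ¬ K w) ∧ mid ≠ [] ∨ ∀ v, S v → K v) →
      ∃ p' y' h' q' rest, Cyc A S (y' :: h' :: rest) ∧ rest.head? = some q' ∧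
        rest.getLast? = some p' ∧ K p' ∧ K y' ∧ K h' ∧ h' ≠ g ∧ (¬ K q' ∨ ∀ v, S v → K v) ∧
        rest.length + 2 = (run ++ mid).length := by
    intro run mid hc h3 hk hm
    by_cases hg : run.getLast? = some g
    · have hc' : Cyc A S (run.reverse ++ mid.reverse) := by
        have := (hc.rev hs)
        rw [List.reverse_append] at this
        exact this.rot
      have := key run.reverse mid.reverse hc' (by simpa using h3) (by simpa using hk)
        (by
          rcases hm with ⟨_, h2, h3⟩ | hm
          · left; exact ⟨by simpa using h2, by simpa using h3⟩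
          · exact Or.inr hm)
        (by
          obtain ⟨x, z, hp, _⟩ := hc
          have nd := (List.nodup_append.1 hp.nd).1
          obtain ⟨t, a, b, c, rfl⟩ := three_suffix h3
          have : c = g := by simpa [List.getLast?_append] using hg
          subst this
          cases t with
          | nil =>
            simp only [List.nil_append, List.nodup_cons, List.mem_cons] at nd
            simp only [List.nil_append, List.getLast?_reverse, List.head?_cons, ne_eq,
              Option.some.injEq]
            tauto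
          | cons d t =>
            simp only [List.cons_append, List.nodup_cons, List.mem_append, List.mem_cons] at nd
            simp only [List.getLast?_reverse, List.cons_append, List.head?_cons, ne_eq,
              Option.some.injEq]
            tauto)
      simpa [Nat.add_comm] using this
    · exact key run mid hc h3 hk
        (by
          rcases hm with ⟨h1, _, h3⟩ | hm
          · exact Or.inl ⟨h1, h3⟩
          · exact Or.inr hm) hg
  have key3 : ∀ (L : List α) (p y q : α), Cyc A S L → [p, y, q] <:+: L → K p → K y → K q →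
      ∃ p' y' h' q' rest, Cyc A S (y' :: h' :: rest) ∧ rest.head? = some q' ∧
        rest.getLast? = some p' ∧ K p' ∧ K y' ∧ K h' ∧ h' ≠ g ∧ (¬ K q' ∨ ∀ v, S v → K v) ∧
        rest.length + 2 = L.length := by
    rintro L p y q hc ⟨l1, l2, rfl⟩ kp ky kq
    have hc1 : Cyc A S ([p, y, q] ++ (l2 ++ l1)) := by
      have e : l1 ++ [p, y, q] ++ l2 = l1 ++ ([p, y, q] ++ l2) := by simp
      rw [e] at hc
      simpa using hc.rot
    by_cases hall : ∀ v, S v → K v
    · have := key2 [p, y, q] (l2 ++ l1) hc1 (by simp) (by simp [kp, ky, kq]) (Or.inr hall)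
      obtain ⟨a, b, c, d, e, h1, h2, h3, h4, h5, h6, h7, h8, h9⟩ := this
      exact ⟨a, b, c, d, e, h1, h2, h3, h4, h5, h6, h7, h8, by rw [h9]; simp; omega⟩
    · push Not at hall
      obtain ⟨w, hw, hkw⟩ := hall
      have hw' : w ∈ l2 ++ l1 := by
        obtain ⟨x, z, hp, _⟩ := hc1
        have := (hp.cov w).2 hw
        simp only [List.cons_append, List.nil_append, List.mem_cons] at this
        rcases this with rfl | rfl | rfl | this
        · exact absurd kp hkw
        · exact absurd ky hkw
        · exact absurd kq hkw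
        · exact this
      obtain ⟨N1, w1, N2, e1, k1, nk1⟩ := first_not ⟨w, hw', hkw⟩
      obtain ⟨N4, w2, N5, e2, k2, nk2⟩ :=
        first_not (K := K) (N := (w1 :: N2).reverse) ⟨w1, by simp, nk1⟩
      have e3 : w1 :: N2 = (N5.reverse ++ [w2]) ++ N4.reverse := by
        have := congrArg List.reverse e2
        simpa using this
      rw [e1, e3] at hc1
      have hc2 : Cyc A S ((N4.reverse ++ [p, y, q] ++ N1) ++ (N5.reverse ++ [w2])) := by
        have e : [p, y, q] ++ (N1 ++ (N5.reverse ++ [w2] ++ N4.reverse)) =
          ([p, y, q] ++ N1 ++ (N5.reverse ++ [w2])) ++ N4.reverse := by simp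
        rw [e] at hc1
        simpa using hc1.rot
      have := key2 _ _ hc2 (by simp; omega)
        (by
          intro v hv
          simp only [List.mem_append, List.mem_reverse, List.mem_cons, List.not_mem_nil,
            or_false] at hv
          rcases hv with (hv | rfl | rfl | rfl) | hv
          · exact k2 v hv
          · exact kp
          · exact ky
          · exact kq
          · exact k1 v hv)
        (Or.inl ⟨by
          intro w hw
          have := congrArg List.head? e3
          rw [List.head?_append, Option.mem_def.1 hw] at this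
          have : w1 = w := by simpa using this
          exact this ▸ nk1, by simpa [List.getLast?_append] using nk2, by simp⟩)
      obtain ⟨a, b, c, d, e, h1, h2, h3, h4, h5, h6, h7, h8, h9⟩ := this
      refine ⟨a, b, c, d, e, h1, h2, h3, h4, h5, h6, h7, h8, ?_⟩
      rw [h9]
      have l1' := congrArg List.length e1
      have l3' := congrArg List.length e3
      simp at l1' l3' ⊢
      omega
  rcases t with t | t
  · exact key3 L p y q h t kp ky kq
  · exact key3 L q y p h (by simpa using t) kq ky kp

end Pool.Agent.MP_3fd310_co
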