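import Pool.Agent.MP_3fd310_co.Zmain

set_option autoImplicit false
set_option linter.unusedSectionVars false

namespace Pool.Agent.MP_3fd310_co

theorem HP.ne_ends {α : Type*} {A : α → α → Prop} {S : α → Prop} {x z a b : α} {L : List α}
    (h : HP A S x z L) (ha : S a) (hb : S b) (ne : a ≠ b) : x ≠ z := by
  rintro rfl
  have l2 := h.two_le ha hb ne
  obtain ⟨t, rfl⟩ := h.eq_cons
  cases t with
  | nil => simp at l2
  | cons y t =>
    have h1 := h.lt
    rw [List.getLast?_cons_cons] at h1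
    exact (List.nodup_cons.1 h.nd).1 (List.mem_of_mem_getLast? h1)

variable {ι : Type*} [DecidableEq ι] [Finite ι]
variable {δ : ι → ℝ} {lo hi : ℝ} {c d : ι} {R : List ι} {B : Finset ι}

theorem exists_uni (S : Finset ι) {R : List ι} (nd : R.Nodup) :
    ∃ τ1 τ2, Uni R (τ1 ++ τ2) ∧ ∀ i, i ∈ τ1 ↔ i ∈ R ∧ i ∈ S := by
  induction R with
  | nil => exact ⟨[], [], Uni.nil, by simp⟩
  | cons e R ih =>
    obtain ⟨τ1, τ2, h1, h2⟩ := ih (List.nodup_cons.1 nd).2
    by_cases he : e ∈ S
    · exact ⟨e :: τ1, τ2, Uni.fr e h1, by simp [h2]; grind⟩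
    · refine ⟨τ1, τ2 ++ [e], by rw [← List.append_assoc]; exact Uni.bk e h1, by simp [h2]; grind⟩

theorem gr_zero (hδ : ∀ i, 0 < δ i) (hT : Thin δ lo hi B R) {τ : List ι} (σ : List ι) :
    ∀ {X : Finset ι}, Fresh X τ → InC B R X → (∀ k ∈ τ, k ∈ R) → lo ≤ W δ (tp X τ) →
    W δ (tp X τ) ≤ hi → gr δ lo hi X (τ ++ σ) = (tp X τ, none) := by
  induction τ with
  | nil => intro X _ _ _ h _; rw [tp_nil] at h ⊢; exact gr_nonneg _ h
  | cons k τ ih =>
    intro X fr cX hR h1 h2
    have hk : k ∉ X := fr.2 k (by simp)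
    have h3 : W δ X + δ k ≤ W δ (tp X (k :: τ)) :=
      W_mono1 hδ (by intro i hi; simp [hi]) hk (by simp)
    have h4 : W δ X < lo := by
      by_contra hn
      have := hT X cX k (hR k (by simp)) hk (not_lt.1 hn)
      linarith
    rw [List.cons_append, gr_step _ h4 (by linarith), tp_cons]
    rw [tp_cons] at h1 h2
    exact ih fr.tail (cX.insert (hR k (by simp))) (fun j hj => hR j (by simp [hj])) h1 h2

theorem gr_up {S : Finset ι} {k : ι} (σ : List ι) (h1 : W δ S < lo) (h2 : lo ≤ W δ S + δ k)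
    (hk : k ∉ S) : Up δ lo hi S (gr δ lo hi S (k :: σ)) := by
  by_cases h : hi < W δ S + δ k
  · exact ⟨k, hk, Or.inl ⟨h, gr_pos _ h1 h⟩⟩
  · refine ⟨k, hk, Or.inr ⟨h2, not_lt.1 h, ?_⟩⟩
    rw [gr_step _ h1 (not_lt.1 h), gr_nonneg _ (by rw [W_insert hk]; exact h2)]

theorem ZH.tie (H : ZH δ lo hi c (d :: R) B) (hn : W δ B + δ c < lo) {S : Finset ι}
    (cS : InC B R S) (s1 : lo ≤ W δ S + δ c) (s2 : W δ S + δ d ≤ hi) :
    ∃ L, Cyc (Adj δ lo hi) (IsV δ lo hi B (c :: d :: R)) L ∧
      (Even L.length ∨ Tri δ lo hi c L ∨ R.length = 1) := by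
  have nd := List.nodup_cons.1 H.fr.1
  obtain ⟨τ1, τ2, hU, hτ⟩ := exists_uni S nd.2
  have pm := hU.perm
  have eS : tp B τ1 = S := by
    ext i
    simp only [mem_tp, hτ]
    exact ⟨fun h => h.elim (cS.1 i) (fun h => h.2), fun h => (cS.2 i h).imp id (fun h' => ⟨h', h⟩)⟩
  have lcd : δ c ≤ δ d := H.le d (by simp)
  have hc : c ∉ S := fun h => (cS.2 c h).elim H.cB (fun h => H.cR (by simp [h]))
  have hd : d ∉ S := fun h => (cS.2 d h).elim (H.fr.2 d (by simp)) nd.1
  have cd : c ≠ d := by have := H.cR; rintro rfl; simp at this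
  have hS : W δ S < lo := by
    by_contra h
    have := H.tP S (inc_par (inc_par cS)) c (by simp) hc (not_lt.1 h)
    linarith
  have p1 : (τ1 ++ τ2 ++ [d]).Perm (d :: R) :=
    (List.perm_append_singleton d _).trans (pm.cons d)
  have p2 : (d :: (τ1 ++ τ2)).Perm (d :: R) := pm.cons d
  have cB : InC B (c :: d :: R) B := by simp [InC]; tauto
  have sub : ∀ k ∈ τ1, k ∈ R := fun k hk => ((hτ k).1 hk).1
  have f1 : ∀ a, Fresh (sd a c B) τ1 := by
    intro a
    have := H.fresh p1 a
    rw [List.append_assoc] at this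
    exact ⟨(List.nodup_append.1 this.1).1, fun k hk => this.2 k (by simp [hk])⟩
  have eA : gr δ lo hi (sd true c B) (τ1 ++ τ2 ++ [d]) = (insert c S, none) := by
    rw [List.append_assoc, gr_zero H.pos H.tP _ (f1 true) (cB.insert (by simp))
      (fun k hk => by simp [sub k hk]), tp_sd, eS, sd_true] <;>
    rw [tp_sd, eS, sd_true, W_insert hc] <;> linarith
  have eT : tp B (d :: τ1) = insert d S := by rw [← eS]; ext; simp; tauto
  have eB : gr δ lo hi (sd false c B) (d :: (τ1 ++ τ2)) = (insert d S, none) := by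
    have := H.fresh p2 false
    rw [← List.cons_append, sd_false] at this ⊢
    rw [gr_zero H.pos H.tP _
      ⟨(List.nodup_append.1 this.1).1, fun k hk => this.2 k (List.mem_append_left _ hk)⟩ cB
      (fun k hk => by
        rcases List.mem_cons.1 hk with rfl | hk
        · simp
        · simp [sub k hk]), eT] <;>
    rw [eT, W_insert hd] <;> linarith
  have uA : Up δ lo hi S (insert c S, none) := ⟨c, hc, Or.inr ⟨s1, by linarith, rfl⟩⟩
  have uB : Up δ lo hi S (insert d S, none) := ⟨d, hd, Or.inr ⟨by linarith, s2, rfl⟩⟩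
  have ne : ((insert c S, none) : Vx ι) ≠ (insert d S, none) := by
    intro h
    have : c ∈ insert d S := (Prod.mk.inj h).1 ▸ Finset.mem_insert_self c S
    simp [cd, hc] at this
  have vA := eA ▸ H.gr_isV p1 true
  have vB := eB ▸ H.gr_isV p2 false
  have u0 : Up δ lo hi S (gr δ lo hi (sd false c B) (τ1 ++ τ2 ++ [d])) := by
    rw [List.append_assoc, gr_prefix H.pos H.lh _ (f1 false) (by rw [sd_false, eS]; exact hS),
      sd_false, eS]
    cases τ2 with
    | nil => exact gr_up _ hS (by linarith) hd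
    | cons k t =>
      have kR : k ∈ R := pm.mem_iff.1 (by simp)
      have := (List.pairwise_cons.1 H.so).1 k kR
      refine gr_up _ hS (by linarith) ?_
      intro hk
      have := (List.nodup_append.1 (pm.nodup_iff.2 nd.2)).2.2
      exact this k ((hτ k).2 ⟨kR, hk⟩) k (by simp) rfl
  have cl : ∀ x z L, ZOut δ lo hi c (d :: R) B x z L →
      (Even L.length ∨ Tri δ lo hi c L ∨ R.length = 1) := by
    intro x z L h
    rcases h.cl with h | h | ⟨h, _⟩
    · exact Or.inl h
    · exact Or.inr (Or.inl h)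
    · right; right
      cases R with
      | nil =>
        have : W δ S ≤ W δ B := W_mono H.pos (fun i hi => by simpa using cS.2 i hi)
        linarith
      | cons e t => simp at h ⊢; omega
  obtain ⟨π, h⟩ := zthm H hU
  cases π
  · obtain ⟨L, hL⟩ := h false
    rw [Bool.xor_false, eB] at hL
    exact ⟨L, ⟨_, _, hL.hp, up_adj H.pos H.tP vB hL.hp.mem_hd hS uB u0
      (hL.hp.ne_ends vA vB ne).symm⟩, cl _ _ _ hL⟩
  · obtain ⟨L, hL⟩ := h true
    rw [Bool.xor_self, eA, eB] at hL
    exact ⟨L, ⟨_, _, hL.hp, up_adj H.pos H.tP vB vA hS uB uA ne.symm⟩, cl _ _ _ hL⟩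

theorem ht (hδ : ∀ i, 0 < δ i) {R : List ι} : ∀ {c d : ι} {lo : ℝ}, lo ≤ hi →
    Fresh B (c :: d :: R) → (c :: d :: R).Pairwise (fun a b => δ a ≤ δ b) →
    Thin δ lo hi B (c :: d :: R) → W δ B < lo → hi < W δ (tp B (c :: d :: R)) →
    ∃ L, Cyc (Adj δ lo hi) (IsV δ lo hi B (c :: d :: R)) L ∧
      (Even L.length ∨ Tri δ lo hi c L ∨ R.length = 1) := by
  have base : ∀ {R : List ι} {c d : ι} {lo : ℝ}, lo ≤ hi →
      Fresh B (c :: d :: R) → (c :: d :: R).Pairwise (fun a b => δ a ≤ δ b) →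
      Thin δ lo hi B (c :: d :: R) → W δ B < lo → hi < W δ (tp B (c :: d :: R)) →
      (∃ L, Cyc (Adj δ lo hi) (IsV δ lo hi B (c :: d :: R)) L ∧
        (Even L.length ∨ Tri δ lo hi c L ∨ R.length = 1)) ∨
      (LH δ lo hi c (d :: R) B ∧ W δ B < lo - δ c ∧ hi < W δ (tp B (d :: R))) := by
    intro R c d lo lh fr so tP h1 h2
    have cB : c ∉ B := fr.2 c (by simp)
    have dB : d ∉ B := fr.2 d (by simp)
    have cR : c ∉ d :: R := (List.nodup_cons.1 fr.1).1
    have cd : c ≠ d := by rintro rfl; simp at cR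
    have le : ∀ k ∈ d :: R, δ c ≤ δ k := (List.pairwise_cons.1 so).1
    have le' : ∀ k ∈ c :: d :: R, δ c ≤ δ k := by
      intro k hk
      rcases List.mem_cons.1 hk with rfl | hk
      · exact le_rfl
      · exact le k hk
    have fr' : Fresh B (d :: R) := ⟨(List.nodup_cons.1 fr.1).2, fun k hk => fr.2 k (by simp [hk])⟩
    have iB : InC B (c :: d :: R) B := by simp [InC]; tauto
    have pc := hδ c
    have pd := hδ d
    have ct : W δ (tp B (c :: d :: R)) = W δ (tp B (d :: R)) + δ c := by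
      have : tp B (c :: d :: R) = insert c (tp B (d :: R)) := by ext; simp; tauto
      rw [this, W_insert (by simp only [mem_tp]; tauto)]
    by_cases a1 : lo ≤ W δ B + δ c
    · left
      have up : ∀ v, IsV δ lo hi B (c :: d :: R) v → Up δ lo hi B v := fun v hv =>
        simplexU hδ tP h1 (fun k hk _ => by linarith [le' k hk]) hv
      have F : Face δ lo hi (c :: d :: R) B B c d := by
        refine ⟨cd, cB, dB, by simp, by simp, iB, h1, ?_⟩
        have := tP _ (iB.insert (k := c) (by simp)) d (by simp) (by simp [dB, cd.symm])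
          (by rw [W_insert cB]; exact a1)
        rwa [W_insert cB] at this
      have ne : pt δ lo hi B c d ≠ pt δ lo hi B d c := fun e => adj_irrefl (e ▸ F.adj)
      obtain ⟨L, hL⟩ := exists_order (A := Adj δ lo hi) F.isV F.symm.isV (Or.inl ne)
        (fun u v hu hv ne => up_adj hδ tP hu hv h1 (up u hu) (up v hv) ne)
      refine ⟨L, ⟨_, _, hL, F.symm.adj⟩, ?_⟩
      rcases clause_of_clique (hL.two_le hL.mem_hd hL.mem_lt ne)
        (fun v hv => up v ((hL.cov v).1 hv)) with h | ⟨p, y, q, h3, h4⟩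
      · exact Or.inl h
      · exact Or.inr (Or.inl ⟨p, y, q, h3, Or.inl ⟨B, cB, h1, a1, h4⟩⟩)
    by_cases a2 : W δ (tp B (d :: R)) ≤ hi
    · left
      have dn : ∀ v, IsV δ lo hi B (c :: d :: R) v → Dn δ lo hi (tp B (c :: d :: R)) v :=
        fun v hv => simplexD hδ tP h2 (fun k hk => by linarith [le' k hk]) hv
      have iT : InC B (c :: d :: R) ((tp B (d :: R)).erase d) :=
        InC.erase (by simp [InC]; tauto) dB
      have w := W_erase (δ := δ) (X := tp B (d :: R)) (k := d) (by simp)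
      have F : Face δ lo hi (c :: d :: R) B ((tp B (d :: R)).erase d) c d := by
        refine ⟨cd, by simp only [Finset.mem_erase, mem_tp]; tauto, by simp, by simp, by simp, iT,
          ?_, by linarith⟩
        by_contra hn
        have := tP _ iT d (by simp) (by simp) (not_lt.1 hn)
        linarith
      have ne : pt δ lo hi ((tp B (d :: R)).erase d) c d ≠
          pt δ lo hi ((tp B (d :: R)).erase d) d c := fun e => adj_irrefl (e ▸ F.adj)
      obtain ⟨L, hL⟩ := exists_order (A := Adj δ lo hi) F.isV F.symm.isV (Or.inl ne)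
        (fun u v hu hv ne => dn_adj hδ lh tP hu hv h2 (dn u hu) (dn v hv) ne)
      refine ⟨L, ⟨_, _, hL, F.symm.adj⟩, ?_⟩
      rcases clause_of_clique (hL.two_le hL.mem_hd hL.mem_lt ne)
        (fun v hv => dn v ((hL.cov v).1 hv)) with h | ⟨p, y, q, h3, h4⟩
      · exact Or.inl h
      · exact Or.inr (Or.inl ⟨p, y, q, h3, Or.inr ⟨_, by simp, h2, by linarith, h4⟩⟩)
    have a1' := not_le.1 a1
    have a2' := not_le.1 a2
    have H : ZH δ lo hi c (d :: R) B :=
      ⟨hδ, lh, cB, cR, fr', le, (List.pairwise_cons.1 so).2, tP, by linarith, by linarith⟩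
    by_cases a3 : ∃ S, InC B R S ∧ lo ≤ W δ S + δ c ∧ W δ S + δ d ≤ hi
    · obtain ⟨S, s1, s2, s3⟩ := a3
      exact Or.inl (H.tie a1' s1 s2 s3)
    right
    refine ⟨⟨hδ, lh, cB, cR, fr', le, tP, ?_⟩, by linarith, a2'⟩
    intro X cX k hk hkX hX
    by_contra hn
    have hn' := not_lt.1 hn
    apply a3
    have dk : δ d ≤ δ k := by
      rcases List.mem_cons.1 hk with rfl | hk
      · exact le_rfl
      · exact (List.pairwise_cons.1 H.so).1 k hk
    by_cases hd : d ∈ X
    · have kd : k ≠ d := by rintro rfl; exact hkX hd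
      have w : W δ (insert k (X.erase d)) = W δ X - δ d + δ k := by
        rw [W_insert (by simp [hkX]), W_erase hd]
      refine ⟨insert k (X.erase d), ?_, by linarith, by linarith⟩
      clear * - cX dB hk kd; unfold InC at *; grind
    · refine ⟨X, ?_, by linarith, by linarith⟩
      clear * - cX hd; unfold InC at *; grind
  induction R with
  | nil =>
    intro c d lo lh fr so tP h1 h2
    rcases base lh fr so tP h1 h2 with h | ⟨H, h3, h4⟩
    · exact h
    have hdB : d ∉ B := H.fr.2 d (by simp)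
    have wt : W δ (tp B [d]) = W δ B + δ d := by
      rw [tp_cons, tp_nil, W_insert hdB]
    have vy : IsV δ (lo - δ c) hi B [d] (B, some d) :=
      ⟨by simp [InC]; tauto, Or.inr ⟨d, rfl, by simp, hdB, h3, by simp only; linarith⟩⟩
    have key : ∀ v, IsV δ (lo - δ c) hi B [d] v → v = (B, some d) := by
      rintro ⟨X, o⟩ ⟨cX, hv⟩
      simp only at cX hv
      by_cases hdX : d ∈ X
      · have := W_mono1 H.pos cX.1 hdB hdX
        have := H.pos c
        rcases hv with ⟨_, _, h⟩ | ⟨k, _, _, _, h, _⟩ <;> linarith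
      · obtain rfl : X = B := by
          ext i
          refine ⟨fun hi => (cX.2 i hi).resolve_right ?_, cX.1 i⟩
          intro h
          obtain rfl : i = d := by simpa using h
          exact hdX hi
        rcases hv with ⟨_, h, _⟩ | ⟨k, rfl, h, _⟩
        · linarith
        · simpa using h
    obtain ⟨L, p1, _, p3⟩ := H.zig0 vy (Or.inl ⟨d, rfl, rfl⟩) (Or.inl ⟨d, rfl, rfl⟩)
    refine ⟨L, ⟨_, _, p1.congr ?_, (H.rung vy).symm⟩, Or.inl ?_⟩
    · intro v
      rw [← H.cover]
      exact ⟨fun h => ⟨_, vy, h⟩, fun ⟨w, h, h'⟩ => key w h ▸ h'⟩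
    · rw [p3]
      · exact even_two
      · refine ⟨?_, fun v hv => by simp [Cen] at hv⟩
        rintro ⟨a, u, v, hu, hv, ne⟩
        exact ne ((part_twin rfl hu).trans (part_twin rfl hv).symm)
  | cons e R ih =>
    intro c d lo lh fr so tP h1 h2
    rcases base lh fr so tP h1 h2 with h | ⟨H, h3, h4⟩
    · exact h
    have so' := (List.pairwise_cons.1 so).2
    obtain ⟨C, hC, cl⟩ := ih (lo := lo - δ c) (by linarith [hδ c]) H.fr so' H.tQ h3 h4
    obtain ⟨L, hL, cl'⟩ := H.lift (c2 := d)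
      (by
        intro k hk
        rcases List.mem_cons.1 hk with rfl | hk
        · exact le_rfl
        · exact (List.pairwise_cons.1 so').1 k hk)
      (by simp) hC (by simpa using cl)
    exact ⟨L, hL, by simpa using cl'⟩

end Pool.Agent.MP_3fd310_co
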