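import Pool.Agent.MP_3fd310_co.Fiber

set_option autoImplicit false
set_option linter.unusedSectionVars false

namespace Pool.Agent.MP_3fd310_co

theorem block_nbr {α : Type*} {K : α → Prop} {M L : List α} (h : SInf M L) (hK : ∀ v ∈ M, K v)
    (h2 : 2 ≤ M.length) {u : α} (hu : u ∈ M) : ∃ f, K f ∧ SInf [u, f] L := by
  obtain ⟨f, hf, h3⟩ := exists_nbr hu h2
  exact ⟨f, hK f hf, h3.trans h⟩

theorem block_tri {α : Type*} {K : α → Prop} {M L : List α} (h : SInf M L) (hK : ∀ v ∈ M, K v)
    (h3 : 3 ≤ M.length) : ∃ p y q, SInf [p, y, q] L ∧ K p ∧ K y ∧ K q := by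
  obtain ⟨t, p, y, q, rfl⟩ := three_suffix h3
  exact ⟨p, y, q, (SInf.of_infix ⟨t, [], by simp⟩).trans h, hK _ (by simp), hK _ (by simp),
    hK _ (by simp)⟩

theorem HP.pos {α : Type*} {A : α → α → Prop} {S : α → Prop} {x z : α} {L : List α}
    (h : HP A S x z L) : 1 ≤ L.length := by
  obtain ⟨t, rfl⟩ := h.eq_cons
  simp

variable {ι : Type*} [DecidableEq ι] [Finite ι]
variable {δ : ι → ℝ} {lo hi : ℝ} {c : ι} {R : List ι} {B : Finset ι}

theorem LH.zig0 (H : LH δ lo hi c R B) {y x z : Vx ι} (hy : IsV δ (lo - δ c) hi B R y)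
    (hx : Part0 δ lo R y x) (hz : Part1 δ hi c R y z) :
    ∃ L, HP (Adj δ lo hi) (Fib δ lo hi c R y) x z L ∧ Good δ lo hi c R y L ∧
      (Two δ lo hi c R y → L.length = 2) := by
  have hc := H.cX hy.1
  have pc := H.pos c
  have wc := W_insert (δ := δ) hc
  cases h0 : y.2 with
  | some k =>
    have e0 : ∀ v, Part0 δ lo R y v → v = (y.1, some k) :=
      fun v hv => part_twin (hi := hi) (c := c) (a := false) h0 hv
    have e1 : ∀ v, Part1 δ hi c R y v → v = (insert c y.1, some k) :=
      fun v hv => part_twin (lo := lo) (a := true) h0 hv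
    have hy' : IsV δ (lo - δ c) hi B R (y.1, some k) := by rw [← h0]; exact hy
    have p := (HP.single _ x).append (HP.single _ z)
      (by rw [e0 x hx, e1 z hz]; exact H.rung hy')
      (by
        rintro v rfl rfl
        exact (H.part0_c hy hx).1 (H.part1_c hz))
    refine ⟨[x] ++ [z], p.congr ?_, ⟨?_, by simp [h0], by simp [h0], ?_⟩, by simp⟩
    · intro v
      constructor
      · rintro (rfl | rfl)
        · exact Or.inl hx
        · exact Or.inr (Or.inr hz)
      · rintro (h | h | h)
        · exact Or.inl ((e0 v h).trans (e0 x hx).symm)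
        · simp [Cen, h0] at h
        · exact Or.inr ((e1 v h).trans (e1 z hz).symm)
    · intro k' hk'
      obtain rfl : k = k' := by simpa [h0] using hk'
      rw [e0 x hx, e1 z hz]
      exact Or.inl (by simp)
    · rintro ⟨a, u, v, hu, hv, ne⟩
      exact absurd ((part_twin h0 hu).trans (part_twin h0 hv).symm) ne
  | none =>
    have hz0 : lo - δ c ≤ W δ y.1 ∧ W δ y.1 ≤ hi := by
      rcases hy.2 with ⟨_, h⟩ | ⟨k, h, _⟩
      · exact h
      · simp [h0] at h
    obtain ⟨x', La, pa⟩ := exists_order_from (A := Adj δ lo hi) hx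
      (fun a b ha hb ne => H.clique hy false (Or.inl ha) (Or.inl hb) ne)
    obtain ⟨z', Lb', pb'⟩ := exists_order_from (A := Adj δ lo hi) hz
      (fun a b ha hb ne => H.clique hy true (Or.inl ha) (Or.inl hb) ne)
    have pb := pb'.rev (adj_symm δ lo hi)
    generalize Lb'.reverse = Lb at pb
    clear pb' Lb'
    have la := pa.pos
    have lb := pb.pos
    have vx' := H.fib_isV hy (Or.inl pa.mem_lt)
    have vz' := H.fib_isV hy (Or.inr (Or.inr pb.mem_hd))
    have nexz : x' ≠ z' := by
      rintro rfl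
      exact (H.part0_c hy pa.mem_lt).1 (H.part1_c pb.mem_hd)
    have big0 : ∀ u v, Part0 δ lo R y u → Part0 δ lo R y v → u ≠ v → 2 ≤ La.length :=
      fun u v hu hv ne => pa.two_le hu hv ne
    have big1 : ∀ u v, Part1 δ hi c R y u → Part1 δ hi c R y v → u ≠ v → 2 ≤ Lb.length :=
      fun u v hu hv ne => pb.two_le hu hv ne
    have two : Two δ lo hi c R y → La.length = 1 ∧ Lb.length = 1 := by
      intro h
      rw [pa.eq_single, pb.eq_single]
      · simp
      · intro a b ha hb
        by_contra ne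
        exact h.1 ⟨true, a, b, ha, hb, ne⟩
      · intro a b ha hb
        by_contra ne
        exact h.1 ⟨false, a, b, ha, hb, ne⟩
    by_cases h1 : W δ y.1 < lo
    · by_cases h2 : hi < W δ y.1 + δ c
      · have hm : Cen δ lo hi c y (y.1, some c) := ⟨h0, h1, h2, rfl⟩
        have p := (pa.append (HP.single _ (y.1, some c))
          (H.clique hy false (Or.inl pa.mem_lt) (Or.inr hm)
            (by rintro rfl; exact (H.part0_c hy pa.mem_lt).2 rfl))
          (by rintro v hv rfl; exact (H.part0_c hy hv).2 rfl)).append pb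
          (H.clique hy true (Or.inr hm) (Or.inl pb.mem_hd)
            (by rintro rfl; have := H.part1_c pb.mem_hd; exact hc this))
          (by
            rintro v (hv | rfl) hv'
            · exact (H.part0_c hy hv).1 (H.part1_c hv')
            · have := H.part1_c hv'; exact hc this)
        have iu : SInf (La ++ [(y.1, some c)]) (La ++ [(y.1, some c)] ++ Lb) :=
          SInf.of_infix ⟨[], Lb, by simp⟩
        have id : SInf ((y.1, some c) :: Lb) (La ++ [(y.1, some c)] ++ Lb) :=
          SInf.of_infix ⟨La, [], by simp⟩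
        have ku : ∀ v ∈ La ++ [(y.1, some c)], Up δ lo hi y.1 v := by
          intro v hv
          rcases List.mem_append.1 hv with hv | hv
          · exact H.part0_up hy h0 h1 ((pa.cov v).1 hv)
          · rw [List.mem_singleton.1 hv]; exact H.cen_up hy hm
        have kd : ∀ v ∈ (y.1, some c) :: Lb, Dn δ lo hi (insert c y.1) v := by
          intro v hv
          rcases List.mem_cons.1 hv with hv | hv
          · rw [hv]; exact H.cen_dn hy hm
          · exact H.part1_dn hy h0 h2 ((pb.cov v).1 hv)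
        refine ⟨_, p.congr ?_, ⟨by simp [h0], ?_, ?_, ?_⟩, fun h => absurd hm (h.2 _)⟩
        · intro v
          constructor
          · rintro ((h | rfl) | h)
            · exact Or.inl h
            · exact Or.inr (Or.inl hm)
            · exact Or.inr (Or.inr h)
          · rintro (h | h | h)
            · exact Or.inl (Or.inl h)
            · exact Or.inl (Or.inr h.2.2.2)
            · exact Or.inr h
        · intro _ _ u hu
          exact block_nbr iu ku (by simp; omega) (by simp [(pa.cov u).2 hu])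
        · intro _ _ u hu
          exact block_nbr id kd (by simp; omega) (by simp [(pb.cov u).2 hu])
        · rintro ⟨a, u, v, hu, hv, ne⟩
          cases a
          · have := big0 u v hu hv ne
            obtain ⟨p, q, r, h3, h4⟩ := block_tri iu ku (by simp; omega)
            exact ⟨p, q, r, h3, Or.inl ⟨y.1, hc, h1, by linarith [hz0.1], h4⟩⟩
          · have := big1 u v hu hv ne
            obtain ⟨p, q, r, h3, h4⟩ := block_tri id kd (by simp; omega)
            exact ⟨p, q, r, h3, Or.inr ⟨insert c y.1, by simp, by linarith, by linarith [hz0.2], h4⟩⟩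
      · have h2' := not_lt.1 h2
        have p := pa.append pb (up_adj H.pos H.tP vx' vz' h1 (H.part0_up hy h0 h1 pa.mem_lt)
          (H.part1_up hy h0 h2' pb.mem_hd).1 nexz)
          (fun v hv hv' => (H.part0_c hy hv).1 (H.part1_c hv'))
        have iu : SInf (La ++ Lb) (La ++ Lb) := SInf.of_infix List.infix_rfl
        have ku : ∀ v ∈ La ++ Lb, Up δ lo hi y.1 v := by
          intro v hv
          rcases List.mem_append.1 hv with hv | hv
          · exact H.part0_up hy h0 h1 ((pa.cov v).1 hv)
          · exact (H.part1_up hy h0 h2' ((pb.cov v).1 hv)).1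
        refine ⟨_, p.congr ?_, ⟨by simp [h0], ?_, fun _ h => absurd h h2, ?_⟩,
          fun h => by simp [two h]⟩
        · intro v
          constructor
          · rintro (h | h)
            · exact Or.inl h
            · exact Or.inr (Or.inr h)
          · rintro (h | h | h)
            · exact Or.inl h
            · exact absurd h.2.2.1 h2
            · exact Or.inr h
        · intro _ _ u hu
          exact block_nbr iu ku (by simp; omega) (by simp [(pa.cov u).2 hu])
        · rintro ⟨a, u, v, hu, hv, ne⟩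
          cases a
          · have := big0 u v hu hv ne
            obtain ⟨p, q, r, h3, h4⟩ := block_tri iu ku (by simp; omega)
            exact ⟨p, q, r, h3, Or.inl ⟨y.1, hc, h1, by linarith [hz0.1], h4⟩⟩
          · exact absurd ((H.part1_up hy h0 h2' hu).2.trans (H.part1_up hy h0 h2' hv).2.symm) ne
    · have h1' := not_lt.1 h1
      have h2 := (H.part0_dn hy h0 h1' hx).2.2
      have p := pa.append pb (dn_adj H.pos H.lh H.tP vx' vz' (by rw [wc]; exact h2)
        (H.part0_dn hy h0 h1' pa.mem_lt).1 (H.part1_dn hy h0 h2 pb.mem_hd) nexz)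
        (fun v hv hv' => (H.part0_c hy hv).1 (H.part1_c hv'))
      have iu : SInf (La ++ Lb) (La ++ Lb) := SInf.of_infix List.infix_rfl
      have kd : ∀ v ∈ La ++ Lb, Dn δ lo hi (insert c y.1) v := by
        intro v hv
        rcases List.mem_append.1 hv with hv | hv
        · exact (H.part0_dn hy h0 h1' ((pa.cov v).1 hv)).1
        · exact H.part1_dn hy h0 h2 ((pb.cov v).1 hv)
      refine ⟨_, p.congr ?_, ⟨by simp [h0], fun _ h => absurd h h1, ?_, ?_⟩,
        fun h => by simp [two h]⟩
      · intro v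
        constructor
        · rintro (h | h)
          · exact Or.inl h
          · exact Or.inr (Or.inr h)
        · rintro (h | h | h)
          · exact Or.inl h
          · exact absurd h.2.1 h1
          · exact Or.inr h
      · intro _ _ u hu
        exact block_nbr iu kd (by simp; omega) (by simp [(pb.cov u).2 hu])
      · rintro ⟨a, u, v, hu, hv, ne⟩
        cases a
        · exact absurd ((H.part0_dn hy h0 h1' hu).2.1.trans (H.part0_dn hy h0 h1' hv).2.1.symm) ne
        · have := big1 u v hu hv ne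
          obtain ⟨p, q, r, h3, h4⟩ := block_tri iu kd (by simp; omega)
          exact ⟨p, q, r, h3, Or.inr ⟨insert c y.1, by simp, by linarith, by linarith [hz0.2], h4⟩⟩

theorem LH.zig (H : LH δ lo hi c R B) {y x z : Vx ι} (hy : IsV δ (lo - δ c) hi B R y) (a : Bool)
    (hx : Part δ lo hi c R a y x) (hz : Part δ lo hi c R (!a) y z) :
    ∃ L, HP (Adj δ lo hi) (Fib δ lo hi c R y) x z L ∧ Good δ lo hi c R y L ∧
      (Two δ lo hi c R y → L.length = 2) := by
  cases a
  · exact H.zig0 hy hx hz
  · obtain ⟨L, h1, h2, h3⟩ := H.zig0 hy hz hx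
    exact ⟨L.reverse, h1.rev (adj_symm δ lo hi), h2.mono (SInf.of_infix List.infix_rfl).rev,
      by simpa using h3⟩

theorem LH.part_disj (H : LH δ lo hi c R B) {y v : Vx ι} (hy : IsV δ (lo - δ c) hi B R y)
    (a : Bool) (h : Part δ lo hi c R a y v) (h' : Part δ lo hi c R (!a) y v) : False := by
  cases a
  · exact (H.part0_c hy h).1 (H.part1_c h')
  · exact (H.part0_c hy h').1 (H.part1_c h)

theorem LH.part_cen (H : LH δ lo hi c R B) {y v : Vx ι} (hy : IsV δ (lo - δ c) hi B R y)
    (a : Bool) (h : Part δ lo hi c R a y v) (h' : Cen δ lo hi c y v) : False := by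
  cases a
  · exact (H.part0_c hy h).2 (by rw [h'.2.2.2])
  · have := H.part1_c h
    rw [h'.2.2.2] at this
    exact H.cX hy.1 this

theorem fib_iff (a : Bool) (y v : Vx ι) : Fib δ lo hi c R y v ↔
    Part δ lo hi c R a y v ∨ Cen δ lo hi c y v ∨ Part δ lo hi c R (!a) y v := by
  cases a
  · rfl
  · simp only [Fib, part_true, Bool.not_true, part_false]; tauto

theorem LH.host (H : LH δ lo hi c R B) {y x r r' z w w' : Vx ι} {S : Vx ι → Prop}
    {M : List (Vx ι)} (hy : IsV δ (lo - δ c) hi B R y) (a : Bool)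
    (hx : Part δ lo hi c R a y x) (hr : Part δ lo hi c R a y r)
    (hr' : Part δ lo hi c R (!a) y r') (hz : Part δ lo hi c R (!a) y z)
    (n1 : x ≠ r ∨ ∀ v, Part δ lo hi c R a y v → v = x)
    (n2 : r' ≠ z ∨ ∀ v, Part δ lo hi c R (!a) y v → v = r')
    (cb : ∀ v, Cen δ lo hi c y v → Big δ lo hi c R y)
    (hM : HP (Adj δ lo hi) S w w' M) (a1 : Adj δ lo hi r w) (a2 : Adj δ lo hi w' r')
    (d : ∀ v, Fib δ lo hi c R y v → ¬ S v) :
    ∃ L, HP (Adj δ lo hi) (fun v => Fib δ lo hi c R y v ∨ S v) x z L ∧ SInf M L ∧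
      (Two δ lo hi c R y → L.length = M.length + 2) := by
  obtain ⟨La, pa⟩ := exists_order (A := Adj δ lo hi) hx hr n1
    (fun u v hu hv ne => H.clique hy a (Or.inl hu) (Or.inl hv) ne)
  obtain ⟨Lb, pb⟩ := exists_order (A := Adj δ lo hi) hr' hz n2
    (fun u v hu hv ne => H.clique hy (!a) (Or.inl hu) (Or.inl hv) ne)
  have p := (pa.append hM a1 (fun v hv => d v hv.fib)).append pb a2 (by
    rintro v (hv | hv) hv'
    · exact H.part_disj hy a hv hv'
    · exact d v hv'.fib hv)
  have iM : SInf M (La ++ M ++ Lb) := SInf.of_infix ⟨La, Lb, rfl⟩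
  by_cases hc : ∃ m, Cen δ lo hi c y m
  · obtain ⟨m, hm⟩ := hc
    have key : ∃ b u v, Part δ lo hi c R b y u ∧ Part δ lo hi c R b y v ∧
        SInf [u, v] (La ++ M ++ Lb) := by
      obtain ⟨b, u, v, hu, hv, ne⟩ := cb m hm
      by_cases e : b = a
      · subst e
        obtain ⟨f, h1, h2⟩ := block_nbr (L := La ++ M ++ Lb) (M := La)
          (SInf.of_infix ⟨[], M ++ Lb, by simp⟩) (fun v hv => (pa.cov v).1 hv)
          (pa.two_le hu hv ne) ((pa.cov u).2 hu)
        exact ⟨b, u, f, hu, h1, h2⟩
      · obtain rfl : b = !a := by cases a <;> cases b <;> simp_all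
        obtain ⟨f, h1, h2⟩ := block_nbr (L := La ++ M ++ Lb) (M := Lb)
          (SInf.of_infix ⟨La ++ M, [], by simp⟩) (fun v hv => (pb.cov v).1 hv)
          (pb.two_le hu hv ne) ((pb.cov u).2 hu)
        exact ⟨_, u, f, hu, h1, h2⟩
    obtain ⟨b, u, v, hu, hv, e⟩ := key
    obtain ⟨L, q1, q2, _, _⟩ := p.insert (adj_symm δ lo hi) e (HP.single _ m)
      (H.clique hy b (Or.inl hu) (Or.inr hm) (by rintro rfl; exact H.part_cen hy b hu hm))
      (H.clique hy b (Or.inr hm) (Or.inl hv) (by rintro rfl; exact H.part_cen hy b hv hm))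
      (by
        rintro v ((h | h) | h) rfl
        · exact H.part_cen hy a h hm
        · exact d _ (Or.inr (Or.inl hm)) h
        · exact H.part_cen hy _ h hm)
    refine ⟨L, q1.congr ?_, ?_, fun h => absurd hm (h.2 m)⟩
    · intro v
      rw [fib_iff a]
      have : Cen δ lo hi c y v ↔ v = m :=
        ⟨fun h => h.2.2.2.trans hm.2.2.2.symm, fun h => h ▸ hm⟩
      rw [this]; tauto
    · rcases q2 M iM with h | h
      · exact h
      · exact absurd ((hM.cov u).1 (h.mem (by simp))) (d u hu.fib)
  · refine ⟨_, p.congr ?_, iM, ?_⟩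
    · intro v
      rw [fib_iff a]
      have : ¬ Cen δ lo hi c y v := fun h => hc ⟨v, h⟩
      tauto
    · intro h
      rw [pa.eq_single, pb.eq_single]
      · simp
      · intro u v hu hv
        by_contra ne
        exact h.1 ⟨_, u, v, hu, hv, ne⟩
      · intro u v hu hv
        by_contra ne
        exact h.1 ⟨_, u, v, hu, hv, ne⟩

/-- Zigzag lift of a path. -/
theorem LH.zp (H : LH δ lo hi c R B) {Y : List (Vx ι)} : ∀ {y y' : Vx ι} {S : Vx ι → Prop},
    HP (Adj δ (lo - δ c) hi) S y y' Y → (∀ v, S v → IsV δ (lo - δ c) hi B R v) →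
    ∀ (a : Bool) {x z : Vx ι}, Part δ lo hi c R a y x →
      Part δ lo hi c R (xor a Y.length.bodd) y' z →
      ∃ L, HP (Adj δ lo hi) (fun v => ∃ w, S w ∧ Fib δ lo hi c R w v) x z L ∧
        (∀ w, S w → Good δ lo hi c R w L) ∧ ((∀ w, S w → Two δ lo hi c R w) → Even L.length) := by
  induction Y with
  | nil => intro y y' S h; have := h.hd; simp at this
  | cons y0 t ih =>
    intro y y' S h hV a x z hx hz
    obtain rfl : y0 = y := by simpa using h.hd
    cases t with
    | nil =>
      obtain rfl : y0 = y' := by simpa using h.lt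
      have hS : ∀ w, S w ↔ w = y0 := fun w => by rw [← h.cov w]; simp
      obtain ⟨L, h1, h2, h3⟩ := H.zig (hV _ h.mem_hd) a hx (by simpa using hz)
      refine ⟨L, h1.congr ?_, ?_, ?_⟩
      · intro v; simp [hS]
      · intro w hw; rw [(hS w).1 hw]; exact h2
      · intro hw; rw [h3 (hw _ h.mem_hd)]; exact even_two
    | cons y2 t =>
      obtain ⟨y1, y2', p1, p2, ad, dj⟩ := HP.split (l1 := [y0]) (l2 := y2 :: t) h (by simp) (by simp)
      obtain rfl : y0 = y1 := by simpa using p1.lt
      have hS : ∀ w, S w ↔ w = y0 ∨ w ∈ y2 :: t := fun w => by rw [← h.cov w]; simp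
      have hV2 : ∀ v, v ∈ y2 :: t → IsV δ (lo - δ c) hi B R v :=
        fun v hv => hV v ((hS v).2 (Or.inr hv))
      have v0 := hV _ h.mem_hd
      obtain ⟨X, k, l, F, e1, e2⟩ := adj_face v0 (hV2 _ p2.mem_hd) ad
      obtain ⟨L1, h1, h2, h3⟩ := H.zig v0 a hx (e1 ▸ H.port F (!a))
      obtain ⟨L2, h4, h5, h6⟩ := ih p2 hV2 (!a) (e2 ▸ H.port F.symm (!a)) (z := z)
        (by
          simp only [List.length_cons, Nat.bodd_succ] at hz ⊢
          cases a <;> simpa using hz)
      have p := h1.append h4 (H.port_adj F (!a)) (by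
        rintro v hv ⟨w, hw, hw'⟩
        have := H.fib_uniq v0 (hV2 w hw) hv hw'
        subst this
        exact dj _ (by simp) hw)
      refine ⟨L1 ++ L2, p.congr ?_, ?_, ?_⟩
      · intro v
        simp only [hS]
        constructor
        · rintro (h | ⟨w, hw, hw'⟩)
          · exact ⟨y0, Or.inl rfl, h⟩
          · exact ⟨w, Or.inr hw, hw'⟩
        · rintro ⟨w, rfl | hw, hw'⟩
          · exact Or.inl hw'
          · exact Or.inr ⟨w, hw, hw'⟩
      · intro w hw
        rcases (hS w).1 hw with rfl | hw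
        · exact h2.mono (SInf.of_infix ⟨[], L2, by simp⟩)
        · exact (h5 w hw).mono (SInf.of_infix ⟨L1, [], by simp⟩)
      · intro hw
        rw [List.length_append, h3 (hw _ h.mem_hd)]
        exact even_two.add (h6 (fun w hw' => hw w ((hS w).2 (Or.inr hw'))))

theorem LH.cover (H : LH δ lo hi c R B) (v : Vx ι) :
    (∃ w, IsV δ (lo - δ c) hi B R w ∧ Fib δ lo hi c R w v) ↔ IsV δ lo hi B (c :: R) v :=
  ⟨fun ⟨_, h1, h2⟩ => H.fib_isV h1 h2, H.exists_fib⟩

end Pool.Agent.MP_3fd310_co
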