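import Pool.Agent.MP_3fd310_co.Lift

set_option autoImplicit false
set_option linter.unusedSectionVars false

namespace Pool.Agent.MP_3fd310_co

variable {ι : Type*} [DecidableEq ι] [Finite ι]

section defs
variable (δ : ι → ℝ) (lo hi : ℝ) (c : ι) (R : List ι) (B : Finset ι)

def IR (L : List (Vx ι)) : Prop :=
  ∀ S, InC B R S → W δ S + δ c < lo → (∀ k ∈ R, k ∉ S → hi < W δ S + δ k) → (∃ k ∈ R, k ∉ S) →
    ∃ k ∈ R, k ∉ S ∧ SInf [(S, some k), (insert c S, some k)] L

def IU (L : List (Vx ι)) : Prop :=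
  ∀ S, InC B R S → W δ S < lo → lo ≤ W δ S + δ c → (∀ k ∈ R, k ∉ S → hi < W δ S + δ k) →
    ∀ k ∈ R, k ∉ S → (S, some k) ∈ L → ∃ f, Up δ lo hi S f ∧ SInf [(S, some k), f] L

def ID (L : List (Vx ι)) : Prop :=
  ∀ S, InC B R S → W δ S ≤ hi → hi < W δ S + δ c → (∀ j ∈ R, j ∈ S → W δ S + δ c - δ j < lo) →
    ∀ j ∈ R, j ∈ S → ((insert c S).erase j, some j) ∈ L →
      ∃ f, Dn δ lo hi (insert c S) f ∧ SInf [((insert c S).erase j, some j), f] L

def Mu : Prop := ∃ X, InC B R X ∧ W δ X < lo ∧ hi < W δ X + δ c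

structure ZOut (x z : Vx ι) (L : List (Vx ι)) : Prop where
  hp : HP (Adj δ lo hi) (IsV δ lo hi B (c :: R)) x z L
  ir : IR δ lo hi c R B L
  iu : IU δ lo hi c R B L
  id : ID δ lo hi c R B L
  cl : Even L.length ∨ Tri δ lo hi c L ∨ (R.length ≤ 2 ∧ Mu δ lo hi c R B)

structure ZH : Prop where
  pos : ∀ i, 0 < δ i
  lh : lo ≤ hi
  cB : c ∉ B
  cR : c ∉ R
  fr : Fresh B R
  le : ∀ k ∈ R, δ c ≤ δ k
  so : R.Pairwise (fun a b => δ a ≤ δ b)
  tP : Thin δ lo hi B (c :: R)
  n1 : W δ B + δ c ≤ hi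
  n2 : lo ≤ W δ (tp B R)

end defs

variable {δ : ι → ℝ} {lo hi : ℝ} {c : ι} {R : List ι} {B : Finset ι}

theorem ZOut.rev {x z : Vx ι} {L : List (Vx ι)} (h : ZOut δ lo hi c R B x z L) :
    ZOut δ lo hi c R B z x L.reverse := by
  refine ⟨h.hp.rev (adj_symm _ _ _), ?_, ?_, ?_, ?_⟩
  · intro S a1 a2 a3 a4
    obtain ⟨k, b1, b2, b3⟩ := h.ir S a1 a2 a3 a4
    exact ⟨k, b1, b2, b3.rev⟩
  · intro S a1 a2 a3 a4 k a5 a6 a7
    obtain ⟨f, b1, b2⟩ := h.iu S a1 a2 a3 a4 k a5 a6 (by simpa using a7)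
    exact ⟨f, b1, b2.rev⟩
  · intro S a1 a2 a3 a4 k a5 a6 a7
    obtain ⟨f, b1, b2⟩ := h.id S a1 a2 a3 a4 k a5 a6 (by simpa using a7)
    exact ⟨f, b1, b2.rev⟩
  · rcases h.cl with h | h | h
    · left; simpa using h
    · right; left; exact h.mono (SInf.of_infix List.infix_rfl).rev
    · right; right; exact h

theorem W_sd {a : Bool} {X : Finset ι} (h : c ∉ X) :
    W δ (sd a c X) = W δ X + cond a (δ c) 0 := by
  cases a
  · simp
  · simp [W_insert h]

theorem tp_perm {σ : List ι} (h : σ.Perm R) (X : Finset ι) : tp X σ = tp X R := by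
  ext i; simp [h.mem_iff]

theorem ZH.fresh (H : ZH δ lo hi c R B) {σ : List ι} (h : σ.Perm R) (a : Bool) :
    Fresh (sd a c B) σ := by
  refine ⟨h.nodup_iff.2 H.fr.1, fun k hk => ?_⟩
  have hk' := h.mem_iff.1 hk
  have := H.fr.2 k hk'
  have : k ≠ c := by rintro rfl; exact H.cR hk'
  cases a <;> simp [*]

theorem ZH.gr_isV (H : ZH δ lo hi c R B) {σ : List ι} (h : σ.Perm R) (a : Bool) :
    IsV δ lo hi B (c :: R) (gr δ lo hi (sd a c B) σ) := by
  have := H.pos c
  have := H.n1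
  refine Pool.Agent.MP_3fd310_co.gr_isV (H.fresh h a) (fun k hk => by simp [h.mem_iff.1 hk]) ?_ ?_ ?_
  · cases a <;> simp [InC] <;> tauto
  · rw [W_sd H.cB]; cases a <;> simp <;> linarith
  · rw [tp_perm h]
    refine H.n2.trans (W_mono H.pos ?_)
    cases a <;> simp <;> tauto

theorem ZH.gr_ne_side (H : ZH δ lo hi c R B) {σ σ' : List ι} (h : σ.Perm R) (h' : σ'.Perm R)
    (a : Bool) : gr δ lo hi (sd a c B) σ ≠ gr δ lo hi (sd (!a) c B) σ' := by
  have k : ∀ σ σ' : List ι, σ.Perm R →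
      gr δ lo hi (sd false c B) σ ≠ gr δ lo hi (sd true c B) σ' := by
    intro σ σ' h e
    have h1 := (gr_sub (δ := δ) (lo := lo) (hi := hi) (sd true c B) σ').1 c (by simp)
    rw [← e] at h1
    rcases (gr_sub (δ := δ) (lo := lo) (hi := hi) (sd false c B) σ).2 c h1 with h2 | h2
    · exact H.cB h2
    · exact H.cR (h.mem_iff.1 h2)
  cases a
  · exact k σ σ' h
  · exact (k σ' σ h').symm

theorem ZH.ctop (H : ZH δ lo hi c R B) : W δ (tp B (c :: R)) = W δ (tp B R) + δ c := by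
  have : tp B (c :: R) = insert c (tp B R) := by ext; simp; tauto
  rw [this, W_insert (by simp [H.cB, H.cR])]

theorem clause_of_clique {K : Vx ι → Prop} {L : List (Vx ι)} (h2 : 2 ≤ L.length)
    (hK : ∀ v ∈ L, K v) :
    Even L.length ∨ ∃ p y q, SInf [p, y, q] L ∧ K p ∧ K y ∧ K q := by
  by_cases h : 3 ≤ L.length
  · exact Or.inr (block_tri (SInf.of_infix List.infix_rfl) hK h)
  · left
    have : L.length = 2 := by omega
    rw [this]; exact even_two

theorem ZH.leaf_bot (H : ZH δ lo hi c R B) (h0 : lo ≤ W δ B + δ c) {σ σ' : List ι}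
    (h : σ.Perm R) (h' : σ'.Perm R) (a : Bool) :
    ∃ L, ZOut δ lo hi c R B (gr δ lo hi (sd a c B) σ) (gr δ lo hi (sd (!a) c B) σ') L := by
  have cB : InC B (c :: R) B := by simp [InC]; tauto
  have hB : W δ B < lo := by
    by_contra hn
    have := H.tP B cB c (by simp) H.cB (not_lt.1 hn)
    linarith [H.n1]
  have up : ∀ v, IsV δ lo hi B (c :: R) v → Up δ lo hi B v := fun v hv =>
    simplexU H.pos H.tP hB (by
      intro k hk _
      rcases List.mem_cons.1 hk with rfl | hk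
      · exact h0
      · linarith [H.le k hk]) hv
  have ne := H.gr_ne_side h h' a
  obtain ⟨L, hL⟩ := exists_order (A := Adj δ lo hi) (H.gr_isV h a) (H.gr_isV h' (!a)) (Or.inl ne)
    (fun u v hu hv ne => up_adj H.pos H.tP hu hv hB (up u hu) (up v hv) ne)
  have l2 := hL.two_le hL.mem_hd hL.mem_lt ne
  have hK : ∀ v ∈ L, Up δ lo hi B v := fun v hv => up v ((hL.cov v).1 hv)
  refine ⟨L, hL, ?_, ?_, ?_, ?_⟩
  · intro S a1 a2
    have := W_mono H.pos a1.1
    linarith
  · intro S a1 a2 _ _ k _ _ a7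
    obtain rfl : S = B := by
      obtain ⟨j, _, ⟨_, e⟩ | ⟨_, _, e⟩⟩ := hK _ a7
      · exact (Prod.mk.inj e).1
      · simp at e
    exact block_nbr (SInf.of_infix List.infix_rfl) hK l2 a7
  · intro S a1 _ _ a4 j a5 a6
    have := a4 j a5 a6
    have := W_mono1 H.pos a1.1 (H.fr.2 j a5) a6
    linarith
  · rcases clause_of_clique l2 hK with h | ⟨p, y, q, h1, h2⟩
    · exact Or.inl h
    · exact Or.inr (Or.inl ⟨p, y, q, h1, Or.inl ⟨B, H.cB, hB, h0, h2⟩⟩)

theorem ZH.leaf_top (H : ZH δ lo hi c R B) (h0 : W δ (tp B R) ≤ hi) {σ σ' : List ι}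
    (h : σ.Perm R) (h' : σ'.Perm R) (a : Bool) :
    ∃ L, ZOut δ lo hi c R B (gr δ lo hi (sd a c B) σ) (gr δ lo hi (sd (!a) c B) σ') L := by
  have ct := H.ctop
  have hB : hi < W δ (tp B (c :: R)) := by
    rw [ct]
    exact H.tP _ (by simp [InC]; tauto) c (by simp) (by simp [H.cB, H.cR]) H.n2
  have dn : ∀ v, IsV δ lo hi B (c :: R) v → Dn δ lo hi (tp B (c :: R)) v := fun v hv =>
    simplexD H.pos H.tP hB (by
      intro k hk
      rcases List.mem_cons.1 hk with rfl | hk
      · linarith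
      · linarith [H.le k hk]) hv
  have ne := H.gr_ne_side h h' a
  obtain ⟨L, hL⟩ := exists_order (A := Adj δ lo hi) (H.gr_isV h a) (H.gr_isV h' (!a)) (Or.inl ne)
    (fun u v hu hv ne => dn_adj H.pos H.lh H.tP hu hv hB (dn u hu) (dn v hv) ne)
  have l2 := hL.two_le hL.mem_hd hL.mem_lt ne
  have hK : ∀ v ∈ L, Dn δ lo hi (tp B (c :: R)) v := fun v hv => dn v ((hL.cov v).1 hv)
  have sub : ∀ S, InC B R S → ∀ i ∈ S, i ∈ tp B R := fun S h i hi => mem_tp.2 (h.2 i hi)
  refine ⟨L, hL, ?_, ?_, ?_, ?_⟩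
  · rintro S a1 _ a3 ⟨k, a4, a5⟩
    have := a3 k a4 a5
    have := W_mono1 H.pos (sub S a1) a5 (by simp [a4])
    linarith
  · intro S a1 _ _ a4 k a5 a6
    have := a4 k a5 a6
    have := W_mono1 H.pos (sub S a1) a6 (by simp [a5])
    linarith
  · intro S a1 _ _ _ j a5 a6 a7
    have e : insert c S = tp B (c :: R) := by
      obtain ⟨i, hi, ⟨_, e⟩ | ⟨_, _, e⟩⟩ := hK _ a7
      · obtain rfl : j = i := by simpa using (Prod.mk.inj e).2
        have e1 := (Prod.mk.inj e).1
        rw [← Finset.insert_erase hi, ← e1, Finset.insert_erase (by simp [a6])]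
      · simp at e
    rw [e] at a7 ⊢
    exact block_nbr (SInf.of_infix List.infix_rfl) hK l2 a7
  · rcases clause_of_clique l2 hK with h | ⟨p, y, q, h1, h2⟩
    · exact Or.inl h
    · exact Or.inr (Or.inl ⟨p, y, q, h1, Or.inr ⟨_, by simp, hB, by linarith, h2⟩⟩)

theorem LH.gr_part (H : LH δ lo hi c R B) (a : Bool) {σ : List ι} : ∀ {X : Finset ι},
    InC B R X → Fresh X σ → (∀ k ∈ σ, k ∈ R) → W δ X < lo - δ c → hi < W δ (tp X σ) →
    Part δ lo hi c R a (gr δ (lo - δ c) hi X σ) (gr δ lo hi (sd a c X) σ) := by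
  have pc := H.pos c
  have lh := H.lh
  induction σ with
  | nil => intro X _ _ _ h1 h2; rw [tp_nil] at h2; linarith
  | cons k σ ih =>
    intro X cX fr hR h1 h2
    have hc := H.cX cX
    have hk : k ∉ X := fr.2 k (by simp)
    have hkR := hR k (by simp)
    have hkc : k ≠ c := by rintro rfl; exact H.cR hkR
    have wk := W_insert (δ := δ) hk
    have wc := W_insert (δ := δ) hc
    have ns : W δ (sd a c X) < lo := by rw [W_sd hc]; cases a <;> simp <;> linarith
    by_cases b1 : hi < W δ X + δ k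
    · rw [gr_pos _ h1 b1, gr_pos _ ns (by rw [W_sd hc]; cases a <;> simp <;> linarith)]
      cases a
      · exact Or.inl ⟨k, rfl, rfl⟩
      · exact Or.inl ⟨k, rfl, rfl⟩
    have b1' := not_lt.1 b1
    rw [gr_step _ h1 b1']
    rw [tp_cons] at h2
    by_cases b2 : W δ X + δ k < lo - δ c
    · rw [gr_step _ ns (by rw [W_sd hc]; cases a <;> simp <;> linarith)]
      have e : insert k (sd a c X) = sd a c (insert k X) := by
        cases a
        · rfl
        · exact Finset.insert_comm _ _ _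
      rw [e]
      exact ih (cX.insert hkR) fr.tail (fun j hj => hR j (by simp [hj])) (by linarith) h2
    have b2' := not_lt.1 b2
    rw [gr_nonneg _ (by linarith : lo - δ c ≤ W δ (insert k X))]
    cases a
    · rw [sd_false, gr_step _ (by linarith) b1']
      by_cases b3 : lo ≤ W δ (insert k X)
      · rw [gr_nonneg _ b3]
        exact Or.inr (Or.inl ⟨rfl, b3, rfl⟩)
      · cases σ with
        | nil => rw [tp_nil] at h2; linarith
        | cons l σ =>
          have hl := fr.tail.2 l (by simp)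
          have hlR := hR l (by simp)
          rw [gr_pos _ (not_le.1 b3) (H.tQ _ (cX.insert hkR) l hlR hl (by linarith))]
          exact Or.inr (Or.inr ⟨rfl, not_le.1 b3, l, hlR, hl, rfl⟩)
    · rw [sd_true] at ns ⊢
      by_cases b3 : hi < W δ (insert c X) + δ k
      · rw [gr_pos _ ns b3]
        refine Or.inr (Or.inr ⟨rfl, by simp only; linarith, k, hkR, by simp, ?_⟩)
        simp only [Prod.mk.injEq, and_true]
        ext i; simp only [Finset.mem_erase, Finset.mem_insert]; clear * - hk hkc; grind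
      · have w2 : W δ (insert k (insert c X)) = W δ X + δ c + δ k := by
          rw [W_insert (by simp [hk, hkc]), wc]
        rw [gr_step _ ns (not_lt.1 b3), gr_nonneg _ (by linarith), Finset.insert_comm]
        exact Or.inr (Or.inl ⟨rfl, by simp only; linarith, rfl⟩)

theorem gr_ne {d : ι} {τ : List ι} (fr : Fresh B (d :: τ)) (hτ : τ ≠ []) (h1 : W δ B < lo)
    (h2 : hi < W δ (tp B (τ ++ [d]))) (hv : IsV δ lo hi B R (gr δ lo hi B (τ ++ [d]))) :
    gr δ lo hi B (τ ++ [d]) ≠ gr δ lo hi B (d :: τ) := by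
  intro e
  have hd : d ∉ τ := (List.nodup_cons.1 fr.1).1
  have hdB : d ∉ B := fr.2 d (by simp)
  obtain ⟨τ1, τ2, e1, sh⟩ := gr_shape (δ := δ) (lo := lo) (hi := hi) (τ := τ ++ [d]) B
  rcases List.eq_nil_or_concat τ2 with rfl | ⟨τ3, x, rfl⟩
  · rw [List.append_nil] at e1
    subst e1
    rcases sh with sh | ⟨k, τ3, h, _⟩
    · rw [sh] at hv
      rcases hv.2 with ⟨_, _, h⟩ | ⟨k, h, _⟩
      · simp only at h; linarith
      · simp at h
    · simp at h
  · rw [List.concat_eq_append, ← List.append_assoc] at e1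
    obtain ⟨rfl, e2⟩ := List.append_inj' e1 rfl
    obtain rfl : d = x := by simpa using e2
    have n1 : d ∉ tp B τ1 := by simp [hdB]; grind
    by_cases b : hi < W δ B + δ d
    · rw [gr_pos _ h1 b] at e
      rw [e] at sh
      rcases sh with sh | ⟨k, τ4, h, sh⟩
      · simp at sh
      · obtain rfl : d = k := by simpa using (Prod.mk.inj sh).2
        have e3 := (Prod.mk.inj sh).1
        cases τ3 with
        | cons y t =>
          obtain rfl : y = d := by simpa using (List.cons.inj h).1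
          simp at hd
        | nil =>
          cases τ1 with
          | nil => simp at hτ
          | cons y t =>
            apply fr.2 y (by simp)
            rw [e3]; simp
    · rw [gr_step _ h1 (not_lt.1 b)] at e
      have := (gr_sub (δ := δ) (lo := lo) (hi := hi) (insert d B) (τ1 ++ τ3)).1 d (by simp)
      rw [← e] at this
      rcases sh with sh | ⟨k, τ4, h, sh⟩ <;> rw [sh] at this <;> exact n1 this

theorem ZH.leaf_zig {d : ι} {R' τ : List ι} (H : ZH δ lo hi c (d :: R') B) (h : τ.Perm R')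
    (h1 : W δ B + δ c < lo) (h2 : hi < W δ (tp B (d :: R')))
    (h3 : W δ (tp B R') < lo ∨ hi < W δ B + δ c + δ d) :
    ∃ π : Bool, ∀ a, ∃ L, ZOut δ lo hi c (d :: R') B (gr δ lo hi (sd a c B) (τ ++ [d]))
      (gr δ lo hi (sd (xor a π) c B) (d :: τ)) L := by
  have pc := H.pos c
  have lh := H.lh
  have lh' : lo - δ c ≤ hi := by linarith
  have hd : ∀ k ∈ d :: R', δ d ≤ δ k := by
    intro k hk
    rcases List.mem_cons.1 hk with rfl | hk
    · exact le_rfl
    · exact (List.pairwise_cons.1 H.so).1 k hk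
  have hdB : d ∉ B := H.fr.2 d (by simp)
  have hdR : d ∉ R' := (List.nodup_cons.1 H.fr.1).1
  have wt : W δ (tp B (d :: R')) = W δ (tp B R') + δ d := by
    have : tp B (d :: R') = insert d (tp B R') := by ext; simp; tauto
    rw [this, W_insert (by simp [hdB, hdR])]
  have tQ : Thin δ (lo - δ c) hi B (d :: R') := by
    intro X cX k hk hkX hX
    have sub : ∀ i ∈ X, i ∈ tp B (d :: R') := fun i hi => mem_tp.2 (cX.2 i hi)
    rcases h3 with h3 | h3
    · by_cases e : ∀ j ∈ tp B (d :: R'), j ∈ insert k X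
      · have := W_mono H.pos e
        rw [W_insert hkX] at this
        linarith
      · push Not at e
        obtain ⟨j, hj, hj'⟩ := e
        simp only [Finset.mem_insert, not_or] at hj'
        have hjR : j ∈ d :: R' := (mem_tp.1 hj).resolve_left (fun h => hj'.2 (cX.1 j h))
        have := W_mono2 H.pos sub hkX (mem_tp.2 (Or.inr hk)) hj'.2 hj (Ne.symm hj'.1)
        have := hd j hjR
        have := H.le k hk
        linarith
    · by_cases e : ∀ j ∈ X, j ∈ B
      · have := W_mono H.pos e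
        linarith
      · push Not at e
        obtain ⟨j, hj, hj'⟩ := e
        have := W_mono1 H.pos cX.1 hj' hj
        have := H.le j ((cX.2 j hj).resolve_left hj')
        have := hd k hk
        linarith
  have L : LH δ lo hi c (d :: R') B := ⟨H.pos, H.lh, H.cB, H.cR, H.fr, H.le, H.tP, tQ⟩
  have cl : ∀ u v, IsV δ (lo - δ c) hi B (d :: R') u → IsV δ (lo - δ c) hi B (d :: R') v →
      u ≠ v → Adj δ (lo - δ c) hi u v := by
    intro u v hu hv ne
    rcases h3 with h3 | h3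
    · have dn : ∀ v, IsV δ (lo - δ c) hi B (d :: R') v → Dn δ (lo - δ c) hi (tp B (d :: R')) v :=
        fun v hv => simplexD H.pos tQ h2 (fun k hk => by linarith [hd k hk]) hv
      exact dn_adj H.pos lh' tQ hu hv h2 (dn u hu) (dn v hv) ne
    · have up : ∀ v, IsV δ (lo - δ c) hi B (d :: R') v → Up δ (lo - δ c) hi B v :=
        fun v hv => simplexU H.pos tQ (by linarith) (fun k hk _ => by linarith [hd k hk]) hv
      exact up_adj H.pos tQ hu hv (by linarith) (up u hu) (up v hv) ne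
  have p1 : (τ ++ [d]).Perm (d :: R') := (List.perm_append_singleton d τ).trans (h.cons d)
  have p2 : (d :: τ).Perm (d :: R') := h.cons d
  have cB : InC B (d :: R') B := by simp [InC]; tauto
  have gv : ∀ σ : List ι, σ.Perm (d :: R') → IsV δ (lo - δ c) hi B (d :: R') (gr δ (lo - δ c) hi B σ) :=
    fun σ hσ => Pool.Agent.MP_3fd310_co.gr_isV (H.fresh hσ false) (fun k hk => hσ.mem_iff.1 hk) cB
      (by linarith) (by rw [tp_perm hσ]; linarith)
  have gp : ∀ σ : List ι, σ.Perm (d :: R') → ∀ a, Part δ lo hi c (d :: R') a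
      (gr δ (lo - δ c) hi B σ) (gr δ lo hi (sd a c B) σ) :=
    fun σ hσ a => L.gr_part a cB (H.fresh hσ false) (fun k hk => hσ.mem_iff.1 hk) (by linarith)
      (by rw [tp_perm hσ]; exact h2)
  obtain ⟨Y, hY⟩ := exists_order (A := Adj δ (lo - δ c) hi) (gv _ p1) (gv _ p2) (by
    by_cases e : τ = []
    · right
      subst e
      obtain rfl : R' = [] := h.symm.eq_nil
      have key : ∀ v, IsV δ (lo - δ c) hi B [d] v → v = (B, some d) := by
        rintro ⟨X, o⟩ ⟨cX, hv⟩
        simp only at cX hv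
        rw [tp_nil] at wt
        by_cases hdX : d ∈ X
        · have := W_mono1 H.pos cX.1 hdB hdX
          rcases hv with ⟨_, _, h⟩ | ⟨k, _, _, _, h, _⟩ <;> linarith
        · obtain rfl : X = B := by
            ext i
            refine ⟨fun hi => (cX.2 i hi).resolve_right ?_, cX.1 i⟩
            intro h
            obtain rfl : i = d := by simpa using h
            exact hdX hi
          rcases hv with ⟨_, h, _⟩ | ⟨k, rfl, h, _⟩
          · linarith
          · simpa using h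
      intro v hv
      exact (key v hv).trans (key _ (gv _ p1)).symm
    · left
      exact gr_ne (H.fresh p2 false) e (by linarith) (by rw [tp_perm p1]; exact h2) (gv _ p1)) cl
  refine ⟨Y.length.bodd, fun a => ?_⟩
  obtain ⟨M, m1, m2, m3⟩ := L.zp hY (fun _ h => h) a (gp _ p1 a) (gp _ p2 _)
  refine ⟨M, m1.congr L.cover, ?_, ?_, ?_, ?_⟩
  · rintro S a1 a2 a3 ⟨k, a4, a5⟩
    exact ⟨k, a4, a5, (m2 (S, some k) ⟨a1, Or.inr ⟨k, rfl, a4, a5, by simp only; linarith,
      a3 k a4 a5⟩⟩).1 k rfl⟩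
  · intro S a1 a2 a3 a4 k a5 a6 _
    exact (m2 (S, none) ⟨a1, Or.inl ⟨rfl, by simp only; linarith, by simp only; linarith⟩⟩).2.1
      rfl a2 _ (Or.inr (Or.inr ⟨rfl, a2, k, a5, a6, rfl⟩))
  · intro S a1 a2 a3 a4 k a5 a6 _
    exact (m2 (S, none) ⟨a1, Or.inl ⟨rfl, by simp only; linarith, a2⟩⟩).2.2.1
      rfl a3 _ (Or.inr (Or.inr ⟨rfl, a3, k, a5, a6, rfl⟩))
  · by_cases hb : ∃ g, IsV δ (lo - δ c) hi B (d :: R') g ∧ Big δ lo hi c (d :: R') g
    · obtain ⟨g, hg, hb⟩ := hb
      exact Or.inr (Or.inl ((m2 g hg).2.2.2 hb))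
    by_cases hc : ∃ g v, IsV δ (lo - δ c) hi B (d :: R') g ∧ Cen δ lo hi c g v
    · obtain ⟨g, v, hg, hc⟩ := hc
      refine Or.inr (Or.inr ⟨?_, g.1, hg.1, hc.2.1, hc.2.2.1⟩)
      by_contra hn
      exact hb ⟨g, hg, L.cen_big (by omega) hc⟩
    · exact Or.inl (m3 fun w hw => ⟨fun h => hb ⟨w, hw, h⟩, fun v hv => hc ⟨w, v, hw, hv⟩⟩)

end Pool.Agent.MP_3fd310_co
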