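import Pool.Agent.MP_3fd310_co.Zstep

set_option autoImplicit false
set_option linter.unusedSectionVars false

namespace Pool.Agent.MP_3fd310_co

variable {ι : Type*} [DecidableEq ι] [Finite ι]
variable {δ : ι → ℝ} {lo hi : ℝ} {c d : ι} {R : List ι} {B : Finset ι}

theorem dn_isV {S : Finset ι} {j : ι} (h : InC B R S) (j1 : j ∈ R) (j2 : j ∈ S) (j3 : j ∉ B)
    (hc : c ∉ S) (h1 : W δ S + δ c - δ j < lo) (h2 : hi < W δ S + δ c) :
    IsV δ lo hi B (c :: R) ((insert c S).erase j, some j) := by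
  have w : W δ ((insert c S).erase j) = W δ S + δ c - δ j := by
    rw [W_erase (by simp [j2]), W_insert hc]
  exact ⟨((inc_par h).insert (by simp)).erase j3, Or.inr ⟨j, rfl, by simp [j1], by simp,
    by simp only [w]; exact h1, by simp only [w]; linarith⟩⟩

theorem ZI.init (H : ZI δ lo hi c d R B) {x z j0 j1 : Vx ι} {L0 L1 M : List (Vx ι)}
    (h0 : ZOut δ lo hi c R B x j0 L0) (h1 : ZOut δ lo hi c R (insert d B) j1 z L1)
    (hp : HP (Adj δ lo hi) (fun v => v ∈ L0 ++ M ++ L1) x z (L0 ++ M ++ L1))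
    (mV : ∀ v ∈ M, IsV δ lo hi B (c :: d :: R) v)
    (tw : ∀ Y, TW δ lo hi c d R B Y → ((Y, some d) ∈ M ↔ (insert c Y, some d) ∈ M))
    (iuM : ∀ Y, SU δ lo hi c d R B Y → (Y, some d) ∈ M →
      ∃ f, Up δ lo hi Y f ∧ SInf [(Y, some d), f] (L0 ++ M ++ L1))
    (idM : ∀ Y, SD δ lo hi c d R B Y → (insert c Y, some d) ∈ M →
      ∃ f, Dn δ lo hi (insert c (insert d Y)) f ∧ SInf [(insert c Y, some d), f] (L0 ++ M ++ L1))
    (clM : Tri δ lo hi c (L0 ++ M ++ L1) ∨ (Even M.length ∧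
      (∀ Y, SU δ lo hi c d R B Y → (Y, some d) ∉ M) ∧
      ∀ Y, SD δ lo hi c d R B Y → (insert c Y, some d) ∉ M)) :
    St δ lo hi c d R B x z (L0 ++ M ++ L1) := by
  have i0 : SInf L0 (L0 ++ M ++ L1) := SInf.of_infix ⟨[], M ++ L1, by simp⟩
  have i1 : SInf L1 (L0 ++ M ++ L1) := SInf.of_infix ⟨L0 ++ M, [], by simp⟩
  have mid : ∀ X, (X, some d) ∈ L0 ++ M ++ L1 ↔ (X, some d) ∈ M := by
    intro X
    have a0 : (X, some d) ∉ L0 := fun h => H.not_child ((h0.hp.cov _).1 h)
    have a1 : (X, some d) ∉ L1 := fun h => H.not_child ((h1.hp.cov _).1 h)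
    simp [a0, a1]
  have c0 : ∀ S, InC B (d :: R) S → d ∉ S → InC B R S := by
    intro S h h'; clear * - h h'; unfold InC at *; grind
  have c1 : ∀ S, InC B (d :: R) S → d ∈ S → InC (insert d B) R S := by
    intro S h h'; clear * - h h'; unfold InC at *; grind
  have lcd := H.lcd
  have lh := H.lh
  have pc := H.pos c
  refine ⟨hp, ?_, fun v hv => i0.mem ((h0.hp.cov v).2 hv), fun v hv => i1.mem ((h1.hp.cov v).2 hv),
    fun Y hY => by rw [mid, mid]; exact tw Y hY, ?_, ?_, ?_, ?_⟩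
  · intro v hv
    simp only [List.mem_append] at hv
    rcases hv with (hv | hv) | hv
    · exact isV_par0 ((h0.hp.cov v).1 hv)
    · exact mV v hv
    · exact isV_par1 ((h1.hp.cov v).1 hv)
  · rintro S a1 a2 a3 ⟨k, a4, a5⟩
    by_cases hd : d ∈ S
    · have : k ∈ R := (List.mem_cons.1 a4).resolve_left (by rintro rfl; exact a5 hd)
      obtain ⟨j, b1, b2, b3⟩ := h1.ir S (c1 S a1 hd) a2 (fun k hk => a3 k (by simp [hk]))
        ⟨k, this, a5⟩
      exact ⟨j, by simp [b1], b2, b3.trans i1⟩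
    · obtain ⟨j, b1, b2, b3⟩ := h0.ir S (c0 S a1 hd) a2 (fun k hk => a3 k (by simp [hk]))
        (H.ex_out (c0 S a1 hd) (by linarith))
      exact ⟨j, by simp [b1], b2, b3.trans i0⟩
  · intro S a1 a2 a3 a4 k a5 a6 a7
    have a8 := a4 k a5 a6
    by_cases hd : d ∈ S
    · have : k ∈ R := (List.mem_cons.1 a5).resolve_left (by rintro rfl; exact a6 hd)
      obtain ⟨f, b1, b2⟩ := h1.iu S (c1 S a1 hd) a2 a3 (fun k hk => a4 k (by simp [hk])) k this a6
        ((h1.hp.cov _).2 ⟨inc_par (c1 S a1 hd), Or.inr ⟨k, rfl, by simp [this], a6, a2, a8⟩⟩)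
      exact ⟨f, b1, b2.trans i1⟩
    · rcases List.mem_cons.1 a5 with rfl | this
      · exact iuM S ⟨c0 S a1 hd, a2, a3, a8⟩ ((mid S).1 a7)
      · obtain ⟨f, b1, b2⟩ := h0.iu S (c0 S a1 hd) a2 a3 (fun k hk => a4 k (by simp [hk])) k this a6
          ((h0.hp.cov _).2 ⟨inc_par (c0 S a1 hd), Or.inr ⟨k, rfl, by simp [this], a6, a2, a8⟩⟩)
        exact ⟨f, b1, b2.trans i0⟩
  · intro S a1 a2 a3 a4 k a5 a6 a7
    have a8 := a4 k a5 a6
    have cS := H.cX' a1
    by_cases hd : d ∈ S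
    · rcases List.mem_cons.1 a5 with rfl | this
      · have e : (insert c S).erase k = insert c (S.erase k) := by
          have := H.cd
          ext i; simp only [Finset.mem_erase, Finset.mem_insert]; clear * - this; grind
        have w := W_erase (δ := δ) hd
        have := idM (S.erase k) ⟨c0 _ (a1.erase H.dB) (by simp), by linarith, by linarith,
          by linarith⟩ (by rw [← e]; exact (mid _).1 a7)
        rw [Finset.insert_erase hd, ← e] at this
        exact this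
      · obtain ⟨f, b1, b2⟩ := h1.id S (c1 S a1 hd) a2 a3 (fun k hk => a4 k (by simp [hk])) k this a6
          ((h1.hp.cov _).2 (dn_isV (c1 S a1 hd) this a6 (H.child1.fr.2 k this) cS a8 a3))
        exact ⟨f, b1, b2.trans i1⟩
    · have : k ∈ R := (List.mem_cons.1 a5).resolve_left (by rintro rfl; exact hd a6)
      obtain ⟨f, b1, b2⟩ := h0.id S (c0 S a1 hd) a2 a3 (fun k hk => a4 k (by simp [hk])) k this a6
        ((h0.hp.cov _).2 (dn_isV (c0 S a1 hd) this a6 (H.RB this) cS a8 a3))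
      exact ⟨f, b1, b2.trans i0⟩
  · rcases clM with h | ⟨e, n1, n2⟩
    · exact Or.inl h
    rcases h0.cl with e0 | t | ⟨_, X, x1, x2, x3⟩
    · rcases h1.cl with e1 | t | ⟨_, X, x1, x2, x3⟩
      · right; left
        rw [List.length_append, List.length_append]
        exact (e0.add e).add e1
      · exact Or.inl (t.mono i1)
      · right; right; right
        have hd : d ∈ X := x1.1 d (by simp)
        have w := W_erase (δ := δ) hd
        have s : SD δ lo hi c d R B (X.erase d) := by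
          refine ⟨?_, by linarith, by linarith, by linarith⟩
          have := H.dB
          clear * - this x1; unfold InC at *; grind
        exact ⟨_, s, by rw [mid]; exact n2 _ s⟩
    · exact Or.inl (t.mono i0)
    · right; right; left
      have s : SU δ lo hi c d R B X := ⟨x1, x2, by linarith, by linarith⟩
      exact ⟨_, s, by rw [mid]; exact n1 _ s⟩

theorem ZI.disj (H : ZI δ lo hi c d R B) {v : Vx ι} (h0 : IsV δ lo hi B (c :: R) v)
    (h1 : IsV δ lo hi (insert d B) (c :: R) v) : False := by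
  rcases h0.1.2 d (h1.1.1 d (by simp)) with h | h
  · exact H.dB h
  · rcases List.mem_cons.1 h with h | h
    · exact H.cd h.symm
    · exact H.dR h

theorem ZI.join {x z j0 j1 m m' : Vx ι} {L0 L1 M : List (Vx ι)} (H : ZI δ lo hi c d R B)
    (h0 : ZOut δ lo hi c R B x j0 L0) (h1 : ZOut δ lo hi c R (insert d B) j1 z L1)
    (hM : HP (Adj δ lo hi) (fun v => v ∈ M) m m' M) (hd : ∀ v ∈ M, v.2 = some d)
    (a1 : Adj δ lo hi j0 m) (a2 : Adj δ lo hi m' j1) :
    HP (Adj δ lo hi) (fun v => v ∈ L0 ++ M ++ L1) x z (L0 ++ M ++ L1) := by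
  have nc : ∀ B' v, IsV δ lo hi B' (c :: R) v → v ∉ M := by
    rintro B' ⟨X, o⟩ hv hm
    obtain rfl : o = some d := hd _ hm
    exact H.not_child hv
  have p := (h0.hp.append hM a1 (nc _)).append h1.hp a2 (by
    rintro v (hv | hv) hv'
    · exact H.disj hv hv'
    · exact nc _ v hv' hv)
  exact p.congr (fun v => (p.cov v).symm)

theorem ZI.route0 {x z j0 j1 : Vx ι} {L0 L1 : List (Vx ι)} (H : ZI δ lo hi c d R B)
    (h0 : ZOut δ lo hi c R B x j0 L0) (h1 : ZOut δ lo hi c R (insert d B) j1 z L1)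
    (a : Adj δ lo hi j0 j1) : ∃ L, ZOut δ lo hi c (d :: R) B x z L := by
  have p := h0.hp.append h1.hp a (fun v => H.disj)
  refine H.finish (H.init (M := []) h0 h1 ?_ (by simp) (by simp) (by simp) (by simp) (by simp))
  rw [List.append_nil]
  exact p.congr (fun v => (p.cov v).symm)

theorem ZI.routeU {x z j1 : Vx ι} {L0 L1 : List (Vx ι)} {Y : Finset ι} {k : ι}
    (H : ZI δ lo hi c d R B) (h0 : ZOut δ lo hi c R B x (Y, some k) L0)
    (h1 : ZOut δ lo hi c R (insert d B) j1 z L1) (hY : SU δ lo hi c d R B Y) (k1 : k ∈ R)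
    (k2 : k ∉ Y) (a : Adj δ lo hi (Y, some d) j1) : ∃ L, ZOut δ lo hi c (d :: R) B x z L := by
  obtain ⟨cY, y1, y2, y3⟩ := hY
  have hd := H.dX cY
  have hc := H.cX cY
  have allp : ∀ k ∈ R, k ∉ Y → hi < W δ Y + δ k := fun k hk _ => by linarith [H.ld hk]
  have uk : Up δ lo hi Y (Y, some k) := ⟨k, k2, Or.inl ⟨allp k k1 k2, rfl⟩⟩
  have um : Up δ lo hi Y (Y, some d) := ⟨d, hd, Or.inl ⟨y3, rfl⟩⟩
  have vm := H.midV0 cY y1 y3
  have kd : k ≠ d := by rintro rfl; exact H.dR k1
  obtain ⟨f, uf, e⟩ := h0.iu Y cY y1 y2 allp k k1 k2 ((h0.hp.cov _).2 h0.hp.mem_lt)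
  obtain ⟨t, rfl⟩ := h0.hp.last_nbr e
  refine H.finish (H.init (M := [(Y, some d)]) h0 h1
    (H.join h0 h1 ((HP.single _ _).congr (by simp)) (by simp)
      (up_adj H.pos H.tP (isV_par0 h0.hp.mem_lt) vm y1 uk um (by simp [kd])) a)
    (by simp [vm]) ?_ ?_ ?_
    (Or.inl ⟨f, _, _, SInf.of_infix ⟨t, L1, by simp⟩, Or.inl ⟨Y, hc, y1, y2, uf, uk, um⟩⟩))
  · intro Z hZ
    simp only [List.mem_singleton, Prod.mk.injEq, and_true]
    constructor
    · rintro rfl; linarith [hZ.2.1]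
    · rintro rfl; simp at hc
  · intro Z _ h
    obtain rfl : Z = Y := by simpa using h
    exact ⟨_, uk, Or.inr ⟨t ++ [f], L1, by simp⟩⟩
  · intro Z _ h
    obtain rfl : insert c Z = Y := by simpa using h
    simp at hc

theorem ZI.routeD {x z j0 : Vx ι} {L0 L1 : List (Vx ι)} {Y : Finset ι} {k : ι}
    (H : ZI δ lo hi c d R B) (h0 : ZOut δ lo hi c R B x j0 L0)
    (h1 : ZOut δ lo hi c R (insert d B) ((insert c (insert d Y)).erase k, some k) z L1)
    (hY : SD δ lo hi c d R B Y) (k1 : k ∈ R)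
    (k2 : k ∈ Y) (a : Adj δ lo hi j0 (insert c Y, some d)) :
    ∃ L, ZOut δ lo hi c (d :: R) B x z L := by
  obtain ⟨cY, y1, y3, y2⟩ := hY
  have hc := H.cX cY
  have hd := H.dX cY
  have cd := H.cd
  have wd := W_insert (δ := δ) hd
  have cS : InC (insert d B) R (insert d Y) := by clear * - cY; unfold InC at *; grind
  have hc' : c ∉ insert d Y := by simp [hc, cd]
  have wT : W δ (insert c (insert d Y)) = W δ Y + δ d + δ c := by rw [W_insert hc', wd]
  have alln : ∀ j ∈ R, j ∈ insert d Y → W δ (insert d Y) + δ c - δ j < lo :=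
    fun j hj _ => by linarith [H.ld hj]
  have kd : k ≠ d := by rintro rfl; exact hd k2
  have k3 := alln k k1 (by simp [k2])
  obtain ⟨f, uf, e⟩ := h1.id (insert d Y) cS (by linarith) (by linarith) alln k k1 (by simp [k2])
    ((h1.hp.cov _).2 h1.hp.mem_hd)
  obtain ⟨t, ht⟩ := (h1.hp.rev (adj_symm _ _ _)).last_nbr e.rev
  obtain rfl : L1 = ((insert c (insert d Y)).erase k, some k) :: f :: t.reverse := by
    have := congrArg List.reverse ht
    simpa using this
  have em : (insert c (insert d Y)).erase d = insert c Y := by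
    ext i; simp only [Finset.mem_erase, Finset.mem_insert]; clear * - hd cd; grind
  have uk : Dn δ lo hi (insert c (insert d Y)) ((insert c (insert d Y)).erase k, some k) :=
    ⟨k, by simp [k2], Or.inl ⟨by linarith, rfl⟩⟩
  have um : Dn δ lo hi (insert c (insert d Y)) (insert c Y, some d) :=
    ⟨d, by simp, Or.inl ⟨by linarith, by rw [em]⟩⟩
  have vm := H.midV1 cY y1 y2
  refine H.finish (H.init (M := [(insert c Y, some d)]) h0 h1
    (H.join h0 h1 ((HP.single _ _).congr (by simp)) (by simp) a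
      (dn_adj H.pos H.lh H.tP vm (isV_par1 h1.hp.mem_hd) (by linarith) um uk (by simp [kd.symm])))
    (by simp [vm]) ?_ ?_ ?_
    (Or.inl ⟨_, _, f, SInf.of_infix ⟨L0, t.reverse, by simp⟩,
      Or.inr ⟨_, by simp, by linarith, by linarith, um, uk, uf⟩⟩))
  · intro Z hZ
    have cZ := H.cX hZ.1
    simp only [List.mem_singleton, Prod.mk.injEq, and_true]
    constructor
    · rintro rfl; simp at cZ
    · intro h
      obtain rfl : Z = Y := same_face cZ hc h
      linarith [hZ.2.2]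
  · intro Z hZ h
    obtain rfl : Z = insert c Y := by simpa using h
    have := H.cX hZ.1
    simp at this
  · intro Z hZ h
    obtain rfl : Z = Y := same_face (H.cX hZ.1) hc (by simpa using h)
    exact ⟨_, uk, SInf.of_infix ⟨L0, f :: t.reverse, by simp⟩⟩

theorem ZI.routeT {x z j0 j1 : Vx ι} {L0 L1 : List (Vx ι)} {Y : Finset ι}
    (H : ZI δ lo hi c d R B) (h0 : ZOut δ lo hi c R B x j0 L0)
    (h1 : ZOut δ lo hi c R (insert d B) j1 z L1) (hY : TW δ lo hi c d R B Y) (s : Bool)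
    (a1 : Adj δ lo hi j0 (sd s c Y, some d)) (a2 : Adj δ lo hi (sd (!s) c Y, some d) j1) :
    ∃ L, ZOut δ lo hi c (d :: R) B x z L := by
  obtain ⟨cY, y1, y2⟩ := hY
  have hc := H.cX cY
  have hd := H.dX cY
  have pc := H.pos c
  have ne : (Y, some d) ≠ (insert c Y, some d) := by
    intro h; exact hc ((Prod.mk.inj h).1 ▸ Finset.mem_insert_self c Y)
  have ad : Adj δ lo hi (Y, some d) (insert c Y, some d) :=
    ⟨Y, d, c, H.cd.symm, hd, hc, by linarith, by linarith, (pt_pos y2).symm,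
      (pt_neg H.lh y1).symm⟩
  have pM := (HP.single (Adj δ lo hi) (sd s c Y, some d)).append
    (HP.single _ (sd (!s) c Y, some d)) (by cases s; exact ad; exact ad.symm)
    (by rintro v rfl h; cases s; exact ne h; exact ne h.symm)
  have mem : ∀ X : Finset ι, (X, some d) ∈ [(sd s c Y, some d), (sd (!s) c Y, some d)] ↔
      X = Y ∨ X = insert c Y := by
    intro X; cases s <;> simp; tauto
  have n1 : ∀ Z, SU δ lo hi c d R B Z →
      (Z, some d) ∉ [(sd s c Y, some d), (sd (!s) c Y, some d)] := by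
    intro Z hZ
    rw [mem]
    rintro (rfl | rfl)
    · linarith [hZ.2.2.1]
    · have := H.cX hZ.1
      simp at this
  have n2 : ∀ Z, SD δ lo hi c d R B Z →
      (insert c Z, some d) ∉ [(sd s c Y, some d), (sd (!s) c Y, some d)] := by
    intro Z hZ
    rw [mem]
    rintro (rfl | h)
    · simp at hc
    · obtain rfl : Z = Y := same_face (H.cX hZ.1) hc h
      linarith [hZ.2.2.1]
  refine H.finish (H.init (M := [(sd s c Y, some d), (sd (!s) c Y, some d)]) h0 h1
    (H.join h0 h1 (pM.congr (by simp)) (by simp) a1 a2) ?_ ?_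
    (fun Z hZ h => absurd h (n1 Z hZ)) (fun Z hZ h => absurd h (n2 Z hZ))
    (Or.inr ⟨even_two, n1, n2⟩))
  · have v0 := H.midV0 cY (by linarith) y2
    have v1 := H.midV1 cY y1 (by linarith)
    cases s <;> simp [v0, v1]
  · intro Z hZ
    have cZ := H.cX hZ.1
    rw [mem, mem]
    constructor
    · rintro (rfl | rfl)
      · exact Or.inr rfl
      · simp at cZ
    · rintro (rfl | h)
      · simp at hc
      · exact Or.inl (same_face cZ hc h)

theorem tp_sd (a : Bool) (X : Finset ι) (τ : List ι) : tp (sd a c X) τ = sd a c (tp X τ) := by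
  cases a
  · rfl
  · ext i; simp; tauto

theorem sd_insert (a : Bool) (X : Finset ι) : insert d (sd a c X) = sd a c (insert d X) := by
  cases a
  · rfl
  · exact Finset.insert_comm _ _ _

/-- Adjacency data at a crossing in direction d on side s. -/
theorem ZI.mid_adj (H : ZI δ lo hi c d R B) {τ1 τ2 : List ι} (hτ : (τ1 ++ τ2).Perm R) (s : Bool)
    (h4 : W δ (sd s c (tp B τ1)) < lo) (h5 : hi < W δ (sd s c (tp B τ1)) + δ d) :
    InC B R (tp B τ1) ∧
    (∃ k ∈ R, k ∉ tp B τ1 ∧ gr δ lo hi (sd s c B) (τ1 ++ τ2) = (sd s c (tp B τ1), some k)) ∧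
    (∃ j ∈ R, j ∈ tp B τ1 ∧ gr δ lo hi (sd s c (insert d B)) (τ1 ++ τ2) =
      ((sd s c (insert d (tp B τ1))).erase j, some j)) ∧
    Adj δ lo hi (gr δ lo hi (sd s c B) (τ1 ++ τ2)) (sd s c (tp B τ1), some d) ∧
    Adj δ lo hi (sd s c (tp B τ1), some d) (gr δ lo hi (sd s c (insert d B)) (τ1 ++ τ2)) := by
  have fr := H.child0.fresh hτ s
  have pc := H.pos c
  have hR : ∀ k ∈ τ1 ++ τ2, k ∈ R := fun k hk => hτ.mem_iff.1 hk
  have dB : d ∉ sd s c B := by
    have := H.dB; have := H.cd.symm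
    cases s <;> simp [*]
  obtain ⟨⟨k, k1, k2⟩, j, j1, j2⟩ := gr_mid (lo := lo) (hi := hi) (c := d) H.pos H.lh fr dB
    (fun h => H.dR (hR d h)) (fun k hk => H.ld (hR k hk))
    (by rw [W_sd H.cB]; have := H.nb; cases s <;> simp <;> linarith)
    (by
      rw [tp_perm hτ]
      refine H.nt.trans (W_mono H.pos ?_)
      cases s <;> simp; tauto)
    (by rwa [tp_sd]) (by rwa [tp_sd])
  rw [tp_sd] at k2 j2
  rw [sd_insert] at j2
  have cY : InC B R (tp B τ1) := ⟨by simp; tauto, fun i hi =>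
    (mem_tp.1 hi).imp id (fun h => hR i (by simp [h]))⟩
  have kR := hR k (by simp [k1])
  have jR := hR j (by simp [j1])
  have kY : k ∉ tp B τ1 := by
    have := H.RB kR
    have nd := (List.nodup_append.1 fr.1).2.2
    simp only [mem_tp, this, false_or]
    exact fun h => nd k h k k1 rfl
  have jY : j ∈ tp B τ1 := by simp [j1]
  generalize tp B τ1 = Y at *
  have hc := H.cX cY
  have hd := H.dX cY
  have kc : k ≠ c := by rintro rfl; exact H.cR' kR
  have kd : k ≠ d := by rintro rfl; exact H.dR kR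
  have jd : j ≠ d := by rintro rfl; exact H.dR jR
  have kX : k ∉ sd s c Y := by cases s <;> simp [*]
  have dX : d ∉ sd s c Y := by have := H.cd.symm; cases s <;> simp [*]
  have jX : j ∈ sd s c Y := by cases s <;> simp [*]
  have lk := H.ld kR
  have lj := H.ld jR
  have pk := H.pos k
  have pj := H.pos j
  have pd := H.pos d
  refine ⟨cY, ⟨k, kR, kY, k2⟩, ⟨j, jR, jY, by rw [j2, sd_insert]⟩, ?_, ?_⟩
  · rw [k2]
    exact ⟨_, k, d, kd, kX, dX, h4, by linarith, (pt_pos (by linarith)).symm, (pt_pos h5).symm⟩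
  · rw [j2]
    generalize sd s c Y = X at *
    have w := W_erase (δ := δ) jX
    refine ⟨X.erase j, j, d, jd, by simp, by simp [dX], by linarith, by linarith, ?_, ?_⟩
    · rw [pt_neg H.lh (by linarith), Finset.insert_erase jX]
    · rw [pt_neg H.lh (by linarith), Finset.erase_insert_of_ne jd.symm]

inductive Uni : List ι → List ι → Prop
  | nil : Uni [] []
  | fr {R τ : List ι} (e : ι) : Uni R τ → Uni (e :: R) (e :: τ)
  | bk {R τ : List ι} (e : ι) : Uni R τ → Uni (e :: R) (τ ++ [e])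

theorem Uni.perm {R τ : List ι} (h : Uni R τ) : τ.Perm R := by
  induction h with
  | nil => exact List.Perm.refl _
  | fr e _ ih => exact ih.cons e
  | bk e _ ih => exact (List.perm_append_singleton _ _).trans (ih.cons e)

theorem ZI.internal (H : ZI δ lo hi c d R B) (hn : W δ B + δ c < lo) {τ σ : List ι}
    (hτ : τ.Perm R) (hσ : σ.Perm R) {π0 π1 : Bool}
    (h0 : ∀ a, ∃ L, ZOut δ lo hi c R B (gr δ lo hi (sd a c B) τ)
      (gr δ lo hi (sd (xor a π0) c B) σ) L)
    (h1 : ∀ a, ∃ L, ZOut δ lo hi c R (insert d B) (gr δ lo hi (sd a c (insert d B)) τ)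
      (gr δ lo hi (sd (xor a π1) c (insert d B)) σ) L) :
    ∃ π : Bool, ∀ a, ∃ L, ZOut δ lo hi c (d :: R) B (gr δ lo hi (sd a c B) (τ ++ [d]))
      (gr δ lo hi (sd (xor a π) c B) (d :: τ)) L := by
  have pc := H.pos c
  have e1 : ∀ a, gr δ lo hi (sd a c B) (τ ++ [d]) = gr δ lo hi (sd a c B) τ := by
    intro a
    apply gr_append
    rw [tp_perm hτ]
    refine H.nt.trans (W_mono H.pos ?_)
    cases a <;> simp; tauto
  have w1 : ∀ a, W δ (sd a c B) < lo := by
    intro a; rw [W_sd H.cB]; cases a <;> simp <;> linarith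
  have w2 : ∀ a, W δ (sd a c B) + δ d ≤ hi := by
    intro a; rw [W_sd H.cB]; have := H.nb; cases a <;> simp <;> linarith
  have e2 : ∀ a, gr δ lo hi (sd a c B) (d :: τ) = gr δ lo hi (sd a c (insert d B)) τ := by
    intro a
    rw [gr_step _ (w1 a) (w2 a), sd_insert]
  have h1' : ∀ b, ∃ L, ZOut δ lo hi c R (insert d B) (gr δ lo hi (sd b c (insert d B)) σ)
      (gr δ lo hi (sd (xor b π1) c (insert d B)) τ) L := by
    intro b
    obtain ⟨L, hL⟩ := h1 (xor b π1)
    refine ⟨L.reverse, ?_⟩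
    have := hL.rev
    simpa using this
  simp only [e1, e2]
  by_cases tw : ∃ τ1 τ2, σ = τ1 ++ τ2 ∧ W δ (tp B τ1) + δ c < lo ∧ hi < W δ (tp B τ1) + δ d
  · obtain ⟨τ1, τ2, rfl, t1, t2⟩ := tw
    refine ⟨xor (!π0) π1, fun a => ?_⟩
    obtain ⟨L0, p0⟩ := h0 a
    obtain ⟨L1, p1⟩ := h1' (!(xor a π0))
    have cY := (H.mid_adj hσ false (by simp; linarith) (by simpa using t2)).1
    have hc := H.cX cY
    have m : ∀ s, W δ (sd s c (tp B τ1)) < lo ∧ hi < W δ (sd s c (tp B τ1)) + δ d := by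
      intro s; rw [W_sd hc]; cases s <;> simp <;> constructor <;> linarith
    have e : xor (!(xor a π0)) π1 = xor a (xor (!π0) π1) := by
      cases a <;> cases π0 <;> cases π1 <;> rfl
    rw [← e]
    exact H.routeT p0 p1 ⟨cY, t1, t2⟩ (xor a π0) (H.mid_adj hσ _ (m _).1 (m _).2).2.2.2.1
      (H.mid_adj hσ _ (m _).1 (m _).2).2.2.2.2
  · refine ⟨xor π0 π1, fun a => ?_⟩
    obtain ⟨L0, p0⟩ := h0 a
    obtain ⟨L1, p1⟩ := h1' (xor a π0)
    rw [← Bool.xor_assoc]
    generalize xor a π0 = s at p0 p1 ⊢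
    have dB : d ∉ sd s c B := by
      have := H.dB; have := H.cd.symm
      cases s <;> simp [*]
    rcases gr_route H.pos H.lh H.tP (c := d) (by simp) (H.child0.fresh hσ s) dB
      (fun h => H.dR (hσ.mem_iff.1 h))
      (fun k hk => ⟨by simp [hσ.mem_iff.1 hk], H.ld (hσ.mem_iff.1 hk)⟩)
      (by cases s <;> simp [InC] <;> tauto) (w1 s) (w2 s)
      (by
        rw [tp_perm hσ]
        refine H.nt.trans (W_mono H.pos ?_)
        cases s <;> simp; tauto) with a | ⟨τ1, τ2, rfl, t1, t2⟩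
    · rw [sd_insert] at a
      exact H.route0 p0 p1 a
    · rw [tp_sd] at t1 t2
      obtain ⟨cY, ⟨k, k1, k2, k3⟩, ⟨j, j1, j2, j3⟩, a1, a2⟩ := H.mid_adj hσ s t1 t2
      have hc := H.cX cY
      have nt : ¬ (W δ (tp B τ1) + δ c < lo ∧ hi < W δ (tp B τ1) + δ d) :=
        fun h => tw ⟨τ1, τ2, rfl, h⟩
      cases s
      · rw [k3] at p0
        exact H.routeU p0 p1 ⟨cY, t1, not_lt.1 (fun h => nt ⟨h, t2⟩), t2⟩ k1 k2 a2
      · rw [j3] at p1
        rw [sd_true, W_insert hc] at t1 t2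
        exact H.routeD p0 p1 ⟨cY, t1, not_lt.1 (fun h => nt ⟨t1, h⟩), t2⟩ j1 j2 a1

theorem zthm {R : List ι} : ∀ {d : ι} {B : Finset ι} {τ : List ι}, ZH δ lo hi c (d :: R) B →
    Uni R τ → ∃ π : Bool, ∀ a, ∃ L, ZOut δ lo hi c (d :: R) B (gr δ lo hi (sd a c B) (τ ++ [d]))
      (gr δ lo hi (sd (xor a π) c B) (d :: τ)) L := by
  have leaf : ∀ {R : List ι} {d : ι} {B : Finset ι} {τ : List ι}, ZH δ lo hi c (d :: R) B →
      τ.Perm R → (∃ π : Bool, ∀ a, ∃ L, ZOut δ lo hi c (d :: R) B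
        (gr δ lo hi (sd a c B) (τ ++ [d])) (gr δ lo hi (sd (xor a π) c B) (d :: τ)) L) ∨
        (ZI δ lo hi c d R B ∧ W δ B + δ c < lo) := by
    intro R d B τ H h
    have p1 : (τ ++ [d]).Perm (d :: R) := (List.perm_append_singleton d τ).trans (h.cons d)
    have p2 : (d :: τ).Perm (d :: R) := h.cons d
    by_cases a1 : lo ≤ W δ B + δ c
    · exact Or.inl ⟨true, fun a => by simpa using H.leaf_bot a1 p1 p2 a⟩
    by_cases a2 : W δ (tp B (d :: R)) ≤ hi
    · exact Or.inl ⟨true, fun a => by simpa using H.leaf_top a2 p1 p2 a⟩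
    by_cases a3 : W δ (tp B R) < lo ∨ hi < W δ B + δ c + δ d
    · exact Or.inl (H.leaf_zig h (not_le.1 a1) (not_le.1 a2) a3)
    · push Not at a3
      exact Or.inr ⟨⟨H, a3.1, a3.2⟩, not_le.1 a1⟩
  induction R with
  | nil =>
    intro d B τ H h
    rcases leaf H h.perm with h | ⟨H', h'⟩
    · exact h
    · have := H'.nt
      rw [tp_nil] at this
      linarith [H.pos c]
  | cons e R ih =>
    intro d B τ H h
    rcases leaf H h.perm with h | ⟨H', h'⟩
    · exact h
    cases h with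
    | fr _ h =>
      rename_i τ
      obtain ⟨π0, h0⟩ := ih H'.child0 h
      obtain ⟨π1, h1⟩ := ih H'.child1 h
      refine H'.internal h' (h.perm.cons e)
        ((List.perm_append_singleton e τ).trans (h.perm.cons e)) (π0 := π0) (π1 := π1) ?_ ?_
      · intro a
        obtain ⟨L, hL⟩ := h0 (xor a π0)
        exact ⟨L.reverse, by simpa using hL.rev⟩
      · intro a
        obtain ⟨L, hL⟩ := h1 (xor a π1)
        exact ⟨L.reverse, by simpa using hL.rev⟩
    | bk _ h =>
      rename_i τ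
      obtain ⟨π0, h0⟩ := ih H'.child0 h
      obtain ⟨π1, h1⟩ := ih H'.child1 h
      exact H'.internal h' ((List.perm_append_singleton e τ).trans (h.perm.cons e))
        (h.perm.cons e) h0 h1

end Pool.Agent.MP_3fd310_co
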