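import Pool.Agent.MP_3fd310_co.Zleaf

set_option autoImplicit false
set_option linter.unusedSectionVars false

namespace Pool.Agent.MP_3fd310_co

variable {ι : Type*} [DecidableEq ι] [Finite ι]

section defs
variable (δ : ι → ℝ) (lo hi : ℝ) (c d : ι) (R : List ι) (B : Finset ι)

def SU (Y : Finset ι) : Prop :=
  InC B R Y ∧ W δ Y < lo ∧ lo ≤ W δ Y + δ c ∧ hi < W δ Y + δ d

def SD (Y : Finset ι) : Prop :=
  InC B R Y ∧ W δ Y + δ c < lo ∧ W δ Y + δ d ≤ hi ∧ hi < W δ Y + δ c + δ d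

def TW (Y : Finset ι) : Prop := InC B R Y ∧ W δ Y + δ c < lo ∧ hi < W δ Y + δ d

structure St (x z : Vx ι) (L : List (Vx ι)) : Prop where
  hp : HP (Adj δ lo hi) (fun v => v ∈ L) x z L
  sub : ∀ v ∈ L, IsV δ lo hi B (c :: d :: R) v
  v0 : ∀ v, IsV δ lo hi B (c :: R) v → v ∈ L
  v1 : ∀ v, IsV δ lo hi (insert d B) (c :: R) v → v ∈ L
  tw : ∀ Y, TW δ lo hi c d R B Y → ((Y, some d) ∈ L ↔ (insert c Y, some d) ∈ L)
  ir : IR δ lo hi c (d :: R) B L
  iu : IU δ lo hi c (d :: R) B L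
  id : ID δ lo hi c (d :: R) B L
  cl : Tri δ lo hi c L ∨ Even L.length ∨ (∃ Y, SU δ lo hi c d R B Y ∧ (Y, some d) ∉ L) ∨
    ∃ Y, SD δ lo hi c d R B Y ∧ (insert c Y, some d) ∉ L

structure ZI : Prop extends ZH δ lo hi c (d :: R) B where
  nt : lo ≤ W δ (tp B R)
  nb : W δ B + δ c + δ d ≤ hi

end defs

variable {δ : ι → ℝ} {lo hi : ℝ} {c d : ι} {R : List ι} {B : Finset ι}

theorem up_cross {S X : Finset ι} {k : ι} (h : Up δ lo hi S (X, some k)) : X = S := by
  obtain ⟨j, _, ⟨_, e⟩ | ⟨_, _, e⟩⟩ := h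
  · exact (Prod.mk.inj e).1
  · simp at e

theorem dn_cross {T X : Finset ι} {k : ι} (h : Dn δ lo hi T (X, some k)) :
    X = T.erase k ∧ k ∈ T := by
  obtain ⟨j, hj, ⟨_, e⟩ | ⟨_, _, e⟩⟩ := h
  · obtain rfl : k = j := by simpa using (Prod.mk.inj e).2
    exact ⟨(Prod.mk.inj e).1, hj⟩
  · simp at e

theorem rung_not_up {S X : Finset ι} {k : ι} (hc : c ∉ X) (h : Up δ lo hi S (X, some k))
    (h' : Up δ lo hi S (insert c X, some k)) : False := by
  have := (up_cross h).trans (up_cross h').symm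
  exact hc (this ▸ Finset.mem_insert_self c X)

theorem rung_not_dn {S X : Finset ι} {k : ι} (hc : c ∉ X) (h : Dn δ lo hi S (X, some k))
    (h' : Dn δ lo hi S (insert c X, some k)) : False := by
  have := (dn_cross h).1.trans (dn_cross h').1.symm
  exact hc (this ▸ Finset.mem_insert_self c X)

theorem ZI.cd (H : ZI δ lo hi c d R B) : c ≠ d := by
  have := H.cR; rintro rfl; simp at this
theorem ZI.cR' (H : ZI δ lo hi c d R B) : c ∉ R := fun h => H.cR (by simp [h])
theorem ZI.dR (H : ZI δ lo hi c d R B) : d ∉ R := (List.nodup_cons.1 H.fr.1).1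
theorem ZI.dB (H : ZI δ lo hi c d R B) : d ∉ B := H.fr.2 d (by simp)
theorem ZI.lcd (H : ZI δ lo hi c d R B) : δ c ≤ δ d := H.le d (by simp)
theorem ZI.ld (H : ZI δ lo hi c d R B) {k : ι} (h : k ∈ R) : δ d ≤ δ k :=
  (List.pairwise_cons.1 H.so).1 k h
theorem ZI.RB (H : ZI δ lo hi c d R B) {k : ι} (h : k ∈ R) : k ∉ B := H.fr.2 k (by simp [h])
theorem ZI.cX (H : ZI δ lo hi c d R B) {X : Finset ι} (h : InC B R X) : c ∉ X :=
  fun hc => (h.2 c hc).elim H.cB H.cR'
theorem ZI.dX (H : ZI δ lo hi c d R B) {X : Finset ι} (h : InC B R X) : d ∉ X :=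
  fun hc => (h.2 d hc).elim H.dB H.dR
theorem ZI.cX' (H : ZI δ lo hi c d R B) {X : Finset ι} (h : InC B (d :: R) X) : c ∉ X :=
  fun hc => (h.2 c hc).elim H.cB H.cR

theorem ZI.child0 (H : ZI δ lo hi c d R B) : ZH δ lo hi c R B :=
  ⟨H.pos, H.lh, H.cB, H.cR', ⟨(List.nodup_cons.1 H.fr.1).2, fun _ h => H.RB h⟩,
    fun k h => H.le k (by simp [h]), (List.pairwise_cons.1 H.so).2,
    H.tP.mono (fun _ h => h) (fun _ h => Or.inl h) (by simp; tauto), H.n1, H.nt⟩

theorem ZI.child1 (H : ZI δ lo hi c d R B) : ZH δ lo hi c R (insert d B) :=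
  ⟨H.pos, H.lh, by simp [H.cB, H.cd], H.cR', H.fr.tail,
    fun k h => H.le k (by simp [h]), (List.pairwise_cons.1 H.so).2,
    H.tP.mono (by simp; tauto) (by simp; tauto) (by simp; tauto),
    by rw [W_insert H.dB]; linarith [H.nb], by rw [← tp_cons]; exact H.n2⟩

theorem isV_mono {B B' : Finset ι} {R R' : List ι} {v : Vx ι} (h : IsV δ lo hi B R v)
    (h1 : ∀ i ∈ B', i ∈ B) (h2 : ∀ i ∈ B, i ∈ B' ∨ i ∈ R') (h3 : ∀ i ∈ R, i ∈ R') :
    IsV δ lo hi B' R' v := by
  refine ⟨h.1.mono h1 h2 h3, ?_⟩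
  rcases h.2 with h | ⟨k, a1, a2, a3⟩
  · exact Or.inl h
  · exact Or.inr ⟨k, a1, h3 k a2, a3⟩

theorem isV_par0 {v : Vx ι} (h : IsV δ lo hi B (c :: R) v) : IsV δ lo hi B (c :: d :: R) v :=
  isV_mono h (fun _ h => h) (fun _ h => Or.inl h) (by simp; tauto)

theorem isV_par1 {v : Vx ι} (h : IsV δ lo hi (insert d B) (c :: R) v) :
    IsV δ lo hi B (c :: d :: R) v :=
  isV_mono h (by simp; tauto) (by simp; tauto) (by simp; tauto)

theorem ZI.not_child (H : ZI δ lo hi c d R B) {B' X : Finset ι}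
    (h : IsV δ lo hi B' (c :: R) (X, some d)) : False := by
  rcases h.2 with ⟨h, _⟩ | ⟨k, a1, a2, _⟩
  · simp at h
  · obtain rfl : d = k := by simpa using a1
    rcases List.mem_cons.1 a2 with h | h
    · exact H.cd h.symm
    · exact H.dR h

theorem ZI.midV0 (H : ZI δ lo hi c d R B) {Y : Finset ι} (h : InC B R Y) (h1 : W δ Y < lo)
    (h2 : hi < W δ Y + δ d) : IsV δ lo hi B (c :: d :: R) (Y, some d) :=
  ⟨h.mono (fun _ h => h) (fun _ h => Or.inl h) (by simp; tauto),
    Or.inr ⟨d, rfl, by simp, H.dX h, h1, h2⟩⟩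

theorem ZI.midV1 (H : ZI δ lo hi c d R B) {Y : Finset ι} (h : InC B R Y) (h1 : W δ Y + δ c < lo)
    (h2 : hi < W δ Y + δ c + δ d) : IsV δ lo hi B (c :: d :: R) (insert c Y, some d) :=
  ⟨(h.mono (fun _ h => h) (fun _ h => Or.inl h) (by simp; tauto)).insert (by simp),
    Or.inr ⟨d, rfl, by simp, by simp [H.dX h, H.cd.symm], by simpa [W_insert (H.cX h)] using h1,
      by simpa [W_insert (H.cX h)] using h2⟩⟩

theorem ZI.cover (H : ZI δ lo hi c d R B) {v : Vx ι} (h : IsV δ lo hi B (c :: d :: R) v) :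
    IsV δ lo hi B (c :: R) v ∨ IsV δ lo hi (insert d B) (c :: R) v ∨
      (∃ Y, TW δ lo hi c d R B Y ∧ (v = (Y, some d) ∨ v = (insert c Y, some d))) ∨
      (∃ Y, SU δ lo hi c d R B Y ∧ v = (Y, some d)) ∨
      (∃ Y, SD δ lo hi c d R B Y ∧ v = (insert c Y, some d)) := by
  obtain ⟨X, o⟩ := v
  obtain ⟨cX, hv⟩ := h
  simp only at cX hv
  by_cases hd : d ∈ X
  · right; left
    refine ⟨by unfold InC at *; grind, ?_⟩
    rcases hv with h | ⟨k, a1, a2, a3, a4⟩
    · exact Or.inl h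
    · exact Or.inr ⟨k, a1, by grind, a3, a4⟩
  have c0 : InC B (c :: R) X := by unfold InC at *; grind
  rcases hv with h | ⟨k, rfl, a2, a3, a4, a5⟩
  · exact Or.inl ⟨c0, Or.inl h⟩
  by_cases e : k = d
  · subst e
    right; right
    by_cases hc : c ∈ X
    · obtain ⟨Y, hY, rfl⟩ : ∃ Y, c ∉ Y ∧ X = insert c Y :=
        ⟨X.erase c, by simp, (Finset.insert_erase hc).symm⟩
      have cY : InC B R Y := by
        have := H.cB
        unfold InC at *; grind
      rw [W_insert hY] at a4 a5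
      by_cases b : hi < W δ Y + δ k
      · exact Or.inl ⟨Y, ⟨cY, a4, b⟩, Or.inr rfl⟩
      · exact Or.inr (Or.inr ⟨Y, ⟨cY, a4, not_lt.1 b, a5⟩, rfl⟩)
    · have cY : InC B R X := by unfold InC at *; grind
      by_cases b : W δ X + δ c < lo
      · exact Or.inl ⟨X, ⟨cY, b, a5⟩, Or.inl rfl⟩
      · exact Or.inr (Or.inl ⟨X, ⟨cY, a4, not_lt.1 b, a5⟩, rfl⟩)
  · exact Or.inl ⟨c0, Or.inr ⟨k, rfl, by grind, a3, a4, a5⟩⟩

theorem ZI.ex_out (H : ZI δ lo hi c d R B) {Y : Finset ι} (h : InC B R Y) (h1 : W δ Y < lo) :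
    ∃ k ∈ R, k ∉ Y := by
  by_contra hn
  push Not at hn
  have : W δ (tp B R) ≤ W δ Y := W_mono H.pos (fun i hi => (mem_tp.1 hi).elim (h.1 i) (hn i))
  linarith [H.nt]

theorem ZI.ex_in (H : ZI δ lo hi c d R B) {Y : Finset ι} (h : InC B R Y)
    (h1 : hi < W δ Y + δ c + δ d) : ∃ k ∈ R, k ∈ Y := by
  by_contra hn
  push Not at hn
  have : W δ Y ≤ W δ B := W_mono H.pos (fun i hi => (h.2 i hi).resolve_right (fun h' => hn i h' hi))
  linarith [H.nb]

theorem inc_par {Y : Finset ι} (h : InC B R Y) : InC B (d :: R) Y :=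
  h.mono (fun _ h => h) (fun _ h => Or.inl h) (by simp; tauto)

theorem St.ins {x z u v m m' : Vx ι} {L M : List (Vx ι)} (h : St δ lo hi c d R B x z L)
    (e : SInf [u, v] L) (hM : HP (Adj δ lo hi) (fun w => w ∈ M) m m' M) (a1 : Adj δ lo hi u m)
    (a2 : Adj δ lo hi m' v) (dj : ∀ w ∈ M, w ∉ L) :
    ∃ L', HP (Adj δ lo hi) (fun w => w ∈ L') x z L' ∧ (∀ w, w ∈ L' ↔ w ∈ L ∨ w ∈ M) ∧
      (∀ t, SInf t L → SInf t L' ∨ (u ∈ t ∧ v ∈ t)) ∧
      SInf (u :: (M ++ [v])) L' ∧ L'.length = L.length + M.length := by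
  obtain ⟨L', h1, h2, h3, h4⟩ := h.hp.insert (adj_symm _ _ _) e hM a1 a2 (fun w hw hw' => dj w hw' hw)
  refine ⟨L', h1.congr (fun w => (h1.cov w).symm), h1.cov, fun t ht => ?_, h3, h4⟩
  rcases h2 t ht with h5 | h5
  · exact Or.inl h5
  · exact Or.inr ⟨h5.mem (by simp), h5.mem (by simp)⟩

theorem ZI.step_tw (H : ZI δ lo hi c d R B) {x z : Vx ι} {L : List (Vx ι)}
    (h : St δ lo hi c d R B x z L) {Y : Finset ι} (hY : TW δ lo hi c d R B Y)
    (hn : (Y, some d) ∉ L) : ∃ L', St δ lo hi c d R B x z L' ∧ L.length < L'.length := by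
  have hn' : (insert c Y, some d) ∉ L := fun h' => hn ((h.tw Y hY).2 h')
  obtain ⟨cY, y1, y2⟩ := hY
  have pc := H.pos c
  have pd := H.pos d
  have hc := H.cX cY
  have hd := H.dX cY
  have wc := W_insert (δ := δ) hc
  have allp : ∀ k ∈ d :: R, k ∉ Y → hi < W δ Y + δ k := by
    intro k hk _
    rcases List.mem_cons.1 hk with rfl | hk
    · exact y2
    · linarith [H.ld hk]
  obtain ⟨k, k1, k2, e⟩ := h.ir Y (inc_par cY) y1 allp ⟨d, by simp, hd⟩
  have kd : k ≠ d := by rintro rfl; exact hn (e.mem (by simp))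
  have kc : k ≠ c := by rintro rfl; exact H.cR k1
  have pk := H.pos k
  have k3 := allp k k1 k2
  have ne : (Y, some d) ≠ (insert c Y, some d) := by
    intro h; exact hc ((Prod.mk.inj h).1 ▸ Finset.mem_insert_self c Y)
  have pM := (HP.single (Adj δ lo hi) (Y, some d)).append (HP.single _ (insert c Y, some d))
    ⟨Y, d, c, H.cd.symm, hd, hc, by linarith, by linarith, (pt_pos y2).symm,
      (pt_neg H.lh y1).symm⟩ (by rintro v rfl h; exact ne h)
  obtain ⟨L', p1, p2, p3, p4, p5⟩ := h.ins (M := [(Y, some d), (insert c Y, some d)]) e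
    (pM.congr (by simp))
    ⟨Y, k, d, kd, k2, hd, by linarith, by linarith, (pt_pos k3).symm, (pt_pos y2).symm⟩
    ⟨insert c Y, d, k, kd.symm, by simp [hd, H.cd.symm], by simp [k2, kc], by linarith,
      by linarith, (pt_pos (by linarith)).symm, (pt_pos (by linarith)).symm⟩
    (by simp [hn, hn'])
  simp only [List.mem_cons, List.not_mem_nil, or_false] at p2
  refine ⟨L', ⟨p1, ?_, fun v hv => (p2 v).2 (Or.inl (h.v0 v hv)),
    fun v hv => (p2 v).2 (Or.inl (h.v1 v hv)), ?_, ?_, ?_, ?_, ?_⟩, by rw [p5]; simp⟩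
  · intro v hv
    rcases (p2 v).1 hv with hv | rfl | rfl
    · exact h.sub v hv
    · exact H.midV0 cY (by linarith) y2
    · exact H.midV1 cY y1 (by linarith)
  · intro Z hZ
    have cZ := H.cX hZ.1
    rw [p2, p2, h.tw Z hZ]
    have e1 : ((Z, some d) : Vx ι) ≠ (insert c Y, some d) := by
      intro h; exact cZ ((Prod.mk.inj h).1 ▸ Finset.mem_insert_self c Y)
    have e2 : ((insert c Z, some d) : Vx ι) ≠ (Y, some d) := by
      intro h; exact hc ((Prod.mk.inj h).1 ▸ Finset.mem_insert_self c Z)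
    have e3 : ((Z, some d) : Vx ι) = (Y, some d) ↔
        ((insert c Z, some d) : Vx ι) = (insert c Y, some d) := by
      simp only [Prod.mk.injEq, and_true]
      exact ⟨fun h => h ▸ rfl, same_face cZ hc⟩
    simp only [e1, e2, e3, or_false, false_or]
  · intro S a1 a2 a3 a4
    obtain ⟨j, b1, b2, b3⟩ := h.ir S a1 a2 a3 a4
    rcases p3 _ b3 with b4 | ⟨b4, _⟩
    · exact ⟨j, b1, b2, b4⟩
    · have : Y = S := by
        simp only [List.mem_cons, Prod.mk.injEq, List.not_mem_nil, or_false] at b4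
        rcases b4 with b4 | b4
        · exact b4.1
        · exact absurd (b4.1 ▸ Finset.mem_insert_self c S) hc
      subst this
      exact ⟨d, by simp, hd, (SInf.of_infix ⟨[(Y, some k)], [(insert c Y, some k)], by simp⟩).trans p4⟩
  · intro S a1 a2 a3 a4 j a5 a6 a7
    have uj : Up δ lo hi S (S, some j) := ⟨j, a6, Or.inl ⟨a4 j a5 a6, rfl⟩⟩
    rcases (p2 _).1 a7 with a8 | a8 | a8
    · obtain ⟨f, b1, b2⟩ := h.iu S a1 a2 a3 a4 j a5 a6 a8
      rcases p3 _ b2 with b4 | ⟨b4, b5⟩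
      · exact ⟨f, b1, b4⟩
      · exfalso
        have K : ∀ w ∈ [(S, some j), f], Up δ lo hi S w := by simp [uj, b1]
        exact rung_not_up hc (K _ b4) (K _ b5)
    · obtain rfl : S = Y := (Prod.mk.inj a8).1
      linarith
    · exact absurd ((Prod.mk.inj a8).1 ▸ Finset.mem_insert_self c Y) (H.cX' a1)
  · intro S a1 a2 a3 a4 j a5 a6 a7
    have cS := H.cX' a1
    have jc : j ≠ c := by rintro rfl; exact H.cR a5
    have uj : Dn δ lo hi (insert c S) ((insert c S).erase j, some j) :=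
      ⟨j, by simp [a6], Or.inl ⟨by rw [W_insert cS]; exact a4 j a5 a6, rfl⟩⟩
    rcases (p2 _).1 a7 with a8 | a8 | a8
    · obtain ⟨f, b1, b2⟩ := h.id S a1 a2 a3 a4 j a5 a6 a8
      rcases p3 _ b2 with b4 | ⟨b4, b5⟩
      · exact ⟨f, b1, b4⟩
      · exfalso
        have K : ∀ w ∈ [((insert c S).erase j, some j), f], Dn δ lo hi (insert c S) w := by
          simp [uj, b1]
        exact rung_not_dn hc (K _ b4) (K _ b5)
    · exfalso
      apply hc
      rw [← (Prod.mk.inj a8).1]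
      simp [jc.symm]
    · exfalso
      obtain rfl : j = d := by simpa using (Prod.mk.inj a8).2
      have := congrArg (W δ) (Prod.mk.inj a8).1
      rw [W_erase (by simp [a6]), W_insert cS, wc] at this
      linarith
  · rcases h.cl with ⟨p, y, q, t1, t2⟩ | h' | ⟨Z, z1, z2⟩ | ⟨Z, z1, z2⟩
    · left
      rcases p3 _ t1 with b4 | ⟨b4, b5⟩
      · exact ⟨p, y, q, b4, t2⟩
      · exfalso
        rcases t2 with ⟨S, _, _, _, s1, s2, s3⟩ | ⟨S, _, _, _, s1, s2, s3⟩
        · have K : ∀ w ∈ [p, y, q], Up δ lo hi S w := by simp [s1, s2, s3]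
          exact rung_not_up hc (K _ b4) (K _ b5)
        · have K : ∀ w ∈ [p, y, q], Dn δ lo hi S w := by simp [s1, s2, s3]
          exact rung_not_dn hc (K _ b4) (K _ b5)
    · right; left
      rw [p5]; exact h'.add even_two
    · right; right; left
      refine ⟨Z, z1, ?_⟩
      rw [p2]
      rintro (a | a | a)
      · exact z2 a
      · obtain rfl : Z = Y := (Prod.mk.inj a).1
        linarith [z1.2.2.1]
      · exact absurd ((Prod.mk.inj a).1 ▸ Finset.mem_insert_self c Y) (H.cX z1.1)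
    · right; right; right
      refine ⟨Z, z1, ?_⟩
      rw [p2]
      rintro (a | a | a)
      · exact z2 a
      · exact hc ((Prod.mk.inj a).1 ▸ Finset.mem_insert_self c Z)
      · obtain rfl : Z = Y := same_face (H.cX z1.1) hc (Prod.mk.inj a).1
        linarith [z1.2.2.1]

theorem ZI.step_su (H : ZI δ lo hi c d R B) {x z : Vx ι} {L : List (Vx ι)}
    (h : St δ lo hi c d R B x z L) {Y : Finset ι} (hY : SU δ lo hi c d R B Y)
    (hn : (Y, some d) ∉ L) : ∃ L', St δ lo hi c d R B x z L' ∧ L.length < L'.length := by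
  obtain ⟨cY, y1, y3, y2⟩ := hY
  have pc := H.pos c
  have pd := H.pos d
  have hc := H.cX cY
  have hd := H.dX cY
  have allp : ∀ k ∈ d :: R, k ∉ Y → hi < W δ Y + δ k := by
    intro k hk _
    rcases List.mem_cons.1 hk with rfl | hk
    · exact y2
    · linarith [H.ld hk]
  obtain ⟨k, k1, k2⟩ := H.ex_out cY y1
  have k3 := allp k (by simp [k1]) k2
  have kL : (Y, some k) ∈ L := h.v0 _ ⟨inc_par cY, Or.inr ⟨k, rfl, by simp [k1], k2, y1, k3⟩⟩
  obtain ⟨f, uf, e⟩ := h.iu Y (inc_par cY) y1 y3 allp k (by simp [k1]) k2 kL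
  have fL : f ∈ L := e.mem (by simp)
  have uk : Up δ lo hi Y (Y, some k) := ⟨k, k2, Or.inl ⟨k3, rfl⟩⟩
  have um : Up δ lo hi Y (Y, some d) := ⟨d, hd, Or.inl ⟨y2, rfl⟩⟩
  have vm := H.midV0 cY y1 y2
  obtain ⟨L', p1, p2, p3, p4, p5⟩ := h.ins (M := [(Y, some d)]) e
    ((HP.single _ (Y, some d)).congr (by simp))
    (up_adj H.pos H.tP (h.sub _ kL) vm y1 uk um (by rintro e; exact hn (e ▸ kL)))
    (up_adj H.pos H.tP vm (h.sub _ fL) y1 um uf (by rintro e; exact hn (e ▸ fL)))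
    (by simp [hn])
  simp only [List.mem_cons, List.not_mem_nil, or_false] at p2
  have q1 : SInf [(Y, some k), (Y, some d)] L' := (SInf.of_infix ⟨[], [f], by simp⟩).trans p4
  have q2 : SInf [(Y, some d), f] L' := (SInf.of_infix ⟨[(Y, some k)], [], by simp⟩).trans p4
  have pair : ∀ a b : Vx ι, a ≠ b → (Y, some k) ∈ [a, b] → f ∈ [a, b] →
      (a = (Y, some k) ∧ b = f) ∨ (a = f ∧ b = (Y, some k)) := by
    intro a b _ h1 h2
    have : (Y, some k) ≠ f := by
      intro e'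
      rw [← e'] at e
      have nd := h.hp.nd
      rcases e with e | e <;> simpa using nd.sublist e.sublist
    simp only [List.mem_cons, List.not_mem_nil, or_false] at h1 h2
    clear * - h1 h2 this
    grind
  refine ⟨L', ⟨p1, ?_, fun v hv => (p2 v).2 (Or.inl (h.v0 v hv)),
    fun v hv => (p2 v).2 (Or.inl (h.v1 v hv)), ?_, ?_, ?_, ?_, ?_⟩, by rw [p5]; simp⟩
  · intro v hv
    rcases (p2 v).1 hv with hv | rfl
    · exact h.sub v hv
    · exact vm
  · intro Z hZ
    rw [p2, p2, h.tw Z hZ]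
    have e1 : ((Z, some d) : Vx ι) ≠ (Y, some d) := by
      intro h
      obtain rfl : Z = Y := (Prod.mk.inj h).1
      linarith [hZ.2.1]
    have e2 : ((insert c Z, some d) : Vx ι) ≠ (Y, some d) := by
      intro h; exact hc ((Prod.mk.inj h).1 ▸ Finset.mem_insert_self c Z)
    simp only [e1, e2, or_false]
  · intro S a1 a2 a3 a4
    obtain ⟨j, b1, b2, b3⟩ := h.ir S a1 a2 a3 a4
    rcases p3 _ b3 with b4 | ⟨b4, b5⟩
    · exact ⟨j, b1, b2, b4⟩
    · exfalso
      have cS := H.cX' a1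
      rcases pair _ _ (by intro h; exact cS ((Prod.mk.inj h).1 ▸ Finset.mem_insert_self c S)) b4 b5
        with ⟨e1, e2⟩ | ⟨e1, e2⟩
      · exact rung_not_up cS (e1 ▸ uk) (e2 ▸ uf)
      · exact rung_not_up cS (e1 ▸ uf) (e2 ▸ uk)
  · intro S a1 a2 a3 a4 j a5 a6 a7
    rcases (p2 _).1 a7 with a8 | a8
    · obtain ⟨g, b1, b2⟩ := h.iu S a1 a2 a3 a4 j a5 a6 a8
      rcases p3 _ b2 with b4 | ⟨b4, b5⟩
      · exact ⟨g, b1, b4⟩
      · have : (S, some j) ≠ g := by
          intro e'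
          rw [← e'] at b2
          have nd := h.hp.nd
          rcases b2 with e | e <;> simpa using nd.sublist e.sublist
        rcases pair _ _ this b4 b5 with ⟨e1, _⟩ | ⟨e1, _⟩
        · obtain rfl : S = Y := (Prod.mk.inj e1).1
          exact ⟨_, um, e1 ▸ q1⟩
        · obtain rfl : S = Y := up_cross (e1 ▸ uf)
          exact ⟨_, um, e1 ▸ q2.symm2⟩
    · obtain rfl : S = Y := (Prod.mk.inj a8).1
      exact ⟨f, uf, a8 ▸ q2⟩
  · intro S a1 a2 a3 a4 j a5 a6 a7
    have jc : j ≠ c := by rintro rfl; exact H.cR a5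
    have cj : c ∈ (insert c S).erase j := by simp [jc.symm]
    rcases (p2 _).1 a7 with a8 | a8
    · obtain ⟨g, b1, b2⟩ := h.id S a1 a2 a3 a4 j a5 a6 a8
      rcases p3 _ b2 with b4 | ⟨b4, b5⟩
      · exact ⟨g, b1, b4⟩
      · exfalso
        have : ((insert c S).erase j, some j) ≠ g := by
          intro e'
          rw [← e'] at b2
          have nd := h.hp.nd
          rcases b2 with e | e <;> simpa using nd.sublist e.sublist
        rcases pair _ _ this b4 b5 with ⟨e1, _⟩ | ⟨e1, _⟩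
        · exact hc ((Prod.mk.inj e1).1 ▸ cj)
        · exact hc (up_cross (e1 ▸ uf) ▸ cj)
    · exact absurd ((Prod.mk.inj a8).1 ▸ cj) hc
  · exact Or.inl ⟨_, _, _, p4, Or.inl ⟨Y, hc, y1, y3, uk, um, uf⟩⟩

theorem ZI.step_sd (H : ZI δ lo hi c d R B) {x z : Vx ι} {L : List (Vx ι)}
    (h : St δ lo hi c d R B x z L) {Y : Finset ι} (hY : SD δ lo hi c d R B Y)
    (hn : (insert c Y, some d) ∉ L) : ∃ L', St δ lo hi c d R B x z L' ∧ L.length < L'.length := by
  obtain ⟨cY, y1, y3, y2⟩ := hY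
  have pc := H.pos c
  have pd := H.pos d
  have hc := H.cX cY
  have hd := H.dX cY
  have cd := H.cd
  have wd := W_insert (δ := δ) hd
  have cS : InC B (d :: R) (insert d Y) := (inc_par cY).insert (by simp)
  have hc' := H.cX' cS
  have wT : W δ (insert c (insert d Y)) = W δ Y + δ d + δ c := by rw [W_insert hc', wd]
  have alln : ∀ j ∈ d :: R, j ∈ insert d Y → W δ (insert d Y) + δ c - δ j < lo := by
    intro k hk _
    rcases List.mem_cons.1 hk with rfl | hk
    · linarith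
    · linarith [H.ld hk]
  obtain ⟨k, k1, k2⟩ := H.ex_in cY y2
  have kc : k ≠ c := by rintro rfl; exact hc k2
  have kd : k ≠ d := by rintro rfl; exact hd k2
  have k3 := alln k (by simp [k1]) (by simp [k2])
  have kT : k ∈ insert c (insert d Y) := by simp [k2]
  have kL : ((insert c (insert d Y)).erase k, some k) ∈ L := by
    refine h.v1 _ ⟨?_, Or.inr ⟨k, rfl, by simp [k1], by simp, ?_, ?_⟩⟩
    · have := H.RB k1
      clear * - this cY kd
      unfold InC at *; grind
    · simp only [W_erase kT]; linarith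
    · simp only [W_erase kT]; linarith
  obtain ⟨f, uf, e⟩ := h.id (insert d Y) cS (by linarith) (by linarith) alln k (by simp [k1])
    (by simp [k2]) kL
  have fL : f ∈ L := e.mem (by simp)
  have em : (insert c (insert d Y)).erase d = insert c Y := by
    ext i; simp only [Finset.mem_erase, Finset.mem_insert]; clear * - hd cd; grind
  have uk : Dn δ lo hi (insert c (insert d Y)) ((insert c (insert d Y)).erase k, some k) :=
    ⟨k, kT, Or.inl ⟨by linarith, rfl⟩⟩
  have um : Dn δ lo hi (insert c (insert d Y)) (insert c Y, some d) :=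
    ⟨d, by simp, Or.inl ⟨by linarith, by rw [em]⟩⟩
  have vm := H.midV1 cY y1 y2
  have hT : hi < W δ (insert c (insert d Y)) := by linarith
  have cT : c ∈ insert c (insert d Y) := by simp
  have hT' : W δ (insert c (insert d Y)) - δ c ≤ hi := by linarith
  generalize insert c (insert d Y) = T at kL uf e uk um hT cT hT' em kT
  obtain ⟨L', p1, p2, p3, p4, p5⟩ := h.ins (M := [(insert c Y, some d)]) e
    ((HP.single _ (insert c Y, some d)).congr (by simp))
    (dn_adj H.pos H.lh H.tP (h.sub _ kL) vm hT uk um (by rintro e; exact hn (e ▸ kL)))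
    (dn_adj H.pos H.lh H.tP vm (h.sub _ fL) hT um uf (by rintro e; exact hn (e ▸ fL)))
    (by simp [hn])
  simp only [List.mem_cons, List.not_mem_nil, or_false] at p2
  have q1 : SInf [(T.erase k, some k), (insert c Y, some d)] L' :=
    (SInf.of_infix ⟨[], [f], by simp⟩).trans p4
  have q2 : SInf [(insert c Y, some d), f] L' :=
    (SInf.of_infix ⟨[(T.erase k, some k)], [], by simp⟩).trans p4
  have pair : ∀ a b : Vx ι, a ≠ b → (T.erase k, some k) ∈ [a, b] → f ∈ [a, b] →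
      (a = (T.erase k, some k) ∧ b = f) ∨ (a = f ∧ b = (T.erase k, some k)) := by
    intro a b _ h1 h2
    have : (T.erase k, some k) ≠ f := by
      intro e'
      rw [← e'] at e
      have nd := h.hp.nd
      rcases e with e | e <;> simpa using nd.sublist e.sublist
    simp only [List.mem_cons, List.not_mem_nil, or_false] at h1 h2
    clear * - h1 h2 this
    grind
  have idT : ∀ (S : Finset ι) (j : ι), j ∈ S →
      Dn δ lo hi T ((insert c S).erase j, some j) → insert c S = T := by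
    intro S j hj hD
    obtain ⟨e1, e2⟩ := dn_cross hD
    rw [← Finset.insert_erase e2, ← e1, Finset.insert_erase (by simp [hj])]
  refine ⟨L', ⟨p1, ?_, fun v hv => (p2 v).2 (Or.inl (h.v0 v hv)),
    fun v hv => (p2 v).2 (Or.inl (h.v1 v hv)), ?_, ?_, ?_, ?_, ?_⟩, by rw [p5]; simp⟩
  · intro v hv
    rcases (p2 v).1 hv with hv | rfl
    · exact h.sub v hv
    · exact vm
  · intro Z hZ
    rw [p2, p2, h.tw Z hZ]
    have e1 : ((Z, some d) : Vx ι) ≠ (insert c Y, some d) := by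
      intro h; exact H.cX hZ.1 ((Prod.mk.inj h).1 ▸ Finset.mem_insert_self c Y)
    have e2 : ((insert c Z, some d) : Vx ι) ≠ (insert c Y, some d) := by
      intro h
      obtain rfl : Z = Y := same_face (H.cX hZ.1) hc (Prod.mk.inj h).1
      linarith [hZ.2.2]
    simp only [e1, e2, or_false]
  · intro S a1 a2 a3 a4
    obtain ⟨j, b1, b2, b3⟩ := h.ir S a1 a2 a3 a4
    rcases p3 _ b3 with b4 | ⟨b4, b5⟩
    · exact ⟨j, b1, b2, b4⟩
    · exfalso
      have cS := H.cX' a1
      rcases pair _ _ (by intro h; exact cS ((Prod.mk.inj h).1 ▸ Finset.mem_insert_self c S)) b4 b5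
        with ⟨e1, e2⟩ | ⟨e1, e2⟩
      · exact rung_not_dn cS (e1 ▸ uk) (e2 ▸ uf)
      · exact rung_not_dn cS (e1 ▸ uf) (e2 ▸ uk)
  · intro S a1 a2 a3 a4 j a5 a6 a7
    have cS := H.cX' a1
    have jc : j ≠ c := by rintro rfl; exact H.cR a5
    rcases (p2 _).1 a7 with a8 | a8
    · obtain ⟨g, b1, b2⟩ := h.iu S a1 a2 a3 a4 j a5 a6 a8
      rcases p3 _ b2 with b4 | ⟨b4, b5⟩
      · exact ⟨g, b1, b4⟩
      · exfalso
        have : (S, some j) ≠ g := by
          intro e'
          rw [← e'] at b2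
          have nd := h.hp.nd
          rcases b2 with e | e <;> simpa using nd.sublist e.sublist
        have key : Dn δ lo hi T (S, some j) → False := by
          intro hD
          apply cS
          rw [(dn_cross hD).1]
          simp [jc.symm, cT]
        rcases pair _ _ this b4 b5 with ⟨e1, _⟩ | ⟨e1, _⟩
        · exact key (e1 ▸ uk)
        · exact key (e1 ▸ uf)
    · exact absurd ((Prod.mk.inj a8).1 ▸ Finset.mem_insert_self c Y) cS
  · intro S a1 a2 a3 a4 j a5 a6 a7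
    rcases (p2 _).1 a7 with a8 | a8
    · obtain ⟨g, b1, b2⟩ := h.id S a1 a2 a3 a4 j a5 a6 a8
      rcases p3 _ b2 with b4 | ⟨b4, b5⟩
      · exact ⟨g, b1, b4⟩
      · have : ((insert c S).erase j, some j) ≠ g := by
          intro e'
          rw [← e'] at b2
          have nd := h.hp.nd
          rcases b2 with e | e <;> simpa using nd.sublist e.sublist
        rcases pair _ _ this b4 b5 with ⟨e1, _⟩ | ⟨e1, _⟩
        · have e2 := idT S j a6 (e1 ▸ uk)
          exact ⟨_, e2 ▸ um, e1 ▸ q1⟩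
        · have e2 := idT S j a6 (e1 ▸ uf)
          exact ⟨_, e2 ▸ um, e1 ▸ q2.symm2⟩
    · have e2 := idT S j a6 (a8 ▸ um)
      exact ⟨f, e2 ▸ uf, a8 ▸ q2⟩
  · exact Or.inl ⟨_, _, _, p4, Or.inr ⟨T, cT, hT, hT', uk, um, uf⟩⟩

theorem ZI.finish (H : ZI δ lo hi c d R B) {x z : Vx ι} {L : List (Vx ι)}
    (h : St δ lo hi c d R B x z L) : ∃ L', ZOut δ lo hi c (d :: R) B x z L' := by
  have := Fintype.ofFinite (Vx ι)
  have key : ∀ n (L : List (Vx ι)), St δ lo hi c d R B x z L → Fintype.card (Vx ι) ≤ L.length + n →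
      ∃ L', ZOut δ lo hi c (d :: R) B x z L' := by
    intro n
    induction n using Nat.strong_induction_on with
    | _ n ih =>
      intro L h hn
      have step : (∃ L', St δ lo hi c d R B x z L' ∧ L.length < L'.length) →
          ∃ L', ZOut δ lo hi c (d :: R) B x z L' := by
        rintro ⟨L', h1, h2⟩
        have := h1.hp.nd.length_le_card
        exact ih (n - 1) (by omega) L' h1 (by omega)
      by_cases a1 : ∃ Y, TW δ lo hi c d R B Y ∧ (Y, some d) ∉ L
      · obtain ⟨Y, b1, b2⟩ := a1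
        exact step (H.step_tw h b1 b2)
      by_cases a2 : ∃ Y, SU δ lo hi c d R B Y ∧ (Y, some d) ∉ L
      · obtain ⟨Y, b1, b2⟩ := a2
        exact step (H.step_su h b1 b2)
      by_cases a3 : ∃ Y, SD δ lo hi c d R B Y ∧ (insert c Y, some d) ∉ L
      · obtain ⟨Y, b1, b2⟩ := a3
        exact step (H.step_sd h b1 b2)
      refine ⟨L, h.hp.congr fun v => ⟨h.sub v, fun hv => ?_⟩, h.ir, h.iu, h.id, ?_⟩
      · push Not at a1 a2 a3
        rcases H.cover hv with b | b | ⟨Y, b, rfl | rfl⟩ | ⟨Y, b, rfl⟩ | ⟨Y, b, rfl⟩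
        · exact h.v0 v b
        · exact h.v1 v b
        · exact a1 Y b
        · exact (h.tw Y b).1 (a1 Y b)
        · exact a2 Y b
        · exact a3 Y b
      · rcases h.cl with b | b | b | b
        · exact Or.inr (Or.inl b)
        · exact Or.inl b
        · exact absurd b a2
        · exact absurd b a3
  exact key _ L h (Nat.le_add_left _ _)

end Pool.Agent.MP_3fd310_co
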